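import Pool.Agent.HSF.Defs2
import Pool.Agent.HS3.CaseA

/-!
# From the local to the global statement (Theorem F)

If every point of the connected set `R` of regular points has a neighbourhood fixed by some congruence subgroup, then
one congruence subgroup fixes everything. The proof uses Newman's theorem for maps of order a power of `p`.
-/

set_option autoImplicit false
set_option linter.unusedVariables false

open Set Topology Metric

namespace Pool.Agent.HSF
open Pool.Agent.Helper3.HS Pool.Agent.HS3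

/-- A map, powers of which of order `p ^ m` are locally trivial, is trivial on a connected set of regular points if it is
trivial near one point. -/
theorem fix_of_newman {d p : ℕ} [Fact p.Prime] {X : Type*} [MetricSpace X] {G : Type*} [Group G] [MulAction G X]
    [ContinuousConstSMul G X] {R : Set X} (hRo : IsOpen R) (hRc : IsPreconnected R) (hR : R ⊆ regPts (d + 1) X) (g : G)
    (hper : ∀ x ∈ R, ∃ m : ℕ, ∀ᶠ z in 𝓝 x, g ^ p ^ m • z = z) {x₀ : X} (hx₀ : x₀ ∈ R) (h0 : ∀ᶠ z in 𝓝 x₀, g • z = z) :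
    ∀ x ∈ R, g • x = x := by
  have it : ∀ (m : ℕ) (y : X), (fun z : X => g • z)^[m] y = g ^ m • y := by
    intro m y
    induction m with
    | zero => simp
    | succ m ih => rw [Function.iterate_succ_apply', ih, pow_succ', mul_smul]
  set C : Set X := {x | ∀ᶠ z in 𝓝 x, g • z = z} with hC
  have hCo : IsOpen C := isOpen_setOfPred_eventually_nhds
  have hsub : R ⊆ C := by
    apply hRc.subset_of_closure_inter_subset hCo ⟨x₀, hx₀, h0⟩
    rintro y ⟨hy, hyR⟩
    have hgy : g • y = y := by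
      have hcl : IsClosed {z : X | g • z = z} := isClosed_eq (continuous_const_smul g) continuous_id
      exact closure_minimal (fun z (hz : ∀ᶠ z' in 𝓝 z, g • z' = z') => hz.self_of_nhds) hcl hy
    obtain ⟨m, hm⟩ := hper y hyR
    obtain ⟨W, hW, hWo, hyW⟩ := _root_.eventually_nhds_iff.mp (hm.and (hRo.mem_nhds hyR))
    set N := p ^ m with hN
    have hN0 : 0 < N := pow_pos (Fact.out : p.Prime).pos m
    set U₀ : Set X := ⋂ j ∈ Finset.range N, (fun z : X => g ^ j • z) ⁻¹' W with hU₀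
    have hU₀m : ∀ z, z ∈ U₀ ↔ ∀ j < N, g ^ j • z ∈ W := by
      intro z
      rw [hU₀, mem_iInter₂]
      simp only [Finset.mem_range, mem_preimage]
    have hU₀o : IsOpen U₀ := isOpen_biInter_finset fun j _ => hWo.preimage (continuous_const_smul _)
    have hU₀W : U₀ ⊆ W := by
      intro z hz
      have h1 := (hU₀m z).1 hz 0 hN0
      rwa [pow_zero, one_smul] at h1
    have hyU₀ : y ∈ U₀ := by
      rw [hU₀m]
      intro j _
      have h1 : g ^ j • y = y := by
        induction j with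
        | zero => rw [pow_zero, one_smul]
        | succ j ih => rw [pow_succ, mul_smul, hgy, ih (by omega)]
      rw [h1]
      exact hyW
    have hgU₀ : ∀ z ∈ U₀, g • z ∈ U₀ := by
      intro z hz
      rw [hU₀m]
      intro j hj
      rw [smul_smul, ← pow_succ]
      rcases Nat.lt_or_ge (j + 1) N with h1 | h1
      · exact (hU₀m z).1 hz _ h1
      · have h2 : j + 1 = N := by omega
        rw [h2, (hW z (hU₀W hz)).1]
        exact hU₀W hz
    have hU₀r : U₀ ⊆ regPts (d + 1) X := fun z hz => hR (hW z (hU₀W hz)).2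
    have hUo : IsOpen (connectedComponentIn U₀ y) := CA.isOpen_comp hU₀o hU₀r y
    have hyU : y ∈ connectedComponentIn U₀ y := mem_connectedComponentIn hyU₀
    have hgU : MapsTo (fun z : X => g • z) (connectedComponentIn U₀ y) (connectedComponentIn U₀ y) := by
      have h1 : IsPreconnected ((fun z : X => g • z) '' connectedComponentIn U₀ y) :=
        isPreconnected_connectedComponentIn.image _ (continuous_const_smul g).continuousOn
      have h2 : (fun z : X => g • z) '' connectedComponentIn U₀ y ⊆ connectedComponentIn U₀ y := by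
        refine h1.subset_connectedComponentIn ⟨y, hyU, hgy⟩ ?_
        rintro _ ⟨z, hz, rfl⟩
        exact hgU₀ z (connectedComponentIn_subset U₀ y hz)
      exact fun z hz => h2 ⟨z, hz, rfl⟩
    have key := finNewman (d := d) (p := p) X (connectedComponentIn U₀ y) hUo
      (fun z hz => hU₀r (connectedComponentIn_subset U₀ y hz)) isPreconnected_connectedComponentIn
      (fun z => g • z) (continuous_const_smul g).continuousOn hgU m
      (by
        intro z hz
        rw [it]
        exact (hW z (hU₀W (connectedComponentIn_subset U₀ y hz))).1)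
      (connectedComponentIn U₀ y ∩ C) inter_subset_left (hUo.inter hCo) (mem_closure_iff.mp hy _ hUo hyU)
      (fun z hz => (hz.2 : ∀ᶠ z' in 𝓝 z, g • z' = z').self_of_nhds)
    exact Filter.mem_of_superset (hUo.mem_nhds hyU) fun z hz => key z hz
  exact fun x hx => (hsub hx : ∀ᶠ z' in 𝓝 x, g • z' = z').self_of_nhds

/-! ### congruence subgroups -/

theorem Gam_mono {N p : ℕ} [Fact p.Prime] {κ κ' : ℕ} (h : κ ≤ κ') : Gam N p κ' ≤ Gam N p κ :=
  fun _ hg i j => (pow_dvd_pow _ h).trans (hg i j)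

theorem mem_Gam_iff {N p : ℕ} [Fact p.Prime] {κ : ℕ} {g : Matrix.SpecialLinearGroup (Fin N) ℤ_[p]} :
    g ∈ Gam N p κ ↔ ∃ Y : Matrix (Fin N) (Fin N) ℤ_[p], (g : Matrix (Fin N) (Fin N) ℤ_[p]) = 1 + (p : ℤ_[p]) ^ κ • Y := by
  constructor
  · intro hg
    choose Y hY using fun i j => (show ∀ i j, (p : ℤ_[p]) ^ κ ∣ (g : Matrix (Fin N) (Fin N) ℤ_[p]) i j -
      (1 : Matrix (Fin N) (Fin N) ℤ_[p]) i j from hg) i j
    refine ⟨Matrix.of Y, ?_⟩
    ext i j
    rw [Matrix.add_apply, Matrix.smul_apply, Matrix.of_apply, smul_eq_mul, ← hY i j, add_sub_cancel]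
  · rintro ⟨Y, hY⟩ i j
    rw [hY, Matrix.add_apply, Matrix.smul_apply, smul_eq_mul, add_sub_cancel_left]
    exact dvd_mul_right _ _

theorem pow_p_mem_Gam {N p : ℕ} [hp : Fact p.Prime] {κ : ℕ} (hκ : 1 ≤ κ) {g : Matrix.SpecialLinearGroup (Fin N) ℤ_[p]}
    (hg : g ∈ Gam N p κ) : g ^ p ∈ Gam N p (κ + 1) := by
  obtain ⟨Y, hY⟩ := mem_Gam_iff.1 hg
  choose Z hZ using fun n : ℕ => mem_Gam_iff.1 (Subgroup.pow_mem _ hg n)
  rw [mem_Gam_iff]
  obtain ⟨κ', rfl⟩ : ∃ κ', κ = κ' + 1 := ⟨κ - 1, by omega⟩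
  refine ⟨Y * (1 + (p : ℤ_[p]) ^ κ' • ∑ n ∈ Finset.range p, Z n), ?_⟩
  have h1 : ((g : Matrix (Fin N) (Fin N) ℤ_[p]) - 1) * ∑ n ∈ Finset.range p, (g : Matrix (Fin N) (Fin N) ℤ_[p]) ^ n =
      (g : Matrix (Fin N) (Fin N) ℤ_[p]) ^ p - 1 := mul_geom_sum _ _
  have h2 : ∑ n ∈ Finset.range p, (g : Matrix (Fin N) (Fin N) ℤ_[p]) ^ n =
      (p : ℤ_[p]) • (1 + (p : ℤ_[p]) ^ κ' • ∑ n ∈ Finset.range p, Z n) := by
    have h3 : ∀ n ∈ Finset.range p, (g : Matrix (Fin N) (Fin N) ℤ_[p]) ^ n = 1 + (p : ℤ_[p]) ^ (κ' + 1) • Z n := by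
      intro n _
      rw [← hZ n, Matrix.SpecialLinearGroup.coe_pow]
    rw [Finset.sum_congr rfl h3, Finset.sum_add_distrib, ← Finset.smul_sum, Finset.sum_const, Finset.card_range, smul_add,
      smul_smul, pow_succ']
    congr 1
  have h4 : (g : Matrix (Fin N) (Fin N) ℤ_[p]) - 1 = (p : ℤ_[p]) ^ (κ' + 1) • Y := by rw [hY, add_sub_cancel_left]
  rw [h2, h4] at h1
  rw [Matrix.SpecialLinearGroup.coe_pow, ← sub_eq_iff_eq_add', ← h1, Matrix.smul_mul, Matrix.mul_smul, smul_smul,
    ← pow_succ]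

theorem pow_mem_Gam {N p : ℕ} [hp : Fact p.Prime] {κ : ℕ} (hκ : 1 ≤ κ) {g : Matrix.SpecialLinearGroup (Fin N) ℤ_[p]}
    (hg : g ∈ Gam N p κ) (m : ℕ) : g ^ p ^ m ∈ Gam N p (κ + m) := by
  induction m with
  | zero => rwa [pow_zero, pow_one, add_zero]
  | succ m ih =>
    rw [pow_succ, pow_mul, ← add_assoc]
    exact pow_p_mem_Gam (by omega) ih

/-- If the local statement holds at all points of `R`, then one congruence subgroup acts trivially. -/
theorem final_of_local {d N p : ℕ} [Fact p.Prime] {X : Type*} [MetricSpace X]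
    [MulAction (Matrix.SpecialLinearGroup (Fin N) ℤ_[p]) X]
    [ContinuousSMul (Matrix.SpecialLinearGroup (Fin N) ℤ_[p]) X] {R : Set X}
    (hRo : IsOpen R) (hRd : Dense R) (hRc : IsPreconnected R) (hR : R ⊆ regPts (d + 1) X)
    (hloc : ∀ x₀ ∈ R, ∃ κ : ℕ, ∀ᶠ x in 𝓝 x₀, ∀ g ∈ Gam N p κ, g • x = x) :
    ∃ κ : ℕ, 1 ≤ κ ∧ ∀ g ∈ Gam N p κ, ∀ x : X, g • x = x := by
  rcases R.eq_empty_or_nonempty with hem | ⟨x₀, hx₀⟩
  · refine ⟨1, le_rfl, fun g _ x => ?_⟩
    have h1 := hRd x
    rw [hem, closure_empty] at h1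
    exact absurd h1 (notMem_empty x)
  · obtain ⟨κ₀, hκ₀⟩ := hloc x₀ hx₀
    refine ⟨κ₀ + 1, Nat.succ_pos _, fun g hg x => ?_⟩
    have h1 : ∀ y ∈ R, g • y = y := by
      refine fix_of_newman (d := d) (p := p) hRo hRc hR g ?_ hx₀ ?_
      · intro y hy
        obtain ⟨κ', hκ'⟩ := hloc y hy
        refine ⟨κ', ?_⟩
        have h2 : g ^ p ^ κ' ∈ Gam N p κ' := Gam_mono (Nat.le_add_left _ _) (pow_mem_Gam (Nat.succ_pos κ₀) hg κ')
        filter_upwards [hκ'] with z hz
        exact hz _ h2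
      · filter_upwards [hκ₀] with z hz
        exact hz g (Gam_mono (Nat.le_succ κ₀) hg)
    have hcl : IsClosed {z : X | g • z = z} := isClosed_eq (continuous_const_smul g) continuous_id
    exact closure_minimal (fun z hz => h1 z hz) hcl (hRd x)

end Pool.Agent.HSF
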