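import Pool.Agent.HSF.Defs

set_option autoImplicit false
set_option linter.unusedVariables false

namespace Pool.Agent.HSF

variable {X Y Z k M : Type*}

section
variable [AddCommGroup M]

@[simp] theorem dl_nil (f : List X → M) : dl f [] = 0 := rfl
@[simp] theorem dl_cons (f : List X → M) (a : X) (l : List X) :
    dl f (a :: l) = f l - dl (fun t => f (a :: t)) l := rfl
@[simp] theorem pr_nil (φ ψ : Y → X) (f : List X → M) : pr φ ψ f [] = 0 := rfl
@[simp] theorem pr_cons (φ ψ : Y → X) (f : List X → M) (a : Y) (l : List Y) :
    pr φ ψ f (a :: l) = f (φ a :: ψ a :: l.map ψ) - pr φ ψ (fun t => f (φ a :: t)) l := rfl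

theorem dl_zero : ∀ l : List X, dl (fun _ => (0 : M)) l = 0
  | [] => rfl
  | a :: l => by simp [dl_zero l]

theorem dl_add (f g : List X → M) : ∀ l, dl (fun t => f t + g t) l = dl f l + dl g l := by
  intro l
  induction l generalizing f g with
  | nil => simp
  | cons a l ih => simp only [dl_cons, ih]; abel

theorem dl_sub (f g : List X → M) : ∀ l, dl (fun t => f t - g t) l = dl f l - dl g l := by
  intro l
  induction l generalizing f g with
  | nil => simp
  | cons a l ih => simp only [dl_cons, ih]; abel

theorem dl_neg (f : List X → M) : ∀ l, dl (fun t => - f t) l = - dl f l := by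
  intro l
  induction l generalizing f with
  | nil => simp
  | cons a l ih => simp only [dl_cons, ih]; abel

theorem pr_zero (φ ψ : Y → X) : ∀ l : List Y, pr φ ψ (fun _ => (0 : M)) l = 0
  | [] => rfl
  | a :: l => by simp [pr_zero φ ψ l]

theorem pr_add (φ ψ : Y → X) (f g : List X → M) :
    ∀ l, pr φ ψ (fun t => f t + g t) l = pr φ ψ f l + pr φ ψ g l := by
  intro l
  induction l generalizing f g with
  | nil => simp
  | cons a l ih => simp only [pr_cons, ih]; abel

theorem pr_sub (φ ψ : Y → X) (f g : List X → M) :
    ∀ l, pr φ ψ (fun t => f t - g t) l = pr φ ψ f l - pr φ ψ g l := by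
  intro l
  induction l generalizing f g with
  | nil => simp
  | cons a l ih => simp only [pr_cons, ih]; abel

theorem pr_neg (φ ψ : Y → X) (f : List X → M) :
    ∀ l, pr φ ψ (fun t => - f t) l = - pr φ ψ f l := by
  intro l
  induction l generalizing f with
  | nil => simp
  | cons a l ih => simp only [pr_cons, ih]; abel

/-- `dl` commutes with additive maps of the coefficients -/
theorem dl_hom {N : Type*} [AddCommGroup N] (h : M →+ N) (f : List X → M) :
    ∀ l, dl (fun t => h (f t)) l = h (dl f l) := by
  intro l
  induction l generalizing f with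
  | nil => simp
  | cons a l ih => simp only [dl_cons, ih, map_sub]

theorem dl_dl (f : List X → M) : ∀ l, dl (dl f) l = 0 := by
  intro l
  induction l generalizing f with
  | nil => simp
  | cons a l ih =>
    rw [dl_cons]
    have : (fun t => dl f (a :: t)) = fun t => f t - dl (fun t => f (a :: t)) t := rfl
    rw [this, dl_sub, ih]; abel

theorem dl_map (φ : Y → X) (f : List X → M) : ∀ l, dl (fun t => f (t.map φ)) l = dl f (l.map φ) := by
  intro l
  induction l generalizing f with
  | nil => simp
  | cons a l ih =>
    simp only [dl_cons, List.map_cons]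
    rw [← ih (fun t => f (φ a :: t))]

theorem dl_pr (φ ψ : Y → X) (f : List X → M) :
    ∀ l, dl (pr φ ψ f) l + pr φ ψ (dl f) l = f (l.map ψ) - f (l.map φ) := by
  intro l
  induction l generalizing f with
  | nil => simp
  | cons a l ih =>
    have h1 : (fun t => pr φ ψ f (a :: t)) = fun t => f (φ a :: ψ a :: t.map ψ) -
      pr φ ψ (fun t => f (φ a :: t)) t := rfl
    have h2 : (fun t => dl f (φ a :: t)) = fun t => f t - dl (fun t => f (φ a :: t)) t := rfl
    rw [dl_cons, h1, dl_sub, dl_map ψ (fun t => f (φ a :: ψ a :: t)), pr_cons, h2, pr_sub]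
    simp only [dl_cons, List.map_cons]
    have := ih (fun t => f (φ a :: t))
    have h3 : dl (pr φ ψ fun t => f (φ a :: t)) l =
      f (φ a :: l.map ψ) - f (φ a :: l.map φ) - pr φ ψ (dl fun t => f (φ a :: t)) l := by
      rw [← this]; abel
    rw [h3]; abel

/-- locality of `dl` -/
theorem dl_congr {f g : List X → M} {l : List X} (h : ∀ t, t.Sublist l → t.length + 1 = l.length →
    f t = g t) : dl f l = dl g l := by
  induction l generalizing f g with
  | nil => simp
  | cons a l ih =>
    rw [dl_cons, dl_cons, h l (List.sublist_cons_self a l) (by simp)]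
    congr 1
    exact ih (fun t ht hl => h _ (ht.cons_cons a) (by simp [hl]))

/-- locality of `pr` -/
theorem pr_congr {φ ψ : Y → X} {f g : List X → M} {l : List Y}
    (h : ∀ t : List X, t.length = l.length + 1 → (∀ x ∈ t, ∃ y ∈ l, x = φ y ∨ x = ψ y) → f t = g t) :
    pr φ ψ f l = pr φ ψ g l := by
  induction l generalizing f g with
  | nil => simp
  | cons a l ih =>
    rw [pr_cons, pr_cons, h (φ a :: ψ a :: l.map ψ) (by simp)]
    · congr 1
      apply ih
      intro t ht hx
      apply h _ (by simp [ht])
      intro x hx'
      rcases List.mem_cons.1 hx' with rfl | hx'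
      · exact ⟨a, by simp, Or.inl rfl⟩
      · obtain ⟨y, hy, h⟩ := hx x hx'
        exact ⟨y, List.mem_cons_of_mem _ hy, h⟩
    · intro x hx
      rcases List.mem_cons.1 hx with rfl | hx
      · exact ⟨a, by simp, Or.inl rfl⟩
      rcases List.mem_cons.1 hx with rfl | hx
      · exact ⟨a, by simp, Or.inr rfl⟩
      obtain ⟨y, hy, rfl⟩ := List.mem_map.1 hx
      exact ⟨y, List.mem_cons_of_mem _ hy, Or.inr rfl⟩

end

/-! ### the identity of the iterated prisms -/
section bet
variable [AddCommGroup M] {A : Type*}

theorem pr_comm_map {P Q : A → A} (h : ∀ x, P (Q x) = Q (P x)) (f : List A → M) :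
    ∀ l : List A, pr id P f (l.map Q) = pr id P (fun t => f (t.map Q)) l := by
  intro l
  induction l generalizing f with
  | nil => simp
  | cons a l ih =>
    simp only [List.map_cons, pr_cons, id]
    rw [ih (fun t => f (Q a :: t))]
    congr 2
    rw [h, List.map_map, List.map_map]
    congr 3
    funext x
    exact h x

theorem bet_congr (P : X → A → A) (zs : List X) {f g : List A → M} (h : f = g) :
    bet P f zs = bet P g zs := by rw [h]

theorem bet_neg (P : X → A → A) (zs : List X) (f : List A → M) (l : List A) :
    bet P (fun t => - f t) zs l = - bet P f zs l := by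
  induction zs generalizing f with
  | nil => rfl
  | cons z zs ih =>
    simp only [bet]
    rw [show pr id (P z) (fun t => - f t) = fun t => - pr id (P z) f t from
      funext (pr_neg _ _ f)]
    exact ih _

theorem bet_sub (P : X → A → A) (zs : List X) (f g : List A → M) (l : List A) :
    bet P (fun t => f t - g t) zs l = bet P f zs l - bet P g zs l := by
  induction zs generalizing f g with
  | nil => rfl
  | cons z zs ih =>
    simp only [bet]
    rw [show pr id (P z) (fun t => f t - g t) = fun t => pr id (P z) f t - pr id (P z) g t from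
      funext (pr_sub _ _ f g)]
    exact ih _ _

/-- The main identity: `f` is killed by the (pairwise commuting) maps. -/
theorem dl_bet (P : X → A → A) : ∀ (zs : List X) (f : List A → M)
    (hf : ∀ z ∈ zs, ∀ l : List A, f (l.map (P z)) = 0)
    (hc : ∀ z ∈ zs, ∀ w ∈ zs, ∀ x, P z (P w x) = P w (P z x)) (l : List A),
    dl (bet P f zs) l = (-1 : ℤ) ^ zs.length • (bet P (dl f) zs l +
      dl (fun t => bet P f t) zs l) := by
  intro zs
  induction zs with
  | nil => intro f hf hc l; simp [bet]
  | cons z zs ih =>
    intro f hf hc l
    have hz : z ∈ z :: zs := by simp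
    have key : ∀ l, dl (pr id (P z) f) l = - pr id (P z) (dl f) l - f l := by
      intro l
      have h := dl_pr id (P z) f l
      rw [hf z hz l, List.map_id] at h
      have : dl (pr id (P z) f) l = 0 - f l - pr id (P z) (dl f) l := by rw [← h]; abel
      rw [this]; abel
    have h1 := ih (pr id (P z) f) (fun w hw l => by
        rw [pr_comm_map (hc z hz w (List.mem_cons_of_mem _ hw)) f l]
        have : (fun t : List A => f (t.map (P w))) = fun _ => 0 :=
          funext (hf w (List.mem_cons_of_mem _ hw))
        rw [this, pr_zero]) (fun a ha b hb => hc a (List.mem_cons_of_mem _ ha) b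
          (List.mem_cons_of_mem _ hb)) l
    simp only [bet] at h1 ⊢
    rw [h1]
    have h2 : bet P (dl (pr id (P z) f)) zs l = - bet P (pr id (P z) (dl f)) zs l - bet P f zs l := by
      rw [show dl (pr id (P z) f) = fun l => (fun l => - pr id (P z) (dl f) l) l - f l from
        funext key, bet_sub, bet_neg]
    rw [h2, List.length_cons, pow_succ]
    have h3 : dl (fun t => bet P f t) (z :: zs) l =
        bet P f zs l - dl (fun t => bet P (pr id (P z) f) t) zs l := rfl
    rw [h3]
    rw [mul_smul]
    simp only [neg_smul, one_smul, smul_sub, smul_add, smul_neg]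
    abel

end bet

end Pool.Agent.HSF
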