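import Pool.Agent.HSF.Basic

set_option autoImplicit false
set_option linter.unusedVariables false

namespace Pool.Agent.HSF

variable {X Y Z k M B : Type*} [AddCommGroup M]

section ac
variable [LinearOrder B]

theorem mn_mem (a : B) (l : List B) : mn a l ∈ a :: l := by
  induction l with
  | nil => simp [mn]
  | cons b l ih =>
    have h : mn a (b :: l) = min b (mn a l) := rfl
    rw [h]
    rcases min_choice b (mn a l) with h' | h' <;> rw [h']
    · simp
    · rcases List.mem_cons.1 ih with h'' | h''
      · rw [h'']; simp
      · exact List.mem_cons_of_mem _ (List.mem_cons_of_mem _ h'')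

theorem mn_le (a : B) (l : List B) : ∀ x ∈ a :: l, mn a l ≤ x := by
  induction l with
  | nil => simp [mn]
  | cons b l ih =>
    have h : mn a (b :: l) = min b (mn a l) := rfl
    rw [h]
    intro x hx
    rcases List.mem_cons.1 hx with rfl | hx
    · exact (min_le_right _ _).trans (ih _ (by simp))
    rcases List.mem_cons.1 hx with rfl | hx
    · exact min_le_left _ _
    · exact (min_le_right _ _).trans (ih _ (List.mem_cons_of_mem _ hx))

theorem ac_congr : ∀ (s : ℕ) (F G : List B → M) (l : List B), l.length = s →
    (∀ t : List B, t.Pairwise (· < ·) → t.length = s → (∀ x ∈ t, x ∈ l) → F t = G t) →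
    ac s F l = ac s G l := by
  intro s
  induction s with
  | zero => intro F G l hl h; exact h [] (by simp) rfl (by simp)
  | succ s ih =>
    intro F G l hl h
    cases l with
    | nil => simp at hl
    | cons a l =>
      simp only [ac]
      apply dl_congr
      intro t ht hlt
      apply ih _ _ _ (by simpa using hlt.trans hl)
      intro τ hτ hτl hτt
      unfold kap
      split_ifs with hm
      · apply h _ _ (by simp [hτl])
        · intro x hx
          rcases List.mem_cons.1 hx with rfl | hx
          · exact mn_mem a l
          · exact ht.subset (hτt x hx)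
        · rw [List.pairwise_cons]
          refine ⟨?_, hτ⟩
          intro x hx
          cases τ with
          | nil => simp at hx
          | cons b τ =>
            have hb : mn a l < b := hm b (by simp)
            rcases List.mem_cons.1 hx with rfl | hx
            · exact hb
            · exact hb.trans ((List.pairwise_cons.1 hτ).1 x hx)
      · rfl

theorem kap_sub (m : B) (F G : List B → M) (l : List B) :
    kap m (fun t => F t - G t) l = kap m F l - kap m G l := by
  unfold kap; split_ifs <;> simp

theorem ac_sub : ∀ (s : ℕ) (F G : List B → M) (l : List B),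
    ac s (fun t => F t - G t) l = ac s F l - ac s G l := by
  intro s
  induction s with
  | zero => intro F G l; rfl
  | succ s ih =>
    intro F G l
    cases l with
    | nil => simp [ac]
    | cons a l =>
      simp only [ac]
      rw [show kap (mn a l) (fun t => F t - G t) = fun t => kap (mn a l) F t - kap (mn a l) G t from
        funext (kap_sub _ _ _), show ac s (fun t => kap (mn a l) F t - kap (mn a l) G t) =
        fun t => ac s (kap (mn a l) F) t - ac s (kap (mn a l) G) t from funext (ih _ _), dl_sub]

theorem ac_zero (s : ℕ) (l : List B) : ac s (fun _ => (0 : M)) l = 0 := by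
  have := ac_sub s (fun _ => (0 : M)) (fun _ => 0) l
  simpa using this

theorem ac_eq_zero {s : ℕ} {F : List B → M} {l : List B} (hl : l.length = s) (hn : ¬ l.Nodup) :
    ac s F l = 0 := by
  rw [← ac_zero s l]
  apply ac_congr s _ _ l hl
  intro t ht htl hsub
  exfalso
  apply hn
  have h1 : t.Nodup := ht.imp (fun h => ne_of_lt h)
  have h2 : t.toFinset ⊆ l.toFinset := by
    intro x hx; rw [List.mem_toFinset] at hx ⊢; exact hsub x hx
  have h3 : s ≤ l.toFinset.card := by
    rw [← htl, ← List.toFinset_card_of_nodup h1]; exact Finset.card_le_card h2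
  have h4 := List.toFinset_card_le l
  rw [← Multiset.coe_nodup, ← Multiset.dedup_eq_self]
  apply Multiset.eq_of_le_of_card_le (Multiset.dedup_le _)
  rw [Multiset.coe_card, hl]
  exact h3

theorem kap_dl (m : B) (F : List B → M) : ∀ t : List B, t.Pairwise (· < ·) → (∀ x ∈ t, m ≤ x) →
    kap m (dl F) t = F t - dl (kap m F) t := by
  intro t ht hm
  cases t with
  | nil => simp [kap]
  | cons b t =>
    by_cases hb : m < b
    · have h1 : kap m (dl F) (b :: t) = dl F (m :: b :: t) := by
        unfold kap; rw [if_pos]; simpa using hb
      rw [h1, dl_cons]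
      congr 1
      apply dl_congr
      intro τ hτ _
      unfold kap
      rw [if_pos]
      intro x hx
      have hx' : x ∈ b :: t := hτ.subset (List.mem_of_mem_head? hx)
      rcases List.mem_cons.1 hx' with rfl | hx'
      · exact hb
      · exact hb.trans ((List.pairwise_cons.1 ht).1 x hx')
    · have hb' : m = b := le_antisymm (hm b (by simp)) (not_lt.1 hb)
      subst hb'
      have h1 : kap m (dl F) (m :: t) = 0 := by
        unfold kap; rw [if_neg]; simp
      rw [h1, dl_cons]
      have h2 : kap m F t = F (m :: t) := by
        unfold kap; rw [if_pos]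
        intro x hx
        exact (List.pairwise_cons.1 ht).1 x (List.mem_of_mem_head? hx)
      have h3 : dl (fun t => kap m F (m :: t)) t = 0 := by
        rw [show (fun t => kap m F (m :: t)) = fun _ => 0 from ?_, dl_zero]
        funext τ; unfold kap; rw [if_neg]; simp
      rw [h2, h3]; simp

theorem ac_dl : ∀ (s : ℕ) (F : List B → M) (l : List B), l.length = s + 1 →
    ac (s + 1) (dl F) l = dl (ac s F) l := by
  intro s
  induction s with
  | zero =>
    intro F l hl
    obtain ⟨b, rfl⟩ := List.length_eq_one_iff.1 hl
    simp [ac, kap]
  | succ s ih =>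
    intro F l hl
    cases l with
    | nil => simp at hl
    | cons a l =>
      set m := mn a l with hm
      have h0 : ac (s + 1 + 1) (dl F) (a :: l) = dl (ac (s + 1) (kap m (dl F))) (a :: l) := rfl
      have h1 : dl (ac (s + 1) (kap m (dl F))) (a :: l) =
          dl (fun t => ac (s + 1) F t - dl (ac s (kap m F)) t) (a :: l) := by
        apply dl_congr
        intro t ht htl
        have htl' : t.length = s + 1 := by simpa using htl.trans hl
        rw [← ih (kap m F) t htl', ← ac_sub]
        apply ac_congr _ _ _ _ htl'
        intro τ hτ hτl hτt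
        exact kap_dl m F τ hτ (fun x hx => mn_le a l x (ht.subset (hτt x hx)))
      rw [h0, h1, dl_sub, dl_dl, sub_zero]

end ac

section TT
variable [LinearOrder B] (i : X → B) (c : B → X)

theorem UA_sub (s : ℕ) (f g : List X → M) (l : List X) :
    UA i c s (fun t => f t - g t) l = UA i c s f l - UA i c s g l := by
  unfold UA; exact ac_sub s _ _ _

theorem UA_dl (s : ℕ) (f : List X → M) (l : List X) (hl : l.length = s + 1) :
    UA i c (s + 1) (dl f) l = dl (UA i c s f) l := by
  unfold UA
  have h : (fun b : List B => dl f (b.map c)) = dl (fun b => f (b.map c)) :=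
    funext (fun b => (dl_map c f b).symm)
  rw [h, ac_dl s _ _ (by simpa using hl), dl_map i (ac s fun b => f (b.map c))]

theorem UA_eq_zero {s : ℕ} {f : List X → M} {l : List X} (hl : l.length = s)
    (hn : ¬ (l.map i).Nodup) : UA i c s f l = 0 := ac_eq_zero (by simpa using hl) hn

theorem TT_sub : ∀ (s : ℕ) (f g : List X → M) (l : List X),
    TT i c s (fun t => f t - g t) l = TT i c s f l - TT i c s g l := by
  intro s
  induction s with
  | zero => intro f g l; simp [TT]
  | succ s ih =>
    intro f g l
    cases l with
    | nil => simp [TT]
    | cons a l =>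
      simp only [TT]
      rw [UA_sub, show TT i c s (fun t => f (a :: t) - g (a :: t)) =
        fun t => TT i c s (fun t => f (a :: t)) t - TT i c s (fun t => g (a :: t)) t from
        funext (ih _ _), dl_sub]
      abel

/-- **The homotopy formula.** -/
theorem dl_TT : ∀ (s : ℕ) (f : List X → M) (l : List X), l.length = s + 1 →
    dl (TT i c s f) l + TT i c (s + 1) (dl f) l = f l - UA i c (s + 1) f l := by
  intro s
  induction s with
  | zero =>
    intro f l hl
    obtain ⟨z, rfl⟩ := List.length_eq_one_iff.1 hl
    simp [TT, UA, ac, kap, mn]
  | succ s ih =>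
    intro f l hl
    cases l with
    | nil => simp at hl
    | cons a l =>
      have h0 : TT i c (s + 1 + 1) (dl f) (a :: l) = dl f (a :: a :: l) -
        UA i c (s + 1 + 1) (fun t => dl f (a :: t)) (a :: l) -
        dl (TT i c (s + 1) (fun t => dl f (a :: t))) (a :: l) := rfl
      have h1 : (fun t => dl f (a :: t)) = fun t => f t - dl (fun t => f (a :: t)) t := rfl
      have h2 : TT i c (s + 1) (fun t => f t - dl (fun t => f (a :: t)) t) = fun t =>
          TT i c (s + 1) f t - TT i c (s + 1) (dl (fun t => f (a :: t))) t :=
        funext (TT_sub i c _ _ _)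
      rw [h0, h1, UA_sub, UA_dl i c (s + 1) _ _ hl, dl_cons f a (a :: l), h2,
        dl_sub (TT i c (s + 1) f) (TT i c (s + 1) (dl (fun t => f (a :: t))))]
      have h3 : dl (TT i c (s + 1) (dl (fun t => f (a :: t)))) (a :: l) =
          dl (fun t => (f (a :: t) - UA i c (s + 1) (fun t => f (a :: t)) t) -
            dl (TT i c s (fun t => f (a :: t))) t) (a :: l) := by
        apply dl_congr
        intro t ht htl
        have htl' : t.length = s + 1 := by simpa using htl.trans hl
        rw [← ih (fun t => f (a :: t)) t htl']; abel
      rw [h3, dl_sub, dl_dl, dl_sub]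
      abel

theorem UA_congr (s : ℕ) (f g : List X → M) (l : List X) (hl : l.length = s)
    (h : ∀ t : List X, t.length = s → (∀ x ∈ t, ∃ y ∈ l, x = c (i y)) → f t = g t) :
    UA i c s f l = UA i c s g l := by
  unfold UA
  apply ac_congr s _ _ _ (by simpa using hl)
  intro t ht htl hsub
  apply h _ (by simpa using htl)
  intro x hx
  obtain ⟨b, hb, rfl⟩ := List.mem_map.1 hx
  obtain ⟨y, hy, rfl⟩ := List.mem_map.1 (hsub b hb)
  exact ⟨y, hy, rfl⟩

/-- locality of the homotopy -/
theorem TT_congr : ∀ (s : ℕ) (f g : List X → M) (l : List X), l.length = s →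
    (∀ t : List X, t.length = s + 1 → (∀ x ∈ t, x ∈ l ∨ ∃ y ∈ l, x = c (i y)) → f t = g t) →
    TT i c s f l = TT i c s g l := by
  intro s
  induction s with
  | zero => intro f g l _ _; simp [TT]
  | succ s ih =>
    intro f g l hl h
    cases l with
    | nil => simp [TT]
    | cons a l =>
      simp only [TT]
      congr 1
      · congr 1
        · apply h _ (by simpa using hl)
          intro x hx
          rcases List.mem_cons.1 hx with rfl | hx
          · left; simp
          · exact Or.inl hx
        · apply UA_congr i c _ _ _ _ hl
          intro t ht hx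
          apply h _ (by simp [ht])
          intro x hx'
          rcases List.mem_cons.1 hx' with rfl | hx'
          · left; simp
          · exact Or.inr (hx x hx')
      · apply dl_congr
        intro t ht htl
        apply ih _ _ _ (by simpa using htl.trans hl)
        intro τ hτ hx
        apply h _ (by simp [hτ])
        intro x hx'
        rcases List.mem_cons.1 hx' with rfl | hx'
        · left; simp
        · rcases hx x hx' with h' | ⟨y, hy, h'⟩
          · exact Or.inl (ht.subset h')
          · exact Or.inr ⟨y, ht.subset hy, h'⟩

end TT

end Pool.Agent.HSF
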