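import Pool.Agent.HSF.Defs2

/-!
# Bricks with `n + 1` colours
-/

set_option autoImplicit false

namespace Pool.Agent.HSF

namespace h30

/-- some gap contains no distance -/
theorem exists_gap (n : ℕ) (q : Fin n → ℝ) :
    ∃ j : Fin (n + 1), ∀ i, q i < (j : ℕ) * (1 / (4 * ((n : ℝ) + 1))) ∨
      ((j : ℕ) + 1) * (1 / (4 * ((n : ℝ) + 1))) ≤ q i := by
  by_contra hcon
  push Not at hcon
  choose i hi1 hi2 using hcon
  have ha : (0 : ℝ) < 1 / (4 * ((n : ℝ) + 1)) := by positivity
  have hinj : Function.Injective i := by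
    intro j j' hjj
    have h1 := hi1 j
    have h2 := hi2 j
    have h3 := hi1 j'
    have h4 := hi2 j'
    rw [← hjj] at h3 h4
    have h5 : ((j : ℕ) : ℝ) < (j' : ℕ) + 1 := by
      have := lt_of_le_of_lt h1 h4
      exact lt_of_mul_lt_mul_right this ha.le
    have h6 : ((j' : ℕ) : ℝ) < (j : ℕ) + 1 := by
      have := lt_of_le_of_lt h3 h2
      exact lt_of_mul_lt_mul_right this ha.le
    have h7 : (j : ℕ) < (j' : ℕ) + 1 := by exact_mod_cast h5
    have h8 : (j' : ℕ) < (j : ℕ) + 1 := by exact_mod_cast h6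
    apply Fin.ext
    omega
  have := Fintype.card_le_of_injective i hinj
  simp at this

theorem near_far {n : ℕ} (j : Fin (n + 1)) {u v : ℝ}
    (hu : |u - round u| < (j : ℕ) * (1 / (4 * ((n : ℝ) + 1))) ∨
      ((j : ℕ) + 1) * (1 / (4 * ((n : ℝ) + 1))) ≤ |u - round u|)
    (hv : |v - round v| < (j : ℕ) * (1 / (4 * ((n : ℝ) + 1))) ∨
      ((j : ℕ) + 1) * (1 / (4 * ((n : ℝ) + 1))) ≤ |v - round v|)
    (huv : |u - v| < 1 / (4 * ((n : ℝ) + 1))) :
    (if |u - round u| < (j : ℕ) * (1 / (4 * ((n : ℝ) + 1))) then 2 * round u else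
      2 * ⌊u⌋ + 1) = (if |v - round v| < (j : ℕ) * (1 / (4 * ((n : ℝ) + 1))) then 2 * round v else
      2 * ⌊v⌋ + 1) := by
  set a : ℝ := 1 / (4 * ((n : ℝ) + 1)) with ha
  have ha0 : 0 < a := by rw [ha]; positivity
  have hja : ((j : ℕ) : ℝ) * a ≤ 1 / 4 - a := by
    have h1 : ((j : ℕ) : ℝ) ≤ n := by exact_mod_cast Nat.lt_succ_iff.1 j.2
    have h2 : ((n : ℝ) + 1) * a = 1 / 4 := by rw [ha]; field_simp
    nlinarith
  have key : ∀ u v : ℝ, |u - v| < a → |u - round u| < (j : ℕ) * a →
      |v - round v| < ((j : ℕ) + 1) * a := by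
    intro u v huv hu
    have h1 := round_le v (round u)
    have h2 : |v - round u| ≤ |v - u| + |u - round u| := abs_sub_le _ _ _
    rw [abs_sub_comm v u] at h2
    nlinarith
  by_cases h1 : |u - round u| < (j : ℕ) * a
  · have h2 : |v - round v| < (j : ℕ) * a := by
      rcases hv with hv | hv
      · exact hv
      · exact absurd (key u v huv h1) (not_lt.2 hv)
    rw [if_pos h1, if_pos h2]
    have h3 : |((round u : ℤ) : ℝ) - (round v : ℤ)| < 1 := by
      have h4 : ((round u : ℤ) : ℝ) - (round v : ℤ) = -(u - round u) + (u - v) + (v - round v) := by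
        ring
      rw [h4]
      have h5 := abs_add_le (-(u - round u) + (u - v)) (v - round v)
      have h6 := abs_add_le (-(u - round u)) (u - v)
      rw [abs_neg] at h6
      nlinarith
    have h4 : |round u - round v| < 1 := by exact_mod_cast h3
    have h5 := abs_lt.1 h4
    have : round u = round v := by omega
    rw [this]
  · have h2 : ¬ |v - round v| < (j : ℕ) * a := by
      intro h2
      rcases hu with hu | hu
      · exact h1 hu
      · exact absurd (key v u (by rwa [abs_sub_comm]) h2) (not_lt.2 hu)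
    rw [if_neg h1, if_neg h2]
    have h3 := hu.resolve_left h1
    have h4 := hv.resolve_left h2
    have hj0 : (0 : ℝ) ≤ ((j : ℕ) : ℝ) := by positivity
    have key2 : ∀ u v : ℝ, |u - v| < a → a ≤ |u - round u| → ¬ ⌊u⌋ < ⌊v⌋ := by
      intro u v huv hu hlt
      have h5 : u < ⌊v⌋ := by
        rw [← Int.floor_lt]
        exact hlt
      have h6 : (⌊v⌋ : ℝ) ≤ v := Int.floor_le v
      have h7 := round_le u ⌊v⌋
      have h8 : |u - (⌊v⌋ : ℤ)| ≤ |u - v| := by
        rw [abs_of_neg (by linarith), abs_of_neg (by linarith)]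
        linarith
      linarith
    have h5 := key2 u v huv (by nlinarith)
    have h6 := key2 v u (by rwa [abs_sub_comm]) (by nlinarith)
    have : ⌊u⌋ = ⌊v⌋ := by omega
    rw [this]

theorem same_close {n : ℕ} (j : Fin (n + 1)) {u v : ℝ}
    (h : (if |u - round u| < (j : ℕ) * (1 / (4 * ((n : ℝ) + 1))) then 2 * round u else
      2 * ⌊u⌋ + 1) = (if |v - round v| < (j : ℕ) * (1 / (4 * ((n : ℝ) + 1))) then 2 * round v else
      2 * ⌊v⌋ + 1)) : |u - v| < 1 := by
  set a : ℝ := 1 / (4 * ((n : ℝ) + 1)) with ha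
  have ha0 : 0 < a := by rw [ha]; positivity
  have hja : ((j : ℕ) : ℝ) * a ≤ 1 / 4 - a := by
    have h1 : ((j : ℕ) : ℝ) ≤ n := by exact_mod_cast Nat.lt_succ_iff.1 j.2
    have h2 : ((n : ℝ) + 1) * a = 1 / 4 := by rw [ha]; field_simp
    nlinarith
  split_ifs at h with h1 h2 h2
  · have h3 : round u = round v := by omega
    have h4 : u - v = (u - round u) + -(v - round v) := by
      rw [h3]; ring
    rw [h4]
    have h5 := abs_add_le (u - round u) (-(v - round v))
    rw [abs_neg] at h5
    linarith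
  · omega
  · omega
  · have h3 : ⌊u⌋ = ⌊v⌋ := by omega
    have h4 := Int.floor_le u
    have h5 := Int.lt_floor_add_one u
    have h6 := Int.floor_le v
    have h7 := Int.lt_floor_add_one v
    rw [h3] at h4 h5
    rw [abs_lt]
    constructor <;> linarith

end h30

open h30 in
/-- bricks: `n + 1` colours; two points of the same colour at distance `< η / (4 (n + 1))` have the
same index, points with the same index are at distance `< η` -/
theorem exists_bricks (n : ℕ) {η : ℝ} (hη : 0 < η) : ∃ (col : (Fin n → ℝ) → Fin (n + 1))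
    (fl : (Fin n → ℝ) → (Fin n → ℤ)), (∀ x y, dist x y < η / (4 * (n + 1)) → col x = col y →
      fl x = fl y) ∧ (∀ x y, col x = col y → fl x = fl y → dist x y < η) := by
  classical
  choose col hcol using fun x : Fin n → ℝ => exists_gap n (fun i => |x i / η - round (x i / η)|)
  refine ⟨col, fun x i => if |x i / η - round (x i / η)| <
    ((col x : Fin (n + 1)) : ℕ) * (1 / (4 * ((n : ℝ) + 1))) then 2 * round (x i / η) else
      2 * ⌊x i / η⌋ + 1, ?_, ?_⟩
  · intro x y hxy hc
    funext i
    have h1 := hcol x i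
    have h2 := hcol y i
    rw [← hc] at h2
    have h3 : |x i / η - y i / η| < 1 / (4 * ((n : ℝ) + 1)) := by
      rw [← sub_div, abs_div, abs_of_pos hη, div_lt_iff₀ hη]
      have h4 : dist (x i) (y i) ≤ dist x y := dist_le_pi_dist x y i
      rw [Real.dist_eq] at h4
      calc |x i - y i| ≤ dist x y := h4
        _ < η / (4 * (n + 1)) := hxy
        _ = 1 / (4 * ((n : ℝ) + 1)) * η := by ring
    have := near_far (col x) h1 h2 h3
    change (if |x i / η - round (x i / η)| < ((col x : Fin (n + 1)) : ℕ) *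
        (1 / (4 * ((n : ℝ) + 1))) then 2 * round (x i / η) else 2 * ⌊x i / η⌋ + 1) =
      (if |y i / η - round (y i / η)| < ((col y : Fin (n + 1)) : ℕ) *
        (1 / (4 * ((n : ℝ) + 1))) then 2 * round (y i / η) else 2 * ⌊y i / η⌋ + 1)
    rw [← hc]
    exact this
  · intro x y hc hf
    rw [dist_pi_lt_iff hη]
    intro i
    have h1 := congrFun hf i
    simp only [← hc] at h1
    have h2 := same_close (col x) h1
    rw [Real.dist_eq]
    rw [← sub_div, abs_div, abs_of_pos hη, div_lt_iff₀ hη, one_mul] at h2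
    exact h2

end Pool.Agent.HSF
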