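import Mathlib

/-!
# Ordered cochains on lists (project MP_afaf30_gt, Theorem F)

A cochain is a function on lists; `dl` is the coboundary. All degrees are treated at once.
-/

set_option autoImplicit false
set_option linter.unusedVariables false

namespace Pool.Agent.HSF

variable {X Y Z k M : Type*}

section defs
variable [AddCommGroup M]

/-- The coboundary of an ordered cochain: `dl f [x₀, .., x_q]` is the alternating sum of the values
of `f` on the lists with one entry removed. -/
def dl (f : List X → M) : List X → M
  | [] => 0
  | a :: l => f l - dl (fun t => f (a :: t)) l

/-- The prism operator of two maps. -/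
def pr (φ ψ : Y → X) (f : List X → M) : List Y → M
  | [] => 0
  | a :: l => f (φ a :: ψ a :: l.map ψ) - pr φ ψ (fun t => f (φ a :: t)) l

/-- Iterated prism operators of the self-maps `P z`, `z` in a list (first entry first). -/
def bet {A : Type*} (P : X → A → A) (f : List A → M) : List X → (List A → M)
  | [] => f
  | z :: zs => bet P (pr id (P z) f) zs

end defs

section bricks
variable {B : Type*} [AddCommGroup M]

open Classical in
/-- dual of the cone from `m` on increasing lists -/
noncomputable def kap [LinearOrder B] (m : B) (F : List B → M) (l : List B) : M :=
  if ∀ x ∈ l.head?, m < x then F (m :: l) else 0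

/-- smallest entry of a nonempty list `a :: l` -/
def mn [LinearOrder B] (a : B) (l : List B) : B := l.foldr min a

/-- The alternation operator (fuel = number of points): the value on a list without repetition is
the sign of the sorting permutation times the value on the sorted list; it is `0` on lists with a
repetition. -/
noncomputable def ac [LinearOrder B] : ℕ → (List B → M) → List B → M
  | 0, F, _ => F []
  | _ + 1, _, [] => 0
  | s + 1, F, a :: l => dl (ac s (kap (mn a l) F)) (a :: l)

/-- the alternation after the map `c ∘ i` -/
noncomputable def UA [LinearOrder B] (i : X → B) (c : B → X) (s : ℕ) (f : List X → M)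
    (l : List X) : M := ac s (fun b => f (b.map c)) (l.map i)

/-- the homotopy between the identity and `UA` -/
noncomputable def TT [LinearOrder B] (i : X → B) (c : B → X) : ℕ → (List X → M) → List X → M
  | 0, _, _ => 0
  | _ + 1, _, [] => 0
  | s + 1, f, a :: l => f (a :: a :: l) - UA i c (s + 1) (fun t => f (a :: t)) (a :: l) -
      dl (TT i c s (fun t => f (a :: t))) (a :: l)

end bricks

/-- cup product of an `n`-cochain and a cochain -/
def cup [Mul k] (n : ℕ) (f g : List X → k) (z : List X) : k := f (z.take (n + 1)) * g (z.drop n)

/-- all entries pairwise related -/
def Sm (R : X → X → Prop) (z : List X) : Prop := ∀ x ∈ z, ∀ y ∈ z, R x y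

end Pool.Agent.HSF
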