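import Mathlib

/-!
# Hoelder maps and congruence subgroups: definitions
-/

set_option autoImplicit false

open Topology

namespace Pool.Agent.HSF

/-- `f` is Hoelder continuous with exponent `b` on a neighbourhood of `x₀`. -/
def HolderNear {X : Type*} [MetricSpace X] (b : ℝ) (f : X → X) (x₀ : X) : Prop :=
  ∃ V ∈ 𝓝 x₀, ∃ C : ℝ, ∀ x ∈ V, ∀ y ∈ V, dist (f x) (f y) ≤ C * dist x y ^ b

/-- The congruence subgroup of level `κ`: the matrices in `SL_N(ℤ_p)` congruent to `1` modulo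
`p ^ κ`. -/
def Gam (N p : ℕ) [Fact p.Prime] (κ : ℕ) : Subgroup (Matrix.SpecialLinearGroup (Fin N) ℤ_[p]) where
  carrier := {g | ∀ i j, (p : ℤ_[p]) ^ κ ∣ (g : Matrix (Fin N) (Fin N) ℤ_[p]) i j -
    (1 : Matrix (Fin N) (Fin N) ℤ_[p]) i j}
  one_mem' := by intro i j; simp
  mul_mem' := by
    intro g h hg hh i j
    have : ((g * h : Matrix.SpecialLinearGroup (Fin N) ℤ_[p]) : Matrix (Fin N) (Fin N) ℤ_[p]) i j -
        (1 : Matrix (Fin N) (Fin N) ℤ_[p]) i j =
        (∑ m, ((g : Matrix (Fin N) (Fin N) ℤ_[p]) i m - (1 : Matrix (Fin N) (Fin N) ℤ_[p]) i m) *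
          (h : Matrix (Fin N) (Fin N) ℤ_[p]) m j) +
        ((h : Matrix (Fin N) (Fin N) ℤ_[p]) i j - (1 : Matrix (Fin N) (Fin N) ℤ_[p]) i j) := by
      simp only [Matrix.SpecialLinearGroup.coe_mul, Matrix.mul_apply, sub_mul,
        Finset.sum_sub_distrib]
      simp [Matrix.one_apply]
    rw [this]
    exact dvd_add (Finset.dvd_sum fun m _ => Dvd.dvd.mul_right (hg i m) _) (hh i j)
  inv_mem' := by
    intro g hg i j
    have h1 : (1 : Matrix (Fin N) (Fin N) ℤ_[p]) - (g⁻¹ : Matrix.SpecialLinearGroup (Fin N) ℤ_[p]) =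
        (g⁻¹ : Matrix.SpecialLinearGroup (Fin N) ℤ_[p]) *
        ((g : Matrix (Fin N) (Fin N) ℤ_[p]) - 1) := by
      rw [mul_sub, mul_one, ← Matrix.SpecialLinearGroup.coe_mul, inv_mul_cancel,
        Matrix.SpecialLinearGroup.coe_one]
    have h2 := congrFun (congrFun h1 i) j
    rw [Matrix.sub_apply] at h2
    rw [← neg_sub, dvd_neg, h2, Matrix.mul_apply]
    exact Finset.dvd_sum fun m _ => Dvd.dvd.mul_left (by
      have := hg m j; rwa [← Matrix.sub_apply] at this) _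

end Pool.Agent.HSF
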