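import Pool.Agent.HSF.Defs
import Pool.Agent.HSF.GamDef

/-!
# Definitions, part 2: volume cochain, grid integral, point cocycle, group data
-/

set_option autoImplicit false
set_option linter.unusedVariables false

open Topology

namespace Pool.Agent.HSF

/-- The volume cochain of `k ^ r`: the determinant of the differences to the first point on lists
with `r + 1` entries, `0` on lists of other lengths. -/
noncomputable def vol {k : Type*} [CommRing k] (r : ℕ) : List (Fin r → k) → k
  | [] => 0
  | a :: l => if h : l.length = r then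
      Matrix.det (Matrix.of fun i j : Fin r => (l.get (i.cast h.symm)) j - a j) else 0

/-- The lattice path `b, b + e_{π 0}, b + e_{π 0} + e_{π 1}, ..., b + (1, .., 1)`. -/
def kpath {n : ℕ} (b : Fin n → ℤ) (π : Equiv.Perm (Fin n)) : List (Fin n → ℤ) :=
  List.ofFn (fun j : Fin (n + 1) => fun i => b i + if (π.symm i : ℕ) < j then 1 else 0)

/-- The integral of a cochain over the Kuhn triangulation of the box `[-m, m] ^ n`. -/
noncomputable def KI {M : Type*} [AddCommGroup M] (n m : ℕ) (f : List (Fin n → ℤ) → M) : M :=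
  ∑ b ∈ Finset.Icc (fun _ : Fin n => -(m : ℤ)) (fun _ => (m : ℤ) - 1),
    ∑ π : Equiv.Perm (Fin n), ((Equiv.Perm.sign π : ℤˣ) : ℤ) • f (kpath b π)

open Classical in
/-- The point cocycle of `y`. -/
noncomputable def cyc {k : Type*} [CommRing k] {n : ℕ} (y : Fin n → ℝ) (l : List (Fin n → ℝ)) : k :=
  if l.length = n + 1 then ∏ i : Fin n, ((if y i < (l.getD ((i : ℕ) + 1) 0) i then (1 : k) else 0) -
    (if y i < (l.getD (i : ℕ) 0) i then 1 else 0)) else 0

/-- the group theoretic input of the topological part -/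
structure GD (G : Type*) [Group G] [TopologicalSpace G] (p r D : ℕ) (k : Type*) [Field k]
    [Algebra (ZMod p) k] where
  χ : G → (Fin r → ZMod p)
  χmul : ∀ g h, χ (g * h) = χ g + χ h
  G₂ : Subgroup G
  normal : G₂.Normal
  isOpen : IsOpen (G₂ : Set G)
  ker : ∀ g ∈ G₂, χ g = 0
  perf : ∀ H : Subgroup G, IsClosed (H : Set G) →
    r ≤ Module.finrank (ZMod p) (Submodule.span (ZMod p) (χ '' (H : Set G))) + D → G₂ ≤ H
  frat : ∀ H : Subgroup G, IsClosed (H : Set G) →
    Submodule.span (ZMod p) (χ '' (H : Set G)) = ⊤ → H = ⊤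
  basis : ∀ V ∈ 𝓝 (1 : G), ∃ N : Subgroup G, N.Normal ∧ IsOpen (N : Set G) ∧ (N : Set G) ⊆ V ∧
    N ≤ G₂
  nv : ∀ N : Subgroup G, N.Normal → IsOpen (N : Set G) → N ≤ G₂ →
    ∀ (c : List G → k) (lam : k),
      (∀ l l' : List G, List.Forall₂ (fun g h => g⁻¹ * h ∈ N) l l' → c l = c l') →
      (∀ (g : G) l, l.length = r → c (l.map (g * ·)) = c l) →
      (∀ l, l.length = r + 1 →
        dl c l = lam * vol r (l.map fun g i => algebraMap (ZMod p) k (χ g i))) → lam = 0

/-- partial products of a list for an operation -/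
def pp {V : Type*} (op : V → V → V) : V → List V → List V
  | a, [] => [a]
  | a, x :: l => a :: pp op (op a x) l

/-- reduction of the entries modulo scalars: `x i j - δ_ij x last last` -/
def redm {R : Type*} [Ring R] {N : ℕ} (x : Matrix (Fin (N + 1)) (Fin (N + 1)) R)
    (ij : Fin (N + 1) × Fin (N + 1)) : R :=
  x ij.1 ij.2 - if ij.1 = ij.2 then x (Fin.last N) (Fin.last N) else 0

end Pool.Agent.HSF
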