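import Pool.Agent.HSF.Defs2

/-!
# Definitions, part 3: chart actions and labels
-/

set_option autoImplicit false
set_option linter.unusedVariables false

open Set Topology Metric

namespace Pool.Agent.HSF

/-- An action of `G` on the open set `U` of `ℝⁿ` with small displacement; the maps are extended to
all of `ℝⁿ`. -/
structure LG (n : ℕ) (G : Type*) [Group G] [TopologicalSpace G] where
  U : Set (Fin n → ℝ)
  g : G → (Fin n → ℝ) → (Fin n → ℝ)
  c : Fin n → ℝ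
  s : ℝ
  hs : 0 < s
  hU : IsOpen U
  hUc : U ⊆ closedBall c s
  hball : closedBall c (s / 2) ⊆ U
  hg : Continuous fun q : G × (Fin n → ℝ) => g q.1 q.2
  hgU : ∀ a, ∀ u ∈ U, g a u ∈ U
  hg1 : ∀ u ∈ U, g 1 u = u
  hgm : ∀ a b, ∀ u ∈ U, g (a * b) u = g a (g b u)
  hdisp : ∀ a x, dist (g a x) x ≤ s / 16

/-- An invariant map `F` and labels on a neighbourhood of the fibre over `y`. -/
structure LB {n : ℕ} {G : Type*} [Group G] [TopologicalSpace G] (L : LG n G) {p r D : ℕ}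
    {k : Type*} [Field k] [Algebra (ZMod p) k] (E : GD G p r D k)
    (w : Fin (D + 1) → (Fin r → k)) where
  F : (Fin n → ℝ) → (Fin n → ℝ)
  hF : Continuous F
  hFg : ∀ a, ∀ u ∈ L.U, F (L.g a u) = F u
  hFd : ∀ x, dist (F x) x ≤ L.s / 8
  y : Fin n → ℝ
  hy : dist y L.c ≤ L.s / 8
  κ : ℝ
  hκ : 0 < κ
  hκs : κ ≤ L.s / 8
  col : (Fin n → ℝ) → Fin (D + 1)
  ξ : (Fin n → ℝ) → (Fin r → k)
  lab : (Fin n → ℝ) → k
  hcol : ∀ a x, dist (F x) y ≤ κ → col (L.g a x) = col x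
  hξ : ∀ a x, dist (F x) y ≤ κ → ξ (L.g a x) = ξ x
  hlab : ∀ a x, dist (F x) y ≤ κ →
    lab (L.g a x) = lab x + ∑ i, ξ x i * algebraMap (ZMod p) k (E.χ a i)
  hw : ∀ x, dist (F x) y ≤ κ → ∑ i, ξ x i * w (col x) i = 1
  ε : ℝ
  hε : 0 < ε
  near : ∀ x x', dist (F x) y ≤ κ → dist (F x') y ≤ κ → dist x x' < ε →
    (col x = col x' ∧ ξ x = ξ x' ∧ lab x = lab x') ∨
    (∑ i, ξ x i * w (col x') i = 0 ∧ ∑ i, ξ x' i * w (col x) i = 0)

end Pool.Agent.HSF
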