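import Pool.Agent.HSF.Defs3

/-!
# Definitions, part 4: the version for all primes

The labels have values in a commutative ring `k` in which a power of `p` is zero.
-/

set_option autoImplicit false
set_option linter.unusedVariables false

open Set Topology Metric

namespace Pool.Agent.HSF

/-- the group theoretic input, with coefficients in a commutative ring -/
structure GR (G : Type*) [Group G] [TopologicalSpace G] (p r D : ℕ) (k : Type*) [CommRing k]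
    (w : Fin (D + 1) → (Fin r → k)) where
  χ : G → (Fin r → k)
  χmul : ∀ g h, χ (g * h) = χ g + χ h
  G₂ : Subgroup G
  normal : G₂.Normal
  isOpen : IsOpen (G₂ : Set G)
  ker : ∀ g ∈ G₂, χ g = 0
  dual : ∀ H : Subgroup G, IsClosed (H : Set G) → ¬ G₂ ≤ H →
    ∃ Ξ : Fin (D + 1) → (Fin r → k), (∀ c, ∀ h ∈ H, ∑ i, Ξ c i * χ h i = 0) ∧
      ∀ c j : Fin (D + 1), ∑ i, Ξ c i * w j i = if c = j then 1 else 0
  fin : ∀ H : Subgroup G, IsClosed (H : Set G) → H ≠ ⊤ → ∃ η : G → ZMod p,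
    (∀ g h, η (g * h) = η g + η h) ∧ (∀ g ∈ H, η g = 0) ∧ (∀ g ∈ G₂, η g = 0) ∧ ∃ g, η g ≠ 0
  basis : ∀ V ∈ 𝓝 (1 : G), ∃ N : Subgroup G, N.Normal ∧ IsOpen (N : Set G) ∧ (N : Set G) ⊆ V ∧
    N ≤ G₂
  nv : ∀ N : Subgroup G, N.Normal → IsOpen (N : Set G) → N ≤ G₂ →
    ∀ (c : List G → k) (lam : k),
      (∀ l l' : List G, List.Forall₂ (fun g h => g⁻¹ * h ∈ N) l l' → c l = c l') →
      (∀ (g : G) l, l.length = r → c (l.map (g * ·)) = c l) →
      (∀ l, l.length = r + 1 → dl c l = lam * vol r (l.map χ)) → (r.factorial : k) * lam = 0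
  fac : ∀ a : k, (r.factorial : k) * (1 + (p : k) * a) ≠ 0

/-- the part of the group theoretic input that concerns the group only -/
structure GR0 (G : Type*) [Group G] [TopologicalSpace G] (p r : ℕ) (k : Type*) [CommRing k] where
  χ : G → (Fin r → k)
  χmul : ∀ g h, χ (g * h) = χ g + χ h
  G₂ : Subgroup G
  normal : G₂.Normal
  isOpen : IsOpen (G₂ : Set G)
  ker : ∀ g ∈ G₂, χ g = 0
  basis : ∀ V ∈ 𝓝 (1 : G), ∃ N : Subgroup G, N.Normal ∧ IsOpen (N : Set G) ∧ (N : Set G) ⊆ V ∧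
    N ≤ G₂
  nv : ∀ N : Subgroup G, N.Normal → IsOpen (N : Set G) → N ≤ G₂ →
    ∀ (c : List G → k) (lam : k),
      (∀ l l' : List G, List.Forall₂ (fun g h => g⁻¹ * h ∈ N) l l' → c l = c l') →
      (∀ (g : G) l, l.length = r → c (l.map (g * ·)) = c l) →
      (∀ l, l.length = r + 1 → dl c l = lam * vol r (l.map χ)) → (r.factorial : k) * lam = 0
  fac : ∀ a : k, (r.factorial : k) * (1 + (p : k) * a) ≠ 0

/-- the forgetful map -/
def GR.to0 {G : Type*} [Group G] [TopologicalSpace G] {p r D : ℕ} {k : Type*} [CommRing k]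
    {w : Fin (D + 1) → (Fin r → k)} (E : GR G p r D k w) : GR0 G p r k where
  χ := E.χ
  χmul := E.χmul
  G₂ := E.G₂
  normal := E.normal
  isOpen := E.isOpen
  ker := E.ker
  basis := E.basis
  nv := E.nv
  fac := E.fac

/-- An invariant map `F`, and labels on a neighbourhood of the fibre over `y`. The neighbourhood is
divided into the part in the set `A`, with labels in `k`, and the rest, with labels in `ZMod p`. -/
structure LB2 {n : ℕ} {G : Type*} [Group G] [TopologicalSpace G] (L : LG n G) {p r D : ℕ}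
    {k : Type*} [CommRing k] (E : GR0 G p r k) (w : Fin (D + 1) → (Fin r → k)) where
  F : (Fin n → ℝ) → (Fin n → ℝ)
  hF : Continuous F
  hFg : ∀ a, ∀ u ∈ L.U, F (L.g a u) = F u
  hFd : ∀ x, dist (F x) x ≤ L.s / 8
  y : Fin n → ℝ
  hy : dist y L.c ≤ L.s / 8
  κ : ℝ
  hκ : 0 < κ
  hκs : κ ≤ L.s / 8
  ε : ℝ
  hε : 0 < ε
  A : Set (Fin n → ℝ)
  hA : ∀ a x, dist (F x) y ≤ κ → (L.g a x ∈ A ↔ x ∈ A)
  hsep : ∀ x x', dist (F x) y ≤ κ → dist (F x') y ≤ κ → dist x x' < ε → (x ∈ A ↔ x' ∈ A)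
  -- the part in `A`
  col : (Fin n → ℝ) → Fin (D + 1)
  ξ : (Fin n → ℝ) → (Fin r → k)
  lab : (Fin n → ℝ) → k
  hcol : ∀ a x, x ∈ A → dist (F x) y ≤ κ → col (L.g a x) = col x
  hξ : ∀ a x, x ∈ A → dist (F x) y ≤ κ → ξ (L.g a x) = ξ x
  hlab : ∀ a x, x ∈ A → dist (F x) y ≤ κ → lab (L.g a x) = lab x + ∑ i, ξ x i * E.χ a i
  hw : ∀ x, x ∈ A → dist (F x) y ≤ κ → ∑ i, ξ x i * w (col x) i = 1
  near : ∀ x x', x ∈ A → x' ∈ A → dist (F x) y ≤ κ → dist (F x') y ≤ κ → dist x x' < ε →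
    (col x = col x' ∧ ξ x = ξ x' ∧ lab x = lab x') ∨
    (∑ i, ξ x i * w (col x') i = 0 ∧ ∑ i, ξ x' i * w (col x) i = 0)
  -- the part outside `A`
  M : ℕ
  η : ℕ → G → ZMod p
  hη : ∀ j g h, η j (g * h) = η j g + η j h
  hηG₂ : ∀ j, ∀ g ∈ E.G₂, η j g = 0
  idx : (Fin n → ℝ) → ℕ
  lb : (Fin n → ℝ) → ZMod p
  hM : ∀ x, x ∉ A → dist (F x) y ≤ κ → idx x < M ∧ ∃ g, η (idx x) g ≠ 0
  hidx : ∀ a x, x ∉ A → dist (F x) y ≤ κ → idx (L.g a x) = idx x
  hlb : ∀ a x, x ∉ A → dist (F x) y ≤ κ → lb (L.g a x) = lb x + η (idx x) a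
  near' : ∀ x x', x ∉ A → x' ∉ A → dist (F x) y ≤ κ → dist (F x') y ≤ κ → dist x x' < ε →
    idx x = idx x' ∧ lb x = lb x'

end Pool.Agent.HSF
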