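import Pool.Agent.Helper22.DU.Lift

/-!
# Row DUAL of Theorem F (all primes): the coefficient ring and the dual families
-/

set_option autoImplicit false

open Module Polynomial

namespace Pool.Agent.HSF

section ring
variable {p : ℕ} [hp : Fact p.Prime]

/-- Galois rings: a finite extension of `ZMod p` lifts to a free algebra over `ZMod (p ^ e)`. -/
theorem exists_galoisRing {e : ℕ} (he : 1 ≤ e) (F : Type) [Field F] [Algebra (ZMod p) F]
    [FiniteDimensional (ZMod p) F] :
    ∃ (k : Type) (_ : CommRing k) (_ : Algebra (ZMod (p ^ e)) k) (π : k →+* F),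
      Function.Injective (algebraMap (ZMod (p ^ e)) k) ∧ Function.Surjective π ∧
      ∀ x, π x = 0 → IsNilpotent x := by
  have : Finite F := Module.finite_of_finite (ZMod p)
  obtain ⟨γ, hγ⟩ := Field.exists_primitive_element (ZMod p) F
  set ρ : ZMod (p ^ e) →+* ZMod p := ZMod.castHom (dvd_pow_self p (by omega)) (ZMod p) with hρ
  have hρs : Function.Surjective ρ := ZMod.castHom_surjective _
  have hρn : ∀ c, ρ c = 0 → IsNilpotent c := by
    intro c hc
    obtain ⟨z, rfl⟩ := ZMod.intCast_surjective c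
    rw [map_intCast, ZMod.intCast_zmod_eq_zero_iff_dvd] at hc
    obtain ⟨t, rfl⟩ := hc
    refine ⟨e, ?_⟩
    rw [← Int.cast_pow, mul_pow, ← Nat.cast_pow, Int.cast_mul, Int.cast_natCast, ZMod.natCast_self, zero_mul]
  have hint : IsIntegral (ZMod p) γ := Algebra.IsIntegral.isIntegral γ
  obtain ⟨g, hg, hgd, hgm⟩ := lifts_and_natDegree_eq_and_monic
    (f := ρ) (p := minpoly (ZMod p) γ)
    ((Polynomial.mem_lifts _).2 (Polynomial.map_surjective ρ hρs _)) (minpoly.monic hint)
  have hroot : g.eval₂ ((algebraMap (ZMod p) F).comp ρ) γ = 0 := by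
    rw [← Polynomial.eval₂_map, hg]
    exact minpoly.aeval (ZMod p) γ
  refine ⟨AdjoinRoot g, inferInstance, inferInstance,
    AdjoinRoot.lift ((algebraMap (ZMod p) F).comp ρ) γ hroot, ?_, ?_, ?_⟩
  · have : Nontrivial (AdjoinRoot g) := (AdjoinRoot.lift ((algebraMap (ZMod p) F).comp ρ) γ hroot).domain_nontrivial
    have : Module.Free (ZMod (p ^ e)) (AdjoinRoot g) := Module.Free.of_basis (AdjoinRoot.powerBasis' hgm).basis
    exact FaithfulSMul.algebraMap_injective _ _
  · intro y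
    have h1 : y ∈ (IntermediateField.adjoin (ZMod p) {γ}).toSubalgebra := by
      rw [hγ]
      exact Algebra.mem_top
    rw [IntermediateField.adjoin_simple_toSubalgebra_of_isAlgebraic hint.isAlgebraic,
      Algebra.adjoin_singleton_eq_range_aeval] at h1
    obtain ⟨h, rfl⟩ := h1
    obtain ⟨h', rfl⟩ := Polynomial.map_surjective ρ hρs h
    refine ⟨AdjoinRoot.mk g h', ?_⟩
    rw [AdjoinRoot.lift_mk, ← Polynomial.eval₂_map]
    rfl
  · intro x hx
    obtain ⟨h, rfl⟩ := AdjoinRoot.mk_surjective x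
    rw [AdjoinRoot.lift_mk, ← Polynomial.eval₂_map] at hx
    have h1 : minpoly (ZMod p) γ ∣ h.map ρ := minpoly.dvd _ _ hx
    obtain ⟨q, hq⟩ := h1
    obtain ⟨q', rfl⟩ := Polynomial.map_surjective ρ hρs q
    have h2 : IsNilpotent (h - g * q') := by
      rw [Polynomial.isNilpotent_iff]
      intro i
      apply hρn
      have h3 : (h - g * q').map ρ = 0 := by
        rw [Polynomial.map_sub, Polynomial.map_mul, hg, hq, sub_self]
      rw [← Polynomial.coeff_map, h3, Polynomial.coeff_zero]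
    have h3 : AdjoinRoot.mk g h = AdjoinRoot.mk g (h - g * q') := by
      rw [map_sub, map_mul, AdjoinRoot.mk_self, zero_mul, sub_zero]
    rw [h3]
    exact h2.map _

end ring

/-- **Row DUAL.** -/
theorem exists_kw (p r D : ℕ) [hp : Fact p.Prime] : ∃ e, 1 ≤ e ∧ ∃ (k : Type) (_ : CommRing k)
    (_ : Algebra (ZMod (p ^ e)) k) (w : Fin (D + 1) → Fin r → k),
    (∀ a : k, (r.factorial : k) * (1 + p * a) ≠ 0) ∧
    ∀ (V : AddSubgroup (Fin r → ZMod (p ^ e))) (S : Submodule (ZMod p) (Fin r → ZMod p)),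
      (∀ x : Fin r → ℤ, (fun i => (((p : ℤ) ^ (e - 1) * x i : ℤ) : ZMod (p ^ e))) ∈ V →
        (fun i => ((x i : ℤ) : ZMod p)) ∈ S) →
      Module.finrank (ZMod p) S + (D + 1) ≤ r →
      ∃ Ξ : Fin (D + 1) → Fin r → k,
        (∀ c, ∀ v ∈ V, ∑ i, Ξ c i * algebraMap (ZMod (p ^ e)) k (v i) = 0) ∧
        ∀ c j, ∑ i, Ξ c i * w j i = if c = j then 1 else 0 := by
  have he : 1 ≤ r.factorial := Nat.factorial_pos r
  obtain ⟨α, hα⟩ := Pool.Agent.TF.exists_alpha (p := p) (r := r + 1) r.succ_ne_zero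
  obtain ⟨k, i1, i2, π, hinj, hsurj, hker⟩ := exists_galoisRing (p := p) he (GaloisField p (r + 1))
  have hα' : LinearIndependent (ZMod p) fun i : Fin r => α (Fin.castSucc i) :=
    hα.comp _ (Fin.castSucc_injective r)
  choose w hw using fun (j : Fin (D + 1)) (i : Fin r) => hsurj (α (Fin.castSucc i) ^ p ^ (j : ℕ))
  refine ⟨r.factorial, he, k, i1, i2, w, fun a ha => ?_, fun V S hS hfin =>
    Pool.Agent.Helper22.DU.dual_lift he π hsurj hker hα' w hw V S hS hfin⟩
  have h1 : (p : k) ^ r.factorial = 0 := by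
    rw [← Nat.cast_pow, ← map_natCast (algebraMap (ZMod (p ^ r.factorial)) k), ZMod.natCast_self, map_zero]
  have h2 : IsUnit (1 + p * a : k) := by
    have h3 : IsNilpotent (p * a : k) := ⟨r.factorial, by rw [mul_pow, h1, zero_mul]⟩
    rw [add_comm]
    exact h3.isUnit_add_one
  rw [h2.mul_left_eq_zero] at ha
  rw [← map_natCast (algebraMap (ZMod (p ^ r.factorial)) k), ← map_zero (algebraMap (ZMod (p ^ r.factorial)) k)] at ha
  have h3 := hinj ha
  rw [ZMod.natCast_eq_zero_iff] at h3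
  exact absurd (Nat.le_of_dvd he h3) (not_le.2 (Nat.lt_pow_self hp.out.one_lt))

end Pool.Agent.HSF
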