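import Pool.Agent.Helper83.TF.ColB
import Pool.Agent.Helper83.TF.LipA
import Pool.Agent.HSF.Defs3

/-!
# Row E: the invariant map and the labels near a generic fibre
-/

set_option autoImplicit false
set_option linter.unusedSectionVars false
set_option linter.unusedVariables false

open Set MeasureTheory Metric Filter Topology
open scoped NNReal ENNReal

namespace Pool.Agent.HSF

open Pool.Agent.Helper83.TF Pool.Agent.Helper3.HS

namespace h83

variable {n : ℕ} {G : Type*} [Group G] [TopologicalSpace G]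

/-- The action as a structure `GM`. -/
def gm (L : LG n G) : GM G (Fin n → ℝ) where
  U := L.U
  g := L.g
  hU := L.hU
  hUb := isBounded_closedBall.subset L.hUc
  hg := fun a => L.hg.comp (by fun_prop : Continuous fun x : Fin n → ℝ => (a, x))
  hgj := L.hg.continuousOn
  hgU := L.hgU
  hg1 := L.hg1
  hgmul := L.hgm

variable [IsTopologicalGroup G] [CompactSpace G]

section av

variable [MeasurableSpace G] [BorelSpace G] {W : Type*} [NormedAddCommGroup W] [NormedSpace ℝ W]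
  [FiniteDimensional ℝ W] {D : GM G (Fin n → ℝ)} {ν : Measure G} [IsProbabilityMeasure ν]

theorem avM_sub_le {φ φ' : (Fin n → ℝ) → W} (hφ : ContinuousOn φ D.U) (hφ' : ContinuousOn φ' D.U)
    {x : Fin n → ℝ} (hx : x ∈ D.U) {δ : ℝ} (h : ∀ a, ‖φ (D.g a x) - φ' (D.g a x)‖ ≤ δ) :
    ‖avM D ν φ x - avM D ν φ' x‖ ≤ δ :=
  norm_avg_sub_le ν (integrable_avM hφ hx) (integrable_avM hφ' hx) fun a => h _

/-- The average of the positions, everywhere. -/
theorem avM_continuous_id (L : LG n G) : Continuous (avM (gm L) ν fun v => v) := by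
  have h1 : Continuous (Function.uncurry fun (v : Fin n → ℝ) (a : G) => L.g a⁻¹ v) := by
    have h2 : Continuous (fun q : (Fin n → ℝ) × G => ((q.2⁻¹, q.1) : G × (Fin n → ℝ))) := by
      fun_prop
    exact L.hg.comp h2
  have h4 := continuous_parametric_integral_of_continuous (μ := ν) h1 isCompact_univ
  simp only [Measure.restrict_univ] at h4
  exact h4

theorem avM_dist (L : LG n G) (x : Fin n → ℝ) : dist (avM (gm L) ν (fun v => v) x) x ≤ L.s / 16 := by
  have h1 : Continuous fun a : G => L.g a⁻¹ x := by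
    have h2 : Continuous (fun a : G => ((a⁻¹, x) : G × (Fin n → ℝ))) := by fun_prop
    exact L.hg.comp h2
  have h2 : Integrable (fun a : G => L.g a⁻¹ x) ν :=
    h1.integrable_of_hasCompactSupport (HasCompactSupport.of_compactSpace _)
  have h3 := norm_avg_sub_le ν h2 (integrable_const x) (M := L.s / 16) (fun a => by
    rw [← dist_eq_norm]
    exact L.hdisp _ _)
  rw [dist_eq_norm]
  have h4 : avM (gm L) ν (fun v => v) x = ∫ a, L.g a⁻¹ x ∂ν := rfl
  rw [h4]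
  simpa using h3

end av

end h83

open h83 in
theorem exists_LB {n : ℕ} (hn : 1 ≤ n) {G : Type*} [Group G] [TopologicalSpace G]
    [IsTopologicalGroup G] [CompactSpace G] (L : LG n G) {p r D : ℕ} [Fact p.Prime]
    {k : Type*} [Field k] [Algebra (ZMod p) k] (E : GD G p r D k)
    {α : Fin r → k} (hα : LinearIndependent (ZMod p) α)
    {Y : Type*} [MetricSpace Y] (Λ : G → (Fin n → ℝ) → Y)
    (hΛc : ContinuousOn (fun q : G × (Fin n → ℝ) => Λ q.1 q.2) (univ ×ˢ closedBall L.c L.s))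
    (hΛ : ∀ a b, ∀ u ∈ L.U, Λ a (L.g b u) = Λ (a * b) u) (hinj : InjOn (Λ 1) L.U)
    {b : ℝ} (hb : (n : ℝ) < b * (n + D + 1)) {C : ℝ}
    (hH : ∀ a, ∀ x ∈ closedBall L.c L.s, ∀ x' ∈ closedBall L.c L.s,
      dist (Λ a x) (Λ a x') ≤ C * dist x x' ^ b)
    {y₀ : Fin n → ℝ} (hy₀ : dist y₀ L.c ≤ L.s / 16) (hfix : ∃ a, L.g a y₀ ≠ y₀) :
    Nonempty (LB L E (fun (j : Fin (D + 1)) i => (α i) ^ p ^ (j : ℕ))) := by
  classical
  obtain ⟨_, _, ν, _, _⟩ := exists_haarM G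
  have hs := L.hs
  set M := gm L with hM
  have hMU : M.U = L.U := rfl
  have hMg : M.g = L.g := rfl
  -- the first scale
  obtain ⟨a₀, ha₀⟩ := hfix
  obtain ⟨ε₁, hε₁, hε₁s, hmv⟩ : ∃ ε₁ : ℝ, 0 < ε₁ ∧ 4 * ε₁ ≤ L.s / 16 ∧
      ∀ x ∈ closedBall y₀ (4 * ε₁), M.g a₀ x ≠ x := by
    have h1 : ∀ᶠ x in 𝓝 y₀, M.g a₀ x ≠ x := by
      have h2 : ContinuousAt (fun x => (M.g a₀ x, x)) y₀ :=
        ((M.hg a₀).prodMk continuous_id).continuousAt
      exact h2.eventually_mem (isClosed_diagonal.isOpen_compl.mem_nhds (fun h => ha₀ h))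
    obtain ⟨s, hs', hball⟩ := Metric.eventually_nhds_iff_ball.mp h1
    refine ⟨min (s / 8) (L.s / 64), lt_min (by positivity) (by positivity), ?_, ?_⟩
    · have := min_le_right (s / 8) (L.s / 64)
      linarith
    · intro x hx
      apply hball
      rw [mem_closedBall] at hx
      rw [mem_ball]
      have := min_le_left (s / 8) (L.s / 64)
      linarith
  -- the average
  set F₀ : (Fin n → ℝ) → (Fin n → ℝ) := avM M ν (fun v => v) with hF₀
  have hF₀c : Continuous F₀ := avM_continuous_id L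
  have hF₀i : InvM M F₀ := avM_inv _
  have hF₀d : ∀ x, dist (F₀ x) x ≤ L.s / 16 := avM_dist L
  have hF₀f : ∀ x ∈ M.U, (∀ a, M.g a x = x) → F₀ x = x := by
    intro x hx hfx
    have h1 : ‖F₀ x - x‖ ≤ 0 := norm_avM_sub_le continuousOn_id hx fun a => by
      rw [hfx a]
      simp
    exact sub_eq_zero.mp (norm_le_zero_iff.mp h1)
  have hball : ∀ x, dist x L.c ≤ L.s / 2 → x ∈ M.U := fun x hx => L.hball hx
  have hballF : ∀ x {δ : ℝ}, dist (F₀ x) y₀ ≤ δ → dist x L.c ≤ L.s / 8 + δ := by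
    intro x δ hx
    have h1 := hF₀d x
    rw [dist_comm] at h1
    have h2 := dist_triangle x (F₀ x) L.c
    have h3 := dist_triangle (F₀ x) y₀ L.c
    linarith
  set C₀ : Set (Fin n → ℝ) := {x | dist (F₀ x) y₀ ≤ 3 * ε₁} with hC₀
  have hC₀U : C₀ ⊆ M.U := by
    intro x hx
    have h1 : dist (F₀ x) y₀ ≤ 3 * ε₁ := hx
    have h2 := hballF x h1
    apply hball
    linarith
  have hC₀cl : IsClosed C₀ := isClosed_le (hF₀c.dist continuous_const) continuous_const
  have hC₀c : IsCompact C₀ := by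
    apply (isCompact_closedBall L.c (L.s / 2)).of_isClosed_subset hC₀cl
    intro x hx
    have h1 : dist (F₀ x) y₀ ≤ 3 * ε₁ := hx
    have h2 := hballF x h1
    rw [mem_closedBall]
    linarith
  have hC₀i : ∀ a, ∀ x ∈ C₀, M.g a x ∈ C₀ := by
    intro a x hx
    change dist (F₀ (M.g a x)) y₀ ≤ 3 * ε₁
    rw [hF₀i a x (hC₀U hx)]
    exact hx
  have hC₀m : ∀ x ∈ C₀, ∃ a, M.g a x ≠ x := by
    intro x hx
    by_contra hcon
    push Not at hcon
    have h1 := hF₀f x (hC₀U hx) hcon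
    have h2 : dist (F₀ x) y₀ ≤ 3 * ε₁ := hx
    rw [h1] at h2
    exact hmv x (by rw [mem_closedBall]; linarith) (hcon a₀)
  -- the fixed points of `G₂`
  set F2 : Set (Fin n → ℝ) := {x | ∀ a ∈ E.G₂, M.g a x = x} with hF2
  have hF2c : IsClosed F2 := by
    have h1 : F2 = ⋂ a ∈ E.G₂, {x | M.g a x = x} := by
      ext x
      simp only [hF2, mem_iInter]
      rfl
    rw [h1]
    exact isClosed_biInter fun a _ => isClosed_eq (M.hg a) continuous_id
  have hF2i : ∀ a, ∀ x ∈ M.U, x ∈ F2 → M.g a x ∈ F2 := by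
    intro a x hxU hx b hb
    rw [← M.hgmul _ _ x hxU]
    have h1 : b * a = a * (a⁻¹ * b * a) := by group
    rw [h1, M.hgmul _ _ x hxU]
    congr 1
    apply hx
    have h2 := E.normal.conj_mem b hb a⁻¹
    rwa [inv_inv] at h2
  have hF2i' : ∀ a, ∀ x ∈ M.U, M.g a x ∈ F2 → x ∈ F2 := by
    intro a x hxU hx
    have h1 := hF2i a⁻¹ _ (M.hgU a x hxU) hx
    rwa [M.inv a hxU] at h1
  set B : Set (Fin n → ℝ) := C₀ ∩ F2 with hB
  have hBc : IsCompact B := hC₀c.inter_right hF2c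
  have hBU : B ⊆ M.U := inter_subset_left.trans hC₀U
  -- labels on `B`
  obtain ⟨M₁, L₁, hL₁P, hL₁⟩ := exists_cover (gd := E) (κ := Unit) hBc hBU
    (fun Ξ => ∀ c c' : Unit, ∑ i, Ξ c i * (α i) = if c = c' then 1 else 0)
    (fun z hz => exists_xi_zero hα (hBU hz) (hC₀m z hz.1))
  set f₁ : Fin M₁ → (Fin n → ℝ) → ℝ := fun j => avM M ν (bumpM (L₁ j).z (L₁ j).ρ) with hf₁
  have hf₁c : ∀ j, ContinuousOn (f₁ j) M.U := fun j =>
    avM_continuousOn (bumpM_continuous _ _).continuousOn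
  obtain ⟨η₁, hη₁, hη₁B⟩ := exists_lower M.hU hBc hBU hf₁c (fun x hx => by
    obtain ⟨j, hj⟩ := hL₁ x hx
    exact ⟨j, avM_bump_pos (hBU hx) hj⟩)
  have hthin := fun j => exists_thin B (f₁ j) hη₁
  choose t₁ ht₁0 ht₁η ht₁ using hthin
  -- the set on which the map has to be moved
  set Z₀ : Set (Fin n → ℝ) := B ∩ (interior F2)ᶜ with hZ₀
  have hZ₀c : IsCompact Z₀ := hBc.inter_right isOpen_interior.isClosed_compl
  have hZ₀U : Z₀ ⊆ M.U := inter_subset_left.trans hBU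
  have hZ₀i : interior Z₀ = ∅ := by
    apply eq_empty_of_forall_notMem
    intro x hx
    have h1 : x ∈ interior F2 := interior_mono (inter_subset_left.trans inter_subset_right) hx
    exact (interior_subset hx).2 h1
  set Z₁ : Fin M₁ → Set (Fin n → ℝ) := fun j => {x | x ∈ B ∧ f₁ j x = t₁ j} with hZ₁
  have hZ₁c : ∀ j, IsCompact (Z₁ j) := by
    intro j
    have h1 : Z₁ j = B ∩ f₁ j ⁻¹' {t₁ j} := rfl
    rw [h1]
    exact hBc.of_isClosed_subset (((hf₁c j).mono hBU).preimage_isClosed_of_isClosed hBc.isClosed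
      isClosed_singleton) inter_subset_left
  have hZ₁U : ∀ j, Z₁ j ⊆ M.U := fun j x hx => hBU hx.1
  set Z : Set (Fin n → ℝ) := Z₀ ∪ ⋃ j, Z₁ j with hZ
  have hZc : IsCompact Z := hZ₀c.union (isCompact_iUnion hZ₁c)
  have hZC₀ : Z ⊆ C₀ := union_subset (inter_subset_left.trans inter_subset_left)
    (iUnion_subset fun j x hx => hx.1.1)
  have hZU : Z ⊆ M.U := hZC₀.trans hC₀U
  have hMv : MvM M y₀ Z := by
    apply MvM.union hZ₀c hZ₀U
    · exact mvM_fin M y₀ E.isOpen hZ₀c hZ₀U hZ₀i (fun x hx a ha => hx.1.2 a ha)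
    · apply MvM.iUnion hZ₁c hZ₁U
      intro j
      exact mvM_fin M y₀ E.isOpen (hZ₁c j) (hZ₁U j) (ht₁ j) (fun x hx a ha => hx.1.2 a ha)
  obtain ⟨ψ, hψc, hψi, hψε, hψZ⟩ := hMv F₀ hF₀c.continuousOn (ε₁ / 4) (by positivity)
  obtain ⟨γ₀, hγ₀, hγ₀Z⟩ := exists_gap hZc (hF₀c.add hψc).continuousOn (y := y₀) hψZ
  -- Lipschitz functions on `Y`
  have hΛ1 : ContinuousOn (Λ 1) M.U := by
    have h1 : Continuous (fun x : Fin n → ℝ => ((1, x) : G × (Fin n → ℝ))) := by fun_prop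
    exact hΛc.comp h1.continuousOn (fun x hx => ⟨mem_univ _, L.hUc hx⟩)
  have hΛ1C₀ : ContinuousOn (Λ 1) C₀ := hΛ1.mono hC₀U
  have hinjC₀ : InjOn (Λ 1) C₀ := hinj.mono hC₀U
  have hγ'0 : 0 < min (ε₁ / 4) γ₀ := lt_min (by positivity) hγ₀
  have hex := fun i : Fin n => exists_lip_comp hC₀c hΛ1C₀ hinjC₀ (h := fun x => x i + ψ x i)
    (by fun_prop) hγ'0
  choose H₁ K₁ hH₁ hH₁d using hex
  have hH₁c : ∀ i, ContinuousOn (fun v => H₁ i (Λ 1 v)) M.U := fun i =>
    (hH₁ i).continuous.comp_continuousOn hΛ1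
  set Fp : (Fin n → ℝ) → (Fin n → ℝ) := fun x i => avM M ν (fun v => H₁ i (Λ 1 v)) x with hFp
  have hFpc : ContinuousOn Fp M.U := continuousOn_pi.mpr fun i => avM_continuousOn (hH₁c i)
  have hFpi : ∀ a, ∀ x ∈ M.U, Fp (M.g a x) = Fp x := by
    intro a x hx
    funext i
    exact avM_inv (D := M) (ν := ν) (fun v => H₁ i (Λ 1 v)) a x hx
  have hFpd : ∀ x ∈ C₀, ‖Fp x - (F₀ x + ψ x)‖ ≤ min (ε₁ / 4) γ₀ := by
    intro x hx
    have hxU := hC₀U hx
    rw [pi_norm_le_iff_of_nonneg hγ'0.le]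
    intro i
    have h1 : (F₀ x + ψ x) i = avM M ν (fun v => v i + ψ v i) x := by
      rw [avM_add (φ := fun v : Fin n → ℝ => v i) (ψ := fun v => ψ v i) (by fun_prop)
        (by fun_prop) hxU]
      rw [Pi.add_apply]
      congr 1
      · rw [hF₀]
        unfold avM
        rw [eval_integral]
        intro i
        exact integrable_avM (D := M) (φ := fun v : Fin n → ℝ => v i) (by fun_prop) hxU
      · unfold avM
        have h2 : (fun a : G => ψ (M.g a⁻¹ x) i) = fun _ => ψ x i := by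
          funext a
          rw [hψi _ x hxU]
        rw [h2]
        simp
    rw [Pi.sub_apply, h1]
    apply avM_sub_le (hH₁c i) (by fun_prop) hxU
    intro a
    rw [Real.norm_eq_abs]
    exact hH₁d i _ (hC₀i a x hx)
  have hFpF₀ : ∀ x ∈ C₀, ‖Fp x - F₀ x‖ ≤ ε₁ / 2 := by
    intro x hx
    have h1 : Fp x - F₀ x = (Fp x - (F₀ x + ψ x)) + ψ x := by abel
    rw [h1]
    have h2 := norm_add_le (Fp x - (F₀ x + ψ x)) (ψ x)
    have h3 := (hFpd x hx).trans (min_le_left _ _)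
    have h4 := hψε x
    linarith
  -- the cut-off
  set cut : (Fin n → ℝ) → ℝ := fun x => max 0 (min 1 ((3 * ε₁ - dist (F₀ x) y₀) / ε₁)) with hcut
  have hcutc : Continuous cut := by
    have h1 : Continuous fun x => dist (F₀ x) y₀ := hF₀c.dist continuous_const
    exact continuous_const.max (continuous_const.min ((continuous_const.sub h1).div_const _))
  have hcut0 : ∀ x, 0 ≤ cut x := fun x => le_max_left _ _
  have hcut1 : ∀ x, cut x ≤ 1 := fun x => max_le zero_le_one (min_le_left _ _)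
  have hcutout : ∀ x, x ∉ C₀ → cut x = 0 := by
    intro x hx
    have h1 : 3 * ε₁ < dist (F₀ x) y₀ := not_le.mp hx
    have h2 : (3 * ε₁ - dist (F₀ x) y₀) / ε₁ ≤ 0 := div_nonpos_of_nonpos_of_nonneg (by linarith) hε₁.le
    exact max_eq_left ((min_le_right _ _).trans h2)
  have hcutin : ∀ x, dist (F₀ x) y₀ ≤ 2 * ε₁ → cut x = 1 := by
    intro x hx
    have h2 : 1 ≤ (3 * ε₁ - dist (F₀ x) y₀) / ε₁ := by
      rw [le_div_iff₀ hε₁]
      linarith
    simp only [hcut]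
    rw [min_eq_left h2, max_eq_right zero_le_one]
  set F : (Fin n → ℝ) → (Fin n → ℝ) := fun x => F₀ x + cut x • (Fp x - F₀ x) with hF
  have hFout : ∀ x, x ∉ C₀ → F x = F₀ x := by
    intro x hx
    simp only [hF]
    rw [hcutout x hx, zero_smul, add_zero]
  have hFin : ∀ x, dist (F₀ x) y₀ ≤ 2 * ε₁ → F x = Fp x := by
    intro x hx
    simp only [hF]
    rw [hcutin x hx, one_smul, add_sub_cancel]
  have hFc : Continuous F := by
    rw [continuous_iff_continuousAt]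
    intro x
    by_cases hx : x ∈ C₀
    · have hxU := M.hU.mem_nhds (hC₀U hx)
      exact hF₀c.continuousAt.add (hcutc.continuousAt.smul
        ((hFpc.continuousAt hxU).sub hF₀c.continuousAt))
    · have h1 : F =ᶠ[𝓝 x] F₀ := by
        filter_upwards [hC₀cl.isOpen_compl.mem_nhds hx] with z hz
        exact hFout z hz
      exact hF₀c.continuousAt.congr h1.symm
  have hFF₀ : ∀ x, dist (F x) (F₀ x) ≤ ε₁ / 2 := by
    intro x
    by_cases hx : x ∈ C₀
    · rw [dist_eq_norm]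
      simp only [hF]
      rw [add_sub_cancel_left, norm_smul, Real.norm_of_nonneg (hcut0 x)]
      have h1 := mul_le_mul (hcut1 x) (hFpF₀ x hx) (norm_nonneg _) zero_le_one
      linarith
    · rw [hFout x hx, dist_self]
      positivity
  have hFi : ∀ a, ∀ x ∈ M.U, F (M.g a x) = F x := by
    intro a x hx
    simp only [hF, hcut]
    rw [hF₀i a x hx, hFpi a x hx]
  have hFd : ∀ x, dist (F x) x ≤ L.s / 8 := by
    intro x
    have := dist_triangle (F x) (F₀ x) x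
    have := hFF₀ x
    have := hF₀d x
    linarith
  have hFZ : ∀ x ∈ Z, min (3 * γ₀) (3 * ε₁ / 2) ≤ dist (F x) y₀ := by
    intro x hx
    by_cases h : dist (F₀ x) y₀ ≤ 2 * ε₁
    · apply (min_le_left _ _).trans
      rw [hFin x h]
      have h1 : 4 * γ₀ ≤ dist (F₀ x + ψ x) y₀ := hγ₀Z x hx
      have h2 := (hFpd x (hZC₀ hx)).trans (min_le_right _ _)
      rw [← dist_eq_norm] at h2
      have h3 := dist_triangle_left (F₀ x + ψ x) y₀ (Fp x)
      linarith
    · push Not at h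
      apply (min_le_right _ _).trans
      have h1 := hFF₀ x
      have h3 := dist_triangle_left (F₀ x) y₀ (F x)
      linarith
  -- the neighbourhood of the fibre
  set γ : ℝ := min γ₀ ε₁ with hγ
  have hγ0 : 0 < γ := lt_min hγ₀ hε₁
  have hγγ₀ : γ ≤ γ₀ := min_le_left _ _
  have hγε₁ : γ ≤ ε₁ := min_le_right _ _
  set C₁ : Set (Fin n → ℝ) := {x | dist (F x) y₀ ≤ γ} with hC₁
  have hC₁in : ∀ x ∈ C₁, dist (F₀ x) y₀ ≤ 2 * ε₁ := by
    intro x hx
    have h1 := hFF₀ x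
    have h2 : dist (F x) y₀ ≤ γ := hx
    have h3 := dist_triangle_left (F₀ x) y₀ (F x)
    linarith
  have hC₁C₀ : C₁ ⊆ C₀ := by
    intro x hx
    have h1 := hC₁in x hx
    change dist (F₀ x) y₀ ≤ 3 * ε₁
    linarith
  have hC₁cl : IsClosed C₁ := isClosed_le (hFc.dist continuous_const) continuous_const
  have hC₁c : IsCompact C₁ := hC₀c.of_isClosed_subset hC₁cl hC₁C₀
  have hC₁U : C₁ ⊆ M.U := hC₁C₀.trans hC₀U
  have hC₁F : ∀ x ∈ C₁, F x = Fp x := fun x hx => hFin x (hC₁in x hx)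
  have hC₁Z : ∀ x ∈ C₁, x ∉ Z := by
    intro x hx hxZ
    have h1 := hFZ x hxZ
    have h2 : dist (F x) y₀ ≤ γ := hx
    rcases le_total (3 * γ₀) (3 * ε₁ / 2) with h | h
    · rw [min_eq_left h] at h1
      linarith
    · rw [min_eq_right h] at h1
      linarith
  have hC₁F2 : ∀ x ∈ C₁, x ∈ F2 → x ∈ interior F2 := by
    intro x hx hx2
    by_contra hcon
    exact hC₁Z x hx (Or.inl ⟨⟨hC₁C₀ hx, hx2⟩, hcon⟩)
  have hC₁t : ∀ x ∈ C₁, x ∈ F2 → ∀ j, f₁ j x ≠ t₁ j := by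
    intro x hx hx2 j heq
    exact hC₁Z x hx (Or.inr (mem_iUnion.mpr ⟨j, ⟨hC₁C₀ hx, hx2⟩, heq⟩))
  -- the good part
  set CG : Set (Fin n → ℝ) := C₁ \ F2 with hCG
  have hCGc : IsCompact CG := by
    have h1 : CG = C₁ \ interior F2 := by
      ext x
      constructor
      · rintro ⟨h1, h2⟩
        exact ⟨h1, fun h3 => h2 (interior_subset h3)⟩
      · rintro ⟨h1, h2⟩
        exact ⟨h1, fun h3 => h2 (hC₁F2 x h1 h3)⟩
    rw [h1]
    exact hC₁c.diff isOpen_interior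
  have hCGU : CG ⊆ M.U := sdiff_subset.trans hC₁U
  obtain ⟨M₂, L₂, hL₂P, hL₂⟩ := exists_cover (gd := E) (κ := Fin (D + 1)) hCGc hCGU
    (fun Ξ => ∀ c c' : Fin (D + 1), ∑ i, Ξ c i * (α i) ^ p ^ (c' : ℕ) = if c = c' then 1 else 0)
    (fun z hz => exists_xi_good hα (hCGU hz) (by
      have h1 := hz.2
      simp only [hF2, mem_ofPred_eq] at h1
      push Not at h1
      exact h1))
  set f₃ : Fin M₂ → (Fin n → ℝ) → ℝ := fun j => avM M ν (bumpM (L₂ j).z (L₂ j).ρ) with hf₃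
  have hf₃c : ∀ j, ContinuousOn (f₃ j) M.U := fun j =>
    avM_continuousOn (bumpM_continuous _ _).continuousOn
  obtain ⟨η, hη, hηG⟩ := exists_lower M.hU hCGc hCGU hf₃c (fun x hx => by
    obtain ⟨j, hj⟩ := hL₂ x hx
    exact ⟨j, avM_bump_pos (hCGU hx) hj⟩)
  have hex₂ := fun j : Fin M₂ => exists_lip_comp hC₀c hΛ1C₀ hinjC₀
    (h := bumpM (L₂ j).z (L₂ j).ρ) (bumpM_continuous _ _).continuousOn
    (by positivity : 0 < η / 4)
  choose H₂ K₂ hH₂ hH₂d using hex₂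
  have hH₂c : ∀ j, ContinuousOn (fun v => H₂ j (Λ 1 v)) M.U := fun j =>
    (hH₂ j).continuous.comp_continuousOn hΛ1
  set f₂ : Fin M₂ → (Fin n → ℝ) → ℝ := fun j => avM M ν (fun v => H₂ j (Λ 1 v)) with hf₂
  have hf₂c : ∀ j, ContinuousOn (f₂ j) M.U := fun j => avM_continuousOn (hH₂c j)
  have hf₂i : ∀ j, InvM M (f₂ j) := fun j => avM_inv _
  have hf₂₃ : ∀ j, ∀ x ∈ C₀, |f₂ j x - f₃ j x| ≤ η / 4 := by
    intro j x hx
    rw [← Real.norm_eq_abs]
    apply avM_sub_le (hH₂c j) (bumpM_continuous _ _).continuousOn (hC₀U hx)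
    intro a
    rw [Real.norm_eq_abs]
    exact hH₂d j _ (hC₀i a x hx)
  -- the generic values
  have hΛg : ∀ a, ∀ x ∈ M.U, Λ 1 (M.g a⁻¹ x) = Λ a⁻¹ x := by
    intro a x hx
    have h1 := hΛ 1 a⁻¹ x hx
    rwa [one_mul] at h1
  obtain ⟨KK, hKK₁, hKK₂⟩ : ∃ KK : ℝ≥0, (∀ i, K₁ i ≤ KK) ∧ ∀ j, K₂ j ≤ KK := by
    refine ⟨∑ i, K₁ i + ∑ j, K₂ j, fun i => ?_, fun j => ?_⟩
    · exact (Finset.single_le_sum (f := K₁) (fun _ _ => zero_le) (Finset.mem_univ i)).trans
        le_self_add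
    · exact (Finset.single_le_sum (f := K₂) (fun _ _ => zero_le) (Finset.mem_univ j)).trans
        le_add_self
  have hb0 : 0 < b := by
    have h1 : (0 : ℝ) ≤ n := Nat.cast_nonneg n
    have h2 : (0 : ℝ) < n + D + 1 := by positivity
    exact pos_of_mul_pos_left (h1.trans_lt hb) h2.le
  let EE := (Fin n → ℝ) × (Fin M₂ → Fin (D + 1) → ℝ)
  let Lin : (Fin (D + 1) → Fin M₂) → (EE →ₗ[ℝ] (Fin n → ℝ) × (Fin (D + 1) → ℝ)) := fun κ =>
    { toFun := fun q => (q.1, fun c => q.2 (κ c) c)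
      map_add' := fun _ _ => rfl
      map_smul' := fun _ _ => rfl }
  have hLin : ∀ κ, Function.Surjective (Lin κ) := by
    rintro κ ⟨v, s⟩
    exact ⟨(v, fun _ c => s c), rfl⟩
  have hnul : ∀ κ : Fin (D + 1) → Fin M₂,
      (Measure.addHaar : Measure ((Fin n → ℝ) × (Fin (D + 1) → ℝ)))
        ((fun x => ((fun i => ∫ a, H₁ i (Λ a⁻¹ x) ∂ν : Fin n → ℝ),
        (fun c => ∫ a, H₂ (κ c) (Λ a⁻¹ x) ∂ν : Fin (D + 1) → ℝ))) '' M.U) = 0 := by
    intro κ
    apply null_avg ν (C := max C 0) (K := KK) (b := b)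
    · intro x hx
      have h1 : Continuous (fun a : G => ((a, x) : G × (Fin n → ℝ))) := by fun_prop
      exact hΛc.comp_continuous h1 (fun a => ⟨mem_univ _, L.hUc hx⟩)
    · exact hb0
    · push_cast
      rw [← add_assoc]
      exact hb
    · exact le_max_right _ _
    · intro a x hx x' hx'
      refine (hH a x (L.hUc hx) x' (L.hUc hx')).trans ?_
      exact mul_le_mul_of_nonneg_right (le_max_left _ _) (by positivity)
    · exact fun i => (hH₁ i).weaken (hKK₁ i)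
    · exact fun c => (hH₂ (κ c)).weaken (hKK₂ (κ c))
  obtain ⟨⟨y, t⟩, ⟨hyO, htO⟩, hgen⟩ := exists_generic Lin hLin _ hnul
    (O := ball y₀ (γ / 2) ×ˢ {t | ∀ j c, t j c ∈ Ioo (η / 4) (3 * η / 4)}) (by
      apply isOpen_ball.prod
      have h1 : {t : Fin M₂ → Fin (D + 1) → ℝ | ∀ j c, t j c ∈ Ioo (η / 4) (3 * η / 4)} =
          ⋂ j, ⋂ c, (fun t : Fin M₂ → Fin (D + 1) → ℝ => t j c) ⁻¹'
            Ioo (η / 4) (3 * η / 4) := by
        ext t
        simp only [mem_iInter]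
        rfl
      rw [h1]
      exact isOpen_iInter_of_finite fun j => isOpen_iInter_of_finite fun c =>
        isOpen_Ioo.preimage (by fun_prop)) (by
      refine ⟨(y₀, fun _ _ => η / 2), mem_ball_self (by positivity), fun j c => ?_⟩
      constructor
      · simp only; linarith
      · simp only; linarith)
  have hyy₀ : dist y y₀ < γ / 2 := hyO
  have ht0 : ∀ j c, η / 4 < t j c := fun j c => (htO j c).1
  have htη : ∀ j c, t j c < 3 * η / 4 := fun j c => (htO j c).2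
  have hgen' : ∀ x ∈ C₁, F x = y → ∃ c, ∀ j, f₂ j x ≠ t j c := by
    intro x hx heq
    by_contra hcon
    push Not at hcon
    choose κ hκ using hcon
    apply hgen κ
    refine ⟨x, hC₁U hx, ?_⟩
    rw [hC₁F x hx] at heq
    have h1 : (fun i => ∫ a, H₁ i (Λ a⁻¹ x) ∂ν : Fin n → ℝ) = y := by
      rw [← heq]
      funext i
      simp only [hFp]
      unfold avM
      simp only [hΛg _ x (hC₁U hx)]
    have h2 : (fun c => ∫ a, H₂ (κ c) (Λ a⁻¹ x) ∂ν : Fin (D + 1) → ℝ) =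
        fun c => t (κ c) c := by
      funext c
      rw [← hκ c]
      simp only [hf₂]
      unfold avM
      simp only [hΛg _ x (hC₁U hx)]
    simp only
    rw [h1, h2]
    rfl
  -- the margins
  obtain ⟨lam, hlam, hlamC⟩ := exists_margin M.hU hC₁c hC₁U hf₂c (g := fun x => dist (F x) y)
    (hFc.dist continuous_const).continuousOn t (fun x hx => by
        by_cases h : F x = y
        · exact Or.inr (hgen' x hx h)
        · exact Or.inl (dist_pos.mpr h))
  have hC₁F2c : IsCompact (C₁ ∩ F2) := hC₁c.inter_right hF2c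
  obtain ⟨lam₁, hlam₁, hlamC₁⟩ := exists_margin (κ := Unit) M.hU hC₁F2c
    (inter_subset_left.trans hC₁U) hf₁c (g := fun _ => (0 : ℝ)) continuousOn_const (fun j _ => t₁ j)
    (fun x hx => Or.inr ⟨(), fun j => hC₁t x hx.1 hx.2 j⟩)
  obtain ⟨δ₃, hδ₃, hδ₃d⟩ := exists_dist_pos hCGc hC₁F2c (by
    rw [Set.disjoint_left]
    rintro x ⟨-, hx⟩ ⟨-, hx'⟩
    exact hx hx')
  -- the two labelled sets
  set κ : ℝ := min lam (γ / 2) with hκ
  have hκ0 : 0 < κ := lt_min hlam (by positivity)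
  set S : Set (Fin n → ℝ) := {x | dist (F x) y ≤ κ} with hS
  have hSC₁ : S ⊆ C₁ := by
    intro x hx
    have h1 : dist (F x) y ≤ κ := hx
    have h2 := dist_triangle (F x) y y₀
    have h3 : κ ≤ γ / 2 := min_le_right _ _
    change dist (F x) y₀ ≤ γ
    linarith
  have hSU : S ⊆ M.U := hSC₁.trans hC₁U
  have hSi : ∀ a, ∀ x ∈ S, M.g a x ∈ S := by
    intro a x hx
    change dist (F (M.g a x)) y ≤ κ
    rw [hFi a x (hSU hx)]
    exact hx
  obtain ⟨δ₁, hδ₁, hLab₁⟩ := labd_of_levels M E (fun j i => α i ^ p ^ (j : ℕ)) (fun c => c)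
    Function.injective_id L₂ hL₂P t hlam hCGc hCGU (S := S \ F2)
    (fun x hx => ⟨hSC₁ hx.1, hx.2⟩) (fun j => (hf₂c j).mono hCGU)
    (fun j x hx a => hf₂i j a x (hSU hx.1))
    (fun x hx j c hlt => by
      have h1 := hf₂₃ j x (hC₁C₀ (hSC₁ hx.1))
      rw [abs_le] at h1
      have h2 := ht0 j c
      have h3 : 0 < f₃ j x := by linarith [h1.2]
      exact exists_of_avM_pos (ν := ν) h3.ne')
    (fun x hx => by
      rcases hlamC x (hSC₁ hx.1) with h | h
      · have h1 : dist (F x) y ≤ κ := hx.1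
        have h2 : κ ≤ lam := min_le_left _ _
        linarith
      · exact h) (fun x hx c => by
      obtain ⟨j, hj⟩ := hηG x ⟨hSC₁ hx.1, hx.2⟩
      have h1 := hf₂₃ j x (hC₁C₀ (hSC₁ hx.1))
      rw [abs_le] at h1
      refine ⟨j, (htη j c).trans ?_⟩
      linarith [h1.1])
  obtain ⟨δ₂, hδ₂, hLab₂⟩ := labd_of_levels M E (fun j i => α i ^ p ^ (j : ℕ))
    (fun _ : Unit => (0 : Fin (D + 1))) (fun _ _ _ => rfl) L₁ (fun j c c' => by
      simp only [Fin.val_zero, pow_zero, pow_one]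
      exact hL₁P j c c') (f := f₁) (fun j _ => t₁ j) hlam₁ hC₁F2c
    (inter_subset_left.trans hC₁U) (S := S ∩ F2)
    (fun x hx => ⟨hSC₁ hx.1, hx.2⟩)
    (fun j => (hf₁c j).mono (inter_subset_left.trans hC₁U))
    (fun j x hx a => avM_inv (D := M) (ν := ν) (bumpM (L₁ j).z (L₁ j).ρ) a x (hSU hx.1))
    (fun x hx j c hlt => exists_of_avM_pos (ν := ν) ((ht₁0 j).trans hlt).ne')
    (fun x hx => by
      rcases hlamC₁ x ⟨hSC₁ hx.1, hx.2⟩ with h | h
      · linarith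
      · exact h) (fun x hx c => by
      obtain ⟨j, hj⟩ := hη₁B x ⟨hC₁C₀ (hSC₁ hx.1), hx.2⟩
      exact ⟨j, (ht₁η j).trans hj⟩)
  set δ : ℝ := min δ₁ (min δ₂ δ₃) with hδ
  have hδ0 : 0 < δ := lt_min hδ₁ (lt_min hδ₂ hδ₃)
  have hδδ₁ : δ ≤ δ₁ := min_le_left _ _
  have hδδ₂ : δ ≤ δ₂ := (min_le_right _ _).trans (min_le_left _ _)
  have hδδ₃ : δ ≤ δ₃ := (min_le_right _ _).trans (min_le_right _ _)
  have hLab := (Labd.union (hLab₁.mono hδδ₁ Subset.rfl) (hLab₂.mono hδδ₂ Subset.rfl)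
    (fun x hx => hSU hx.1) (fun x hx => hSU hx.1)
    (fun a x hx => ⟨hSi a x hx.1, fun h => hx.2 (hF2i' a x (hSU hx.1) h)⟩)
    (fun a x hx => ⟨hSi a x hx.1, hF2i a x (hSU hx.1) hx.2⟩) hδ0
    (fun x hx x' hx' => hδδ₃.trans (hδ₃d x ⟨hSC₁ hx.1, hx.2⟩ x' ⟨hSC₁ hx'.1, hx'.2⟩))).mono
    le_rfl (S' := S) (by
      intro x hxS
      by_cases h : x ∈ F2
      · exact Or.inr ⟨hxS, h⟩
      · exact Or.inl ⟨hxS, h⟩)
  obtain ⟨col, ξ, ℓ, h1, h2, h3⟩ := hLab
  refine ⟨{ F := F, hF := hFc, hFg := hFi, hFd := hFd, y := y, hy := ?_, κ := κ, hκ := hκ0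
            hκs := ?_, col := col, ξ := ξ, lab := ℓ, hcol := fun a x hx => (h1 x hx a).1
            hξ := fun a x hx => (h1 x hx a).2.1, hlab := fun a x hx => (h1 x hx a).2.2
            hw := h2, ε := δ, hε := hδ0, near := ?_ }⟩
  · have := dist_triangle y y₀ L.c
    linarith
  · have h3 : κ ≤ γ / 2 := min_le_right _ _
    linarith
  · intro x x' hx hx' hd
    by_cases hc : col x = col x'
    · exact Or.inl ⟨hc, (h3 x hx x' hx' hd).1 hc⟩
    · refine Or.inr ⟨(h3 x hx x' hx' hd).2 hc, ?_⟩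
      exact (h3 x' hx' x hx (by rwa [dist_comm])).2 (Ne.symm hc)

end Pool.Agent.HSF
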