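import Pool.Agent.HSF.E
import Pool.Agent.Helper83.TF.Lab2
import Pool.Agent.HSF.Defs4

/-!
# Cells: lemmas for the improved label theorem

Countable unions of sets off which maps can be moved, thin sets, labels from the cells of a grid.
-/

set_option autoImplicit false
set_option linter.unusedSectionVars false
set_option linter.unusedVariables false

open Set MeasureTheory Metric Filter Topology
open scoped NNReal ENNReal

namespace Pool.Agent.HSF

open Pool.Agent.Helper83.TF Pool.Agent.Helper3.HS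

/-! ### Countable unions -/

section mv

variable {G : Type*} [Group G] [TopologicalSpace G] [IsTopologicalGroup G] [CompactSpace G]
  {V : Type*} [NormedAddCommGroup V] [NormedSpace ℝ V] [FiniteDimensional ℝ V]
  [MeasurableSpace V] [BorelSpace V]

theorem mvM_iUnion_nat {D : GM G V} {y : V} {Z : ℕ → Set V}
    (hZ : ∀ j, IsCompact (Z j)) (hZU : ∀ j, Z j ⊆ D.U) (h : ∀ j, MvM D y (Z j)) :
    MvM D y (⋃ j, Z j) := by
  intro F hF ε hε
  have hV : CompleteSpace V := FiniteDimensional.complete ℝ V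
  let St := {q : (V → V) × ℝ // Continuous q.1 ∧ InvM D q.1 ∧ 0 < q.2}
  have step : ∀ (j : ℕ) (q : St), ∃ q' : St, (∀ x, ‖q'.1.1 x - q.1.1 x‖ ≤ q.1.2 / 2) ∧
      q'.1.2 ≤ q.1.2 / 2 ∧ ∀ x ∈ Z j, 4 * q'.1.2 ≤ dist (F x + q'.1.1 x) y := by
    rintro j ⟨⟨φ, ρ⟩, hφ, hφi, hρ⟩
    have hF1 : ContinuousOn (fun x => F x + φ x) (closure D.U) := hF.add hφ.continuousOn
    obtain ⟨ψ, h1, h2, h3, h4⟩ := h j (fun x => F x + φ x) hF1 (ρ / 2) (half_pos hρ)
    have hF2 : ContinuousOn (fun x => F x + φ x + ψ x) (Z j) :=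
      (hF1.mono ((hZU j).trans subset_closure)).add h1.continuousOn
    obtain ⟨r, hr, hgap⟩ := exists_gap (hZ j) hF2 (y := y) h4
    refine ⟨⟨(fun x => φ x + ψ x, min (ρ / 2) r), hφ.add h1, hφi.add h2,
      lt_min (half_pos hρ) hr⟩, fun x => ?_, min_le_left _ _, fun x hx => ?_⟩
    · simp only [add_sub_cancel_left]
      exact h3 x
    · have h5 := hgap x hx
      have h6 : min (ρ / 2) r ≤ r := min_le_right _ _
      simp only
      rw [← add_assoc]
      linarith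
  choose nx hnx1 hnx2 hnx3 using step
  let s : ℕ → St := fun j => Nat.rec ⟨(fun _ => 0, ε), continuous_const, fun _ _ _ => rfl, hε⟩
    (fun j q => nx j q) j
  have hs0 : s 0 = ⟨(fun _ => 0, ε), continuous_const, fun _ _ _ => rfl, hε⟩ := rfl
  have hs1 : ∀ j, s (j + 1) = nx j (s j) := fun j => rfl
  set ρ : ℕ → ℝ := fun j => (s j).1.2 with hρ
  set φ : ℕ → V → V := fun j => (s j).1.1 with hφ
  have hρ0 : ∀ j, 0 < ρ j := fun j => (s j).2.2.2
  have hφc : ∀ j, Continuous (φ j) := fun j => (s j).2.1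
  have hφi : ∀ j, InvM D (φ j) := fun j => (s j).2.2.1
  have hstep1 : ∀ j x, ‖φ (j + 1) x - φ j x‖ ≤ ρ j / 2 := by
    intro j x
    have := hnx1 j (s j) x
    simp only [hφ, hρ]
    rw [hs1]
    exact this
  have hstep2 : ∀ j, ρ (j + 1) ≤ ρ j / 2 := by
    intro j
    have := hnx2 j (s j)
    simp only [hρ]
    rw [hs1]
    exact this
  have hstep3 : ∀ j, ∀ x ∈ Z j, 4 * ρ (j + 1) ≤ dist (F x + φ (j + 1) x) y := by
    intro j x hx
    have := hnx3 j (s j) x hx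
    simp only [hφ, hρ]
    rw [hs1]
    exact this
  have hgeo : ∀ m i, ρ (i + m) ≤ ρ m * (1 / 2) ^ i := by
    intro m i
    induction i with
    | zero => simp
    | succ i ih =>
      have h1 := hstep2 (i + m)
      have h2 : i + 1 + m = i + m + 1 := by ring
      rw [h2, pow_succ]
      nlinarith
  set d : ℕ → V → V := fun j x => φ (j + 1) x - φ j x with hd
  have hd1 : ∀ m i x, ‖d (i + m) x‖ ≤ ρ m / 2 * (1 / 2) ^ i := by
    intro m i x
    have h1 := hstep1 (i + m) x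
    have h2 := hgeo m i
    simp only [hd]
    linarith
  have hgs : ∀ m, HasSum (fun i => ρ m / 2 * (1 / 2 : ℝ) ^ i) (ρ m) := by
    intro m
    have h1 := (hasSum_geometric_of_lt_one (by norm_num : (0 : ℝ) ≤ 1 / 2)
      (by norm_num : (1 / 2 : ℝ) < 1)).mul_left (ρ m / 2)
    have h2 : ρ m / 2 * (1 - 1 / 2)⁻¹ = ρ m := by norm_num
    rwa [h2] at h1
  have hdc : ∀ j, Continuous (d j) := fun j => (hφc (j + 1)).sub (hφc j)
  have hsum : ∀ x, Summable fun i => d i x := by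
    intro x
    exact Summable.of_norm_bounded (hgs 0).summable (fun i => hd1 0 i x)
  have htel : ∀ m x, ∑ i ∈ Finset.range m, d i x = φ m x := by
    intro m x
    have h1 : ∑ i ∈ Finset.range m, d i x = φ m x - φ 0 x := by
      simp only [hd]
      exact Finset.sum_range_sub (fun i => φ i x) m
    rw [h1]
    have h2 : φ 0 x = 0 := rfl
    rw [h2, sub_zero]
  have htail : ∀ m x, ‖(∑' i, d i x) - φ m x‖ ≤ ρ m := by
    intro m x
    have h1 := (hsum x).sum_add_tsum_nat_add m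
    rw [htel] at h1
    rw [← h1, add_sub_cancel_left]
    exact tsum_of_norm_bounded (hgs m) (fun i => hd1 m i x)
  refine ⟨fun x => ∑' i, d i x, ?_, ?_, ?_, ?_⟩
  · exact continuous_tsum hdc (hgs 0).summable (fun i x => hd1 0 i x)
  · intro a x hx
    simp only [hd]
    congr 1
    funext i
    rw [hφi (i + 1) a x hx, hφi i a x hx]
  · intro x
    have h1 := htail 0 x
    have h2 : φ 0 x = 0 := rfl
    have h3 : ρ 0 = ε := rfl
    rw [h2, sub_zero, h3] at h1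
    exact h1
  · intro x hx heq
    obtain ⟨j, hj⟩ := mem_iUnion.mp hx
    have h1 := hstep3 j x hj
    have h2 := htail (j + 1) x
    have h3 := hρ0 (j + 1)
    have h4 : dist (F x + φ (j + 1) x) y ≤ ρ (j + 1) := by
      rw [← heq, dist_eq_norm]
      have h5 : F x + φ (j + 1) x - (F x + ∑' i, d i x) = -((∑' i, d i x) - φ (j + 1) x) := by
        abel
      rw [h5, norm_neg]
      exact h2
    linarith

theorem mvM_iUnion_countable {ι : Type*} [Countable ι] {D : GM G V} {y : V} {Z : ι → Set V}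
    (hZ : ∀ j, IsCompact (Z j)) (hZU : ∀ j, Z j ⊆ D.U) (h : ∀ j, MvM D y (Z j)) :
    MvM D y (⋃ j, Z j) := by
  rcases isEmpty_or_nonempty ι with hι | hι
  · rw [iUnion_of_empty]
    exact MvM.empty D y
  · obtain ⟨f, hf⟩ := exists_surjective_nat ι
    rw [← hf.iUnion_comp]
    exact mvM_iUnion_nat (fun j => hZ _) (fun j => hZU _) (fun j => h _)

end mv

/-! ### Thin sets -/

/-- The averages of the functions `f`, `g` over the orbits have a null image on `S`. -/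
def AvNull {n m : ℕ} {G : Type*} [Group G] [MeasurableSpace G] (ν : Measure G) {Y : Type*}
    (Λ : G → (Fin n → ℝ) → Y) (f : Fin n → Y → ℝ) (g : Fin m → Y → ℝ)
    (S : Set (Fin n → ℝ)) : Prop :=
  (Measure.addHaar : Measure ((Fin n → ℝ) × (Fin m → ℝ)))
      ((fun x => ((fun i => ∫ a, f i (Λ a⁻¹ x) ∂ν : Fin n → ℝ),
        (fun i => ∫ a, g i (Λ a⁻¹ x) ∂ν : Fin m → ℝ))) '' S) = 0

/-- Almost all slices of `S` are thin: averages of Lipschitz functions have null images. -/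
def ThinAe {n : ℕ} {G : Type*} [Group G] [MeasurableSpace G] (ν : Measure G) {Y : Type*}
    [MetricSpace Y] (Λ : G → (Fin n → ℝ) → Y) (m : ℕ) (S : Set (Fin n → ℝ)) : Prop :=
  ∀ (f : Fin n → Y → ℝ) (g : Fin m → Y → ℝ) (K : ℝ≥0), (∀ i, LipschitzWith K (f i)) →
    (∀ i, LipschitzWith K (g i)) → ∀ i, ∀ᵐ τ : ℝ, AvNull ν Λ f g {x | x ∈ S ∧ x i = τ}

theorem exists_of_ae {P : ℝ → Prop} (h : ∀ᵐ τ : ℝ, P τ) {u v : ℝ} (huv : u < v) :
    ∃ τ, u < τ ∧ τ < v ∧ P τ := by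
  obtain ⟨τ, hτ, h1⟩ := (Measure.dense_of_ae h).exists_between huv
  exact ⟨τ, h1.1, h1.2, hτ⟩

/-- The slices are thin for a Hölder family. -/
theorem thin_of_holder {d m : ℕ} {G : Type*} [Group G] [TopologicalSpace G]
    [IsTopologicalGroup G]
    [CompactSpace G] [MeasurableSpace G] [BorelSpace G] (ν : Measure G) [IsProbabilityMeasure ν]
    {Y : Type*} [MetricSpace Y] {Λ : G → (Fin (d + 1) → ℝ) → Y} {s : Set (Fin (d + 1) → ℝ)}
    (hΛ : ∀ x ∈ s, Continuous fun a => Λ a x) {b C : ℝ} (hb0 : 0 < b)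
    (hb : (d : ℝ) < b * (d + 1 + m)) (hC : 0 ≤ C)
    (hH : ∀ a, ∀ x ∈ s, ∀ x' ∈ s, dist (Λ a x) (Λ a x') ≤ C * dist x x' ^ b)
    : ThinAe ν Λ m s := by
  intro f g K hf hg i₀
  refine Filter.Eventually.of_forall fun τ => ?_
  unfold AvNull
  have hint : ∀ (φ : Y → ℝ), LipschitzWith K φ → ∀ x ∈ s,
      Integrable (fun a => φ (Λ a⁻¹ x)) ν := by
    intro φ hφ x hx
    exact ((hφ.continuous.comp ((hΛ x hx).comp continuous_inv))).integrable_of_hasCompactSupport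
      (HasCompactSupport.of_compactSpace _)
  have hest : ∀ (φ : Y → ℝ), LipschitzWith K φ → ∀ x ∈ s, ∀ x' ∈ s,
      dist (∫ a, φ (Λ a⁻¹ x) ∂ν) (∫ a, φ (Λ a⁻¹ x') ∂ν) ≤ (K * C) * dist x x' ^ b := by
    intro φ hφ x hx x' hx'
    rw [dist_eq_norm]
    apply norm_avg_sub_le ν (hint φ hφ x hx) (hint φ hφ x' hx')
    intro a
    rw [← dist_eq_norm]
    calc dist (φ (Λ a⁻¹ x)) (φ (Λ a⁻¹ x')) ≤ K * dist (Λ a⁻¹ x) (Λ a⁻¹ x') := hφ.dist_le_mul _ _
      _ ≤ K * (C * dist x x' ^ b) := mul_le_mul_of_nonneg_left (hH _ x hx x' hx') K.2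
      _ = (K * C) * dist x x' ^ b := by ring
  have hKC : 0 ≤ (K : ℝ) * C := by positivity
  set P : (Fin (d + 1) → ℝ) → (Fin (d + 1) → ℝ) × (Fin m → ℝ) := fun x =>
    ((fun i => ∫ a, f i (Λ a⁻¹ x) ∂ν : Fin (d + 1) → ℝ),
      (fun i => ∫ a, g i (Λ a⁻¹ x) ∂ν : Fin m → ℝ)) with hP
  set ins : (Fin d → ℝ) → (Fin (d + 1) → ℝ) := fun v => i₀.insertNth τ v with hins
  have hinsd : ∀ v v', dist (ins v) (ins v') ≤ dist v v' := by
    intro v v'
    rw [dist_pi_le_iff dist_nonneg]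
    intro i
    rcases Fin.eq_self_or_eq_succAbove i₀ i with h | ⟨j, h⟩
    · subst h
      simp [hins]
    · subst h
      simp only [hins, Fin.insertNth_apply_succAbove]
      exact dist_le_pi_dist v v' j
  have himg : P '' {x | x ∈ s ∧ x i₀ = τ} ⊆ (fun v => P (ins v)) '' (ins ⁻¹' s) := by
    rintro _ ⟨x, ⟨hx, hxτ⟩, rfl⟩
    have h1 : ins (i₀.removeNth x) = x := by
      simp only [hins]
      rw [← hxτ]
      exact Fin.insertNth_self_removeNth i₀ x
    exact ⟨i₀.removeNth x, by rw [mem_preimage, h1]; exact hx, by simp only [h1]⟩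
  refine measure_mono_null himg ?_
  apply null_image (Measure.addHaar) (C := Real.toNNReal (K * C)) (b := b.toNNReal)
  · apply holderOnWith_of_dist hKC hb0.le
    intro v hv v' hv'
    have h0 : 0 ≤ (K : ℝ) * C * dist (ins v) (ins v') ^ b := by positivity
    have h1 : (K : ℝ) * C * dist (ins v) (ins v') ^ b ≤ (K : ℝ) * C * dist v v' ^ b :=
      mul_le_mul_of_nonneg_left (Real.rpow_le_rpow dist_nonneg (hinsd v v') hb0.le) hKC
    refine le_trans ?_ h1
    rw [Prod.dist_eq]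
    apply max_le
    · rw [dist_pi_le_iff h0]
      exact fun i => hest _ (hf i) _ hv _ hv'
    · rw [dist_pi_le_iff h0]
      exact fun i => hest _ (hg i) _ hv _ hv'
  · exact Real.toNNReal_pos.mpr hb0
  · rw [Module.finrank_prod, Module.finrank_fin_fun, Module.finrank_fin_fun,
      Real.coe_toNNReal b hb0.le]
    push_cast
    exact hb

/-! ### Labels from the cells of a grid -/

section cell

variable {n : ℕ}

/-- The union of the hyperplanes. -/
def hyps (T : Fin n → Finset ℝ) : Set (Fin n → ℝ) := {v | ∃ i, ∃ τ ∈ T i, v i = τ}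

theorem isClosed_hyps (T : Fin n → Finset ℝ) : IsClosed (hyps T) := by
  have h1 : hyps T = ⋃ i, ⋃ τ ∈ T i, {v | v i = τ} := by
    ext v
    simp only [hyps, mem_iUnion, mem_ofPred_eq, exists_prop]
  rw [h1]
  exact isClosed_iUnion_of_finite fun i => (Finset.finite_toSet _).isClosed_biUnion fun τ _ =>
    isClosed_eq (continuous_apply i) continuous_const

/-- The code of the cell. -/
noncomputable def code (T : Fin n → Finset ℝ) (v : Fin n → ℝ) (i : Fin n) : Finset ℝ :=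
  (T i).filter fun τ => τ < v i

/-- Points with the same code are close if the grid is fine. -/
theorem code_close {T : Fin n → Finset ℝ} {c : Fin n → ℝ} {s η : ℝ} (hη : 0 < η)
    (hT : ∀ i, ∀ u v : ℝ, c i - s ≤ u → v ≤ c i + s → u + η ≤ v → ∃ τ ∈ T i, u < τ ∧ τ < v)
    {x x' : Fin n → ℝ} (hx : x ∈ closedBall c s) (hx' : x' ∈ closedBall c s)
    (h : code T x = code T x') : dist x x' < η := by
  rw [dist_pi_lt_iff hη]
  intro i
  have key : ∀ u v : Fin n → ℝ, u ∈ closedBall c s → v ∈ closedBall c s → code T u = code T v →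
      v i - u i < η := by
    intro u v hu hv huv
    by_contra hcon
    push Not at hcon
    have h1 : dist (u i) (c i) ≤ s := (dist_le_pi_dist u c i).trans hu
    have h2 : dist (v i) (c i) ≤ s := (dist_le_pi_dist v c i).trans hv
    rw [Real.dist_eq, abs_le] at h1 h2
    obtain ⟨τ, hτ, h3, h4⟩ := hT i (u i) (v i) (by linarith [h1.1]) (by linarith [h2.2])
      (by linarith)
    have h5 : τ ∈ code T v i := by
      simp only [code, Finset.mem_filter]
      exact ⟨hτ, h4⟩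
    rw [← huv] at h5
    simp only [code, Finset.mem_filter] at h5
    linarith [h5.2]
  rw [Real.dist_eq, abs_lt]
  have h1 := key x x' hx hx' h
  have h2 := key x' x hx' hx h.symm
  constructor <;> linarith

/-- Points on the same side of all hyperplanes have the same code. -/
theorem code_eq {T : Fin n → Finset ℝ} {x x' : Fin n → ℝ} {μ : ℝ}
    (h : ∀ i, ∀ τ ∈ T i, μ ≤ |x i - τ|) (h' : ∀ i, ∀ τ ∈ T i, μ ≤ |x' i - τ|)
    (hd : dist x x' < μ) : code T x = code T x' := by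
  have key : ∀ u v : Fin n → ℝ, (∀ i, ∀ τ ∈ T i, μ ≤ |u i - τ|) → (∀ i, ∀ τ ∈ T i, μ ≤ |v i - τ|) →
      dist u v < μ → ∀ i, ∀ τ ∈ T i, τ < u i → τ < v i := by
    intro u v hu hv huv i τ hτ hlt
    have h1 := hu i τ hτ
    have h2 : dist (u i) (v i) < μ := (dist_le_pi_dist u v i).trans_lt huv
    rw [Real.dist_eq, abs_lt] at h2
    rw [abs_of_pos (by linarith)] at h1
    linarith [h2.2]
  funext i
  ext τ
  simp only [code, Finset.mem_filter]
  constructor
  · rintro ⟨h1, h2⟩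
    exact ⟨h1, key x x' h h' hd i τ h1 h2⟩
  · rintro ⟨h1, h2⟩
    exact ⟨h1, key x' x h' h (by rwa [dist_comm]) i τ h1 h2⟩

variable {G : Type*} [Group G] [TopologicalSpace G] [IsTopologicalGroup G] [CompactSpace G]
  {D : GM G (Fin n → ℝ)} {Q κ A : Type*} [AddCommGroup A] {Φ : Q → κ → G → A}

/-- **Labels from cells.** -/
theorem labels_of_cells {M : ℕ} (L : Fin M → LQ D Φ) (c₀ : κ) {C S : Set (Fin n → ℝ)}
    (hC : IsCompact C) (hCU : C ⊆ D.U) (hSC : S ⊆ C) (hSi : ∀ a, ∀ x ∈ S, D.g a x ∈ S)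
    (T : Fin n → Finset ℝ) {μ : ℝ} (hμ : 0 < μ)
    (hfar : ∀ x ∈ S, ∀ i, ∀ τ ∈ T i, μ ≤ |x i - τ|)
    (hcell : ∀ x ∈ S, ∃ j, ∀ x' ∈ S, code T x' = code T x → x' ∈ ball (L j).z (L j).ρ) :
    ∃ (δ : ℝ) (jj : (Fin n → ℝ) → ℕ) (ℓ : (Fin n → ℝ) → A), 0 < δ ∧
      (∀ x ∈ S, ∃ j : Fin M, jj x = j ∧ ∀ a, jj (D.g a x) = jj x ∧
        ℓ (D.g a x) = ℓ x + Φ (L j).q c₀ a) ∧
      (∀ x ∈ S, ∀ x' ∈ S, dist x x' < δ → jj x = jj x' ∧ ℓ x = ℓ x') := by
  classical
  rcases S.eq_empty_or_nonempty with rfl | ⟨x₁, hx₁⟩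
  · exact ⟨1, fun _ => 0, fun _ => 0, one_pos, by simp, by simp⟩
  have hMne : Nonempty (Fin M) := by
    obtain ⟨j, -⟩ := hcell x₁ hx₁
    exact ⟨j⟩
  have hSU : S ⊆ D.U := hSC.trans hCU
  -- the index of a cell
  have hJ : ∀ q : Fin n → Finset ℝ, ∃ j : Fin M, ∀ x ∈ S, code T x = q →
      x ∈ ball (L j).z (L j).ρ := by
    intro q
    by_cases h : ∃ x ∈ S, code T x = q
    · obtain ⟨x, hx, rfl⟩ := h
      exact hcell x hx
    · exact ⟨Classical.arbitrary _, fun x hx hq => (h ⟨x, hx, hq⟩).elim⟩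
  choose J hJ using hJ
  -- the chosen visited cell
  set vis : (Fin n → ℝ) → Set (Fin n → Finset ℝ) := fun x => {q | ∃ a, code T (D.g a x) = q}
    with hvis
  set qq : (Fin n → ℝ) → (Fin n → Finset ℝ) := fun x =>
    Classical.epsilon fun q => q ∈ vis x with hqq
  have hqs : ∀ x, qq x ∈ vis x := fun x =>
    Classical.epsilon_spec (p := fun q => q ∈ vis x) ⟨code T (D.g 1 x), 1, rfl⟩
  have hvi : ∀ x ∈ S, ∀ a, vis (D.g a x) = vis x := by
    intro x hx a
    ext q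
    simp only [hvis, mem_ofPred_eq]
    constructor
    · rintro ⟨b, hb⟩
      exact ⟨b * a, by rw [D.hgmul _ _ x (hSU hx)]; exact hb⟩
    · rintro ⟨b, hb⟩
      refine ⟨b * a⁻¹, ?_⟩
      rw [← D.hgmul _ _ x (hSU hx), inv_mul_cancel_right]
      exact hb
  have hex : ∀ x ∈ S, ∃ a, D.g a x ∈ ball (L (J (qq x))).z (L (J (qq x))).ρ := by
    intro x hx
    obtain ⟨a, ha⟩ := hqs x
    exact ⟨a, hJ _ _ (hSi a x hx) ha⟩
  have hun : ∀ j : Fin M, ∃ δ : ℝ, 0 < δ ∧ ∀ x ∈ C, ∀ x' ∈ D.U, dist x x' < δ →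
      ∀ a, dist (D.g a x) (D.g a x') < min μ (L j).ρ := fun j =>
    exists_unif D hC hCU (lt_min hμ (L j).hρ)
  choose δ₂ hδ₂ hun using hun
  obtain ⟨δ, hδ0, hδj⟩ : ∃ δ : ℝ, 0 < δ ∧ ∀ j, δ ≤ δ₂ j := by
    have h3 : Finset.univ.Nonempty (α := Fin M) := Finset.univ_nonempty
    refine ⟨Finset.univ.inf' h3 δ₂, ?_, fun j => Finset.inf'_le _ (Finset.mem_univ j)⟩
    rw [Finset.lt_inf'_iff]
    exact fun j _ => hδ₂ j
  have hqi : ∀ x ∈ S, ∀ a, qq (D.g a x) = qq x := by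
    intro x hx a
    simp only [hqq]
    rw [hvi x hx a]
  refine ⟨δ, fun x => J (qq x), fun x => (L (J (qq x))).lab x c₀, hδ0, ?_, ?_⟩
  · intro x hx
    refine ⟨J (qq x), rfl, fun a => ?_⟩
    simp only
    rw [hqi x hx a]
    exact ⟨rfl, (L (J (qq x))).lab_smul (hSU hx) (hex x hx) a c₀⟩
  · intro x hx x' hx' hd
    have hv : vis x = vis x' := by
      ext q
      simp only [hvis, mem_ofPred_eq]
      have h1 : ∀ a, code T (D.g a x) = code T (D.g a x') := by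
        intro a
        apply code_eq (hfar _ (hSi a x hx)) (hfar _ (hSi a x' hx'))
        exact (hun (Classical.arbitrary _) x (hSC hx) x' (hSU hx') (hd.trans_le (hδj _)) a).trans_le
          (min_le_left _ _)
      simp only [h1]
    have hq : qq x = qq x' := by
      simp only [hqq]
      rw [hv]
    simp only
    rw [← hq]
    refine ⟨rfl, ?_⟩
    apply (L (J (qq x))).lab_close (hSU hx) (hSU hx') (hex x hx)
    · rw [hq]
      exact hex x' hx'
    · intro a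
      exact (hun (J (qq x)) x (hSC hx) x' (hSU hx') (hd.trans_le (hδj _)) a).trans_le
        (min_le_right _ _)

/-- Fewer colours. -/
def LQ_comap {κ' : Type*} (σ : κ' → κ) (L : LQ D Φ) :
    LQ D (fun (q : Q) (c : κ') (g : G) => Φ q (σ c) g) where
  z := L.z
  ρ := L.ρ
  q := L.q
  hρ := L.hρ
  hU := L.hU
  hom := fun c g h => L.hom (σ c) g h
  ker := fun a x hx hax c => L.ker a x hx hax (σ c)

/-- `labels_of_levels` for finitely many colours, possibly none, with values in `Fin (D + 1)`. -/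
theorem labels_of_levels_succ {N : ℕ} {Φ : Q → Fin (N + 1) → G → A} {M : ℕ} (L : Fin M → LQ D Φ)
    {f : Fin M → (Fin n → ℝ) → ℝ} (t : Fin M → Fin N → ℝ) {lam : ℝ} (hlam : 0 < lam)
    {C S : Set (Fin n → ℝ)}
    (hC : IsCompact C) (hCU : C ⊆ D.U) (hSC : S ⊆ C)
    (hfc : ∀ j, ContinuousOn (f j) C) (hfi : ∀ j, ∀ x ∈ S, ∀ a, f j (D.g a x) = f j x)
    (hfe : ∀ x ∈ S, ∀ j c, t j c < f j x → ∃ a, D.g a x ∈ ball (L j).z (L j).ρ)
    (h1 : ∀ x ∈ S, ∃ c, ∀ j, lam ≤ |f j x - t j c|)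
    (h2 : ∀ x ∈ S, ∀ c, ∃ j, t j c < f j x) :
    ∃ (δ : ℝ) (cc : (Fin n → ℝ) → Fin (N + 1)) (jj : (Fin n → ℝ) → ℕ) (ℓ : (Fin n → ℝ) → A),
      0 < δ ∧ (∀ x ∈ S, cc x ≠ 0) ∧
      (∀ x ∈ S, ∃ j : Fin M, jj x = j ∧ ∀ a, cc (D.g a x) = cc x ∧ jj (D.g a x) = jj x ∧
        ℓ (D.g a x) = ℓ x + Φ (L j).q (cc x) a) ∧
      (∀ x ∈ S, ∀ x' ∈ S, dist x x' < δ → cc x = cc x' → jj x = jj x' ∧ ℓ x = ℓ x') := by
  classical
  rcases S.eq_empty_or_nonempty with rfl | ⟨x₁, hx₁⟩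
  · exact ⟨1, fun _ => 0, fun _ => 0, fun _ => 0, one_pos, by simp, by simp, by simp⟩
  have hne : Nonempty (Fin N) := by
    obtain ⟨c, -⟩ := h1 x₁ hx₁
    exact ⟨c⟩
  obtain ⟨δ, cc, jj, ℓ, hδ, h3, h4⟩ := labels_of_levels (D := D)
    (Φ := fun (q : Q) (c : Fin N) (g : G) => Φ q c.succ g) (fun j => LQ_comap Fin.succ (L j))
    t hlam hC hCU hSC hfc hfi hfe h1 h2
  refine ⟨δ, fun x => (cc x).succ, jj, ℓ, hδ, fun x _ => Fin.succ_ne_zero _, ?_, ?_⟩
  · intro x hx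
    obtain ⟨j, hj, h5⟩ := h3 x hx
    refine ⟨j, hj, fun a => ?_⟩
    obtain ⟨h6, h7, h8⟩ := h5 a
    exact ⟨congrArg Fin.succ h6, h7, h8⟩
  · intro x hx x' hx' hd hc
    exact h4 x hx x' hx' hd (Fin.succ_injective _ hc)

end cell

end Pool.Agent.HSF
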