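import Pool.Agent.HSF.E2
import Pool.Agent.HSF.EC0

/-!
# Row EC: the invariant map and the labels near a generic fibre, with cells
-/

set_option autoImplicit false
set_option linter.unusedSectionVars false
set_option linter.unusedVariables false

open Set MeasureTheory Metric Filter Topology
open scoped NNReal ENNReal

namespace Pool.Agent.HSF

open Pool.Agent.Helper83.TF Pool.Agent.Helper3.HS

/-! ### The distance of an orbit from the hyperplanes -/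

section orb

variable {n : ℕ} {G : Type*} [Group G] [TopologicalSpace G] [IsTopologicalGroup G]
  [CompactSpace G]

/-- The distance of the orbit of `x` from the hyperplanes. -/
noncomputable def orb (g : G → (Fin n → ℝ) → (Fin n → ℝ)) (T : Fin n → Finset ℝ)
    (x : Fin n → ℝ) : ℝ :=
  sInf ((fun a : G => infDist (g a x) (hyps T)) '' univ)

variable {g : G → (Fin n → ℝ) → (Fin n → ℝ)}

theorem continuous_orb (hg : Continuous fun q : G × (Fin n → ℝ) => g q.1 q.2)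
    (T : Fin n → Finset ℝ) : Continuous (orb g T) := by
  apply IsCompact.continuous_sInf isCompact_univ
  have h1 : Continuous fun q : (Fin n → ℝ) × G => g q.2 q.1 :=
    hg.comp (by fun_prop : Continuous fun q : (Fin n → ℝ) × G => ((q.2, q.1) : G × (Fin n → ℝ)))
  exact (continuous_infDist_pt (hyps T)).comp h1

theorem orb_le (hg : Continuous fun q : G × (Fin n → ℝ) => g q.1 q.2) (T : Fin n → Finset ℝ)
    (x : Fin n → ℝ) (a : G) (i : Fin n) {τ : ℝ} (hτ : τ ∈ T i) : orb g T x ≤ |g a x i - τ| := by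
  have h1 : Continuous fun a : G => infDist (g a x) (hyps T) :=
    (continuous_infDist_pt (hyps T)).comp
      (hg.comp (by fun_prop : Continuous fun a : G => ((a, x) : G × (Fin n → ℝ))))
  have h2 : orb g T x ≤ infDist (g a x) (hyps T) :=
    csInf_le (isCompact_univ.image h1).bddBelow ⟨a, mem_univ _, rfl⟩
  have h3 : Function.update (g a x) i τ ∈ hyps T := ⟨i, τ, hτ, by simp⟩
  have h4 := infDist_le_dist_of_mem h3 (x := g a x)
  have h5 : dist (g a x) (Function.update (g a x) i τ) ≤ |g a x i - τ| := by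
    rw [dist_pi_le_iff (abs_nonneg _)]
    intro j
    by_cases hj : j = i
    · subst hj
      rw [Function.update_self, Real.dist_eq]
    · rw [Function.update_of_ne hj, dist_self]
      exact abs_nonneg _
  linarith

theorem exists_of_orb [Nonempty (Fin n)] {T : Fin n → Finset ℝ} (hT : ∀ i, (T i).Nonempty)
    (hg : Continuous fun q : G × (Fin n → ℝ) => g q.1 q.2) {x : Fin n → ℝ}
    (h : orb g T x ≤ 0) : ∃ (a : G) (i : Fin n) (τ : ℝ), ∃ _ : τ ∈ T i, g a x i = τ := by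
  have h1 : Continuous fun a : G => infDist (g a x) (hyps T) :=
    (continuous_infDist_pt (hyps T)).comp
      (hg.comp (by fun_prop : Continuous fun a : G => ((a, x) : G × (Fin n → ℝ))))
  obtain ⟨a, -, ha⟩ := isCompact_univ.exists_sInf_image_eq (univ_nonempty (α := G))
    h1.continuousOn
  have h2 : infDist (g a x) (hyps T) ≤ 0 := by
    rw [← ha]
    exact h
  have hne : (hyps T).Nonempty := by
    obtain ⟨i⟩ := ‹Nonempty (Fin n)›
    obtain ⟨τ, hτ⟩ := hT i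
    exact ⟨fun _ => τ, i, τ, hτ, rfl⟩
  have h3 : g a x ∈ hyps T := by
    rw [(isClosed_hyps T).mem_iff_infDist_zero hne]
    exact le_antisymm h2 infDist_nonneg
  obtain ⟨i, τ, hτ, h4⟩ := h3
  exact ⟨a, i, τ, hτ, h4⟩

theorem orb_inv (D : GM G (Fin n → ℝ)) (T : Fin n → Finset ℝ) (b : G) {x : Fin n → ℝ}
    (hx : x ∈ D.U) : orb D.g T (D.g b x) = orb D.g T x := by
  unfold orb
  congr 1
  ext v
  simp only [image_univ, mem_range]
  constructor
  · rintro ⟨a, rfl⟩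
    exact ⟨a * b, by rw [D.hgmul _ _ x hx]⟩
  · rintro ⟨a, rfl⟩
    refine ⟨a * b⁻¹, ?_⟩
    rw [← D.hgmul _ _ x hx, inv_mul_cancel_right]

/-- Fine grids with prescribed hyperplanes. -/
theorem exists_grid {P : Fin n → ℝ → Prop}
    (hP : ∀ i, ∀ u v : ℝ, u < v → ∃ τ, u < τ ∧ τ < v ∧ P i τ) (c : Fin n → ℝ) {s η : ℝ}
    (hs : 0 < s) (hη : 0 < η) : ∃ T : Fin n → Finset ℝ, (∀ i, (T i).Nonempty) ∧
      (∀ i, ∀ τ ∈ T i, P i τ) ∧ ∀ i, ∀ u v : ℝ, c i - s ≤ u → v ≤ c i + s → u + η ≤ v →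
        ∃ τ ∈ T i, u < τ ∧ τ < v := by
  classical
  have h1 : ∀ (i : Fin n) (m : ℕ), ∃ τ, c i - s + m * (η / 2) < τ ∧
      τ < c i - s + (m + 1) * (η / 2) ∧ P i τ := by
    intro i m
    apply hP
    nlinarith
  choose τ h2 h3 h4 using h1
  refine ⟨fun i => (Finset.range (⌈2 * s / (η / 2)⌉₊ + 1)).image (τ i), ?_, ?_, ?_⟩
  · intro i
    exact ⟨τ i 0, Finset.mem_image.mpr ⟨0, by simp, rfl⟩⟩
  · intro i t ht
    obtain ⟨m, -, rfl⟩ := Finset.mem_image.mp ht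
    exact h4 i m
  · intro i u v hu hv huv
    have h5 : 0 ≤ (u - (c i - s)) / (η / 2) := div_nonneg (by linarith) (by linarith)
    set m : ℕ := ⌈(u - (c i - s)) / (η / 2)⌉₊ with hm
    have h6 : (u - (c i - s)) / (η / 2) ≤ m := Nat.le_ceil _
    have h7 : (m : ℝ) < (u - (c i - s)) / (η / 2) + 1 := Nat.ceil_lt_add_one h5
    have h8 : u - (c i - s) ≤ m * (η / 2) := by
      rwa [div_le_iff₀ (by linarith)] at h6
    have h9 : m * (η / 2) < u - (c i - s) + η / 2 := by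
      have h10 := mul_lt_mul_of_pos_right h7 (by linarith : 0 < η / 2)
      rw [add_mul, div_mul_cancel₀ _ (by linarith : η / 2 ≠ 0), one_mul] at h10
      exact h10
    refine ⟨τ i m, Finset.mem_image.mpr ⟨m, ?_, rfl⟩, ?_, ?_⟩
    · rw [Finset.mem_range]
      have h11 : m ≤ ⌈2 * s / (η / 2)⌉₊ := by
        apply Nat.ceil_le_ceil
        apply div_le_div_of_nonneg_right _ (by linarith : 0 ≤ η / 2)
        linarith
      omega
    · have := h2 i m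
      linarith
    · have := h3 i m
      have h12 : (m + 1 : ℝ) * (η / 2) = m * (η / 2) + η / 2 := by ring
      rw [h12] at this
      linarith

end orb

/-! ### The label theorem -/

open h83 in
/-- **Labels with cells.** Every point of `U` is fixed by `G₂`, or has small stabiliser, or is fixed
by one of countably many open subgroups whose fixed point sets have empty interior. The slices of
`U` are thin. -/
theorem exists_LBC {n : ℕ} {G : Type*} [Group G] [TopologicalSpace G]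
    [IsTopologicalGroup G] [CompactSpace G] [MeasurableSpace G] [BorelSpace G] (ν : Measure G)
    [ν.IsHaarMeasure] [IsProbabilityMeasure ν] (L : LG n G) {p r D : ℕ} [Fact p.Prime]
    {k : Type*} [CommRing k] (E : GR0 G p r k) (w : Fin (D + 1) → (Fin r → k))
    {ιN : Type*} [Countable ιN] (N : ιN → Subgroup G) (hNo : ∀ j, IsOpen (N j : Set G))
    (hNi : ∀ j, interior {x | x ∈ L.U ∧ ∀ a ∈ N j, L.g a x = x} = ∅)
    (hgood : ∀ z ∈ L.U, (∀ g ∈ E.G₂, L.g g z = z) ∨ (∃ Ξ : Fin (D + 1) → (Fin r → k),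
      (∀ c, ∀ g, L.g g z = z → ∑ i, Ξ c i * E.χ g i = 0) ∧
      ∀ c j : Fin (D + 1), ∑ i, Ξ c i * w j i = if c = j then 1 else 0) ∨
      ∃ j, ∀ a ∈ N j, L.g a z = z)
    (hfin : ∀ z ∈ L.U, (∀ g ∈ E.G₂, L.g g z = z) → (∃ g, L.g g z ≠ z) → ∃ η : G → ZMod p,
      (∀ g h, η (g * h) = η g + η h) ∧ (∀ g, L.g g z = z → η g = 0) ∧ (∀ g ∈ E.G₂, η g = 0) ∧
      ∃ g, η g ≠ 0)
    {Y : Type*} [MetricSpace Y] (Λ : G → (Fin n → ℝ) → Y)
    (hΛc : ContinuousOn (fun q : G × (Fin n → ℝ) => Λ q.1 q.2) (univ ×ˢ closedBall L.c L.s))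
    (hΛ : ∀ a b, ∀ u ∈ L.U, Λ a (L.g b u) = Λ (a * b) u) (hinj : InjOn (Λ 1) L.U)
    (hthin : ThinAe ν Λ D L.U)
    {y₀ : Fin n → ℝ} (hy₀ : dist y₀ L.c ≤ L.s / 16) (hfix : ∃ a, L.g a y₀ ≠ y₀) :
    Nonempty (LB2 L E w) := by
  classical
  have hn : Nonempty (Fin n) := by
    by_contra hcon
    rw [not_nonempty_iff] at hcon
    obtain ⟨a, ha⟩ := hfix
    exact ha (Subsingleton.elim _ _)
  have hs := L.hs
  set M := gm L with hM
  have hMU : M.U = L.U := rfl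
  have hMg : M.g = L.g := rfl
  -- the first scale
  obtain ⟨a₀, ha₀⟩ := hfix
  obtain ⟨ε₁, hε₁, hε₁s, hmv⟩ : ∃ ε₁ : ℝ, 0 < ε₁ ∧ 4 * ε₁ ≤ L.s / 16 ∧
      ∀ x ∈ closedBall y₀ (4 * ε₁), M.g a₀ x ≠ x := by
    have h1 : ∀ᶠ x in 𝓝 y₀, M.g a₀ x ≠ x := by
      have h2 : ContinuousAt (fun x => (M.g a₀ x, x)) y₀ :=
        ((M.hg a₀).prodMk continuous_id).continuousAt
      exact h2.eventually_mem (isClosed_diagonal.isOpen_compl.mem_nhds (fun h => ha₀ h))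
    obtain ⟨s, hs', hball⟩ := Metric.eventually_nhds_iff_ball.mp h1
    refine ⟨min (s / 8) (L.s / 64), lt_min (by positivity) (by positivity), ?_, ?_⟩
    · have := min_le_right (s / 8) (L.s / 64)
      linarith
    · intro x hx
      apply hball
      rw [mem_closedBall] at hx
      rw [mem_ball]
      have := min_le_left (s / 8) (L.s / 64)
      linarith
  -- the average
  set F₀ : (Fin n → ℝ) → (Fin n → ℝ) := avM M ν (fun v => v) with hF₀
  have hF₀c : Continuous F₀ := avM_continuous_id L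
  have hF₀i : InvM M F₀ := avM_inv _
  have hF₀d : ∀ x, dist (F₀ x) x ≤ L.s / 16 := avM_dist L
  have hF₀f : ∀ x ∈ M.U, (∀ a, M.g a x = x) → F₀ x = x := by
    intro x hx hfx
    have h1 : ‖F₀ x - x‖ ≤ 0 := norm_avM_sub_le continuousOn_id hx fun a => by
      rw [hfx a]
      simp
    exact sub_eq_zero.mp (norm_le_zero_iff.mp h1)
  have hball : ∀ x, dist x L.c ≤ L.s / 2 → x ∈ M.U := fun x hx => L.hball hx
  have hballF : ∀ x {δ : ℝ}, dist (F₀ x) y₀ ≤ δ → dist x L.c ≤ L.s / 8 + δ := by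
    intro x δ hx
    have h1 := hF₀d x
    rw [dist_comm] at h1
    have h2 := dist_triangle x (F₀ x) L.c
    have h3 := dist_triangle (F₀ x) y₀ L.c
    linarith
  set C₀ : Set (Fin n → ℝ) := {x | dist (F₀ x) y₀ ≤ 3 * ε₁} with hC₀
  have hC₀U : C₀ ⊆ M.U := by
    intro x hx
    have h1 : dist (F₀ x) y₀ ≤ 3 * ε₁ := hx
    have h2 := hballF x h1
    apply hball
    linarith
  have hC₀cl : IsClosed C₀ := isClosed_le (hF₀c.dist continuous_const) continuous_const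
  have hC₀c : IsCompact C₀ := by
    apply (isCompact_closedBall L.c (L.s / 2)).of_isClosed_subset hC₀cl
    intro x hx
    have h1 : dist (F₀ x) y₀ ≤ 3 * ε₁ := hx
    have h2 := hballF x h1
    rw [mem_closedBall]
    linarith
  have hC₀i : ∀ a, ∀ x ∈ C₀, M.g a x ∈ C₀ := by
    intro a x hx
    change dist (F₀ (M.g a x)) y₀ ≤ 3 * ε₁
    rw [hF₀i a x (hC₀U hx)]
    exact hx
  have hC₀m : ∀ x ∈ C₀, ∃ a, M.g a x ≠ x := by
    intro x hx
    by_contra hcon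
    push Not at hcon
    have h1 := hF₀f x (hC₀U hx) hcon
    have h2 : dist (F₀ x) y₀ ≤ 3 * ε₁ := hx
    rw [h1] at h2
    exact hmv x (by rw [mem_closedBall]; linarith) (hcon a₀)
  -- the fixed points of `G₂`
  set F2 : Set (Fin n → ℝ) := {x | ∀ a ∈ E.G₂, M.g a x = x} with hF2
  have hF2c : IsClosed F2 := by
    have h1 : F2 = ⋂ a ∈ E.G₂, {x | M.g a x = x} := by
      ext x
      simp only [hF2, mem_iInter]
      rfl
    rw [h1]
    exact isClosed_biInter fun a _ => isClosed_eq (M.hg a) continuous_id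
  have hF2i : ∀ a, ∀ x ∈ M.U, x ∈ F2 → M.g a x ∈ F2 := by
    intro a x hxU hx b hb
    rw [← M.hgmul _ _ x hxU]
    have h1 : b * a = a * (a⁻¹ * b * a) := by group
    rw [h1, M.hgmul _ _ x hxU]
    congr 1
    apply hx
    have h2 := E.normal.conj_mem b hb a⁻¹
    rwa [inv_inv] at h2
  have hF2i' : ∀ a, ∀ x ∈ M.U, M.g a x ∈ F2 → x ∈ F2 := by
    intro a x hxU hx
    have h1 := hF2i a⁻¹ _ (M.hgU a x hxU) hx
    rwa [M.inv a hxU] at h1
  set B : Set (Fin n → ℝ) := C₀ ∩ F2 with hB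
  have hBc : IsCompact B := hC₀c.inter_right hF2c
  have hBU : B ⊆ M.U := inter_subset_left.trans hC₀U
  -- labels on `B`
  let Φ₁ : (G → ZMod p) → Unit → G → ZMod p := fun q _ g => q g
  obtain ⟨M₁, L₁, hL₁P, hL₁⟩ := exists_coverQ (D := M) (Φ := Φ₁) hBc hBU
    (fun q => (∀ g h, q (g * h) = q g + q h) ∧ (∀ g ∈ E.G₂, q g = 0) ∧ ∃ g, q g ≠ 0) E.isOpen
    (fun z hz => by
      obtain ⟨η, h1, h2, h3, h4⟩ := hfin z (hBU hz) hz.2 (hC₀m z hz.1)
      exact ⟨η, ⟨h1, h3, h4⟩, fun _ => h1, fun _ => h3, fun a ha _ => h2 a ha⟩)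
  set f₁ : Fin M₁ → (Fin n → ℝ) → ℝ := fun j => avM M ν (bumpM (L₁ j).z (L₁ j).ρ) with hf₁
  have hf₁c : ∀ j, ContinuousOn (f₁ j) M.U := fun j =>
    avM_continuousOn (bumpM_continuous _ _).continuousOn
  obtain ⟨η₁, hη₁, hη₁B⟩ := exists_lower M.hU hBc hBU hf₁c (fun x hx => by
    obtain ⟨j, hj⟩ := hL₁ x hx
    exact ⟨j, avM_bump_pos (hBU hx) hj⟩)
  have hthin := fun j => exists_thin B (f₁ j) hη₁
  choose t₁ ht₁0 ht₁η ht₁ using hthin
  -- the set on which the map has to be moved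
  set Z₀ : Set (Fin n → ℝ) := B ∩ (interior F2)ᶜ with hZ₀
  have hZ₀c : IsCompact Z₀ := hBc.inter_right isOpen_interior.isClosed_compl
  have hZ₀U : Z₀ ⊆ M.U := inter_subset_left.trans hBU
  have hZ₀i : interior Z₀ = ∅ := by
    apply eq_empty_of_forall_notMem
    intro x hx
    have h1 : x ∈ interior F2 := interior_mono (inter_subset_left.trans inter_subset_right) hx
    exact (interior_subset hx).2 h1
  set Z₁ : Fin M₁ → Set (Fin n → ℝ) := fun j => {x | x ∈ B ∧ f₁ j x = t₁ j} with hZ₁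
  have hZ₁c : ∀ j, IsCompact (Z₁ j) := by
    intro j
    have h1 : Z₁ j = B ∩ f₁ j ⁻¹' {t₁ j} := rfl
    rw [h1]
    exact hBc.of_isClosed_subset (((hf₁c j).mono hBU).preimage_isClosed_of_isClosed hBc.isClosed
      isClosed_singleton) inter_subset_left
  have hZ₁U : ∀ j, Z₁ j ⊆ M.U := fun j x hx => hBU hx.1
  -- the pairing with the characters
  let Φ₂ : (Fin (D + 1) → Fin r → k) → Fin (D + 1) → G → k := fun q c g => ∑ i, q c i * E.χ g i
  have hΦ₂ : ∀ q c g h, Φ₂ q c (g * h) = Φ₂ q c g + Φ₂ q c h := by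
    intro q c g h
    simp only [Φ₂]
    rw [E.χmul, ← Finset.sum_add_distrib]
    exact Finset.sum_congr rfl fun i _ => by rw [Pi.add_apply, mul_add]
  have hΦ₂0 : ∀ q c, ∀ g ∈ E.G₂, Φ₂ q c g = 0 := by
    intro q c g hg
    simp only [Φ₂]
    rw [E.ker g hg]
    simp
  -- the points with small stabiliser form an open set
  set Ok : Set (Fin n → ℝ) := {z | z ∈ M.U ∧ ∃ Ξ : Fin (D + 1) → (Fin r → k),
      (∀ c, ∀ g, M.g g z = z → ∑ i, Ξ c i * E.χ g i = 0) ∧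
      ∀ c j : Fin (D + 1), ∑ i, Ξ c i * w j i = if c = j then 1 else 0} with hOk
  have hOko : IsOpen Ok := by
    rw [isOpen_iff_mem_nhds]
    rintro z ⟨hzU, Ξ, h1, h2⟩
    obtain ⟨Lz, hLz, hLq⟩ := exists_LQ (D := M) (Φ := Φ₂) hzU Ξ (hΦ₂ Ξ) E.isOpen (hΦ₂0 Ξ)
      (fun a ha c => h1 c a ha)
    have h3 : ball z (2 * Lz.ρ) ∈ 𝓝 z := ball_mem_nhds z (by linarith [Lz.hρ])
    filter_upwards [h3] with x hx
    rw [← hLz] at hx
    refine ⟨Lz.hU (ball_subset_closedBall hx), Ξ, fun c g hg => ?_, h2⟩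
    have h4 := Lz.ker g x hx (by rw [hg]; exact hx) c
    rw [hLq] at h4
    exact h4
  set Z₃ : ιN → Set (Fin n → ℝ) := fun j =>
    C₀ ∩ Okᶜ ∩ (interior F2)ᶜ ∩ {x | ∀ a ∈ N j, M.g a x = x} with hZ₃
  have hZ₃c : ∀ j, IsCompact (Z₃ j) := by
    intro j
    have h1 : {x | ∀ a ∈ N j, M.g a x = x} = ⋂ a ∈ N j, {x | M.g a x = x} := by
      ext x
      simp only [mem_iInter]
      rfl
    have h2 : IsClosed {x | ∀ a ∈ N j, M.g a x = x} := by
      rw [h1]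
      exact isClosed_biInter fun a _ => isClosed_eq (M.hg a) continuous_id
    exact ((hC₀c.inter_right hOko.isClosed_compl).inter_right
      isOpen_interior.isClosed_compl).inter_right h2
  have hZ₃U : ∀ j, Z₃ j ⊆ M.U := fun j x hx => hC₀U hx.1.1.1
  have hZ₃i : ∀ j, interior (Z₃ j) = ∅ := by
    intro j
    have h1 : Z₃ j ⊆ {x | x ∈ L.U ∧ ∀ a ∈ N j, L.g a x = x} := fun x hx =>
      ⟨hZ₃U j hx, hx.2⟩
    have h2 := interior_mono h1
    rw [hNi j] at h2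
    exact subset_empty_iff.mp h2
  set Z₂ : Set (Fin n → ℝ) := C₀ ∩ Okᶜ ∩ (interior F2)ᶜ with hZ₂
  have hZ₂c : IsCompact Z₂ := (hC₀c.inter_right hOko.isClosed_compl).inter_right
    isOpen_interior.isClosed_compl
  have hZ₂sub : Z₂ ⊆ Z₀ ∪ ⋃ j, Z₃ j := by
    rintro x ⟨⟨hx1, hx2⟩, hx3⟩
    rcases hgood x (hC₀U hx1) with h | ⟨Ξ, h⟩ | ⟨j, h⟩
    · exact Or.inl ⟨⟨hx1, h⟩, hx3⟩
    · exact (hx2 ⟨hC₀U hx1, Ξ, h⟩).elim
    · exact Or.inr (mem_iUnion.mpr ⟨j, ⟨⟨hx1, hx2⟩, hx3⟩, h⟩)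
  have hMv₀ : MvM M y₀ Z₀ :=
    mvM_fin M y₀ E.isOpen hZ₀c hZ₀U hZ₀i (fun x hx a ha => hx.1.2 a ha)
  have hMv₂ : MvM M y₀ Z₂ := by
    refine MvM.mono ?_ hZ₂sub
    apply MvM.union hZ₀c hZ₀U hMv₀
    apply mvM_iUnion_countable hZ₃c hZ₃U
    intro j
    exact mvM_fin M y₀ (hNo j) (hZ₃c j) (hZ₃U j) (hZ₃i j) (fun x hx a ha => hx.2 a ha)
  set Z : Set (Fin n → ℝ) := Z₀ ∪ ((⋃ j, Z₁ j) ∪ Z₂) with hZ
  have hZc : IsCompact Z := hZ₀c.union ((isCompact_iUnion hZ₁c).union hZ₂c)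
  have hZC₀ : Z ⊆ C₀ := union_subset (inter_subset_left.trans inter_subset_left)
    (union_subset (iUnion_subset fun j x hx => hx.1.1) fun x hx => hx.1.1)
  have hZU : Z ⊆ M.U := hZC₀.trans hC₀U
  have hMv : MvM M y₀ Z := by
    apply MvM.union hZ₀c hZ₀U hMv₀
    apply MvM.union (isCompact_iUnion hZ₁c) (iUnion_subset hZ₁U) _ hMv₂
    apply MvM.iUnion hZ₁c hZ₁U
    intro j
    exact mvM_fin M y₀ E.isOpen (hZ₁c j) (hZ₁U j) (ht₁ j) (fun x hx a ha => hx.1.2 a ha)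
  obtain ⟨ψ, hψc, hψi, hψε, hψZ⟩ := hMv F₀ hF₀c.continuousOn (ε₁ / 4) (by positivity)
  obtain ⟨γ₀, hγ₀, hγ₀Z⟩ := exists_gap hZc (hF₀c.add hψc).continuousOn (y := y₀) hψZ
  -- Lipschitz functions on `Y`
  have hΛ1 : ContinuousOn (Λ 1) M.U := by
    have h1 : Continuous (fun x : Fin n → ℝ => ((1, x) : G × (Fin n → ℝ))) := by fun_prop
    exact hΛc.comp h1.continuousOn (fun x hx => ⟨mem_univ _, L.hUc hx⟩)
  have hΛ1C₀ : ContinuousOn (Λ 1) C₀ := hΛ1.mono hC₀U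
  have hinjC₀ : InjOn (Λ 1) C₀ := hinj.mono hC₀U
  have hγ'0 : 0 < min (ε₁ / 4) γ₀ := lt_min (by positivity) hγ₀
  have hex := fun i : Fin n => exists_lip_comp hC₀c hΛ1C₀ hinjC₀ (h := fun x => x i + ψ x i)
    (by fun_prop) hγ'0
  choose H₁ K₁ hH₁ hH₁d using hex
  have hH₁c : ∀ i, ContinuousOn (fun v => H₁ i (Λ 1 v)) M.U := fun i =>
    (hH₁ i).continuous.comp_continuousOn hΛ1
  set Fp : (Fin n → ℝ) → (Fin n → ℝ) := fun x i => avM M ν (fun v => H₁ i (Λ 1 v)) x with hFp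
  have hFpc : ContinuousOn Fp M.U := continuousOn_pi.mpr fun i => avM_continuousOn (hH₁c i)
  have hFpi : ∀ a, ∀ x ∈ M.U, Fp (M.g a x) = Fp x := by
    intro a x hx
    funext i
    exact avM_inv (D := M) (ν := ν) (fun v => H₁ i (Λ 1 v)) a x hx
  have hFpd : ∀ x ∈ C₀, ‖Fp x - (F₀ x + ψ x)‖ ≤ min (ε₁ / 4) γ₀ := by
    intro x hx
    have hxU := hC₀U hx
    rw [pi_norm_le_iff_of_nonneg hγ'0.le]
    intro i
    have h1 : (F₀ x + ψ x) i = avM M ν (fun v => v i + ψ v i) x := by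
      rw [avM_add (φ := fun v : Fin n → ℝ => v i) (ψ := fun v => ψ v i) (by fun_prop)
        (by fun_prop) hxU]
      rw [Pi.add_apply]
      congr 1
      · rw [hF₀]
        unfold avM
        rw [eval_integral]
        intro i
        exact integrable_avM (D := M) (φ := fun v : Fin n → ℝ => v i) (by fun_prop) hxU
      · unfold avM
        have h2 : (fun a : G => ψ (M.g a⁻¹ x) i) = fun _ => ψ x i := by
          funext a
          rw [hψi _ x hxU]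
        rw [h2]
        simp
    rw [Pi.sub_apply, h1]
    apply avM_sub_le (hH₁c i) (by fun_prop) hxU
    intro a
    rw [Real.norm_eq_abs]
    exact hH₁d i _ (hC₀i a x hx)
  have hFpF₀ : ∀ x ∈ C₀, ‖Fp x - F₀ x‖ ≤ ε₁ / 2 := by
    intro x hx
    have h1 : Fp x - F₀ x = (Fp x - (F₀ x + ψ x)) + ψ x := by abel
    rw [h1]
    have h2 := norm_add_le (Fp x - (F₀ x + ψ x)) (ψ x)
    have h3 := (hFpd x hx).trans (min_le_left _ _)
    have h4 := hψε x
    linarith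
  -- the cut-off
  set cut : (Fin n → ℝ) → ℝ := fun x => max 0 (min 1 ((3 * ε₁ - dist (F₀ x) y₀) / ε₁)) with hcut
  have hcutc : Continuous cut := by
    have h1 : Continuous fun x => dist (F₀ x) y₀ := hF₀c.dist continuous_const
    exact continuous_const.max (continuous_const.min ((continuous_const.sub h1).div_const _))
  have hcut0 : ∀ x, 0 ≤ cut x := fun x => le_max_left _ _
  have hcut1 : ∀ x, cut x ≤ 1 := fun x => max_le zero_le_one (min_le_left _ _)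
  have hcutout : ∀ x, x ∉ C₀ → cut x = 0 := by
    intro x hx
    have h1 : 3 * ε₁ < dist (F₀ x) y₀ := not_le.mp hx
    have h2 : (3 * ε₁ - dist (F₀ x) y₀) / ε₁ ≤ 0 := div_nonpos_of_nonpos_of_nonneg (by linarith) hε₁.le
    exact max_eq_left ((min_le_right _ _).trans h2)
  have hcutin : ∀ x, dist (F₀ x) y₀ ≤ 2 * ε₁ → cut x = 1 := by
    intro x hx
    have h2 : 1 ≤ (3 * ε₁ - dist (F₀ x) y₀) / ε₁ := by
      rw [le_div_iff₀ hε₁]
      linarith
    simp only [hcut]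
    rw [min_eq_left h2, max_eq_right zero_le_one]
  set F : (Fin n → ℝ) → (Fin n → ℝ) := fun x => F₀ x + cut x • (Fp x - F₀ x) with hF
  have hFout : ∀ x, x ∉ C₀ → F x = F₀ x := by
    intro x hx
    simp only [hF]
    rw [hcutout x hx, zero_smul, add_zero]
  have hFin : ∀ x, dist (F₀ x) y₀ ≤ 2 * ε₁ → F x = Fp x := by
    intro x hx
    simp only [hF]
    rw [hcutin x hx, one_smul, add_sub_cancel]
  have hFc : Continuous F := by
    rw [continuous_iff_continuousAt]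
    intro x
    by_cases hx : x ∈ C₀
    · have hxU := M.hU.mem_nhds (hC₀U hx)
      exact hF₀c.continuousAt.add (hcutc.continuousAt.smul
        ((hFpc.continuousAt hxU).sub hF₀c.continuousAt))
    · have h1 : F =ᶠ[𝓝 x] F₀ := by
        filter_upwards [hC₀cl.isOpen_compl.mem_nhds hx] with z hz
        exact hFout z hz
      exact hF₀c.continuousAt.congr h1.symm
  have hFF₀ : ∀ x, dist (F x) (F₀ x) ≤ ε₁ / 2 := by
    intro x
    by_cases hx : x ∈ C₀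
    · rw [dist_eq_norm]
      simp only [hF]
      rw [add_sub_cancel_left, norm_smul, Real.norm_of_nonneg (hcut0 x)]
      have h1 := mul_le_mul (hcut1 x) (hFpF₀ x hx) (norm_nonneg _) zero_le_one
      linarith
    · rw [hFout x hx, dist_self]
      positivity
  have hFi : ∀ a, ∀ x ∈ M.U, F (M.g a x) = F x := by
    intro a x hx
    simp only [hF, hcut]
    rw [hF₀i a x hx, hFpi a x hx]
  have hFd : ∀ x, dist (F x) x ≤ L.s / 8 := by
    intro x
    have := dist_triangle (F x) (F₀ x) x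
    have := hFF₀ x
    have := hF₀d x
    linarith
  have hFZ : ∀ x ∈ Z, min (3 * γ₀) (3 * ε₁ / 2) ≤ dist (F x) y₀ := by
    intro x hx
    by_cases h : dist (F₀ x) y₀ ≤ 2 * ε₁
    · apply (min_le_left _ _).trans
      rw [hFin x h]
      have h1 : 4 * γ₀ ≤ dist (F₀ x + ψ x) y₀ := hγ₀Z x hx
      have h2 := (hFpd x (hZC₀ hx)).trans (min_le_right _ _)
      rw [← dist_eq_norm] at h2
      have h3 := dist_triangle_left (F₀ x + ψ x) y₀ (Fp x)
      linarith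
    · push Not at h
      apply (min_le_right _ _).trans
      have h1 := hFF₀ x
      have h3 := dist_triangle_left (F₀ x) y₀ (F x)
      linarith
  -- the neighbourhood of the fibre
  set γ : ℝ := min γ₀ ε₁ with hγ
  have hγ0 : 0 < γ := lt_min hγ₀ hε₁
  have hγγ₀ : γ ≤ γ₀ := min_le_left _ _
  have hγε₁ : γ ≤ ε₁ := min_le_right _ _
  set C₁ : Set (Fin n → ℝ) := {x | dist (F x) y₀ ≤ γ} with hC₁
  have hC₁in : ∀ x ∈ C₁, dist (F₀ x) y₀ ≤ 2 * ε₁ := by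
    intro x hx
    have h1 := hFF₀ x
    have h2 : dist (F x) y₀ ≤ γ := hx
    have h3 := dist_triangle_left (F₀ x) y₀ (F x)
    linarith
  have hC₁C₀ : C₁ ⊆ C₀ := by
    intro x hx
    have h1 := hC₁in x hx
    change dist (F₀ x) y₀ ≤ 3 * ε₁
    linarith
  have hC₁cl : IsClosed C₁ := isClosed_le (hFc.dist continuous_const) continuous_const
  have hC₁c : IsCompact C₁ := hC₀c.of_isClosed_subset hC₁cl hC₁C₀
  have hC₁U : C₁ ⊆ M.U := hC₁C₀.trans hC₀U
  have hC₁F : ∀ x ∈ C₁, F x = Fp x := fun x hx => hFin x (hC₁in x hx)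
  have hC₁Z : ∀ x ∈ C₁, x ∉ Z := by
    intro x hx hxZ
    have h1 := hFZ x hxZ
    have h2 : dist (F x) y₀ ≤ γ := hx
    rcases le_total (3 * γ₀) (3 * ε₁ / 2) with h | h
    · rw [min_eq_left h] at h1
      linarith
    · rw [min_eq_right h] at h1
      linarith
  have hC₁F2 : ∀ x ∈ C₁, x ∈ F2 → x ∈ interior F2 := by
    intro x hx hx2
    by_contra hcon
    exact hC₁Z x hx (Or.inl ⟨⟨hC₁C₀ hx, hx2⟩, hcon⟩)
  have hC₁t : ∀ x ∈ C₁, x ∈ F2 → ∀ j, f₁ j x ≠ t₁ j := by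
    intro x hx hx2 j heq
    exact hC₁Z x hx (Or.inr (Or.inl (mem_iUnion.mpr ⟨j, ⟨hC₁C₀ hx, hx2⟩, heq⟩)))
  have hC₁Ok : ∀ x ∈ C₁, x ∉ F2 → x ∈ Ok := by
    intro x hx hx2
    by_contra hcon
    exact hC₁Z x hx (Or.inr (Or.inr ⟨⟨hC₁C₀ hx, hcon⟩, fun h => hx2 (interior_subset h)⟩))
  -- the good part
  set CG : Set (Fin n → ℝ) := C₁ \ F2 with hCG
  have hCGc : IsCompact CG := by
    have h1 : CG = C₁ \ interior F2 := by
      ext x
      constructor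
      · rintro ⟨h1, h2⟩
        exact ⟨h1, fun h3 => h2 (interior_subset h3)⟩
      · rintro ⟨h1, h2⟩
        exact ⟨h1, fun h3 => h2 (hC₁F2 x h1 h3)⟩
    rw [h1]
    exact hC₁c.diff isOpen_interior
  have hCGU : CG ⊆ M.U := sdiff_subset.trans hC₁U
  obtain ⟨M₂, L₂, hL₂P, hL₂⟩ := exists_coverQ (D := M) (Φ := Φ₂) hCGc hCGU
    (fun Ξ => ∀ c j : Fin (D + 1), ∑ i, Ξ c i * w j i = if c = j then 1 else 0) E.isOpen
    (fun z hz => by
      obtain ⟨-, Ξ, h2, h3⟩ := hC₁Ok z hz.1 hz.2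
      exact ⟨Ξ, h3, hΦ₂ Ξ, hΦ₂0 Ξ, fun a ha c => h2 c a ha⟩)
  -- the grid
  obtain ⟨lb, hlb, hlbC⟩ : ∃ lb : ℝ, 0 < lb ∧ ∀ x ∈ CG, ∃ j, ball x lb ⊆
      ball (L₂ j).z (L₂ j).ρ := by
    obtain ⟨lb, hlb, h⟩ := lebesgue_number_lemma_of_metric hCGc
      (c := fun j => ball (L₂ j).z (L₂ j).ρ) (fun j => isOpen_ball) (fun x hx => by
        obtain ⟨j, hj⟩ := hL₂ x hx
        exact mem_iUnion.mpr ⟨j, hj⟩)
    exact ⟨lb, hlb, h⟩
  set f₃ : Fin M₂ → (Fin n → ℝ) → ℝ := fun j => avM M ν (bumpM (L₂ j).z (L₂ j).ρ) with hf₃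
  have hf₃c : ∀ j, ContinuousOn (f₃ j) M.U := fun j =>
    avM_continuousOn (bumpM_continuous _ _).continuousOn
  obtain ⟨η, hη, hηG⟩ := exists_lower M.hU hCGc hCGU hf₃c (fun x hx => by
    obtain ⟨j, hj⟩ := hL₂ x hx
    exact ⟨j, avM_bump_pos (hCGU hx) hj⟩)
  have hex₂ := fun j : Fin M₂ => exists_lip_comp hC₀c hΛ1C₀ hinjC₀
    (h := bumpM (L₂ j).z (L₂ j).ρ) (bumpM_continuous _ _).continuousOn
    (by positivity : 0 < η / 4)
  choose H₂ K₂ hH₂ hH₂d using hex₂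
  have hH₂c : ∀ j, ContinuousOn (fun v => H₂ j (Λ 1 v)) M.U := fun j =>
    (hH₂ j).continuous.comp_continuousOn hΛ1
  set f₂ : Fin M₂ → (Fin n → ℝ) → ℝ := fun j => avM M ν (fun v => H₂ j (Λ 1 v)) with hf₂
  have hf₂c : ∀ j, ContinuousOn (f₂ j) M.U := fun j => avM_continuousOn (hH₂c j)
  have hf₂i : ∀ j, InvM M (f₂ j) := fun j => avM_inv _
  have hf₂₃ : ∀ j, ∀ x ∈ C₀, |f₂ j x - f₃ j x| ≤ η / 4 := by
    intro j x hx
    rw [← Real.norm_eq_abs]
    apply avM_sub_le (hH₂c j) (bumpM_continuous _ _).continuousOn (hC₀U hx)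
    intro a
    rw [Real.norm_eq_abs]
    exact hH₂d j _ (hC₀i a x hx)
  -- the generic values
  have hΛg : ∀ a, ∀ x ∈ M.U, Λ 1 (M.g a⁻¹ x) = Λ a⁻¹ x := by
    intro a x hx
    have h1 := hΛ 1 a⁻¹ x hx
    rwa [one_mul] at h1
  obtain ⟨KK, hKK₁, hKK₂⟩ : ∃ KK : ℝ≥0, (∀ i, K₁ i ≤ KK) ∧ ∀ j, K₂ j ≤ KK := by
    refine ⟨∑ i, K₁ i + ∑ j, K₂ j, fun i => ?_, fun j => ?_⟩
    · exact (Finset.single_le_sum (f := K₁) (fun _ _ => zero_le) (Finset.mem_univ i)).trans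
        le_self_add
    · exact (Finset.single_le_sum (f := K₂) (fun _ _ => zero_le) (Finset.mem_univ j)).trans
        le_add_self
  have hPae : ∀ i, ∀ᵐ τ : ℝ, ∀ κ : Fin D → Fin M₂,
      AvNull ν Λ H₁ (fun c => H₂ (κ c)) {x | x ∈ L.U ∧ x i = τ} := by
    intro i
    rw [ae_all_iff]
    intro κ
    exact hthin H₁ (fun c => H₂ (κ c)) KK (fun i => (hH₁ i).weaken (hKK₁ i))
      (fun c => (hH₂ (κ c)).weaken (hKK₂ (κ c))) i
  obtain ⟨T, hTne, hTthin, hTmesh⟩ := exists_grid (P := fun i τ => ∀ κ : Fin D → Fin M₂,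
      AvNull ν Λ H₁ (fun c => H₂ (κ c)) {x | x ∈ L.U ∧ x i = τ})
    (fun i u v huv => exists_of_ae (hPae i) huv) L.c L.hs hlb
  set θ : (Fin n → ℝ) → ℝ := orb L.g T with hθ
  have hθc : Continuous θ := continuous_orb L.hg T
  have hθi : ∀ a, ∀ x ∈ M.U, θ (M.g a x) = θ x := by
    intro a x hx
    exact orb_inv M T a hx
  let EE := (Fin n → ℝ) × (Fin M₂ → Fin D → ℝ)
  let Lin : ((Fin D → Fin M₂) × (Σ i : Fin n, {τ // τ ∈ T i})) →
      (EE →ₗ[ℝ] (Fin n → ℝ) × (Fin D → ℝ)) := fun κ =>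
    { toFun := fun q => (q.1, fun c => q.2 (κ.1 c) c)
      map_add' := fun _ _ => rfl
      map_smul' := fun _ _ => rfl }
  have hLin : ∀ κ, Function.Surjective (Lin κ) := by
    rintro κ ⟨v, s⟩
    exact ⟨(v, fun _ c => s c), rfl⟩
  have hnul : ∀ κ : (Fin D → Fin M₂) × (Σ i : Fin n, {τ // τ ∈ T i}),
      (Measure.addHaar : Measure ((Fin n → ℝ) × (Fin D → ℝ)))
        ((fun x => ((fun i => ∫ a, H₁ i (Λ a⁻¹ x) ∂ν : Fin n → ℝ),
        (fun c => ∫ a, H₂ (κ.1 c) (Λ a⁻¹ x) ∂ν : Fin D → ℝ))) ''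
          {x | x ∈ L.U ∧ x κ.2.1 = κ.2.2.1}) = 0 := by
    intro κ
    exact hTthin κ.2.1 κ.2.2.1 κ.2.2.2 κ.1
  obtain ⟨⟨y, t⟩, ⟨hyO, htO⟩, hgen⟩ := exists_generic Lin hLin _ hnul
    (O := ball y₀ (γ / 2) ×ˢ {t | ∀ j c, t j c ∈ Ioo (η / 4) (3 * η / 4)}) (by
      apply isOpen_ball.prod
      have h1 : {t : Fin M₂ → Fin D → ℝ | ∀ j c, t j c ∈ Ioo (η / 4) (3 * η / 4)} =
          ⋂ j, ⋂ c, (fun t : Fin M₂ → Fin D → ℝ => t j c) ⁻¹'
            Ioo (η / 4) (3 * η / 4) := by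
        ext t
        simp only [mem_iInter]
        rfl
      rw [h1]
      exact isOpen_iInter_of_finite fun j => isOpen_iInter_of_finite fun c =>
        isOpen_Ioo.preimage (by fun_prop)) (by
      refine ⟨(y₀, fun _ _ => η / 2), mem_ball_self (by positivity), fun j c => ?_⟩
      constructor
      · simp only; linarith
      · simp only; linarith)
  have hyy₀ : dist y y₀ < γ / 2 := hyO
  have ht0 : ∀ j c, η / 4 < t j c := fun j c => (htO j c).1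
  have htη : ∀ j c, t j c < 3 * η / 4 := fun j c => (htO j c).2
  have hC₁i : ∀ a, ∀ x ∈ C₁, M.g a x ∈ C₁ := by
    intro a x hx
    change dist (F (M.g a x)) y₀ ≤ γ
    rw [hFi a x (hC₁U hx)]
    exact hx
  have hgen' : ∀ x ∈ C₁, F x = y → θ x ≤ 0 → ∃ c, ∀ j, f₂ j x ≠ t j c := by
    intro x' hx' heq' hθ'
    obtain ⟨a, i₀, τ, hτ, hxτ⟩ := exists_of_orb hTne L.hg hθ'
    have hx : M.g a x' ∈ C₁ := hC₁i a x' hx'
    have heq : F (M.g a x') = y := by rw [hFi a x' (hC₁U hx')]; exact heq'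
    have hf₂x : ∀ j, f₂ j (M.g a x') = f₂ j x' := fun j => hf₂i j a x' (hC₁U hx')
    by_contra hcon
    push Not at hcon
    choose κ hκ using hcon
    apply hgen (κ, ⟨i₀, τ, hτ⟩)
    set x := M.g a x' with hxx
    refine ⟨x, ⟨hC₁U hx, hxτ⟩, ?_⟩
    rw [hC₁F x hx] at heq
    have h1 : (fun i => ∫ a, H₁ i (Λ a⁻¹ x) ∂ν : Fin n → ℝ) = y := by
      rw [← heq]
      funext i
      simp only [hFp]
      unfold avM
      simp only [hΛg _ x (hC₁U hx)]
    have h2 : (fun c => ∫ a, H₂ (κ c) (Λ a⁻¹ x) ∂ν : Fin D → ℝ) =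
        fun c => t (κ c) c := by
      funext c
      rw [← hκ c, ← hf₂x]
      simp only [hf₂]
      unfold avM
      simp only [hΛg _ x (hC₁U hx)]
    simp only
    rw [h1, h2]
    rfl
  -- the margins
  obtain ⟨lam, hlam, hlamC⟩ := exists_margin M.hU hC₁c hC₁U hf₂c
    (g := fun x => max (dist (F x) y) (θ x))
    ((hFc.dist continuous_const).max hθc).continuousOn t (fun x hx => by
        by_cases h : F x = y
        · by_cases h' : θ x ≤ 0
          · exact Or.inr (hgen' x hx h h')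
          · push Not at h'
            exact Or.inl (h'.trans_le (le_max_right _ _))
        · exact Or.inl ((dist_pos.mpr h).trans_le (le_max_left _ _)))
  have hC₁F2c : IsCompact (C₁ ∩ F2) := hC₁c.inter_right hF2c
  obtain ⟨lam₁, hlam₁, hlamC₁⟩ := exists_margin (κ := Unit) M.hU hC₁F2c
    (inter_subset_left.trans hC₁U) hf₁c (g := fun _ => (0 : ℝ)) continuousOn_const (fun j _ => t₁ j)
    (fun x hx => Or.inr ⟨(), fun j => hC₁t x hx.1 hx.2 j⟩)
  obtain ⟨δ₃, hδ₃, hδ₃d⟩ := exists_dist_pos hCGc hC₁F2c (by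
    rw [Set.disjoint_left]
    rintro x ⟨-, hx⟩ ⟨-, hx'⟩
    exact hx hx')
  -- the two labelled sets
  set κ : ℝ := min lam (γ / 2) with hκ
  have hκ0 : 0 < κ := lt_min hlam (by positivity)
  set S : Set (Fin n → ℝ) := {x | dist (F x) y ≤ κ} with hS
  have hSC₁ : S ⊆ C₁ := by
    intro x hx
    have h1 : dist (F x) y ≤ κ := hx
    have h2 := dist_triangle (F x) y y₀
    have h3 : κ ≤ γ / 2 := min_le_right _ _
    change dist (F x) y₀ ≤ γ
    linarith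
  have hSU : S ⊆ M.U := hSC₁.trans hC₁U
  have hSi : ∀ a, ∀ x ∈ S, M.g a x ∈ S := by
    intro a x hx
    change dist (F (M.g a x)) y ≤ κ
    rw [hFi a x (hSU hx)]
    exact hx
  -- the points whose orbits stay away from the hyperplanes
  set Sf : Set (Fin n → ℝ) := {x | x ∈ S \ F2 ∧ lam ≤ θ x} with hSf
  set Sn : Set (Fin n → ℝ) := {x | x ∈ S \ F2 ∧ θ x < lam} with hSn
  have hSGi : ∀ a, ∀ x ∈ S \ F2, M.g a x ∈ S \ F2 := fun a x hx =>
    ⟨hSi a x hx.1, fun h => hx.2 (hF2i' a x (hSU hx.1) h)⟩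
  obtain ⟨δ₀, jj₀, ℓ₀, hδ₀, hinv₀, hnear₀⟩ := labels_of_cells (D := M) (Φ := Φ₂) L₂ 0
    hCGc hCGU (S := Sf)
    (fun x hx => ⟨hSC₁ hx.1.1, hx.1.2⟩)
    (fun a x hx => ⟨hSGi a x hx.1, by rw [hθi a x (hSU hx.1.1)]; exact hx.2⟩)
    T hlam
    (fun x hx i τ hτ => by
      have h1 := hx.2
      have h2 := orb_le L.hg T (L.g 1 x) 1 i hτ
      have h3 : L.g 1 x = x := L.hg1 x (hSU hx.1.1)
      rw [h3] at h2
      rw [h3] at h2
      exact h1.trans h2)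
    (fun x hx => by
      obtain ⟨j, hj⟩ := hlbC x ⟨hSC₁ hx.1.1, hx.1.2⟩
      refine ⟨j, fun x' hx' hq => hj ?_⟩
      rw [mem_ball]
      exact code_close hlb hTmesh (L.hUc (hSU hx'.1.1)) (L.hUc (hSU hx.1.1)) hq)
  obtain ⟨δ₁', cc₃, jj₃, ℓ₃, hδ₁', hne₃, hinv₃, hnear₃⟩ := labels_of_levels_succ (D := M)
    (Φ := Φ₂) L₂ t hlam
    hCGc hCGU (S := Sn)
    (fun x hx => ⟨hSC₁ hx.1.1, hx.1.2⟩) (fun j => (hf₂c j).mono hCGU)
    (fun j x hx a => hf₂i j a x (hSU hx.1.1))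
    (fun x hx j c hlt => by
      have h1 := hf₂₃ j x (hC₁C₀ (hSC₁ hx.1.1))
      rw [abs_le] at h1
      have h2 := ht0 j c
      have h3 : 0 < f₃ j x := by linarith [h1.2]
      exact exists_of_avM_pos (ν := ν) h3.ne')
    (fun x hx => by
      rcases hlamC x (hSC₁ hx.1.1) with h | h
      · have h1 : dist (F x) y ≤ κ := hx.1.1
        have h2 : κ ≤ lam := min_le_left _ _
        have h3 := hx.2
        exact absurd h (not_lt.mpr (max_le (h1.trans h2) h3.le))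
      · exact h) (fun x hx c => by
      obtain ⟨j, hj⟩ := hηG x ⟨hSC₁ hx.1.1, hx.1.2⟩
      have h1 := hf₂₃ j x (hC₁C₀ (hSC₁ hx.1.1))
      rw [abs_le] at h1
      refine ⟨j, (htη j c).trans ?_⟩
      linarith [h1.1])
  -- both together
  set cc₂ : (Fin n → ℝ) → Fin (D + 1) := fun x => if lam ≤ θ x then 0 else cc₃ x with hcc₂
  set jj₂ : (Fin n → ℝ) → ℕ := fun x => if lam ≤ θ x then jj₀ x else jj₃ x with hjj₂
  set ℓ₂ : (Fin n → ℝ) → k := fun x => if lam ≤ θ x then ℓ₀ x else ℓ₃ x with hℓ₂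
  have hinv₂ : ∀ x ∈ S \ F2, ∃ j : Fin M₂, jj₂ x = j ∧ ∀ a, cc₂ (M.g a x) = cc₂ x ∧
      jj₂ (M.g a x) = jj₂ x ∧ ℓ₂ (M.g a x) = ℓ₂ x + Φ₂ (L₂ j).q (cc₂ x) a := by
    intro x hx
    by_cases h : lam ≤ θ x
    · obtain ⟨j, hj, h1⟩ := hinv₀ x ⟨hx, h⟩
      refine ⟨j, by simp only [hjj₂, if_pos h]; exact hj, fun a => ?_⟩
      have h2 : lam ≤ θ (M.g a x) := by rw [hθi a x (hSU hx.1)]; exact h
      simp only [hcc₂, hjj₂, hℓ₂, if_pos h, if_pos h2]
      exact ⟨trivial, (h1 a).1, (h1 a).2⟩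
    · push Not at h
      obtain ⟨j, hj, h1⟩ := hinv₃ x ⟨hx, h⟩
      refine ⟨j, by simp only [hjj₂, if_neg (not_le.mpr h)]; exact hj, fun a => ?_⟩
      have h2 : ¬ lam ≤ θ (M.g a x) := by rw [hθi a x (hSU hx.1)]; exact not_le.mpr h
      simp only [hcc₂, hjj₂, hℓ₂, if_neg (not_le.mpr h), if_neg h2]
      exact h1 a
  have hnear₂ : ∀ x ∈ S \ F2, ∀ x' ∈ S \ F2, dist x x' < min δ₀ δ₁' → cc₂ x = cc₂ x' →
      jj₂ x = jj₂ x' ∧ ℓ₂ x = ℓ₂ x' := by
    intro x hx x' hx' hd hc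
    by_cases h : lam ≤ θ x
    · by_cases h' : lam ≤ θ x'
      · simp only [hjj₂, hℓ₂, if_pos h, if_pos h']
        exact hnear₀ x ⟨hx, h⟩ x' ⟨hx', h'⟩ (hd.trans_le (min_le_left _ _))
      · simp only [hcc₂, if_pos h, if_neg h'] at hc
        exact (hne₃ x' ⟨hx', not_le.mp h'⟩ hc.symm).elim
    · by_cases h' : lam ≤ θ x'
      · simp only [hcc₂, if_neg h, if_pos h'] at hc
        exact (hne₃ x ⟨hx, not_le.mp h⟩ hc).elim
      · simp only [hcc₂, if_neg h, if_neg h'] at hc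
        simp only [hjj₂, hℓ₂, if_neg h, if_neg h']
        exact hnear₃ x ⟨hx, not_le.mp h⟩ x' ⟨hx', not_le.mp h'⟩
          (hd.trans_le (min_le_right _ _)) hc
  set δ₁ : ℝ := min δ₀ δ₁' with hδ₁e
  have hδ₁ : 0 < δ₁ := lt_min hδ₀ hδ₁'
  obtain ⟨δ₂, cc₁, jj₁, ℓ₁, hδ₂, hinv₁, hnear₁⟩ := labels_of_levels (D := M) (Φ := Φ₁) L₁
    (f := f₁) (fun j _ => t₁ j) hlam₁ hC₁F2c
    (inter_subset_left.trans hC₁U) (S := S ∩ F2)
    (fun x hx => ⟨hSC₁ hx.1, hx.2⟩)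
    (fun j => (hf₁c j).mono (inter_subset_left.trans hC₁U))
    (fun j x hx a => avM_inv (D := M) (ν := ν) (bumpM (L₁ j).z (L₁ j).ρ) a x (hSU hx.1))
    (fun x hx j c hlt => exists_of_avM_pos (ν := ν) ((ht₁0 j).trans hlt).ne')
    (fun x hx => by
      rcases hlamC₁ x ⟨hSC₁ hx.1, hx.2⟩ with h | h
      · linarith
      · exact h) (fun x hx c => by
      obtain ⟨j, hj⟩ := hη₁B x ⟨hC₁C₀ (hSC₁ hx.1), hx.2⟩
      exact ⟨j, (ht₁η j).trans hj⟩)
  set δ : ℝ := min δ₁ (min δ₂ δ₃) with hδ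
  have hδ0 : 0 < δ := lt_min hδ₁ (lt_min hδ₂ hδ₃)
  have hδδ₁ : δ ≤ δ₁ := min_le_left _ _
  have hδδ₂ : δ ≤ δ₂ := (min_le_right _ _).trans (min_le_left _ _)
  have hδδ₃ : δ ≤ δ₃ := (min_le_right _ _).trans (min_le_right _ _)
  -- the vectors and the characters
  set Ξ : ℕ → Fin (D + 1) → Fin r → k := fun j => if h : j < M₂ then (L₂ ⟨j, h⟩).q else 0 with hΞ
  have hΞj : ∀ j : Fin M₂, Ξ j = (L₂ j).q := fun j => by simp only [hΞ]; rw [dif_pos j.2]
  set ηη : ℕ → G → ZMod p := fun j => if h : j < M₁ then (L₁ ⟨j, h⟩).q else 0 with hηη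
  have hηj : ∀ j : Fin M₁, ηη j = (L₁ j).q := fun j => by simp only [hηη]; rw [dif_pos j.2]
  have hG : ∀ x, x ∈ F2ᶜ → dist (F x) y ≤ κ → x ∈ S \ F2 := fun x hx hd => ⟨hd, hx⟩
  have hBx : ∀ x, x ∉ F2ᶜ → dist (F x) y ≤ κ → x ∈ S ∩ F2 := fun x hx hd => ⟨hd, not_not.mp hx⟩
  have hpr : ∀ x ∈ S \ F2, ∀ c' : Fin (D + 1), ∑ i, Ξ (jj₂ x) (cc₂ x) i * w c' i =
      if cc₂ x = c' then 1 else 0 := by
    intro x hx c'
    obtain ⟨j, hj, -⟩ := hinv₂ x hx
    rw [hj, hΞj]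
    exact hL₂P j _ _
  refine ⟨{ F := F, hF := hFc, hFg := hFi, hFd := hFd, y := y, hy := ?_, κ := κ, hκ := hκ0
            hκs := ?_, ε := δ, hε := hδ0, A := F2ᶜ, hA := ?_, hsep := ?_
            col := cc₂, ξ := fun x => Ξ (jj₂ x) (cc₂ x), lab := ℓ₂
            hcol := ?_, hξ := ?_, hlab := ?_, hw := ?_, near := ?_
            M := M₁, η := ηη, hη := ?_, hηG₂ := ?_, idx := jj₁, lb := ℓ₁, hM := ?_
            hidx := ?_, hlb := ?_, near' := ?_ }⟩
  · have := dist_triangle y y₀ L.c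
    linarith
  · have h3 : κ ≤ γ / 2 := min_le_right _ _
    linarith
  · intro a x hx
    have hxU := hSU hx
    exact ⟨fun h h' => h (hF2i a x hxU h'), fun h h' => h (hF2i' a x hxU h')⟩
  · intro x x' hx hx' hd
    by_contra hcon
    by_cases h : x ∈ F2
    · have h' : x' ∉ F2 := fun h' => hcon ⟨fun h'' => absurd h h'', fun h'' => absurd h' h''⟩
      have := hδ₃d x' ⟨hSC₁ hx', h'⟩ x ⟨hSC₁ hx, h⟩
      rw [dist_comm] at this
      linarith
    · have h' : x' ∈ F2 := by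
        by_contra h'
        exact hcon ⟨fun _ => h', fun _ => h⟩
      have := hδ₃d x ⟨hSC₁ hx, h⟩ x' ⟨hSC₁ hx', h'⟩
      linarith
  · intro a x hA hx
    obtain ⟨j, hj, h⟩ := hinv₂ x (hG x hA hx)
    exact (h a).1
  · intro a x hA hx
    obtain ⟨j, hj, h⟩ := hinv₂ x (hG x hA hx)
    have h1 := (h a).1
    have h2 := (h a).2.1
    simp only [hM] at h1 h2
    change Ξ (jj₂ (L.g a x)) (cc₂ (L.g a x)) = _
    rw [show jj₂ (L.g a x) = jj₂ x from h2, show cc₂ (L.g a x) = cc₂ x from h1]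
  · intro a x hA hx
    obtain ⟨j, hj, h⟩ := hinv₂ x (hG x hA hx)
    have h1 := (h a).2.2
    change ℓ₂ (L.g a x) = _
    rw [show ℓ₂ (L.g a x) = _ from h1, hj, hΞj]
  · intro x hA hx
    rw [hpr x (hG x hA hx), if_pos rfl]
  · intro x x' hA hA' hx hx' hd
    by_cases hc : cc₂ x = cc₂ x'
    · obtain ⟨h1, h2⟩ := hnear₂ x (hG x hA hx) x' (hG x' hA' hx') (hd.trans_le hδδ₁) hc
      exact Or.inl ⟨hc, by rw [h1, hc], h2⟩
    · refine Or.inr ⟨?_, ?_⟩
      · rw [hpr x (hG x hA hx), if_neg hc]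
      · rw [hpr x' (hG x' hA' hx'), if_neg (Ne.symm hc)]
  · intro j g h
    simp only [hηη]
    split_ifs with hj
    · exact (hL₁P ⟨j, hj⟩).1 g h
    · simp
  · intro j g hg
    simp only [hηη]
    split_ifs with hj
    · exact (hL₁P ⟨j, hj⟩).2.1 g hg
    · rfl
  · intro x hA hx
    obtain ⟨j, hj, -⟩ := hinv₁ x (hBx x hA hx)
    rw [hj, hηj]
    exact ⟨j.2, (hL₁P j).2.2⟩
  · intro a x hA hx
    obtain ⟨j, hj, h⟩ := hinv₁ x (hBx x hA hx)
    exact (h a).2.1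
  · intro a x hA hx
    obtain ⟨j, hj, h⟩ := hinv₁ x (hBx x hA hx)
    have h1 := (h a).2.2
    change ℓ₁ (L.g a x) = _
    rw [show ℓ₁ (L.g a x) = _ from h1, hj, hηj]
  · intro x x' hA hA' hx hx' hd
    exact hnear₁ x (hBx x hA hx) x' (hBx x' hA' hx') (hd.trans_le hδδ₂) rfl

end Pool.Agent.HSF
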