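import Pool.Agent.HSF.EC

/-!
# Row EC: the Hölder form, with the exponent `(n - 1) / (n + D)`
-/

set_option autoImplicit false
set_option linter.unusedSectionVars false
set_option linter.unusedVariables false

open Set MeasureTheory Metric Filter Topology
open scoped NNReal ENNReal

namespace Pool.Agent.HSF

open Pool.Agent.Helper83.TF Pool.Agent.Helper3.HS

/-- The pointwise Hölder form with cells: `exists_LB0` with `n - 1 < b * (n + D)`, and with an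
additional alternative for the points. -/
theorem exists_LB0c {n : ℕ} {G : Type*} [Group G] [TopologicalSpace G]
    [IsTopologicalGroup G] [CompactSpace G] (L : LG n G) {p r D : ℕ} [Fact p.Prime]
    {k : Type*} [CommRing k] (E : GR0 G p r k) (w : Fin (D + 1) → (Fin r → k))
    {ιN : Type*} [Countable ιN] (N : ιN → Subgroup G) (hNo : ∀ j, IsOpen (N j : Set G))
    (hNi : ∀ j, interior {x | x ∈ L.U ∧ ∀ a ∈ N j, L.g a x = x} = ∅)
    (hgood : ∀ z ∈ L.U, (∀ g ∈ E.G₂, L.g g z = z) ∨ (∃ Ξ : Fin (D + 1) → (Fin r → k),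
      (∀ c, ∀ g, L.g g z = z → ∑ i, Ξ c i * E.χ g i = 0) ∧
      ∀ c j : Fin (D + 1), ∑ i, Ξ c i * w j i = if c = j then 1 else 0) ∨
      ∃ j, ∀ a ∈ N j, L.g a z = z)
    (hfin : ∀ z ∈ L.U, (∀ g ∈ E.G₂, L.g g z = z) → (∃ g, L.g g z ≠ z) → ∃ η : G → ZMod p,
      (∀ g h, η (g * h) = η g + η h) ∧ (∀ g, L.g g z = z → η g = 0) ∧ (∀ g ∈ E.G₂, η g = 0) ∧
      ∃ g, η g ≠ 0)
    {Y : Type*} [MetricSpace Y] (Λ : G → (Fin n → ℝ) → Y)
    (hΛc : ContinuousOn (fun q : G × (Fin n → ℝ) => Λ q.1 q.2) (univ ×ˢ closedBall L.c L.s))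
    (hΛ : ∀ a b, ∀ u ∈ L.U, Λ a (L.g b u) = Λ (a * b) u) (hinj : InjOn (Λ 1) L.U)
    {b : ℝ} (hb0 : 0 < b) (hb : (n : ℝ) - 1 < b * (n + D)) {C : ℝ}
    (hH : ∀ a, ∀ x ∈ closedBall L.c L.s, ∀ x' ∈ closedBall L.c L.s,
      dist (Λ a x) (Λ a x') ≤ C * dist x x' ^ b)
    {y₀ : Fin n → ℝ} (hy₀ : dist y₀ L.c ≤ L.s / 16) (hfix : ∃ a, L.g a y₀ ≠ y₀) :
    Nonempty (LB2 L E w) := by
  obtain ⟨_, _, ν, _, _⟩ := exists_haarM G
  cases n with
  | zero =>
    obtain ⟨a, ha⟩ := hfix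
    exact absurd (Subsingleton.elim _ _) ha
  | succ d =>
    refine exists_LBC ν L E w N hNo hNi hgood hfin Λ hΛc hΛ hinj ?_ hy₀ hfix
    apply thin_of_holder ν (b := b) (C := max C 0) _ hb0 _ (le_max_right _ _)
    · intro a x hx x' hx'
      refine (hH a x (L.hUc hx) x' (L.hUc hx')).trans ?_
      exact mul_le_mul_of_nonneg_right (le_max_left _ _) (by positivity)
    · intro x hx
      have h1 : Continuous (fun a : G => ((a, x) : G × (Fin (d + 1) → ℝ))) := by fun_prop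
      exact hΛc.comp_continuous h1 (fun a => ⟨mem_univ _, L.hUc hx⟩)
    · push_cast at hb
      rw [add_sub_cancel_right] at hb
      exact hb

/-- `exists_LB2` with `n - 1 < b * (n + D)` in place of `n < b * (n + D + 1)`. -/
theorem exists_LB2c {n : ℕ} {G : Type*} [Group G] [TopologicalSpace G]
    [IsTopologicalGroup G] [CompactSpace G] (L : LG n G) {p r D : ℕ} [Fact p.Prime]
    {k : Type*} [CommRing k] {w : Fin (D + 1) → (Fin r → k)} (E : GR G p r D k w)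
    {Y : Type*} [MetricSpace Y] (Λ : G → (Fin n → ℝ) → Y)
    (hΛc : ContinuousOn (fun q : G × (Fin n → ℝ) => Λ q.1 q.2) (univ ×ˢ closedBall L.c L.s))
    (hΛ : ∀ a b, ∀ u ∈ L.U, Λ a (L.g b u) = Λ (a * b) u) (hinj : InjOn (Λ 1) L.U)
    {b : ℝ} (hb0 : 0 < b) (hb : (n : ℝ) - 1 < b * (n + D)) {C : ℝ}
    (hH : ∀ a, ∀ x ∈ closedBall L.c L.s, ∀ x' ∈ closedBall L.c L.s,
      dist (Λ a x) (Λ a x') ≤ C * dist x x' ^ b)
    {y₀ : Fin n → ℝ} (hy₀ : dist y₀ L.c ≤ L.s / 16) (hfix : ∃ a, L.g a y₀ ≠ y₀) :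
    Nonempty (LB2 L E.to0 w) := by
  refine exists_LB0c L E.to0 w (ιN := Empty) (fun j => j.elim) (fun j => j.elim)
    (fun j => j.elim) ?_ ?_ Λ hΛc hΛ hinj hb0 hb hH hy₀ hfix
  · intro z hz
    by_cases h : ∀ g ∈ E.G₂, L.g g z = z
    · exact Or.inl h
    · push Not at h
      obtain ⟨a, ha, haz⟩ := h
      obtain ⟨Ξ, h2, h3⟩ := E.dual ((h83.gm L).stab hz) (GM.stab_closed hz)
        (fun hle => haz (hle ha))
      exact Or.inr (Or.inl ⟨Ξ, fun c g hg => h2 c g hg, h3⟩)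
  · intro z hz _ hmv
    obtain ⟨a, ha⟩ := hmv
    obtain ⟨η, h1, h2, h3, h4⟩ := E.fin ((h83.gm L).stab hz) (GM.stab_closed hz) (by
      intro htop
      have : a ∈ (h83.gm L).stab hz := by rw [htop]; trivial
      exact ha this)
    exact ⟨η, h1, fun g hg => h2 g hg, h3, h4⟩

end Pool.Agent.HSF
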