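import Pool.Agent.TF.Gab

/-!
# Gabidulin vectors
-/

set_option autoImplicit false
set_option linter.unusedVariables false

open Module

namespace Pool.Agent.HSF

theorem h25.lin_apply {k : Type*} [Field k] {r : ℕ} (ξ : (Fin r → k) →ₗ[k] k) (x : Fin r → k) :
    ∑ i, ξ (Pi.single i 1) * x i = ξ x := by
  classical
  conv_rhs => rw [← LinearMap.sum_single_apply (φ := fun _ : Fin r => k) (v := x), map_sum]
  refine Finset.sum_congr rfl fun i _ => ?_
  have h3 : (Pi.single i (x i) : Fin r → k) = x i • Pi.single i 1 := by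
    rw [← Pi.single_smul, smul_eq_mul, mul_one]
  rw [h3, map_smul, smul_eq_mul, mul_comm]

theorem gabidulin {p : ℕ} [Fact p.Prime] {k : Type*} [Field k] [Algebra (ZMod p) k] {r D : ℕ}
    {α : Fin r → k} (hα : LinearIndependent (ZMod p) α)
    (H : Submodule (ZMod p) (Fin r → ZMod p)) (hH : Module.finrank (ZMod p) H + (D + 1) ≤ r) :
    ∃ ξ : Fin (D + 1) → (Fin r → k), (∀ c, ∀ v ∈ H, ∑ i, ξ c i * algebraMap (ZMod p) k (v i) = 0) ∧
      ∀ c j : Fin (D + 1), ∑ i, ξ c i * (α i) ^ p ^ (j : ℕ) = if c = j then 1 else 0 := by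
  classical
  choose ξ h1 h2 using fun c : Fin (D + 1) => Pool.Agent.TF.exists_xi hα hH c
  refine ⟨fun c i => ξ c (Pi.single i 1), fun c v hv => ?_, fun c j => ?_⟩
  · rw [h25.lin_apply (ξ c) fun i => algebraMap (ZMod p) k (v i)]
    exact h1 c v hv
  · rw [h25.lin_apply (ξ c) fun i => (α i) ^ p ^ (j : ℕ)]
    have h3 := h2 c j
    by_cases hcj : c = j
    · rw [if_pos hcj]
      rw [if_pos hcj.symm] at h3
      exact h3
    · rw [if_neg hcj]
      rw [if_neg fun h => hcj h.symm] at h3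
      exact h3

/-- colour 0 for a proper subspace -/
theorem gabidulin_zero {p : ℕ} [Fact p.Prime] {k : Type*} [Field k] [Algebra (ZMod p) k] {r : ℕ}
    {α : Fin r → k} (hα : LinearIndependent (ZMod p) α)
    (H : Submodule (ZMod p) (Fin r → ZMod p)) (hH : H ≠ ⊤) :
    ∃ ξ : Fin r → k, (∀ v ∈ H, ∑ i, ξ i * algebraMap (ZMod p) k (v i) = 0) ∧
      ∑ i, ξ i * α i = 1 := by
  have h1 : finrank (ZMod p) H < finrank (ZMod p) (Fin r → ZMod p) := Submodule.finrank_lt hH
  rw [finrank_fintype_fun_eq_card, Fintype.card_fin] at h1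
  obtain ⟨ξ, h2, h3⟩ := gabidulin (D := 0) hα H (by omega)
  refine ⟨ξ 0, h2 0, ?_⟩
  have h4 := h3 0 0
  rw [if_pos rfl] at h4
  rw [← h4]
  refine Finset.sum_congr rfl fun i _ => ?_
  rw [Fin.val_zero, pow_zero, pow_one]

theorem exists_alpha (p : ℕ) [Fact p.Prime] (r : ℕ) : ∃ (k : Type) (_ : Field k)
    (_ : Algebra (ZMod p) k) (α : Fin r → k), LinearIndependent (ZMod p) α := by
  rcases Nat.eq_zero_or_pos r with rfl | hr
  · exact ⟨ZMod p, inferInstance, inferInstance, Fin.elim0, linearIndependent_empty_type⟩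
  · obtain ⟨α, hα⟩ := Pool.Agent.TF.exists_alpha (p := p) hr.ne'
    exact ⟨GaloisField p r, inferInstance, inferInstance, α, hα⟩

end Pool.Agent.HSF
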