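import Pool.Agent.HSF.Defs3

/-!
# Actions in charts (Theorem F, row L)

A small compact group acts on a neighbourhood of the base point of a chart; the maps are extended to all of `ℝⁿ`.
-/

set_option autoImplicit false
set_option linter.unusedVariables false

open Set Topology Metric

namespace Pool.Agent.HSF

namespace h25

/-- the retraction to the closed ball -/
noncomputable def ret {n : ℕ} (c : Fin n → ℝ) (s : ℝ) (x : Fin n → ℝ) : Fin n → ℝ :=
  fun i => max (c i - s) (min (c i + s) (x i))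

lemma continuous_ret {n : ℕ} (c : Fin n → ℝ) (s : ℝ) : Continuous (ret c s) :=
  continuous_pi fun i => continuous_const.max (continuous_const.min (continuous_apply i))

lemma ret_mem {n : ℕ} (c : Fin n → ℝ) {s : ℝ} (hs : 0 ≤ s) (x : Fin n → ℝ) : ret c s x ∈ closedBall c s := by
  rw [mem_closedBall, dist_pi_le_iff hs]
  intro i
  rw [Real.dist_eq, abs_le]
  have h1 : c i - s ≤ ret c s x i := le_max_left _ _
  have h2 : ret c s x i ≤ c i + s := max_le (by linarith) (min_le_left _ _)
  exact ⟨by linarith, by linarith⟩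

lemma ret_of_mem {n : ℕ} {c : Fin n → ℝ} {s : ℝ} {x : Fin n → ℝ} (hx : x ∈ closedBall c s) : ret c s x = x := by
  have hs : 0 ≤ s := dist_nonneg.trans hx
  funext i
  have h1 : |x i - c i| ≤ s := by
    rw [← Real.dist_eq]
    exact (dist_le_pi_dist x c i).trans hx
  rw [abs_le] at h1
  show max (c i - s) (min (c i + s) (x i)) = x i
  rw [min_eq_right (by linarith), max_eq_right (by linarith)]

end h25

open h25

theorem exists_LG {n : ℕ} {X : Type*} [MetricSpace X] {G : Type*} [Group G] [TopologicalSpace G]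
    [IsTopologicalGroup G] [MulAction G X] [ContinuousSMul G X]
    (e : OpenPartialHomeomorph X (Fin n → ℝ)) {x₀ : X} (hx₀ : x₀ ∈ e.source) {s₀ : ℝ}
    (hs₀ : 0 < s₀) :
    ∃ s : ℝ, 0 < s ∧ s ≤ s₀ ∧ closedBall (e x₀) s ⊆ e.target ∧ ∃ V ∈ 𝓝 (1 : G),
      ∀ H : Subgroup G, (H : Set G) ⊆ V → CompactSpace H → ∃ L : LG n H, L.c = e x₀ ∧ L.s = s ∧
        ∀ (h : H), ∀ u ∈ closedBall (e x₀) s, (h : G) • e.symm u ∈ e.source ∧
          L.g h u = e ((h : G) • e.symm u) := by
  obtain ⟨s₁, hs₁, hball⟩ := Metric.nhds_basis_closedBall.mem_iff.mp (e.open_target.mem_nhds (e.map_source hx₀))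
  set c := e x₀ with hc
  set s := min s₀ s₁ with hs
  have hs0 : 0 < s := lt_min hs₀ hs₁
  have hst : closedBall c s ⊆ e.target := (closedBall_subset_closedBall (min_le_right _ _)).trans hball
  refine ⟨s, hs0, min_le_left _ _, hst, ?_⟩
  -- the map
  set f : G × (Fin n → ℝ) → (Fin n → ℝ) := fun q => e (q.1 • e.symm q.2) with hf
  set Ω : Set (G × (Fin n → ℝ)) := (univ ×ˢ e.target) ∩ (fun q : G × (Fin n → ℝ) => q.1 • e.symm q.2) ⁻¹' e.source with hΩ
  have hc1 : ContinuousOn (fun q : G × (Fin n → ℝ) => q.1 • e.symm q.2) (univ ×ˢ e.target) :=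
    continuousOn_fst.smul (e.symm.continuousOn.comp continuousOn_snd fun q hq => hq.2)
  have hΩo : IsOpen Ω := hc1.isOpen_inter_preimage (isOpen_univ.prod e.open_target) e.open_source
  have hfc : ContinuousOn f Ω := e.continuousOn.comp (hc1.mono inter_subset_left) fun q hq => hq.2
  set Ω' : Set (G × (Fin n → ℝ)) := Ω ∩ (fun q => (f q, q.2)) ⁻¹' {z | dist z.1 z.2 < s / 16} with hΩ'
  have hΩ'o : IsOpen Ω' := by
    refine (hfc.prodMk continuousOn_snd).isOpen_inter_preimage hΩo ?_
    exact isOpen_lt (continuous_fst.dist continuous_snd) continuous_const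
  have hf1 : ∀ u ∈ e.target, f (1, u) = u := by
    intro u hu
    show e ((1 : G) • e.symm u) = u
    rw [one_smul, e.right_inv hu]
  have hsub : ({1} : Set G) ×ˢ closedBall c s ⊆ Ω' := by
    rintro ⟨a, u⟩ ⟨ha, hu⟩
    have ha' : a = 1 := ha
    subst ha'
    have hu' : u ∈ e.target := hst hu
    refine ⟨⟨⟨mem_univ _, hu'⟩, ?_⟩, ?_⟩
    · show (1 : G) • e.symm u ∈ e.source
      rw [one_smul]
      exact e.map_target hu'
    · show dist (f (1, u)) u < s / 16
      rw [hf1 u hu', dist_self]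
      positivity
  obtain ⟨V, W, hVo, hWo, h1V, hW, hVW⟩ := generalized_tube_lemma isCompact_singleton (isCompact_closedBall c s) hΩ'o hsub
  refine ⟨V, hVo.mem_nhds (h1V rfl), fun H hH hHc => ?_⟩
  have hin : ∀ (h : H) (u : Fin n → ℝ), u ∈ closedBall c s → ((h : G), u) ∈ Ω' := fun h u hu =>
    hVW ⟨hH h.2, hW hu⟩
  have hsrc : ∀ (h : H) (u : Fin n → ℝ), u ∈ closedBall c s → (h : G) • e.symm u ∈ e.source := fun h u hu =>
    (hin h u hu).1.2
  set g : H → (Fin n → ℝ) → (Fin n → ℝ) := fun h x => x + (f ((h : G), ret c s x) - ret c s x) with hg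
  have hgc : Continuous fun q : H × (Fin n → ℝ) => g q.1 q.2 := by
    have h1 : Continuous fun q : H × (Fin n → ℝ) => f ((q.1 : G), ret c s q.2) := by
      refine hfc.comp_continuous ?_ fun q => (hin q.1 _ (ret_mem c hs0.le q.2)).1
      exact (continuous_subtype_val.comp continuous_fst).prodMk ((continuous_ret c s).comp continuous_snd)
    exact continuous_snd.add (h1.sub ((continuous_ret c s).comp continuous_snd))
  have hgf : ∀ (h : H) (u : Fin n → ℝ), u ∈ closedBall c s → g h u = e ((h : G) • e.symm u) := by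
    intro h u hu
    show u + (f ((h : G), ret c s u) - ret c s u) = _
    rw [ret_of_mem hu, add_sub_cancel]
  have hdisp : ∀ (a : H) (x : Fin n → ℝ), dist (g a x) x ≤ s / 16 := by
    intro a x
    have h1 := (hin a _ (ret_mem c hs0.le x)).2
    have h2 : dist (f ((a : G), ret c s x)) (ret c s x) < s / 16 := h1
    rw [dist_eq_norm] at h2 ⊢
    show ‖x + (f ((a : G), ret c s x) - ret c s x) - x‖ ≤ s / 16
    rw [add_sub_cancel_left]
    exact h2.le
  have hmul : ∀ (a b : H) (u : Fin n → ℝ), u ∈ closedBall c s → g b u ∈ closedBall c s → g (a * b) u = g a (g b u) := by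
    intro a b u hu hbu
    rw [hgf (a * b) u hu, hgf a _ hbu, hgf b u hu, e.left_inv (hsrc b u hu), smul_smul]
    rfl
  set U : Set (Fin n → ℝ) := ball c s ∩ {u | ∀ h : H, g h u ∈ ball c s} with hU
  have hUo : IsOpen U := by
    refine isOpen_ball.inter ?_
    have h1 : {u | ∀ h : H, g h u ∈ ball c s} =
        (Prod.snd '' ((fun q : H × (Fin n → ℝ) => g q.1 q.2) ⁻¹' (ball c s))ᶜ)ᶜ := by
      ext u
      constructor
      · rintro hu ⟨⟨h, u'⟩, h1, h2⟩
        have h3 : u' = u := h2
        subst h3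
        exact h1 (hu h)
      · intro hu h
        by_contra h1
        exact hu ⟨(h, u), h1, rfl⟩
    rw [h1, isOpen_compl_iff]
    exact isClosedMap_snd_of_compactSpace _ (isOpen_ball.preimage hgc).isClosed_compl
  have hUb : ∀ u ∈ U, u ∈ closedBall c s := fun u hu => ball_subset_closedBall hu.1
  have hball : closedBall c (s / 2) ⊆ U := by
    intro u hu
    rw [mem_closedBall] at hu
    refine ⟨?_, fun h => ?_⟩
    · rw [mem_ball]
      linarith
    · rw [mem_ball]
      have h1 := dist_triangle (g h u) u c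
      have h2 := hdisp h u
      linarith
  have hgU : ∀ a, ∀ u ∈ U, g a u ∈ U := by
    intro a u hu
    refine ⟨hu.2 a, fun h => ?_⟩
    rw [← hmul h a u (hUb u hu) (ball_subset_closedBall (hu.2 a))]
    exact hu.2 (h * a)
  have hg1 : ∀ u ∈ U, g 1 u = u := by
    intro u hu
    rw [hgf 1 u (hUb u hu)]
    exact hf1 u (hst (hUb u hu))
  have hgm : ∀ a b, ∀ u ∈ U, g (a * b) u = g a (g b u) := by
    intro a b u hu
    exact hmul a b u (hUb u hu) (ball_subset_closedBall (hu.2 b))
  exact ⟨⟨U, g, c, s, hs0, hUo, hUb, hball, hgc, hgU, hg1, hgm, hdisp⟩, rfl, rfl,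
    fun h u hu => ⟨hsrc h u hu, hgf h u hu⟩⟩

end Pool.Agent.HSF
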