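import Pool.Agent.HSF.Basic
import Pool.Agent.HSF.Bricks
import Pool.Agent.TF.Kint

/-!
# The grid integral
-/

set_option autoImplicit false

open Finset Equiv

namespace Pool.Agent.HSF

section K
variable {M k : Type*} [AddCommGroup M] [CommRing k] {n : ℕ}

namespace h30

theorem dl_eq {X : Type*} (f : List X → M) (l : List X) : dl f l = Pool.Agent.TF.dl f l := by
  induction l generalizing f with
  | nil => rfl
  | cons a l ih =>
    rw [dl_cons, ih]
    rfl

theorem kpath_eq (b : Fin n → ℤ) (π : Perm (Fin n)) :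
    kpath b π = List.ofFn (Pool.Agent.TF.kv b π) := rfl

theorem KI_eq (m : ℕ) (f : List (Fin n → ℤ) → M) : KI n m f = Pool.Agent.TF.kint m f := by
  unfold KI Pool.Agent.TF.kint
  apply Finset.sum_congr
  · ext b
    rw [Pool.Agent.TF.mem_box, Finset.mem_Icc, Pi.le_def, Pi.le_def]
    constructor
    · rintro ⟨h1, h2⟩ i
      have h3 := h1 i
      have h4 := h2 i
      omega
    · intro h
      constructor
      · intro i
        exact (h i).1
      · intro i
        have := (h i).2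
        omega
  · intro b _
    rfl

end h30

open h30

theorem KI_congr {m : ℕ} {f g : List (Fin n → ℤ) → M}
    (h : ∀ (l : List (Fin n → ℤ)) (b : Fin n → ℤ), l.length = n + 1 →
      (∀ u ∈ l, ∀ i, (u i = b i ∨ u i = b i + 1) ∧ |u i| ≤ m) → f l = g l) :
    KI n m f = KI n m g := by
  rw [KI_eq, KI_eq]
  apply Pool.Agent.TF.kint_congr
  intro a ha σ
  rw [Pool.Agent.TF.mem_box] at ha
  apply h _ a
  · simp
  · intro u hu i
    rw [List.mem_ofFn] at hu
    obtain ⟨j, rfl⟩ := hu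
    unfold Pool.Agent.TF.kv
    have := ha i
    rw [abs_le]
    split_ifs
    · refine ⟨Or.inr rfl, ?_, ?_⟩ <;> omega
    · refine ⟨Or.inl (by simp), ?_, ?_⟩ <;> omega

theorem KI_add (m : ℕ) (f g : List (Fin n → ℤ) → M) :
    KI n m (fun l => f l + g l) = KI n m f + KI n m g := by
  simp only [KI_eq, Pool.Agent.TF.kint_add]

theorem KI_zero (m : ℕ) : KI n m (fun _ => (0 : M)) = 0 := by
  simp only [KI_eq, Pool.Agent.TF.kint_zero]

theorem KI_mul {R : Type*} [CommRing R] (m : ℕ) (c : R) (f : List (Fin n → ℤ) → R) :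
    KI n m (fun l => c * f l) = c * KI n m f := by
  simp only [KI_eq, Pool.Agent.TF.kint_mul]

/-- Stokes -/
theorem stokes (hn : 1 ≤ n) (m : ℕ) (f : List (Fin n → ℤ) → M)
    (h : ∀ l : List (Fin n → ℤ), l.length = n → (∀ x ∈ l, ∀ i, |x i| ≤ m) →
      (∀ x ∈ l, ∀ y ∈ l, ∀ i, |x i - y i| ≤ 1) → (∃ x ∈ l, ∃ i, |x i| = m) → f l = 0) :
    KI n m (dl f) = 0 := by
  obtain ⟨n, rfl⟩ : ∃ n', n = n' + 1 := ⟨n - 1, by omega⟩
  rw [KI_eq, show dl f = Pool.Agent.TF.dl f from funext (dl_eq f)]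
  apply Pool.Agent.TF.kint_dl
  intro a σ ha ha' hN
  have hkv : ∀ (j : Fin (n + 2)) (i : Fin (n + 1)),
      a i ≤ Pool.Agent.TF.kv a σ j i ∧ Pool.Agent.TF.kv a σ j i ≤ a i + 1 := by
    intro j i
    unfold Pool.Agent.TF.kv
    split_ifs <;> omega
  have hl : ∀ j, Pool.Agent.TF.kv a σ ((Fin.last (n + 1)).succAbove j) (σ (Fin.last n)) =
      a (σ (Fin.last n)) := fun j => Pool.Agent.TF.last_face_coord a σ j
  apply h
  · simp
  · intro x hx i
    rw [List.mem_ofFn] at hx
    obtain ⟨j, rfl⟩ := hx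
    simp only [Function.comp_apply]
    rw [abs_le]
    by_cases hi : i = σ (Fin.last n)
    · rw [hi, hl j]
      exact ha _
    · have h1 := hkv ((Fin.last (n + 1)).succAbove j) i
      have h2 := ha i
      have h3 := ha' i hi
      constructor <;> omega
  · intro x hx y hy i
    rw [List.mem_ofFn] at hx hy
    obtain ⟨j, rfl⟩ := hx
    obtain ⟨j', rfl⟩ := hy
    simp only [Function.comp_apply]
    have h1 := hkv ((Fin.last (n + 1)).succAbove j) i
    have h2 := hkv ((Fin.last (n + 1)).succAbove j') i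
    rw [abs_le]
    constructor <;> omega
  · refine ⟨_, List.mem_ofFn.2 ⟨0, rfl⟩, σ (Fin.last n), ?_⟩
    simp only [Function.comp_apply]
    rw [hl 0]
    rcases hN with hN | hN
    · rw [hN]; simp
    · rw [hN]; simp

/-- homotopy invariance for contiguous maps -/
theorem KI_homotopy {Z : Type*} (m : ℕ) (φ ψ : (Fin n → ℤ) → Z) (f : List Z → M)
    (h1 : ∀ (t : List Z) (b : Fin n → ℤ), t.length = n + 2 → (∀ x ∈ t, ∃ u : Fin n → ℤ,
      (∀ i, (u i = b i ∨ u i = b i + 1) ∧ |u i| ≤ m) ∧ (x = φ u ∨ x = ψ u)) → dl f t = 0)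
    (h2 : ∀ (i₀ : Fin n) (s : ℤ), |s| = m → ∀ (t : List Z) (b : Fin n → ℤ), t.length = n + 1 →
      (∀ x ∈ t, ∃ u : Fin n → ℤ,
      (∀ i, (u i = b i ∨ u i = b i + 1) ∧ |u i| ≤ m) ∧ u i₀ = s ∧
        (x = φ u ∨ x = ψ u)) → f t = 0) :
    KI n m (fun l => f (l.map φ)) = KI n m (fun l => f (l.map ψ)) := by
  rw [KI_eq, KI_eq]
  symm
  apply Pool.Agent.TF.kint_homotopy
  · intro c hc l hl hx
    rw [← dl_eq]
    apply h1 l c hl
    intro x hx'
    obtain ⟨a, ha, hxa⟩ := hx x hx'
    refine ⟨a, fun i => ⟨?_, ?_⟩, hxa⟩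
    · have := ha i
      omega
    · have := ha i
      have := hc i
      rw [abs_le]
      constructor <;> omega
  · intro i₀ s hs c l hl hx
    apply h2 i₀ s _ l c hl
    · intro x hx'
      obtain ⟨a, ha, ha', has, hxa⟩ := hx x hx'
      refine ⟨a, fun i => ⟨?_, ?_⟩, has, hxa⟩
      · have := ha' i
        omega
      · rw [abs_le]
        exact ha i
    · rcases hs with rfl | rfl <;> simp

/-- The thresholds. -/
noncomputable def thr (k : Type*) [CommRing k] (y : Fin n → ℝ) : List ((Fin n → ℝ) → k) := by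
  classical exact List.ofFn fun (i : Fin n) (x : Fin n → ℝ) => if y i < x i then (1 : k) else 0

theorem cyc_eq (y : Fin n → ℝ) (l : List (Fin n → ℝ)) :
    cyc (k := k) y l = Pool.Agent.TF.pc (thr k y) l := by
  classical
  unfold cyc thr
  split_ifs with h
  · obtain ⟨v, rfl⟩ : ∃ v : Fin (n + 1) → (Fin n → ℝ), l = List.ofFn v := by
      refine ⟨fun i => l.get (i.cast h.symm), ?_⟩
      apply List.ext_getElem
      · rw [List.length_ofFn, h]
      · intro i h1 h2
        rw [List.getElem_ofFn]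
        rfl
    rw [Pool.Agent.TF.pc_ofFn]
    refine Finset.prod_congr rfl fun i _ => ?_
    have e1 : (List.ofFn v).getD ((i : ℕ) + 1) 0 = v i.succ := by
      rw [List.getD_eq_getElem _ _ (by simp), List.getElem_ofFn]
      rfl
    have e2 : (List.ofFn v).getD (i : ℕ) 0 = v i.castSucc := by
      rw [List.getD_eq_getElem _ _ (by rw [List.length_ofFn]; have := i.2; omega), List.getElem_ofFn]
      rfl
    rw [e1, e2]
  · by_contra hne
    have := (Pool.Agent.TF.pc_ne_zero (Ne.symm hne)).1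
    rw [List.length_ofFn] at this
    exact h this

theorem dl_cyc (y : Fin n → ℝ) (l : List (Fin n → ℝ)) : dl (cyc (k := k) y) l = 0 := by
  rw [show cyc (k := k) y = Pool.Agent.TF.pc (thr k y) from funext (cyc_eq y), dl_eq]
  exact Pool.Agent.TF.dl_pc _ _

theorem cyc_length (y : Fin n → ℝ) (l : List (Fin n → ℝ)) (h : cyc (k := k) y l ≠ 0) :
    l.length = n + 1 := by
  by_contra hne
  apply h
  unfold cyc
  rw [if_neg hne]

theorem cyc_supp (y : Fin n → ℝ) (l : List (Fin n → ℝ)) (h : cyc (k := k) y l ≠ 0) :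
    ∀ i, ∃ u ∈ l, ∃ v ∈ l, u i ≤ y i ∧ y i < v i := by
  classical
  rw [cyc_eq] at h
  have h1 := (Pool.Agent.TF.pc_ne_zero h).2
  intro i
  obtain ⟨v, hv, w, hw, hne⟩ := h1 (fun x => if y i < x i then (1 : k) else 0) (by
    unfold thr
    rw [List.mem_ofFn]
    refine ⟨i, ?_⟩
    funext x
    congr)
  by_cases hvi : y i < v i <;> by_cases hwi : y i < w i
  · rw [if_pos hvi, if_pos hwi] at hne
    exact absurd rfl hne
  · exact ⟨w, hw, v, hv, not_lt.1 hwi, hvi⟩
  · exact ⟨v, hv, w, hw, not_lt.1 hvi, hwi⟩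
  · rw [if_neg hvi, if_neg hwi] at hne
    exact absurd rfl hne

theorem KI_cyc (m : ℕ) (y c : Fin n → ℝ) {h : ℝ} (hh : 0 < h) (hy : ∀ i, |y i - c i| < h * m) :
    KI n m (fun l => cyc (k := k) y (l.map fun b i => c i + h * b i)) = 1 := by
  classical
  rw [KI_eq]
  have h1 : (fun l : List (Fin n → ℤ) => cyc (k := k) y (l.map fun b i => c i + h * b i)) =
      Pool.Agent.TF.pc (List.ofFn fun (i : Fin n) (a : Fin n → ℤ) =>
        if ⌊(y i - c i) / h⌋ < a i then (1 : k) else 0) := by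
    funext l
    rw [cyc_eq, Pool.Agent.TF.pc_map]
    congr 1
    unfold thr
    rw [List.map_ofFn]
    congr 1
    funext i
    funext a
    simp only [Function.comp_apply]
    have h2 : y i < c i + h * a i ↔ ⌊(y i - c i) / h⌋ < a i := by
      rw [Int.floor_lt, div_lt_iff₀ hh]
      constructor <;> intro h3 <;> linarith
    by_cases h3 : y i < c i + h * a i
    · rw [if_pos (h2.1 h3), if_pos h3]
    · rw [if_neg (fun h4 => h3 (h2.2 h4)), if_neg h3]
  rw [h1]
  apply Pool.Agent.TF.kint_pc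
  intro i
  have h2 := abs_lt.1 (hy i)
  constructor
  · rw [Int.le_floor, le_div_iff₀ hh]
    push_cast
    linarith
  · rw [Int.floor_lt, div_lt_iff₀ hh]
    push_cast
    linarith

end K

end Pool.Agent.HSF
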