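import Pool.Agent.HSF.K
import Pool.Agent.HSF.Defs3

/-!
# The local integral
-/

set_option autoImplicit false

open Metric

namespace Pool.Agent.HSF

namespace h30

variable {n : ℕ}

/-- the grid point -/
def gp (y₀ : Fin n → ℝ) (h : ℝ) (a : Fin n → ℤ) : Fin n → ℝ := fun i => y₀ i + h * a i

theorem gp_mem {y₀ : Fin n → ℝ} {h ρ : ℝ} {m : ℕ} (hh : 0 < h) (hm : h * m = ρ) {a : Fin n → ℤ}
    (ha : ∀ i, |a i| ≤ m) : gp y₀ h a ∈ closedBall y₀ ρ := by
  have hρ : 0 ≤ ρ := by rw [← hm]; positivity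
  rw [mem_closedBall, dist_pi_le_iff hρ]
  intro i
  rw [Real.dist_eq]
  unfold gp
  rw [add_sub_cancel_left, abs_mul, abs_of_pos hh, ← hm]
  apply mul_le_mul_of_nonneg_left _ hh.le
  have := ha i
  exact_mod_cast this

theorem gp_dist {y₀ : Fin n → ℝ} {h : ℝ} (hh : 0 < h) {a a' b : Fin n → ℤ}
    (ha : ∀ i, a i = b i ∨ a i = b i + 1) (ha' : ∀ i, a' i = b i ∨ a' i = b i + 1) :
    dist (gp y₀ h a) (gp y₀ h a') ≤ h := by
  rw [dist_pi_le_iff hh.le]
  intro i
  rw [Real.dist_eq]
  unfold gp
  have h1 : y₀ i + h * a i - (y₀ i + h * a' i) = h * ((a i - a' i : ℤ) : ℝ) := by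
    push_cast
    ring
  rw [h1, abs_mul, abs_of_pos hh]
  have h2 : |a i - a' i| ≤ 1 := by
    rw [abs_le]
    rcases ha i with h | h <;> rcases ha' i with h' | h' <;> rw [h, h'] <;> constructor <;> omega
  have h3 : |((a i - a' i : ℤ) : ℝ)| ≤ 1 := by exact_mod_cast h2
  nlinarith

theorem exists_grid {ρ θ : ℝ} (hρ : 0 < ρ) (hθ : 0 < θ) :
    ∃ (m : ℕ) (h : ℝ), 0 < h ∧ h < θ ∧ h * m = ρ := by
  obtain ⟨m, hm⟩ := exists_nat_gt (ρ / θ)
  have hm0 : (0 : ℝ) < m := lt_trans (by positivity) hm
  refine ⟨m, ρ / m, by positivity, ?_, by field_simp⟩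
  rw [div_lt_iff₀ hm0]
  rw [div_lt_iff₀ hθ] at hm
  linarith

end h30

open h30

/-- **The local integral.** `e` is a map from a ball of `ℝⁿ` to `X`, the action of `g` on the
points of the ball is lifted to a map `γ g` with displacement at most `κ`. -/
theorem exists_integral {Q X : Type*} {n : ℕ} (k : Type*) [CommRing k]
    (R : X → X → Prop) (K : Set X) (e : (Fin n → ℝ) → X) (act : Q → X → X)
    (γ : Q → (Fin n → ℝ) → (Fin n → ℝ))
    (y₀ : Fin n → ℝ) {ρ κ η : ℝ} (hρ : 0 < ρ) (hκ : 0 ≤ κ) (hη : 0 < η)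
    (hR : ∀ x ∈ closedBall y₀ (ρ + κ), ∀ x' ∈ closedBall y₀ (ρ + κ), dist x x' < η →
      R (e x) (e x'))
    (hcont : ∀ ζ > 0, ∃ θ > 0, ∀ g : Q, ∀ x ∈ closedBall y₀ ρ, ∀ x' ∈ closedBall y₀ ρ,
      dist x x' < θ → dist (γ g x) (γ g x') < ζ)
    (hdisp : ∀ g : Q, ∀ x ∈ closedBall y₀ ρ, dist (γ g x) x ≤ κ)
    (hγ : ∀ g : Q, ∀ x ∈ closedBall y₀ ρ, e (γ g x) = act g (e x))
    (hK : ∀ x ∈ closedBall y₀ (ρ + κ), e x ∈ K → dist x y₀ < ρ - κ) :
    ∃ I : (List X → k) →ₗ[k] k,
      (∀ f : List X → k, (∀ z, Sm R z → z.length = n + 1 → f z = 0) → I f = 0) ∧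
      (∀ (f : List X → k) (g : Q), (∀ z, Sm R z → z.length = n + 2 → dl f z = 0) →
        (∀ z, Sm R z → z.length = n + 1 → f z ≠ 0 → ∀ x ∈ z, x ∈ K) →
        I (fun z => f (z.map (act g))) = I f) ∧
      (∀ (F : X → (Fin n → ℝ)) (y : Fin n → ℝ) (κ' : ℝ),
        (∀ x ∈ closedBall y₀ ρ, dist (F (e x)) x ≤ κ') →
        dist y y₀ < ρ - κ' → I (fun z => cyc y (z.map F)) = 1) := by
  classical
  obtain ⟨θ, hθ, hθ'⟩ := hcont (η / 2) (by positivity)
  obtain ⟨m, h, hh, hhθ, hm⟩ := exists_grid hρ (lt_min hθ (half_pos hη))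
  have hh1 : h < θ := lt_of_lt_of_le hhθ (min_le_left _ _)
  have hh2 : h < η / 2 := lt_of_lt_of_le hhθ (min_le_right _ _)
  set P : (Fin n → ℤ) → (Fin n → ℝ) := gp y₀ h with hP
  set I : (List X → k) →ₗ[k] k :=
    { toFun := fun f => KI n m (fun l => f (l.map fun a => e (P a)))
      map_add' := fun f g => KI_add m _ _
      map_smul' := fun c f => KI_mul m c _ } with hI
  have hIapp : ∀ f, I f = KI n m (fun l => f (l.map fun a => e (P a))) := fun f => rfl
  have hsub : closedBall y₀ ρ ⊆ closedBall y₀ (ρ + κ) := closedBall_subset_closedBall (by linarith)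
  refine ⟨I, ?_, ?_, ?_⟩
  · intro f hf
    rw [hIapp, KI_congr (g := fun _ => 0), KI_zero]
    intro l b hl hb
    apply hf
    · intro x hx x' hx'
      obtain ⟨a, ha, rfl⟩ := List.mem_map.1 hx
      obtain ⟨a', ha', rfl⟩ := List.mem_map.1 hx'
      apply hR _ (hsub (gp_mem hh hm fun i => (hb a ha i).2)) _
        (hsub (gp_mem hh hm fun i => (hb a' ha' i).2))
      refine lt_of_le_of_lt (gp_dist hh (fun i => (hb a ha i).1) (fun i => (hb a' ha' i).1)) ?_
      linarith
    · simpa using hl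
  · intro f g hcl hsu
    obtain ⟨L, hL⟩ := exists_nat_gt (κ / (η / 2))
    have hη2 : (0 : ℝ) < η / 2 := by positivity
    have hL0 : (0 : ℝ) < L := lt_of_le_of_lt (by positivity) hL
    have hL1 : κ / L < η / 2 := by
      rw [div_lt_iff₀ hL0]
      rw [div_lt_iff₀ hη2] at hL
      linarith
    -- the homotopy
    set H : ℝ → (Fin n → ℤ) → (Fin n → ℝ) := fun t a => P a + t • (γ g (P a) - P a) with hH
    have hHmem : ∀ t : ℝ, 0 ≤ t → t ≤ 1 → ∀ a : Fin n → ℤ, (∀ i, |a i| ≤ m) →
        dist (H t a) (P a) ≤ κ := by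
      intro t ht0 ht1 a ha
      have h1 := hdisp g (P a) (gp_mem hh hm ha)
      rw [dist_eq_norm] at h1 ⊢
      rw [hH]
      simp only
      rw [add_sub_cancel_left, norm_smul, Real.norm_eq_abs, abs_of_nonneg ht0]
      have h2 := norm_nonneg (γ g (P a) - P a)
      change ‖γ g (P a) - P a‖ ≤ κ at h1
      nlinarith
    have hHball : ∀ t : ℝ, 0 ≤ t → t ≤ 1 → ∀ a : Fin n → ℤ, (∀ i, |a i| ≤ m) →
        H t a ∈ closedBall y₀ (ρ + κ) := by
      intro t ht0 ht1 a ha
      rw [mem_closedBall]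
      have h1 := hHmem t ht0 ht1 a ha
      have h2 := mem_closedBall.1 (gp_mem (y₀ := y₀) hh hm ha)
      have h3 := dist_triangle (H t a) (P a) y₀
      rw [hP] at h1 h3
      linarith
    have hHd : ∀ t t' : ℝ, 0 ≤ t → t ≤ 1 → 0 ≤ t' → t' ≤ 1 → |t - t'| ≤ 1 / L →
        ∀ a a' b : Fin n → ℤ, (∀ i, (a i = b i ∨ a i = b i + 1) ∧ |a i| ≤ m) →
        (∀ i, (a' i = b i ∨ a' i = b i + 1) ∧ |a' i| ≤ m) → dist (H t a) (H t' a') < η := by
      intro t t' ht0 ht1 ht0' ht1' htt a a' b ha ha'
      have hma := gp_mem (y₀ := y₀) hh hm fun i => (ha i).2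
      have hma' := gp_mem (y₀ := y₀) hh hm fun i => (ha' i).2
      have hd : dist (P a) (P a') ≤ h := gp_dist hh (fun i => (ha i).1) (fun i => (ha' i).1)
      have hd2 : dist (γ g (P a)) (γ g (P a')) < η / 2 := hθ' g _ hma _ hma' (lt_of_le_of_lt hd hh1)
      have h1 : dist (H t a) (H t a') < η / 2 := by
        rw [dist_eq_norm]
        have e1 : H t a - H t a' = (1 - t) • (P a - P a') + t • (γ g (P a) - γ g (P a')) := by
          rw [hH]
          simp only
          module
        rw [e1]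
        rw [dist_eq_norm] at hd hd2
        have h2 := norm_add_le ((1 - t) • (P a - P a')) (t • (γ g (P a) - γ g (P a')))
        rw [norm_smul, norm_smul, Real.norm_eq_abs, Real.norm_eq_abs, abs_of_nonneg ht0,
          abs_of_nonneg (by linarith : (0 : ℝ) ≤ 1 - t)] at h2
        set A := ‖P a - P a'‖
        set B := ‖γ g (P a) - γ g (P a')‖
        have hB : B ≤ η / 2 := hd2.le
        rcases eq_or_lt_of_le ht0 with h0 | h0
        · rw [← h0] at h2 ⊢
          simp only [sub_zero, one_mul, zero_mul, add_zero] at h2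
          refine lt_of_le_of_lt ?_ (lt_of_le_of_lt hd hh2)
          simpa using h2
        · have h3 := mul_lt_mul_of_pos_left hd2 h0
          have h4 := mul_le_mul_of_nonneg_left hd (by linarith : (0 : ℝ) ≤ 1 - t)
          nlinarith
      have h2 : dist (H t a') (H t' a') < η / 2 := by
        rw [dist_eq_norm]
        have e1 : H t a' - H t' a' = (t - t') • (γ g (P a') - P a') := by
          rw [hH]
          simp only
          module
        rw [e1, norm_smul, Real.norm_eq_abs]
        have h3 := hdisp g (P a') hma'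
        rw [dist_eq_norm] at h3
        change ‖γ g (P a') - P a'‖ ≤ κ at h3
        calc |t - t'| * ‖γ g (P a') - P a'‖ ≤ 1 / L * κ := by
              apply mul_le_mul htt h3 (norm_nonneg _) (by positivity)
          _ = κ / L := by ring
          _ < η / 2 := hL1
      have h3 := dist_triangle (H t a) (H t a') (H t' a')
      linarith
    set φ : ℕ → (Fin n → ℤ) → X := fun j a => e (H (j / L) a) with hφ
    have hstep : ∀ j : ℕ, j < L → KI n m (fun l => f (l.map (φ j))) =
        KI n m (fun l => f (l.map (φ (j + 1)))) := by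
      intro j hj
      have ht : (0 : ℝ) ≤ (j : ℝ) / L ∧ (j : ℝ) / L ≤ 1 := by
        constructor
        · positivity
        · rw [div_le_one hL0]
          exact_mod_cast hj.le
      have ht' : (0 : ℝ) ≤ ((j + 1 : ℕ) : ℝ) / L ∧ ((j + 1 : ℕ) : ℝ) / L ≤ 1 := by
        constructor
        · positivity
        · rw [div_le_one hL0]
          exact_mod_cast hj
      have htt : |(j : ℝ) / L - ((j + 1 : ℕ) : ℝ) / L| ≤ 1 / L := by
        rw [← sub_div, abs_div, abs_of_pos hL0]
        apply div_le_div_of_nonneg_right _ hL0.le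
        push_cast
        rw [abs_le]
        constructor <;> linarith
      have hT : ∀ s : ℝ, (s = (j : ℝ) / L ∨ s = ((j + 1 : ℕ) : ℝ) / L) → 0 ≤ s ∧ s ≤ 1 := by
        rintro s (rfl | rfl)
        · exact ht
        · exact ht'
      have hTT : ∀ s s' : ℝ, (s = (j : ℝ) / L ∨ s = ((j + 1 : ℕ) : ℝ) / L) →
          (s' = (j : ℝ) / L ∨ s' = ((j + 1 : ℕ) : ℝ) / L) → |s - s'| ≤ 1 / L := by
        have h0 : (0 : ℝ) ≤ 1 / L := by positivity
        rintro s s' (rfl | rfl) (rfl | rfl)
        · rw [sub_self, abs_zero]; exact h0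
        · exact htt
        · rw [abs_sub_comm]; exact htt
        · rw [sub_self, abs_zero]; exact h0
      have hsm : ∀ (t : List X) (b : Fin n → ℤ), (∀ x ∈ t, ∃ u : Fin n → ℤ,
          (∀ i, (u i = b i ∨ u i = b i + 1) ∧ |u i| ≤ m) ∧ (x = φ j u ∨ x = φ (j + 1) u)) →
          Sm R t := by
        intro t b ht x hx x' hx'
        obtain ⟨u, hu, hxu⟩ := ht x hx
        obtain ⟨u', hu', hxu'⟩ := ht x' hx'
        obtain ⟨s, hs, hxs⟩ : ∃ s : ℝ, (s = (j : ℝ) / L ∨ s = ((j + 1 : ℕ) : ℝ) / L) ∧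
            x = e (H s u) := by
          rcases hxu with h | h
          · exact ⟨_, Or.inl rfl, h⟩
          · exact ⟨_, Or.inr rfl, h⟩
        obtain ⟨s', hs', hxs'⟩ : ∃ s : ℝ, (s = (j : ℝ) / L ∨ s = ((j + 1 : ℕ) : ℝ) / L) ∧
            x' = e (H s u') := by
          rcases hxu' with h | h
          · exact ⟨_, Or.inl rfl, h⟩
          · exact ⟨_, Or.inr rfl, h⟩
        rw [hxs, hxs']
        apply hR _ (hHball s (hT s hs).1 (hT s hs).2 u fun i => (hu i).2) _
          (hHball s' (hT s' hs').1 (hT s' hs').2 u' fun i => (hu' i).2)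
        exact hHd s s' (hT s hs).1 (hT s hs).2 (hT s' hs').1 (hT s' hs').2 (hTT s s' hs hs') u u' b
          hu hu'
      apply KI_homotopy
      · intro t b ht hx
        exact hcl t (hsm t b hx) ht
      · intro i₀ s hs t b ht hx
        by_contra hne
        have hx' : ∀ x ∈ t, ∃ u : Fin n → ℤ, (∀ i, (u i = b i ∨ u i = b i + 1) ∧ |u i| ≤ m) ∧
            (x = φ j u ∨ x = φ (j + 1) u) := by
          intro x hxt
          obtain ⟨u, hu, _, hxu⟩ := hx x hxt
          exact ⟨u, hu, hxu⟩
        have hKx := hsu t (hsm t b hx') ht hne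
        obtain ⟨x, hxt⟩ : ∃ x, x ∈ t := by
          apply List.exists_mem_of_ne_nil
          rintro rfl
          simp at ht
        obtain ⟨u, hu, hus, hxu⟩ := hx x hxt
        obtain ⟨r, hr, hxr⟩ : ∃ r : ℝ, (r = (j : ℝ) / L ∨ r = ((j + 1 : ℕ) : ℝ) / L) ∧
            x = e (H r u) := by
          rcases hxu with h | h
          · exact ⟨_, Or.inl rfl, h⟩
          · exact ⟨_, Or.inr rfl, h⟩
        have h1 := hK _ (hHball r (hT r hr).1 (hT r hr).2 u fun i => (hu i).2)
          (by rw [← hxr]; exact hKx x hxt)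
        have h2 := hHmem r (hT r hr).1 (hT r hr).2 u fun i => (hu i).2
        have h3 : dist (P u) y₀ < ρ := by
          have := dist_triangle (P u) (H r u) y₀
          rw [dist_comm (P u) (H r u)] at this
          linarith
        have h4 := dist_le_pi_dist (P u) y₀ i₀
        rw [Real.dist_eq] at h4
        have h5 : |P u i₀ - y₀ i₀| = ρ := by
          rw [hP]
          unfold gp
          rw [add_sub_cancel_left, abs_mul, abs_of_pos hh, ← hm, hus]
          congr 1
          exact_mod_cast hs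
        linarith
    have hall : ∀ j : ℕ, j ≤ L → KI n m (fun l => f (l.map (φ 0))) =
        KI n m (fun l => f (l.map (φ j))) := by
      intro j hj
      induction j with
      | zero => rfl
      | succ j ih => rw [ih (by omega), hstep j (by omega)]
    have h0 : KI n m (fun l => f (l.map (φ 0))) = I f := by
      rw [hIapp]
      apply KI_congr
      intro l b hl hb
      congr 1
      apply List.map_congr_left
      intro a ha
      rw [hφ, hH]
      simp
    have h1 : KI n m (fun l => f (l.map (φ L))) = I (fun z => f (z.map (act g))) := by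
      rw [hIapp]
      apply KI_congr
      intro l b hl hb
      rw [List.map_map]
      congr 1
      apply List.map_congr_left
      intro a ha
      rw [hφ, hH]
      simp only [Function.comp_apply]
      rw [div_self hL0.ne', one_smul, add_sub_cancel]
      exact hγ g _ (gp_mem hh hm fun i => (hb a ha i).2)
    rw [← h1, ← h0]
    exact (hall L le_rfl).symm
  · intro F y κ' hF hy
    have hκ' : 0 ≤ κ' := dist_nonneg.trans (hF y₀ (mem_closedBall_self hρ.le))
    rw [hIapp]
    have h1 : KI n m (fun l => (fun z => cyc (k := k) y (z.map F)) (l.map fun a => e (P a))) =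
        KI n m (fun l => cyc (k := k) y (l.map fun a => F (e (P a)))) := by
      congr 1
      funext l
      simp only [List.map_map]
      rfl
    rw [h1]
    have h2 := KI_homotopy (M := k) m (fun a => F (e (P a))) P (cyc (k := k) y)
      (fun t b _ _ => dl_cyc y t) (by
        intro i₀ s hs t b ht hx
        by_contra hne
        obtain ⟨u, hu, v, hv, huy, hyv⟩ := cyc_supp y t hne i₀
        have h3 : dist (y i₀) (y₀ i₀) < ρ - κ' := lt_of_le_of_lt (dist_le_pi_dist y y₀ i₀) hy
        rw [Real.dist_eq, abs_lt] at h3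
        have key : ∀ x ∈ t, |x i₀ - (y₀ i₀ + h * s)| ≤ κ' := by
          intro x hxt
          obtain ⟨w, hw, hws, hxw⟩ := hx x hxt
          rcases hxw with rfl | rfl
          · have h4 := hF (P w) (gp_mem hh hm fun i => (hw i).2)
            have h5 := dist_le_pi_dist (F (e (P w))) (P w) i₀
            rw [Real.dist_eq] at h5
            have h6 : P w i₀ = y₀ i₀ + h * s := by
              rw [hP]
              unfold gp
              rw [hws]
            rw [h6] at h5
            linarith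
          · have h6 : P w i₀ = y₀ i₀ + h * s := by
              rw [hP]
              unfold gp
              rw [hws]
            rw [h6, sub_self, abs_zero]
            exact hκ'
        have hu' := abs_le.1 (key u hu)
        have hv' := abs_le.1 (key v hv)
        rcases abs_eq (Int.natCast_nonneg m) |>.1 hs with hs | hs
        · rw [hs] at hu' hv'
          push_cast at hu' hv'
          rw [hm] at hu' hv'
          linarith
        · rw [hs] at hu' hv'
          push_cast at hu' hv'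
          have : h * -(m : ℝ) = -ρ := by rw [← hm]; ring
          rw [this] at hu' hv'
          linarith)
    rw [h2]
    apply KI_cyc m y y₀ hh
    intro i
    rw [hm]
    have h3 : dist (y i) (y₀ i) < ρ - κ' := lt_of_le_of_lt (dist_le_pi_dist y y₀ i) hy
    rw [Real.dist_eq] at h3
    linarith

/-- The local integral for a chart action. -/
theorem exists_int {n : ℕ} {G : Type*} [Group G] [TopologicalSpace G] [CompactSpace G]
    (L : LG n G) {k : Type*} [CommRing k] {X : Type*} (cl : (Fin n → ℝ) → X) (R : X → X → Prop)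
    (K : Set X) {ε : ℝ} (hε : 0 < ε)
    (hR : ∀ u ∈ L.U, ∀ v ∈ L.U, (∀ a : G, dist (L.g a u) (L.g a v) < ε) → R (cl u) (cl v))
    (hK : ∀ u ∈ L.U, cl u ∈ K → dist u L.c < 3 * L.s / 8) (act : G → X → X)
    (hact : ∀ a, ∀ u ∈ L.U, act a (cl u) = cl (L.g a u)) :
    ∃ I : (List X → k) →ₗ[k] k,
      (∀ f : List X → k, (∀ z, Sm R z → z.length = n + 1 → f z = 0) → I f = 0) ∧
      (∀ (f : List X → k) (a : G), (∀ z, Sm R z → z.length = n + 2 → dl f z = 0) →
        (∀ z, Sm R z → z.length = n + 1 → f z ≠ 0 → ∀ x ∈ z, x ∈ K) →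
        I (fun z => f (z.map (act a))) = I f) ∧
      ∀ (F : (Fin n → ℝ) → (Fin n → ℝ)) (F' : X → (Fin n → ℝ)) (y : Fin n → ℝ),
        (∀ x, dist (F x) x ≤ L.s / 8) → dist y L.c ≤ L.s / 8 → (∀ u ∈ L.U, F' (cl u) = F u) →
        I (fun z => cyc y (z.map F')) = 1 := by
  have hs := L.hs
  -- equicontinuity
  have heq : ∀ ζ > 0, ∃ θ > 0, ∀ g : G, ∀ x ∈ closedBall L.c L.s, ∀ x' ∈ closedBall L.c L.s,
      dist x x' < θ → dist (L.g g x) (L.g g x') < ζ := by
    intro ζ hζ
    have hcomp : IsCompact (closedBall L.c L.s) := isCompact_closedBall _ _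
    set Γ : (Fin n → ℝ) → C(G, Fin n → ℝ) := fun x =>
      ⟨fun g => L.g g x, L.hg.comp (Continuous.prodMk continuous_id continuous_const)⟩ with hΓ
    have hΓc : Continuous Γ := by
      apply ContinuousMap.continuous_of_continuous_uncurry
      exact L.hg.comp (continuous_snd.prodMk continuous_fst)
    have h1 : UniformContinuousOn Γ (closedBall L.c L.s) :=
      hcomp.uniformContinuousOn_of_continuous hΓc.continuousOn
    obtain ⟨θ, hθ, hθ'⟩ := Metric.uniformContinuousOn_iff.1 h1 ζ hζ
    refine ⟨θ, hθ, fun g x hx x' hx' hd => ?_⟩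
    exact lt_of_le_of_lt (ContinuousMap.dist_apply_le_dist (f := Γ x) (g := Γ x') g)
      (hθ' x hx x' hx' hd)
  obtain ⟨η, hη, hη'⟩ := heq ε hε
  have hsub : closedBall L.c (7 * L.s / 16 + L.s / 16) ⊆ L.U := by
    have : 7 * L.s / 16 + L.s / 16 = L.s / 2 := by ring
    rw [this]
    exact L.hball
  have hsubs : ∀ {r : ℝ}, r ≤ L.s → closedBall L.c r ⊆ closedBall L.c L.s := fun h =>
    closedBall_subset_closedBall h
  obtain ⟨I, h1, h2, h3⟩ := exists_integral (Q := G) k R K cl act L.g L.c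
    (ρ := 7 * L.s / 16) (κ := L.s / 16) (by positivity) (by positivity) hη
    (fun x hx x' hx' hd => hR x (hsub hx) x' (hsub hx') fun a => hη' a x
      (L.hUc (hsub hx)) x' (L.hUc (hsub hx')) hd)
    (fun ζ hζ => by
      obtain ⟨θ, hθ, hθ'⟩ := heq ζ hζ
      exact ⟨θ, hθ, fun g x hx x' hx' => hθ' g x (hsubs (by linarith) hx) x'
        (hsubs (by linarith) hx')⟩)
    (fun g x _ => L.hdisp g x)
    (fun g x hx => (hact g x (hsub (closedBall_subset_closedBall (by linarith) hx))).symm)
    (fun x hx hxK => by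
      have := hK x (hsub hx) hxK
      linarith)
  refine ⟨I, h1, h2, ?_⟩
  intro F F' y hF hy hF'
  apply h3 F' y (L.s / 8)
  · intro x hx
    rw [hF' x (hsub (closedBall_subset_closedBall (by linarith) hx))]
    exact hF x
  · linarith

end Pool.Agent.HSF
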