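import Pool.Agent.HSF.Top

set_option autoImplicit false
set_option linter.unusedVariables false
set_option linter.unusedSectionVars false

namespace Pool.Agent.HSF

variable {X Y Z k M B Q A : Type*}

section
variable [Group Q] [MulAction Q X] [MulAction Q A]

theorem pr_eqv [AddCommGroup M] {P P' : A → A} (g : Q) (h : ∀ a, P' (g • a) = g • P a)
    (f : List A → M) : ∀ l : List A, pr id P' f (l.map (g • ·)) =
      pr id P (fun t => f (t.map (g • ·))) l := by
  intro l
  induction l generalizing f with
  | nil => rfl
  | cons a l ih =>
    simp only [List.map_cons, pr_cons, id]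
    rw [ih (fun t => f (g • a :: t)), h]
    congr 3
    rw [List.map_map, List.map_map]
    congr 2
    funext x
    exact h x

theorem bet_eqv [AddCommGroup M] (P : X → A → A) (hP : ∀ (g : Q) x a, P (g • x) (g • a) = g • P x a)
    (g : Q) : ∀ (w : List X) (f : List A → M) (l : List A),
    bet P f (w.map (g • ·)) (l.map (g • ·)) = bet P (fun t => f (t.map (g • ·))) w l := by
  intro w
  induction w with
  | nil => intro f l; rfl
  | cons x w ih =>
    intro f l
    simp only [List.map_cons, bet]
    rw [ih]
    congr 2
    funext t
    exact pr_eqv g (hP g x) f t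

theorem bet_zero [AddCommGroup M] (P : X → A → A) (w : List X) (l : List A) :
    bet P (fun _ => (0 : M)) w l = 0 := by
  have := bet_sub P w (fun _ => (0 : M)) (fun _ => 0) l
  simpa using this

theorem bet_nil [AddCommGroup M] (P : X → A → A) : ∀ (w : List X), w ≠ [] → ∀ (f : List A → M),
    bet P f w [] = 0 := by
  intro w
  induction w with
  | nil => intro h; exact absurd rfl h
  | cons x w ih =>
    intro _ f
    by_cases hw : w = []
    · subst hw; rfl
    · exact ih hw _

end

section top
variable [Group Q] [MulAction Q X] [MulAction Q A] [LinearOrder B] {n : ℕ}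
  (D : Scales Q X B n) [CommRing k]

theorem Scales.R_le {s t : ℕ} (h : s ≤ t) {x y : X} (hxy : D.R s x y) : D.R t x y := by
  induction t, h using Nat.le_induction with
  | base => exact hxy
  | succ t _ ih => exact D.mono t _ _ ih

theorem Scales.K_le {s t : ℕ} (h : s ≤ t) : D.K t ⊆ D.K s := by
  induction t, h using Nat.le_induction with
  | base => exact subset_rfl
  | succ t _ ih => exact (D.Kmono t).trans ih

theorem Scales.Sm_le {s t : ℕ} (h : s ≤ t) {z : List X} (hz : Sm (D.R s) z) : Sm (D.R t) z :=
  fun x hx y hy => D.R_le h (hz x hx y hy)

/-- the total cochain -/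
def EE (n : ℕ) (P : X → A → A) (vol : List A → k) (f₀ : List X → k) (a₀ : A) :
    List Q → List X → k :=
  fun a z => cup n f₀ (fun w => bet P vol w (a.map (· • a₀))) z

theorem top {r : ℕ} (hr : 1 ≤ r) (vol : List A → k) (hvol : ∀ l, dl vol l = 0)
    (hvQ : ∀ (g : Q) l, vol (l.map (g • ·)) = vol l) (P : X → A → A)
    (hP : ∀ (g : Q) x a, P (g • x) (g • a) = g • P x a)
    (hcomm : ∀ x y, x ∈ D.K r → y ∈ D.K r → D.R r x y → ∀ a, P x (P y a) = P y (P x a))
    (hkill : ∀ x ∈ D.K r, ∀ l : List A, vol (l.map (P x)) = 0)
    (f₀ : List X → k) (hcl : Clo D (r + 1) (n + 2) f₀) (hsu : Supp D (r + 1) (n + 1) f₀)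
    (hf₀ : ∀ (g : Q) z, f₀ (z.map (g • ·)) = f₀ z) (a₀ : A)
    (I : (List X → k) →ₗ[k] k)
    (hI0 : ∀ f : List X → k, (∀ z, Sm (D.R 0) z → z.length = n + 1 → f z = 0) → I f = 0)
    (hI : ∀ (f : List X → k) (g : Q), Clo D 0 (n + 2) f → Supp D 0 (n + 1) f →
      I (fun z => f (z.map (g • ·))) = I f) :
    ∃ c : List Q → k, (∀ (g : Q) l, l.length = r → c (l.map (g * ·)) = c l) ∧
      ∀ l, l.length = r + 1 → dl c l = -(vol (l.map (· • a₀)) * I f₀) := by
  set E : List Q → List X → k := EE n P vol f₀ a₀ with hE
  -- equivariance
  have hEe : Eqv E := by
    intro g a z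
    simp only [hE, EE, cup]
    rw [← List.map_take, ← List.map_drop, hf₀]
    congr 1
    have h1 : (a.map (g * ·)).map (· • a₀) = (a.map (· • a₀)).map (g • ·) := by
      rw [List.map_map, List.map_map]; congr 1; funext x; simp [mul_smul]
    rw [h1, bet_eqv P hP g]
    congr 2
    funext t
    exact hvQ g t
  -- the entries of a small list on which `f₀` of the first part does not vanish
  have hK : ∀ z : List X, Sm (D.R r) z → n + 1 ≤ z.length → f₀ (z.take (n + 1)) ≠ 0 →
      ∀ x ∈ z, x ∈ D.K r := by
    intro z hz hl h x hx
    have hz' : Sm (D.R (r + 1)) z := D.Sm_le (Nat.le_succ r) hz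
    have h1 := hsu (z.take (n + 1)) (fun x hx y hy => hz' x (List.mem_of_mem_take hx) y
      (List.mem_of_mem_take hy)) (by rw [List.length_take]; omega) h
    have h0 : z.take (n + 1) ≠ [] := by
      intro h0
      have h2 := congrArg List.length h0
      rw [List.length_take, List.length_nil] at h2
      omega
    obtain ⟨w, hw⟩ := List.exists_mem_of_ne_nil _ h0
    exact D.supp r w x (h1 w hw) (hz' w (List.mem_of_mem_take hw) x hx)
  -- coboundary in the group direction
  have hEa : ∀ (a : List Q) (z : List X), Sm (D.R r) z → n + 1 ≤ z.length →
      dl E a z = (-1) ^ (z.length - n) *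
        cup n f₀ (dl (fun w => bet P vol w (a.map (· • a₀)))) z := by
    intro a z hz hl
    rw [dl_apply]
    have h1 : (fun b => E b z) = fun b : List Q => f₀ (z.take (n + 1)) *
      (fun t : List A => bet P vol (z.drop n) t) (b.map (· • a₀)) := rfl
    rw [h1, dl_mul_left, dl_map (fun q : Q => q • a₀) (fun t => bet P vol (z.drop n) t)]
    simp only [cup]
    by_cases h : f₀ (z.take (n + 1)) = 0
    · rw [h]; ring
    · have hk := hK z hz hl h
      have h2 := dl_bet P (z.drop n) vol (fun x hx l => hkill x (hk x (List.mem_of_mem_drop hx)) l)
        (fun x hx y hy => hcomm x y (hk x (List.mem_of_mem_drop hx))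
          (hk y (List.mem_of_mem_drop hy)) (hz x (List.mem_of_mem_drop hx) y
          (List.mem_of_mem_drop hy))) (a.map (· • a₀))
      have h3 : (dl vol) = fun _ => 0 := funext hvol
      rw [h3, bet_zero, zero_add, List.length_drop] at h2
      have h4 : dl (fun t => bet P vol t) (z.drop n) (a.map (· • a₀)) =
          dl (fun w => bet P vol w (a.map (· • a₀))) (z.drop n) := by
        have : ∀ (F : List X → (List A → k)) (z : List X) (b : List A),
            dl F z b = dl (fun w => F w b) z := by
          intro F z b
          induction z generalizing F with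
          | nil => rfl
          | cons x z ih =>
            rw [dl_cons, dl_cons]
            show F z b - dl (fun t => F (x :: t)) z b = _
            rw [ih]
        exact this _ _ _
      show f₀ (z.take (n + 1)) * dl (bet P vol (z.drop n)) (a.map (· • a₀)) = _
      rw [h2, h4, zsmul_eq_mul]
      push_cast
      ring
  -- coboundary in the space direction
  have hEz : ∀ (a : List Q) (z : List X), Sm (D.R r) z → n + 2 ≤ z.length →
      dl (E a) z = (-1) ^ n * cup n f₀ (dl (fun w => bet P vol w (a.map (· • a₀)))) z := by
    intro a z hz hl
    have h1 := dl_cup n f₀ (fun w => bet P vol w (a.map (· • a₀))) z hl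
    have h2 : cup (n + 1) (dl f₀) (fun w => bet P vol w (a.map (· • a₀))) z = 0 := by
      simp only [cup]
      rw [hcl (z.take (n + 1 + 1)) (fun x hx y hy => D.Sm_le (Nat.le_succ r) hz x
        (List.mem_of_mem_take hx) y (List.mem_of_mem_take hy))
        (by rw [List.length_take]; omega), zero_mul]
    rw [h2, zero_add] at h1
    exact h1
  have hEE : ∀ (a : List Q) (z : List X), Sm (D.R r) z → n + 2 ≤ z.length →
      dl E a z = (-1) ^ z.length * dl (E a) z := by
    intro a z hz hl
    rw [hEa a z hz (by omega), hEz a z hz hl, ← mul_assoc, ← pow_add]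
    have h5 : (-1 : k) ^ (z.length + n) = (-1) ^ (z.length - n) := by
      rw [show z.length + n = (z.length - n) + 2 * n by omega, pow_add, pow_mul]; simp
    rw [h5]
  have hE1 : ∀ (a : List Q) (z : List X), Sm (D.R r) z → z.length = n + 1 →
      dl E a z = -(vol (a.map (· • a₀)) * f₀ z) := by
    intro a z hz hl
    rw [hEa a z hz (by omega)]
    have h1 : z.length - n = 1 := by omega
    have h2 : z.take (n + 1) = z := List.take_of_length_le (by omega)
    obtain ⟨x, hx⟩ : ∃ x, z.drop n = [x] := by
      rw [← List.length_eq_one_iff, List.length_drop]; omega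
    rw [h1]
    simp only [cup]
    rw [h2, hx]
    simp only [dl_cons, dl_nil, sub_zero, bet]
    ring
  have hEsu : ∀ (a : List Q) (s N : ℕ), s ≤ r → n + 1 ≤ N → Supp D s N (E a) := by
    intro a s N hs hN z hz hl h x hx
    apply D.K_le hs
    apply hK z (D.Sm_le hs hz) (by omega) _ x hx
    intro h0
    apply h
    simp only [hE, EE, cup, h0, zero_mul]
  -- the elimination
  have main : ∀ m j : ℕ, m + j = r → 1 ≤ m → ∃ G : List Q → List X → k, Eqv G ∧
      (∀ a, Supp D j (n + 1 + j) (G a)) ∧ (∀ a, a.length = m → Clo D j (n + 2 + j) (G a)) ∧
      (∀ a z, a.length = m + 1 → z.length = n + 1 + j → Sm (D.R j) z → dl G a z = dl E a z) := by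
    intro m
    induction m with
    | zero => intro j _ h; omega
    | succ m ih =>
      intro j hj _
      by_cases hm : m = 0
      · subst hm
        refine ⟨E, hEe, fun a => hEsu a j _ (by omega) (by omega), ?_, fun _ _ _ _ _ => rfl⟩
        intro a ha z hz hl
        have hz' := D.Sm_le (show j ≤ r by omega) hz
        have h1 := hEE a z hz' (by omega)
        obtain ⟨g, rfl⟩ := List.length_eq_one_iff.1 (by simpa using ha)
        have h2 : dl E [g] z = 0 := by
          rw [dl_cons, dl_nil, sub_zero]
          simp only [hE, EE, cup, List.map_nil]
          rw [bet_nil _ _ (by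
            intro h0
            have h2 := congrArg List.length h0
            rw [List.length_drop, List.length_nil] at h2
            omega), mul_zero]
        rw [h2] at h1
        have h3 : (-1 : k) ^ z.length * ((-1) ^ z.length * dl (E [g]) z) = dl (E [g]) z := by
          rw [← mul_assoc, ← pow_add, ← two_mul, pow_mul]; simp
        rw [← h3, ← h1, mul_zero]
      · obtain ⟨G', hGe, hGs, hGc, hGd⟩ := ih (j + 1) (by omega) (by omega)
        set N := n + 1 + j with hN
        -- cut off the wrong lengths
        set G : List Q → List X → k := fun a z => if a.length = m then G' a z else 0 with hG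
        have hGe' : Eqv G := by
          intro g a z
          simp only [hG, List.length_map]
          split_ifs
          · exact hGe g a z
          · rfl
        have hGs' : ∀ a, Supp D (j + 1) (N + 1) (G a) := by
          intro a z hz hl h
          simp only [hG] at h
          split_ifs at h with ha
          · exact hGs a z hz (by omega) h
          · exact absurd rfl h
        have hGc' : ∀ a, Clo D (j + 1) (N + 2) (G a) := by
          intro a z hz hl
          by_cases ha : a.length = m
          · have : G a = G' a := by funext z; simp only [hG, if_pos ha]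
            rw [this]; exact hGc a ha z hz (by omega)
          · have : G a = fun _ => 0 := by funext z; simp only [hG, if_neg ha]
            rw [this, dl_zero]
        set α := TW D j N G with hα
        have hαe : Eqv α := TW_eqv D j N hGe'
        have hαs : ∀ a, Supp D j N (α a) := TW_supp D j N hGs'
        have hαd : ∀ a : List Q, a ≠ [] → ∀ z, Sm (D.R j) z → z.length = N + 1 →
            dl (α a) z = G a z := TW_step D j N (by omega) hGc'
        refine ⟨fun a z => E a z - (-1) ^ (N + 1) * dl α a z, ?_, ?_, ?_, ?_⟩
        · intro g a z
          have h9 : dl α (a.map (g * ·)) (z.map (g • ·)) = dl α a z := dl_eqv hαe g a z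
          show E _ _ - _ * dl α _ _ = E a z - _ * dl α a z
          rw [hEe g a z, h9]
        · intro a z hz hl h x hx
          by_contra hx'
          apply h
          have h1 : E a z = 0 := by
            by_contra h1
            exact hx' (hEsu a j _ (by omega) (by omega) z hz hl h1 x hx)
          have h2 : dl α a z = 0 := by
            rw [dl_apply]
            have : dl (fun b => α b z) a = dl (fun _ => (0 : k)) a := by
              apply dl_congr
              intro t _ _
              by_contra h2
              exact hx' (hαs t z hz (by omega) h2 x hx)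
            rw [this, dl_zero]
          show E a z - _ * dl α a z = 0
          rw [h1, h2]; ring
        · intro a ha z hz hl
          have hz' := D.Sm_le (show j ≤ r by omega) hz
          have h1 : dl (fun z => E a z - (-1) ^ (N + 1) * dl α a z) z =
              dl (E a) z - (-1) ^ (N + 1) * dl (fun z => dl α a z) z := by
            rw [dl_sub, dl_mul_left]
          have h2 : dl (fun z => dl α a z) z = dl (fun b => dl (α b) z) a := by
            have : ∀ (F : List Q → List X → k) (a : List Q) (z : List X),
                dl (fun z => dl F a z) z = dl (fun b => dl (F b) z) a := by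
              intro F a z
              induction a generalizing F with
              | nil =>
                simp only [dl_nil]
                exact dl_zero z
              | cons b a ih =>
                have h8 : (fun z => dl F (b :: a) z) = fun z => F a z - dl (fun t => F (b :: t)) a z :=
                  rfl
                rw [h8, dl_sub, ih, dl_cons]
            exact this α a z
          have h3 : dl (fun b => dl (α b) z) a = dl G a z := by
            rw [dl_apply]
            apply dl_congr
            intro t ht htl
            apply hαd t _ z hz (by omega)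
            rintro rfl
            simp at htl
            omega
          have h4 : dl G a z = dl E a z := by
            rw [← hGd a z (by omega) (by omega) (D.Sm_le (Nat.le_succ j) hz), dl_apply, dl_apply]
            apply dl_congr
            intro t ht htl
            simp only [hG]
            rw [if_pos (by omega)]
          rw [h1, h2, h3, h4, hEE a z hz' (by omega), hl, ← mul_assoc, ← pow_add,
            show N + 1 + (n + 2 + j) = 2 * (n + 2 + j) by omega, pow_mul]
          simp
        · intro a z ha hl hz
          have h1 : dl (fun (a : List Q) (z : List X) => E a z - (-1) ^ (N + 1) * dl α a z) a z =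
              dl E a z - (-1) ^ (N + 1) * dl (fun b => dl α b z) a := by
            rw [dl_apply, dl_sub, dl_mul_left, dl_apply E]
          have h2 : dl (fun b => dl α b z) a = 0 := by
            have : (fun b => dl α b z) = dl (fun b => α b z) := by
              funext b; exact dl_apply α b z
            rw [this, dl_dl]
          rw [h1, h2]; ring
  obtain ⟨G, hGe, hGs, hGc, hGd⟩ := main r 0 (by omega) hr
  refine ⟨fun a => I (G a), ?_, ?_⟩
  · intro g l hl
    have h1 := hI (G (l.map (g * ·))) g (hGc _ (by simpa using hl)) (hGs _)
    show I (G _) = I (G l)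
    rw [← h1]
    congr 1
    funext z
    exact hGe g l z
  · intro l hl
    have h1 : dl (fun a => I (G a)) l = I (dl G l) := by
      have := dl_hom (I.toAddMonoidHom) G l
      exact this
    rw [h1]
    have h2 : I (fun z => dl G l z + vol (l.map (· • a₀)) * f₀ z) = 0 := by
      apply hI0
      intro z hz hzl
      rw [hGd l z hl (by omega) hz, hE1 l z (D.Sm_le (Nat.zero_le r) hz) hzl]
      ring
    have h3 : (fun z => dl G l z + vol (l.map (· • a₀)) * f₀ z) =
        dl G l + vol (l.map (· • a₀)) • f₀ := rfl
    rw [h3, map_add, map_smul, smul_eq_mul] at h2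
    exact eq_neg_of_add_eq_zero_left h2

end top

end Pool.Agent.HSF
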