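import Pool.Agent.TF.Beta
import Pool.Agent.HSF.Basic
import Pool.Agent.HSF.Defs2

/-!
# The volume cochain

`vol r` is closed, invariant under translations, zero on lists in a hyperplane; the value on the partial sums of a list
of vectors is the determinant.
-/

set_option autoImplicit false
set_option linter.unusedVariables false

namespace Pool.Agent.HSF

namespace h25
variable {k : Type*} [CommRing k] {r : ℕ}

theorem dl_eq {X M : Type*} [AddCommGroup M] (f : List X → M) : ∀ l : List X, dl f l = Pool.Agent.TF.dl f l := by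
  intro l
  induction l generalizing f with
  | nil => rfl
  | cons a l ih => rw [dl_cons, Pool.Agent.TF.dl_cons, ih]

/-- the matrix with the rows `(1, x)` -/
def vmat (f : Fin (r + 1) → (Fin r → k)) : Matrix (Fin (r + 1)) (Fin (r + 1)) k :=
  Matrix.of fun i => Fin.cons 1 (f i)

theorem vmat_zero (f : Fin (r + 1) → (Fin r → k)) (i : Fin (r + 1)) : vmat f i 0 = 1 := rfl

theorem vmat_succ (f : Fin (r + 1) → (Fin r → k)) (i : Fin (r + 1)) (j : Fin r) : vmat f i j.succ = f i j := rfl

/-- the volume of a list -/
noncomputable def vl (l : List (Fin r → k)) : k :=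
  if h : l.length = r + 1 then (vmat fun i => l.get (i.cast h.symm)).det else 0

theorem vl_ofFn (f : Fin (r + 1) → (Fin r → k)) : vl (List.ofFn f) = (vmat f).det := by
  unfold vl
  rw [dif_pos (List.length_ofFn (f := f))]
  congr 2
  funext i
  rw [List.get_ofFn]
  rfl

theorem vl_of_ne {l : List (Fin r → k)} (h : l.length ≠ r + 1) : vl l = 0 := dif_neg h

theorem vl_closed (f : Fin (r + 2) → (Fin r → k)) :
    ∑ j : Fin (r + 2), (-1) ^ (j : ℕ) * vl (List.ofFn (f ∘ j.succAbove)) = 0 := by
  set M : Matrix (Fin (r + 2)) (Fin (r + 2)) k := Matrix.of fun i => Fin.cons 1 (Fin.cons 1 (f i)) with hM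
  have h1 : M.det = 0 := by
    apply Matrix.det_zero_of_column_eq (i := (0 : Fin (r + 2))) (j := (1 : Fin (r + 2)))
    · exact Fin.zero_ne_one
    · intro i
      rfl
  rw [Matrix.det_succ_column_zero] at h1
  rw [← h1]
  refine Finset.sum_congr rfl fun j _ => ?_
  rw [vl_ofFn]
  have h2 : M j 0 = 1 := rfl
  rw [h2, mul_one]
  congr 1

theorem dl_vl (l : List (Fin r → k)) : Pool.Agent.TF.dl (vl (k := k) (r := r)) l = 0 := by
  rcases l with _ | ⟨a, l⟩
  · rfl
  · obtain ⟨n, f, hf⟩ : ∃ (n : ℕ) (f : Fin (n + 1) → (Fin r → k)), List.ofFn f = a :: l :=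
      ⟨l.length, (a :: l).get, List.ofFn_get _⟩
    rw [← hf, Pool.Agent.TF.dl_ofFn_beta]
    by_cases hn : n = r + 1
    · subst hn
      rw [← vl_closed f]
      refine Finset.sum_congr rfl fun j _ => ?_
      rw [zsmul_eq_mul]
      push_cast
      rfl
    · refine Finset.sum_eq_zero fun j _ => ?_
      rw [vl_of_ne, smul_zero]
      rw [List.length_ofFn]
      exact hn

theorem vl_add (g : Fin r → k) (l : List (Fin r → k)) : vl (l.map (· + g)) = vl l := by
  unfold vl
  by_cases h : l.length = r + 1
  · rw [dif_pos h, dif_pos (by rw [List.length_map]; exact h)]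
    rw [← Matrix.det_transpose, ← Matrix.det_transpose (vmat fun i => l.get (i.cast h.symm))]
    refine Matrix.det_eq_of_forall_row_eq_smul_add_const (Fin.cons 0 g) 0 rfl ?_
    intro j i
    rw [Matrix.transpose_apply, Matrix.transpose_apply, Matrix.transpose_apply, vmat_zero, mul_one]
    refine Fin.cases ?_ (fun j => ?_) j
    · rw [vmat_zero, vmat_zero, Fin.cons_zero, add_zero]
    · rw [vmat_succ, vmat_succ, Fin.cons_succ]
      simp
  · rw [dif_neg h, dif_neg (by rw [List.length_map]; exact h)]

/-- the two forms of the volume -/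
theorem vol_eq (l : List (Fin r → k)) : vol r l = vl l := by
  rcases l with _ | ⟨a, l⟩
  · rw [vl_of_ne]
    · rfl
    · simp
  · by_cases h : l.length = r
    · have h' : (a :: l).length = r + 1 := by rw [List.length_cons, h]
      have e1 : vol r (a :: l) = Matrix.det (Matrix.of fun i j : Fin r => (l.get (i.cast h.symm)) j - a j) := dif_pos h
      have e2 : vl (a :: l) = (vmat fun i => (a :: l).get (i.cast h'.symm)).det := dif_pos h'
      rw [e1, e2]
      set B : Matrix (Fin (r + 1)) (Fin (r + 1)) k := Matrix.of fun i =>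
        Fin.cases (Fin.cons 1 a : Fin (r + 1) → k) (fun i' : Fin r => Fin.cons 0 fun j => l.get (i'.cast h.symm) j - a j) i
        with hB
      have h1 : (vmat fun i => (a :: l).get (i.cast h'.symm)).det = B.det := by
        refine Matrix.det_eq_of_forall_row_eq_smul_add_const (Fin.cons 0 fun _ => 1) 0 rfl ?_
        intro i j
        refine Fin.cases ?_ (fun i => ?_) i
        · rw [Fin.cons_zero, zero_mul, add_zero]
          refine Fin.cases ?_ (fun j => ?_) j
          · rfl
          · rfl
        · rw [Fin.cons_succ, one_mul]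
          refine Fin.cases ?_ (fun j => ?_) j
          · show (1 : k) = 0 + 1
            rw [zero_add]
          · show l.get (i.cast h.symm) j = (l.get (i.cast h.symm) j - a j) + a j
            rw [sub_add_cancel]
      rw [h1, Matrix.det_succ_column_zero, Fin.sum_univ_succ, Finset.sum_eq_zero, add_zero]
      · have h2 : B 0 0 = 1 := rfl
        rw [h2, Fin.val_zero, pow_zero, one_mul, one_mul]
        congr 1
      · intro i _
        have h2 : B i.succ 0 = 0 := rfl
        rw [h2, mul_zero, zero_mul]
    · have e1 : vol r (a :: l) = 0 := dif_neg h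
      rw [e1, vl_of_ne]
      rw [List.length_cons]
      omega

/-- partial sums -/
theorem pp_ofFn {V : Type*} [AddCommMonoid V] : ∀ {n : ℕ} (a : V) (x : Fin n → V),
    pp (· + ·) a (List.ofFn x) = a :: List.ofFn (fun i : Fin n => a + ∑ j ∈ Finset.univ.filter (fun j : Fin n => j ≤ i), x j)
  | 0, a, x => by
    rw [List.ofFn_zero, List.ofFn_zero]
    rfl
  | n + 1, a, x => by
    rw [List.ofFn_succ, List.ofFn_succ]
    have h1 : pp (· + ·) a (x 0 :: List.ofFn fun i : Fin n => x i.succ) =
      a :: pp (· + ·) (a + x 0) (List.ofFn fun i : Fin n => x i.succ) := rfl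
    rw [h1, pp_ofFn (a + x 0) fun i : Fin n => x i.succ]
    congr 2
    · congr 1
      rw [Finset.sum_filter, Fin.sum_univ_succ, Finset.sum_eq_zero, add_zero]
      · simp
      · intro j _
        rw [if_neg]
        intro h
        exact absurd (Fin.le_zero_iff.1 h) (Fin.succ_ne_zero j)
    · refine congrArg List.ofFn (funext fun i => ?_)
      rw [add_assoc]
      congr 1
      conv_rhs => rw [Finset.sum_filter, Fin.sum_univ_succ]
      rw [if_pos (Fin.zero_le _), Finset.sum_filter]
      congr 1
      refine Finset.sum_congr rfl fun j _ => ?_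
      simp only [Fin.succ_le_succ_iff]

end h25

section V
variable {k : Type*} [CommRing k] {r : ℕ}

theorem dl_vol (l : List (Fin r → k)) : dl (vol r) l = 0 := by
  have h1 : (vol r : List (Fin r → k) → k) = h25.vl := funext h25.vol_eq
  rw [h1, h25.dl_eq, h25.dl_vl]

theorem vol_add (v : Fin r → k) (l : List (Fin r → k)) : vol r (l.map (v + ·)) = vol r l := by
  have h1 : (fun x : Fin r → k => v + x) = fun x => x + v := funext fun x => add_comm _ _
  rw [h25.vol_eq, h25.vol_eq, h1, h25.vl_add]

/-- maps with image in an affine hyperplane kill `vol`, over a commutative ring: the volume is annihilated by the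
coefficients of the hyperplane -/
theorem vol_mul_eq_zero {ξ : Fin r → k} (c : k) {P : (Fin r → k) → (Fin r → k)}
    (hP : ∀ a, ∑ i, ξ i * P a i = c) (l : List (Fin r → k)) (i : Fin r) : vol r (l.map P) * ξ i = 0 := by
  rcases l with _ | ⟨a, l⟩
  · have h0 : vol r (([] : List (Fin r → k)).map P) = 0 := rfl
    rw [h0, zero_mul]
  · rw [List.map_cons]
    by_cases h : (l.map P).length = r
    · have e1 : vol r (P a :: l.map P) =
          Matrix.det (Matrix.of fun i j : Fin r => ((l.map P).get (i.cast h.symm)) j - P a j) := dif_pos h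
      rw [e1]
      set A : Matrix (Fin r) (Fin r) k := Matrix.of fun i j : Fin r => ((l.map P).get (i.cast h.symm)) j - P a j with hA
      have h1 : A.mulVec ξ = 0 := by
        funext i
        rw [Matrix.mulVec, dotProduct, Pi.zero_apply]
        have h2 : ∀ j, A i j * ξ j = ξ j * (l.map P).get (i.cast h.symm) j - ξ j * P a j := by
          intro j
          rw [hA, Matrix.of_apply]
          ring
        rw [Finset.sum_congr rfl fun j _ => h2 j, Finset.sum_sub_distrib, hP a]
        obtain ⟨y, -, hy⟩ := List.mem_map.1 (List.get_mem (l.map P) (i.cast h.symm))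
        rw [← hy, hP y, sub_self]
      have h3 : (A.adjugate * A).mulVec ξ = 0 := by
        rw [← Matrix.mulVec_mulVec, h1, Matrix.mulVec_zero]
      rw [Matrix.adjugate_mul, Matrix.smul_mulVec, Matrix.one_mulVec] at h3
      exact congrFun h3 i
    · have e1 : vol r (P a :: l.map P) = 0 := dif_neg h
      rw [e1, zero_mul]

/-- maps with image in an affine hyperplane kill `vol`, over a commutative ring -/
theorem vol_kill' {ξ w : Fin r → k} (hw : ∑ i, ξ i * w i = 1) (c : k) {P : (Fin r → k) → (Fin r → k)}
    (hP : ∀ a, ∑ i, ξ i * P a i = c) (l : List (Fin r → k)) : vol r (l.map P) = 0 := by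
  rw [← mul_one (vol r (l.map P)), ← hw, Finset.mul_sum]
  refine Finset.sum_eq_zero fun i _ => ?_
  rw [← mul_assoc, vol_mul_eq_zero c hP, zero_mul]

/-- maps with image in an affine hyperplane kill `vol` -/
theorem vol_kill {k : Type*} [Field k] {ξ : Fin r → k} (hξ : ξ ≠ 0) (c : k) {P : (Fin r → k) → (Fin r → k)}
    (hP : ∀ a, ∑ i, ξ i * P a i = c) (l : List (Fin r → k)) : vol r (l.map P) = 0 := by
  obtain ⟨i, hi⟩ := Function.ne_iff.1 hξ
  exact (mul_eq_zero.1 (vol_mul_eq_zero c hP l i)).resolve_right hi

/-- partial sums -/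
theorem vol_pp (x : Fin r → (Fin r → k)) (a : Fin r → k) :
    vol r (pp (· + ·) a (List.ofFn x)) = Matrix.det (Matrix.of x) := by
  classical
  rw [h25.pp_ofFn]
  set y : Fin r → (Fin r → k) := fun i => a + ∑ j ∈ Finset.univ.filter (fun j : Fin r => j ≤ i), x j with hy
  have hl : (List.ofFn y).length = r := List.length_ofFn
  have e1 : vol r (a :: List.ofFn y) =
      Matrix.det (Matrix.of fun i j : Fin r => ((List.ofFn y).get (i.cast hl.symm)) j - a j) := dif_pos hl
  rw [e1]
  set L : Matrix (Fin r) (Fin r) k := Matrix.of fun i j => if j ≤ i then 1 else 0 with hL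
  have h1 : (Matrix.of fun i j : Fin r => ((List.ofFn y).get (i.cast hl.symm)) j - a j) = L * Matrix.of x := by
    ext i j
    rw [Matrix.mul_apply, Matrix.of_apply]
    have h2 : (List.ofFn y).get (i.cast hl.symm) = y i := by
      rw [List.get_ofFn]
      rfl
    rw [h2, hy]
    show (a + ∑ j ∈ Finset.univ.filter (fun j : Fin r => j ≤ i), x j) j - a j = _
    rw [Pi.add_apply, add_sub_cancel_left, Finset.sum_apply, Finset.sum_filter]
    refine Finset.sum_congr rfl fun m _ => ?_
    rw [hL, Matrix.of_apply, Matrix.of_apply]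
    split_ifs
    · rw [one_mul]
    · rw [zero_mul]
  rw [h1, Matrix.det_mul]
  have h2 : L.det = 1 := by
    rw [Matrix.det_of_isLowerTriangular]
    · refine Finset.prod_eq_one fun i _ => ?_
      rw [hL, Matrix.of_apply, if_pos le_rfl]
    · intro i j hij
      rw [hL, Matrix.of_apply, if_neg]
      exact not_le.2 hij
  rw [h2, one_mul]

end V

end Pool.Agent.HSF
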