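import Pool.Agent.HSF.Orb
import Pool.Agent.HSF.Top2
import Pool.Agent.HSF.V
import Pool.Agent.HSF.K
import Pool.Agent.HSF.LocInt

/-!
# Row T: no labels
-/

set_option autoImplicit false
set_option linter.unusedVariables false
set_option linter.unusedSectionVars false

open Set Topology Metric

namespace Pool.Agent.HSF

section act
variable {n : ℕ} {G : Type*} [Group G] [TopologicalSpace G] (L : LG n G) (N : Subgroup G)
  [hN : N.Normal]

/-- the quotient group acts on the space of orbits -/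
noncomputable instance OX.act : MulAction (G ⧸ N) (OX L N) where
  smul q x := Quotient.map₂ (sa := QuotientGroup.leftRel N) (sb := orbS L N) (sc := orbS L N)
    (fun a u => (⟨L.g a u, L.hgU a u u.2⟩ : L.U)) (by
      intro a b hab u v huv
      obtain ⟨m, hm, hmu⟩ := huv
      have hab' : a⁻¹ * b ∈ N := QuotientGroup.leftRel_apply.1 hab
      refine ⟨a * (a⁻¹ * b * m) * a⁻¹, hN.conj_mem _ (N.mul_mem hab' hm) a, ?_⟩
      simp only
      rw [← L.hgm _ _ _ u.2, ← hmu, ← L.hgm _ _ _ u.2]
      congr 1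
      group) q x
  one_smul x := by
    induction x using Quotient.inductionOn with
    | h u => exact Quotient.sound (s := orbS L N) ⟨1, N.one_mem, by
        rw [L.hg1 _ (L.hgU _ _ u.2), L.hg1 _ u.2]⟩
  mul_smul q q' x := by
    induction x using Quotient.inductionOn with
    | h u =>
      induction q using QuotientGroup.induction_on with
      | H a =>
        induction q' using QuotientGroup.induction_on with
        | H b => exact Quotient.sound (s := orbS L N) ⟨1, N.one_mem, by
            rw [L.hg1 _ (L.hgU _ _ u.2), L.hgm _ _ _ u.2]⟩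

theorem smul_ocl (a : G) {u : Fin n → ℝ} (hu : u ∈ L.U) :
    (a : G ⧸ N) • ocl L N u = ocl L N (L.g a u) := by
  rw [ocl_of L N hu, ocl_of L N (L.hgU a u hu)]
  rfl

theorem Rr.smul {ε : ℝ} {x y : OX L N} (h : Rr L N ε x y) (q : G ⧸ N) :
    Rr L N ε (q • x) (q • y) := by
  induction q using QuotientGroup.induction_on with
  | H a =>
    obtain ⟨u, hu, v, hv, h1, h2, h3⟩ := h
    refine ⟨L.g a u, L.hgU a u hu, L.g a v, L.hgU a v hv, ?_, ?_, fun b => ?_⟩
    · rw [← h1]; exact (smul_ocl L N a hu).symm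
    · rw [← h2]; exact (smul_ocl L N a hv).symm
    · rw [← L.hgm _ _ _ hu, ← L.hgm _ _ _ hv]
      exact h3 _

end act

section scales
variable {n : ℕ} {G : Type*} [Group G] [TopologicalSpace G] {L : LG n G} {N : Subgroup G}
  [hN : N.Normal]

/-- the scales on the space of orbits -/
noncomputable def mkScales {r : ℕ} {ε : ℕ → ℝ} (hmono : ∀ s, s ≤ r → ε s ≤ ε (s + 1))
    {i : ℕ → OX L N → ℕ} {c : ℕ → ℕ → OX L N}
    (h1 : ∀ s, s ≤ r → ∀ x y, Rr L N (ε s) x y → Rr L N (ε (s + 1)) x (c s (i s y)) ∧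
      Rr L N (ε (s + 1)) (c s (i s x)) (c s (i s y)))
    (h2 : ∀ s, s ≤ r → ∀ l : List (OX L N), Sm (Rr L N (ε s)) l → n + 2 ≤ l.length →
      ¬ (l.map (i s)).Nodup)
    {F' : OX L N → (Fin n → ℝ)} (hF' : ∀ (q : G ⧸ N) x, F' (q • x) = F' x) (y : Fin n → ℝ)
    {κ₀ : ℝ} (h3 : ∀ s, s ≤ r + 1 → ∀ x z, Rr L N (ε s) x z → dist (F' x) (F' z) ≤ κ₀)
    (hκ₀ : 0 ≤ κ₀) : Scales (G ⧸ N) (OX L N) ℕ n where
  R s x y := s ≤ r + 1 → Rr L N (ε s) x y
  K s := {x | s ≤ r + 1 ∧ dist (F' x) y ≤ κ₀ * (r + 2 - s)}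
  i s := if s ≤ r then i s else fun _ => 0
  c s := c s
  symm s x y h hs := (h hs).symm
  inv s g x y h hs := (h hs).smul L N g
  Kinv s g x h := ⟨h.1, by rw [hF']; exact h.2⟩
  mono s x y h hs := (h (by omega)).mono (hmono s (by omega))
  step s x y h := by
    by_cases hs : s ≤ r
    · rw [if_pos hs]
      exact ⟨fun _ => (h1 s hs x y (h (by omega))).1, fun _ => (h1 s hs x y (h (by omega))).2⟩
    · exact ⟨fun h' => absurd h' (by omega), fun h' => absurd h' (by omega)⟩
  brick s l h hl := by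
    by_cases hs : s ≤ r
    · rw [if_pos hs]
      exact h2 s hs l (fun x hx z hz => h x hx z hz (by omega)) hl
    · rw [if_neg hs]
      match l, hl with
      | a :: b :: l, _ => simp
  supp s x z hx h := by
    obtain ⟨hs, hx⟩ := hx
    refine ⟨by omega, ?_⟩
    have h4 := h3 (s + 1) hs x z (h hs)
    have h5 := dist_triangle (F' z) (F' x) y
    rw [dist_comm (F' z) (F' x)] at h5
    push_cast at hx
    calc dist (F' z) y ≤ κ₀ + κ₀ * (r + 2 - (s + 1)) := h5.trans (add_le_add h4 hx)
      _ = κ₀ * (r + 2 - s) := by ring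
  Kmono s x hx := by
    obtain ⟨hs, hx⟩ := hx
    refine ⟨by omega, hx.trans ?_⟩
    push_cast
    exact mul_le_mul_of_nonneg_left (by linarith) hκ₀

end scales

section main
variable {n : ℕ} {G : Type*} [Group G] [TopologicalSpace G]
    [IsTopologicalGroup G] [CompactSpace G] {L : LG n G} {p r D : ℕ} [Fact p.Prime]
    {k : Type*} [Field k] [Algebra (ZMod p) k] {E : GD G p r D k} {w : Fin (D + 1) → (Fin r → k)}

theorem no_LB (hn : 1 ≤ n) (hr : 1 ≤ r) (h : LB L E w) : False := by
  classical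
  set κ₀ : ℝ := h.κ / (r + 3) with hκ₀
  have hκ₀p : 0 < κ₀ := div_pos h.hκ (by positivity)
  -- the first scale
  obtain ⟨δF, hδF, hδF'⟩ : ∃ δ > 0, ∀ u ∈ L.U, ∀ v ∈ L.U, dist u v < δ →
      dist (h.F u) (h.F v) < κ₀ := by
    have huc := (isCompact_closedBall L.c L.s).uniformContinuousOn_of_continuous
      h.hF.continuousOn
    obtain ⟨δ, hδ, hδ'⟩ := Metric.uniformContinuousOn_iff.1 huc κ₀ hκ₀p
    exact ⟨δ, hδ, fun u hu v hv huv => hδ' u (L.hUc hu) v (L.hUc hv) huv⟩
  set e₀ : ℝ := min δF h.ε with he₀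
  have he₀p : 0 < e₀ := lt_min hδF h.hε
  -- the other scales
  choose nx hnx0 hnx1 τ hτ0 hτ using fun x : {x : ℝ // 0 < x} => exists_level L x.2
  set ee : ℕ → {x : ℝ // 0 < x} := fun j => (fun x => ⟨nx x, hnx0 x⟩)^[j] ⟨e₀, he₀p⟩ with hee
  have hee1 : ∀ j, (ee (j + 1) : ℝ) = nx (ee j) := by
    intro j
    simp only [hee, Function.iterate_succ_apply']
  set ε : ℕ → ℝ := fun s => ee (r + 1 - s) with hε
  have hεp : ∀ s, 0 < ε s := fun s => (ee (r + 1 - s)).2
  have hεs : ∀ s, s ≤ r → ε s = nx (ee (r + 1 - (s + 1))) := by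
    intro s hs
    simp only [hε]
    rw [← hee1]
    congr 2
    omega
  have hmono : ∀ s, s ≤ r → ε s ≤ ε (s + 1) := by
    intro s hs
    rw [hεs s hs]
    exact hnx1 _
  have hεe : ∀ s, s ≤ r + 1 → ε s ≤ e₀ := by
    intro s hs
    have h1 : ∀ j, (ee j : ℝ) ≤ e₀ := by
      intro j
      induction j with
      | zero => exact le_rfl
      | succ j ih => rw [hee1]; exact (hnx1 _).trans ih
    exact h1 _
  -- the small normal subgroup
  obtain ⟨N, hNn, hNo, hNV, hN2⟩ := E.basis (⋂ j ∈ Finset.range (r + 1),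
      (L.small (hτ0 (ee j))).choose) (by
    rw [Filter.biInter_finset_mem]
    exact fun j _ => (L.small (hτ0 (ee j))).choose_spec.1)
  have hNd : ∀ j, j ≤ r → ∀ a ∈ N, ∀ u ∈ L.U, dist (L.g a u) u < τ (ee j) := by
    intro j hj a ha u hu
    have h1 : a ∈ (L.small (hτ0 (ee j))).choose :=
      mem_iInter₂.1 (hNV ha) j (Finset.mem_range.2 (by omega))
    exact (L.small (hτ0 (ee j))).choose_spec.2 a h1 u hu
  have hlev : ∀ s : ℕ, ∃ (i : OX L N → ℕ) (c : ℕ → OX L N), s ≤ r →
      (∀ x y, Rr L N (ε s) x y → Rr L N (ε (s + 1)) x (c (i y)) ∧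
        Rr L N (ε (s + 1)) (c (i x)) (c (i y))) ∧
      ∀ l : List (OX L N), Sm (Rr L N (ε s)) l → n + 2 ≤ l.length → ¬ (l.map i).Nodup := by
    intro s
    by_cases hs : s ≤ r
    · obtain ⟨i, c, h1, h2⟩ := hτ (ee (r + 1 - (s + 1))) N (hNd _ (by omega))
      refine ⟨i, c, fun _ => ⟨?_, ?_⟩⟩
      · rw [hεs s hs]; exact h1
      · rw [hεs s hs]; exact h2
    · exact ⟨fun _ => 0, fun _ => ocl L N L.c, fun hs' => absurd hs' hs⟩
  choose i c hic using hlev
  -- the invariant map on the space of orbits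
  set F' : OX L N → (Fin n → ℝ) := fun x => h.F (orep L N x) with hF'
  have hF'c : ∀ u ∈ L.U, F' (ocl L N u) = h.F u := by
    intro u hu
    obtain ⟨a, ha, hau⟩ := orep_ocl L N hu
    simp only [hF']
    rw [← hau, h.hFg a u hu]
  have hF'g : ∀ (q : G ⧸ N) x, F' (q • x) = F' x := by
    intro q x
    induction q using QuotientGroup.induction_on with
    | H a =>
      rw [← ocl_orep L N x, smul_ocl L N a (orep_mem L N x), hF'c _ (L.hgU _ _ (orep_mem L N x)),
        h.hFg a _ (orep_mem L N x), hF'c _ (orep_mem L N x)]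
  have h3 : ∀ s, s ≤ r + 1 → ∀ x z, Rr L N (ε s) x z → dist (F' x) (F' z) ≤ κ₀ := by
    rintro s hs x z ⟨u, hu, v, hv, h1, h2, h4⟩
    rw [← h1, ← h2, hF'c u hu, hF'c v hv]
    refine (hδF' u hu v hv ?_).le
    have h5 := h4 1
    rw [L.hg1 u hu, L.hg1 v hv] at h5
    exact h5.trans_le ((hεe s hs).trans (min_le_left _ _))
  set S : Scales (G ⧸ N) (OX L N) ℕ n := mkScales (r := r) hmono (fun s hs => (hic s hs).1)
    (fun s hs => (hic s hs).2) hF'g h.y h3 hκ₀p.le with hS
  have hKκ : ∀ s, ∀ x ∈ S.K s, dist (F' x) h.y < h.κ := by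
    rintro s x ⟨hs, hx⟩
    refine lt_of_le_of_lt hx ?_
    have hs0 : (0 : ℝ) ≤ s := Nat.cast_nonneg s
    calc κ₀ * (r + 2 - s) ≤ κ₀ * (r + 2) := mul_le_mul_of_nonneg_left (by linarith) hκ₀p.le
      _ < κ₀ * (r + 3) := mul_lt_mul_of_pos_left (by linarith) hκ₀p
      _ = h.κ := by rw [hκ₀]; field_simp
  -- labels
  have hχN : ∀ a ∈ N, E.χ a = 0 := fun a ha => E.ker a (hN2 ha)
  set chi : G ⧸ N → (Fin r → k) := fun q i => algebraMap (ZMod p) k (E.χ (Quotient.out q) i)
    with hchi
  have hchi1 : ∀ a : G, chi (a : G ⧸ N) = fun i => algebraMap (ZMod p) k (E.χ a i) := by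
    intro a
    obtain ⟨m, hm⟩ := QuotientGroup.mk_out_eq_mul N a
    simp only [hchi]
    rw [show Quotient.out (a : G ⧸ N) = a * m from hm, E.χmul, hχN m m.2, add_zero]
  have hchi2 : ∀ q q' : G ⧸ N, chi (q * q') = chi q + chi q' := by
    intro q q'
    induction q using QuotientGroup.induction_on with
    | H a =>
      induction q' using QuotientGroup.induction_on with
      | H b =>
        rw [← QuotientGroup.mk_mul, hchi1, hchi1, hchi1, E.χmul]
        funext i
        simp
  let _ : MulAction (G ⧸ N) (Fin r → k) :=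
    { smul := fun q a => chi q + a
      one_smul := fun a => by
        change chi 1 + a = a
        have h1 := hchi2 1 1
        rw [mul_one] at h1
        have h2 : chi 1 = 0 := by simpa using h1
        rw [h2, zero_add]
      mul_smul := fun q q' a => by
        change chi (q * q') + a = chi q + (chi q' + a)
        rw [hchi2, add_assoc] }
  have hsm : ∀ (q : G ⧸ N) (a : Fin r → k), q • a = chi q + a := fun q a => rfl
  set good : OX L N → Prop := fun x => dist (F' x) h.y ≤ h.κ with hgood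
  set P : OX L N → (Fin r → k) → (Fin r → k) := fun x a => if good x then
      a - (∑ i, h.ξ (orep L N x) i * a i - h.lab (orep L N x)) • w (h.col (orep L N x))
    else a with hP
  -- labels do not depend on the representative
  have hlabN : ∀ u ∈ L.U, dist (h.F u) h.y ≤ h.κ → h.col (orep L N (ocl L N u)) = h.col u ∧
      h.ξ (orep L N (ocl L N u)) = h.ξ u ∧ h.lab (orep L N (ocl L N u)) = h.lab u := by
    intro u hu hd
    obtain ⟨a, ha, hau⟩ := orep_ocl L N hu
    rw [← hau, h.hcol a u hd, h.hξ a u hd, h.hlab a u hd, hχN a ha]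
    simp
  have hPu : ∀ u ∈ L.U, dist (h.F u) h.y ≤ h.κ → ∀ a, P (ocl L N u) a =
      a - (∑ i, h.ξ u i * a i - h.lab u) • w (h.col u) := by
    intro u hu hd a
    obtain ⟨h1, h2, h4⟩ := hlabN u hu hd
    have h5 : good (ocl L N u) := by simp only [hgood]; rw [hF'c u hu]; exact hd
    simp only [hP]
    rw [if_pos h5, h1, h2, h4]
  have hPe : ∀ (g : G ⧸ N) x a, P (g • x) (g • a) = g • P x a := by
    intro q x a
    induction q using QuotientGroup.induction_on with
    | H g =>
      by_cases hx : good x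
      · have hu := orep_mem L N x
        have hd : dist (h.F (orep L N x)) h.y ≤ h.κ := hx
        have hd' : dist (h.F (L.g g (orep L N x))) h.y ≤ h.κ := by rw [h.hFg g _ hu]; exact hd
        have e1 : P x a = a - (∑ i, h.ξ (orep L N x) i * a i - h.lab (orep L N x)) •
            w (h.col (orep L N x)) := by simp only [hP]; rw [if_pos hx]
        have e2 : (g : G ⧸ N) • x = ocl L N (L.g g (orep L N x)) := by
          conv_lhs => rw [← ocl_orep L N x]
          exact smul_ocl L N g hu
        rw [e2, hPu _ (L.hgU _ _ hu) hd', e1, h.hcol g _ hd, h.hξ g _ hd, h.hlab g _ hd, hsm, hsm,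
          hchi1]
        have e3 : ∑ i, h.ξ (orep L N x) i * ((fun i => algebraMap (ZMod p) k (E.χ g i)) + a) i =
            ∑ i, h.ξ (orep L N x) i * algebraMap (ZMod p) k (E.χ g i) +
              ∑ i, h.ξ (orep L N x) i * a i := by
          rw [← Finset.sum_add_distrib]
          exact Finset.sum_congr rfl fun i _ => by rw [Pi.add_apply]; ring
        rw [e3, add_sub_assoc]
        congr 3
        ring
      · have hx' : ¬ good ((g : G ⧸ N) • x) := by
          simp only [hgood]
          rw [hF'g]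
          exact hx
        simp only [hP]
        rw [if_neg hx, if_neg hx']
  have hcomm : ∀ x y, x ∈ S.K r → y ∈ S.K r → S.R r x y → ∀ a, P x (P y a) = P y (P x a) := by
    intro x z hx hz hxz a
    obtain ⟨u, hu, v, hv, h1, h2, h4⟩ := hxz (by omega)
    have hdu : dist (h.F u) h.y ≤ h.κ := by
      rw [← hF'c u hu, h1]; exact (hKκ r x hx).le
    have hdv : dist (h.F v) h.y ≤ h.κ := by
      rw [← hF'c v hv, h2]; exact (hKκ r z hz).le
    have h5 := h4 1
    rw [L.hg1 u hu, L.hg1 v hv] at h5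
    have h6 := h.near u v hdu hdv (h5.trans_le ((hεe r (by omega)).trans (min_le_right _ _)))
    rw [← h1, ← h2]
    rcases h6 with ⟨h7, h8, h9⟩ | ⟨h7, h8⟩
    · have : ∀ a, P (ocl L N u) a = P (ocl L N v) a := by
        intro a
        rw [hPu u hu hdu, hPu v hv hdv, h7, h8, h9]
      rw [this, this]
    · rw [hPu u hu hdu, hPu v hv hdv, hPu v hv hdv, hPu u hu hdu]
      have e1 : ∑ i, h.ξ u i * (a - (∑ i, h.ξ v i * a i - h.lab v) • w (h.col v)) i =
          ∑ i, h.ξ u i * a i := by
        have : ∑ i, h.ξ u i * (a - (∑ i, h.ξ v i * a i - h.lab v) • w (h.col v)) i =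
          ∑ i, h.ξ u i * a i - (∑ i, h.ξ v i * a i - h.lab v) * ∑ i, h.ξ u i * w (h.col v) i := by
          rw [Finset.mul_sum, ← Finset.sum_sub_distrib]
          exact Finset.sum_congr rfl fun i _ => by
            rw [Pi.sub_apply, Pi.smul_apply, smul_eq_mul]; ring
        rw [this, h7, mul_zero, sub_zero]
      have e2 : ∑ i, h.ξ v i * (a - (∑ i, h.ξ u i * a i - h.lab u) • w (h.col u)) i =
          ∑ i, h.ξ v i * a i := by
        have : ∑ i, h.ξ v i * (a - (∑ i, h.ξ u i * a i - h.lab u) • w (h.col u)) i =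
          ∑ i, h.ξ v i * a i - (∑ i, h.ξ u i * a i - h.lab u) * ∑ i, h.ξ v i * w (h.col u) i := by
          rw [Finset.mul_sum, ← Finset.sum_sub_distrib]
          exact Finset.sum_congr rfl fun i _ => by
            rw [Pi.sub_apply, Pi.smul_apply, smul_eq_mul]; ring
        rw [this, h8, mul_zero, sub_zero]
      rw [e1, e2]
      abel
  have hkill : ∀ x ∈ S.K r, ∀ l : List (Fin r → k), vol r (l.map (P x)) = 0 := by
    intro x hx l
    have hd : dist (h.F (orep L N x)) h.y ≤ h.κ := (hKκ r x hx).le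
    have hw := h.hw _ hd
    have hξ0 : h.ξ (orep L N x) ≠ 0 := by
      intro h0
      rw [h0] at hw
      simp at hw
    refine vol_kill hξ0 (h.lab (orep L N x)) (fun a => ?_) l
    have e1 : P x a = a - (∑ i, h.ξ (orep L N x) i * a i - h.lab (orep L N x)) •
        w (h.col (orep L N x)) := by simp only [hP]; exact if_pos hd
    rw [e1]
    have : ∑ i, h.ξ (orep L N x) i * (a - (∑ i, h.ξ (orep L N x) i * a i -
        h.lab (orep L N x)) • w (h.col (orep L N x))) i = ∑ i, h.ξ (orep L N x) i * a i -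
        (∑ i, h.ξ (orep L N x) i * a i - h.lab (orep L N x)) *
          ∑ i, h.ξ (orep L N x) i * w (h.col (orep L N x)) i := by
      rw [Finset.mul_sum, ← Finset.sum_sub_distrib]
      exact Finset.sum_congr rfl fun i _ => by
        rw [Pi.sub_apply, Pi.smul_apply, smul_eq_mul]; ring
    rw [this, hw]
    ring
  -- the point cocycle
  set f₀ : List (OX L N) → k := fun z => cyc h.y (z.map F') with hf₀
  have hcl : Clo S (r + 1) (n + 2) f₀ := by
    intro z _ _
    simp only [hf₀]
    rw [dl_map F' (cyc (k := k) h.y)]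
    exact dl_cyc _ _
  have hsu : Supp S (r + 1) (n + 1) f₀ := by
    intro z hz _ hne x hx
    refine ⟨le_rfl, ?_⟩
    have h1 := cyc_supp _ _ hne
    push_cast
    rw [show ((r : ℝ) + 2 - (r + 1)) = 1 by ring, mul_one]
    rw [dist_pi_le_iff hκ₀p.le]
    intro j
    obtain ⟨u, hu, v, hv, huy, hvy⟩ := h1 j
    obtain ⟨u', hu', rfl⟩ := List.mem_map.1 hu
    obtain ⟨v', hv', rfl⟩ := List.mem_map.1 hv
    have h4 := (dist_le_pi_dist (F' x) (F' u') j).trans (h3 (r + 1) le_rfl x u' (hz x hx u' hu' le_rfl))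
    have h5 := (dist_le_pi_dist (F' x) (F' v') j).trans (h3 (r + 1) le_rfl x v' (hz x hx v' hv' le_rfl))
    rw [Real.dist_eq] at h4 h5 ⊢
    rw [abs_le] at h4 h5 ⊢
    constructor <;> linarith [h4.1, h4.2, h5.1, h5.2]
  have hf₀g : ∀ (g : G ⧸ N) z, f₀ (z.map (g • ·)) = f₀ z := by
    intro g z
    simp only [hf₀, List.map_map]
    congr 1
    refine List.map_congr_left fun x _ => ?_
    exact hF'g g x
  -- the integral
  obtain ⟨I, hI0, hI1, hI2⟩ := exists_int (k := k) L (ocl L N) (S.R 0) (S.K 0) (hεp 0)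
    (fun u hu v hv huv _ => ⟨u, hu, v, hv, rfl, rfl, huv⟩) (by
      intro u hu hK
      have h1 := hKκ 0 _ hK
      rw [hF'c u hu] at h1
      have h2 := h.hFd u
      have h4 := h.hy
      have h5 := h.hκs
      calc dist u L.c ≤ dist u (h.F u) + dist (h.F u) h.y + dist h.y L.c := dist_triangle4 _ _ _ _
        _ < L.s / 8 + L.s / 8 + L.s / 8 := by
          rw [dist_comm u]
          linarith
        _ = 3 * L.s / 8 := by ring) (fun a x => (a : G ⧸ N) • x) (fun a u hu => smul_ocl L N a hu)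
  obtain ⟨cc, hcc1, hcc2⟩ := top S hr (vol r) dl_vol
    (fun g l => by
      have : (fun x : Fin r → k => g • x) = fun x => chi g + x := rfl
      rw [this]
      exact vol_add _ _) P hPe hcomm hkill f₀ hcl hsu hf₀g 0 I hI0 (fun f q h1 h2 => by
        induction q using QuotientGroup.induction_on with
        | H g => exact hI1 f g h1 h2)
  have hIf : I f₀ = 1 := hI2 h.F F' h.y h.hFd h.hy hF'c
  have hfin := E.nv N hNn hNo hN2 (fun l => cc (l.map (fun g : G => (g : G ⧸ N)))) (-1) ?_ ?_ ?_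
  · exact one_ne_zero (neg_eq_zero.1 hfin)
  · intro l l' hll
    congr 1
    induction hll with
    | nil => rfl
    | cons hab _ ih =>
      rw [List.map_cons, List.map_cons, ih]
      congr 1
      exact (QuotientGroup.eq.2 hab)
  · intro g l hl
    have h1 := hcc1 (g : G ⧸ N) (l.map (fun g : G => (g : G ⧸ N))) (by rw [List.length_map, hl])
    rw [← h1, List.map_map, List.map_map]
    rfl
  · intro l hl
    rw [dl_map (fun g : G => (g : G ⧸ N)) cc, hcc2 _ (by rw [List.length_map, hl]), hIf, mul_one,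
      List.map_map]
    have : ((fun x : G ⧸ N => x • (0 : Fin r → k)) ∘ fun g : G => (g : G ⧸ N)) =
        fun g i => algebraMap (ZMod p) k (E.χ g i) := by
      funext g
      change chi (g : G ⧸ N) + 0 = _
      rw [hchi1, add_zero]
    rw [this]
    ring

end main

end Pool.Agent.HSF
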