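import Pool.Agent.HSF.Defs2
import Pool.Agent.HSF.Basic

/-!
# Transport of group data along an isomorphism
-/

set_option autoImplicit false
set_option linter.unusedVariables false

open Set Topology

namespace Pool.Agent.HSF

/-- group data are transported by isomorphisms of topological groups -/
noncomputable def GD.trans {G H : Type*} [Group G] [TopologicalSpace G] [Group H]
    [TopologicalSpace H] {p r D : ℕ} {k : Type*} [Field k] [Algebra (ZMod p) k] (E : GD G p r D k)
    (e : G ≃* H) (he : Continuous e) (he' : Continuous e.symm) : GD H p r D k where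
  χ h := E.χ (e.symm h)
  χmul g h := by rw [map_mul, E.χmul]
  G₂ := E.G₂.comap e.symm.toMonoidHom
  normal := by
    have := E.normal
    infer_instance
  isOpen := E.isOpen.preimage he'
  ker g hg := E.ker _ hg
  perf K hK hr := by
    have h1 : IsClosed ((K.comap e.toMonoidHom : Subgroup G) : Set G) := hK.preimage he
    have h2 : E.χ '' ((K.comap e.toMonoidHom : Subgroup G) : Set G) =
        (fun h => E.χ (e.symm h)) '' (K : Set H) := by
      ext v
      constructor
      · rintro ⟨g, hg, rfl⟩
        exact ⟨e g, hg, by simp⟩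
      · rintro ⟨h, hh, rfl⟩
        exact ⟨e.symm h, by change e (e.symm h) ∈ K; rw [e.apply_symm_apply]; exact hh, rfl⟩
    have h3 := E.perf _ h1 (by rw [h2]; exact hr)
    intro h hh
    have h4 := h3 (show e.symm h ∈ E.G₂ from hh)
    have h5 : e (e.symm h) ∈ K := h4
    rwa [e.apply_symm_apply] at h5
  frat K hK hr := by
    have h1 : IsClosed ((K.comap e.toMonoidHom : Subgroup G) : Set G) := hK.preimage he
    have h2 : E.χ '' ((K.comap e.toMonoidHom : Subgroup G) : Set G) =
        (fun h => E.χ (e.symm h)) '' (K : Set H) := by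
      ext v
      constructor
      · rintro ⟨g, hg, rfl⟩
        exact ⟨e g, hg, by simp⟩
      · rintro ⟨h, hh, rfl⟩
        exact ⟨e.symm h, by change e (e.symm h) ∈ K; rw [e.apply_symm_apply]; exact hh, rfl⟩
    have h3 := E.frat _ h1 (by rw [h2]; exact hr)
    rw [eq_top_iff]
    intro h _
    have h4 : e.symm h ∈ K.comap e.toMonoidHom := by rw [h3]; trivial
    have h5 : e (e.symm h) ∈ K := h4
    rwa [e.apply_symm_apply] at h5
  basis V hV := by
    have h1 : e ⁻¹' V ∈ 𝓝 (1 : G) := by
      apply he.continuousAt.preimage_mem_nhds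
      rw [map_one]
      exact hV
    obtain ⟨N, hN1, hN2, hN3, hN4⟩ := E.basis _ h1
    refine ⟨N.comap e.symm.toMonoidHom, hN1.comap _, hN2.preimage he', ?_, fun h hh => hN4 hh⟩
    intro h hh
    have h2 : e.symm h ∈ e ⁻¹' V := hN3 hh
    rwa [mem_preimage, e.apply_symm_apply] at h2
  nv N hN1 hN2 hN3 c lam h1 h2 h3 := by
    refine E.nv (N.comap e.toMonoidHom) (hN1.comap _) (hN2.preimage he) ?_
      (fun l => c (l.map e)) lam ?_ ?_ ?_
    · intro g hg
      have h4 : e.symm (e g) ∈ E.G₂ := hN3 (show e g ∈ N from hg)
      rwa [e.symm_apply_apply] at h4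
    · intro l l' hl
      apply h1
      rw [List.forall₂_map_left_iff, List.forall₂_map_right_iff]
      refine hl.imp fun g h hgh => ?_
      have h4 : e (g⁻¹ * h) ∈ N := hgh
      rwa [map_mul, map_inv] at h4
    · intro g l hl
      have h4 := h2 (e g) (l.map e) (by rw [List.length_map, hl])
      rw [← h4, List.map_map, List.map_map]
      congr 2
      funext x
      simp
    · intro l hl
      rw [dl_map e c, h3 _ (by rw [List.length_map, hl]), List.map_map]
      congr 3
      funext x
      simp

end Pool.Agent.HSF
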