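import Pool.Agent.HSF.M
import Pool.Agent.HSF.E
import Pool.Agent.HSF.T
import Pool.Agent.HSF.Trans
import Pool.Agent.HSF.L
import Pool.Agent.HSF.G
import Pool.Agent.HSF.Glob
import Pool.Agent.TF.GamTop

/-!
# The local and the global statement for homomorphisms into a group that acts (Theorem F)
-/

set_option autoImplicit false
set_option linter.unusedVariables false

open Set Topology Metric

namespace Pool.Agent.HSF
open Pool.Agent.Helper3.HS Pool.Agent.HS3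

/-- A non-meagre set of Hoelder maps: one exponent and one constant on a translate of a
neighbourhood of `1`. -/
theorem exists_uniform' {G X : Type*} [Group G] [TopologicalSpace G] [IsTopologicalGroup G]
    [MetricSpace X] [MulAction G X] [ContinuousSMul G X] {x₀ : X} {τ : ℝ} (hτ : 0 ≤ τ)
    (hH : ¬ IsMeagre {g : G | ∃ V ∈ 𝓝 x₀, ∃ b C : ℝ, τ < b ∧ ∀ x ∈ V, ∀ y ∈ V,
      dist (g • x) (g • y) ≤ C * dist x y ^ b}) :
    ∃ (g₀ : G) (V : Set X) (V' : Set G) (b C : ℝ), V ∈ 𝓝 x₀ ∧ V' ∈ 𝓝 (1 : G) ∧ τ < b ∧ 0 ≤ C ∧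
      ∀ a ∈ V', ∀ x ∈ V, ∀ y ∈ V, dist ((g₀ * a) • x) ((g₀ * a) • y) ≤ C * dist x y ^ b := by
  classical
  set A : ℕ × {q : ℚ // τ < q} × ℕ → Set G := fun i =>
    {g | ∀ x ∈ ball x₀ (1 / ((i.1 : ℝ) + 2)), ∀ y ∈ ball x₀ (1 / ((i.1 : ℝ) + 2)),
      dist (g • x) (g • y) ≤ (i.2.2 : ℝ) * dist x y ^ ((i.2.1.1 : ℚ) : ℝ)} with hA
  have hcl : ∀ i, IsClosed (A i) := by
    intro i
    have h1 : A i = ⋂ x ∈ ball x₀ (1 / ((i.1 : ℝ) + 2)), ⋂ y ∈ ball x₀ (1 / ((i.1 : ℝ) + 2)),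
        {g : G | dist (g • x) (g • y) ≤ (i.2.2 : ℝ) * dist x y ^ ((i.2.1.1 : ℚ) : ℝ)} := by
      ext g
      simp only [hA, mem_iInter]
      exact Iff.rfl
    rw [h1]
    refine isClosed_biInter fun x _ => isClosed_biInter fun y _ => ?_
    exact isClosed_le ((continuous_id.smul continuous_const).dist
      (continuous_id.smul continuous_const)) continuous_const
  have hcov : {g : G | ∃ V ∈ 𝓝 x₀, ∃ b C : ℝ, τ < b ∧ ∀ x ∈ V, ∀ y ∈ V,
      dist (g • x) (g • y) ≤ C * dist x y ^ b} ⊆ ⋃ i, A i := by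
    rintro g ⟨V, hV, b, C, hb, hVb⟩
    obtain ⟨ε, hε, hball⟩ := Metric.mem_nhds_iff.1 hV
    obtain ⟨m, hm⟩ := exists_nat_gt (1 / ε)
    obtain ⟨q, hq1, hq2⟩ := exists_rat_btwn hb
    obtain ⟨c, hc⟩ := exists_nat_ge C
    rw [mem_iUnion]
    refine ⟨(m, ⟨q, hq1⟩, c), fun x hx y hy => ?_⟩
    have hm2 : (0 : ℝ) < (m : ℝ) + 2 := by positivity
    have hr : 1 / ((m : ℝ) + 2) < ε := by
      rw [div_lt_iff₀ hm2]
      rw [div_lt_iff₀ hε] at hm
      nlinarith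
    have hr2 : 1 / ((m : ℝ) + 2) ≤ 1 / 2 := by
      apply one_div_le_one_div_of_le (by norm_num)
      have : (0 : ℝ) ≤ m := Nat.cast_nonneg m
      linarith
    have hx' : dist x x₀ < 1 / ((m : ℝ) + 2) := hx
    have hy' : dist y x₀ < 1 / ((m : ℝ) + 2) := hy
    have hd : dist x y ≤ 1 := by
      have h1 := dist_triangle_right x y x₀
      linarith
    have h1 := hVb x (hball (mem_ball.2 (hx'.trans hr))) y (hball (mem_ball.2 (hy'.trans hr)))
    have h2 : dist x y ^ b ≤ dist x y ^ ((q : ℚ) : ℝ) :=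
      Real.rpow_le_rpow_of_exponent_ge' dist_nonneg hd (hτ.trans hq1.le) hq2.le
    have h3 : 0 ≤ dist x y ^ b := Real.rpow_nonneg dist_nonneg b
    calc dist (g • x) (g • y) ≤ C * dist x y ^ b := h1
      _ ≤ (c : ℝ) * dist x y ^ b := mul_le_mul_of_nonneg_right hc h3
      _ ≤ (c : ℝ) * dist x y ^ ((q : ℚ) : ℝ) := mul_le_mul_of_nonneg_left h2 (Nat.cast_nonneg c)
  obtain ⟨i, hi⟩ : ∃ i, (interior (A i)).Nonempty := by
    by_contra hcon
    push Not at hcon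
    apply hH
    refine IsMeagre.mono hcov (isMeagre_iUnion fun i => IsNowhereDense.isMeagre ?_)
    rw [IsNowhereDense, (hcl i).closure_eq]
    exact hcon i
  obtain ⟨g₀, hg₀⟩ := hi
  refine ⟨g₀, ball x₀ (1 / ((i.1 : ℝ) + 2)), (fun a => g₀ * a) ⁻¹' A i, i.2.1.1, i.2.2,
    ball_mem_nhds _ (by positivity), ?_, i.2.1.2, Nat.cast_nonneg _, fun a ha => ha⟩
  apply (continuous_const_mul g₀).continuousAt.preimage_mem_nhds
  rw [mul_one]
  exact mem_interior_iff_mem_nhds.1 hg₀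

/-- The global statement from the local one, for a congruence subgroup. -/
theorem final_of_local' {d N p κ₀ : ℕ} [Fact p.Prime] {X : Type*} [MetricSpace X]
    [MulAction (Gam N p κ₀) X] [ContinuousSMul (Gam N p κ₀) X] {R : Set X}
    (hRo : IsOpen R) (hRd : Dense R) (hRc : IsPreconnected R) (hR : R ⊆ regPts (d + 1) X)
    (hloc : ∀ x₀ ∈ R, ∃ κ : ℕ, ∀ᶠ x in 𝓝 x₀, ∀ g : Gam N p κ₀,
      (g : Matrix.SpecialLinearGroup (Fin N) ℤ_[p]) ∈ Gam N p κ → g • x = x) :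
    ∃ κ : ℕ, ∀ g : Gam N p κ₀, (g : Matrix.SpecialLinearGroup (Fin N) ℤ_[p]) ∈ Gam N p κ →
      ∀ x : X, g • x = x := by
  rcases R.eq_empty_or_nonempty with hem | ⟨x₀, hx₀⟩
  · refine ⟨1, fun g _ x => ?_⟩
    have h1 := hRd x
    rw [hem, closure_empty] at h1
    exact absurd h1 (notMem_empty x)
  · obtain ⟨κ, hκ⟩ := hloc x₀ hx₀
    refine ⟨κ + 1, fun g hg x => ?_⟩
    have h1 : ∀ y ∈ R, g • y = y := by
      refine fix_of_newman (d := d) (p := p) hRo hRc hR g ?_ hx₀ ?_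
      · intro y hy
        obtain ⟨κ', hκ'⟩ := hloc y hy
        refine ⟨κ', ?_⟩
        have h2 : ((g ^ p ^ κ' : Gam N p κ₀) : Matrix.SpecialLinearGroup (Fin N) ℤ_[p]) ∈
            Gam N p κ' := by
          rw [Subgroup.coe_pow]
          exact Gam_mono (Nat.le_add_left _ _) (pow_mem_Gam (Nat.succ_pos κ) hg κ')
        filter_upwards [hκ'] with z hz
        exact hz _ h2
      · filter_upwards [hκ] with z hz
        exact hz g (Gam_mono (Nat.le_succ κ) hg)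
    have hcl : IsClosed {z : X | g • z = z} :=
      isClosed_eq (continuous_const_smul g) continuous_id
    exact closure_minimal (fun z hz => h1 z hz) hcl (hRd x)

/-- **The local statement.** -/
theorem local_G {d N D p κ₀ : ℕ} [Fact p.Prime] (hN1 : 1 ≤ N) (hN : D < N)
    (hp : (N + 1) ^ 2 < p) {X : Type*} [MetricSpace X] {G : Type*} [Group G] [TopologicalSpace G]
    [IsTopologicalGroup G] [MulAction G X] [ContinuousSMul G X] {x₀ : X}
    (hx₀ : x₀ ∈ regPts (d + 1) X)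
    (hH : ¬ IsMeagre {g : G | ∃ V ∈ 𝓝 x₀, ∃ b C : ℝ, (d + 1 : ℝ) < b * (d + 1 + D + 1) ∧
      ∀ x ∈ V, ∀ y ∈ V, dist (g • x) (g • y) ≤ C * dist x y ^ b})
    (θ : Gam (N + 1) p κ₀ →* G) (hθ : Continuous θ) :
    ∃ κ : ℕ, ∀ᶠ x in 𝓝 x₀, ∀ a : Gam (N + 1) p κ₀,
      (a : Matrix.SpecialLinearGroup (Fin (N + 1)) ℤ_[p]) ∈ Gam (N + 1) p κ → θ a • x = x := by
  have hD : (0 : ℝ) < (d : ℝ) + 1 + D + 1 := by positivity
  obtain ⟨g₀, V, V', b, C, hV, hV', hb, hC0, hC⟩ := exists_uniform' (G := G)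
    (x₀ := x₀) (τ := ((d : ℝ) + 1) / ((d : ℝ) + 1 + D + 1)) (by positivity) (by
      refine fun h => hH (h.mono ?_)
      rintro g ⟨V, hV, b, C, hb, h⟩
      exact ⟨V, hV, b, C, by rwa [div_lt_iff₀ hD], h⟩)
  have hb0 : 0 < b := lt_of_le_of_lt (by positivity) hb
  rw [div_lt_iff₀ hD] at hb
  let _ : MulAction (Gam (N + 1) p κ₀) X := MulAction.compHom X θ
  have hsm : ∀ (a : Gam (N + 1) p κ₀) (x : X), a • x = θ a • x := fun _ _ => rfl
  have hcs : ContinuousSMul (Gam (N + 1) p κ₀) X := by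
    constructor
    exact (hθ.comp continuous_fst).smul continuous_snd
  obtain ⟨e, C₀, hxe, hLe, hLs⟩ := hx₀
  -- the ball
  have hpre : e.target ∩ e.symm ⁻¹' V ∈ 𝓝 (e x₀) := by
    apply Filter.inter_mem (e.open_target.mem_nhds (e.map_source hxe))
    apply (e.symm.continuousAt (e.map_source hxe)).preimage_mem_nhds
    rw [e.left_inv hxe]
    exact hV
  obtain ⟨s₀, hs₀, hball⟩ := Metric.nhds_basis_closedBall.mem_iff.mp hpre
  obtain ⟨s, hs, hss₀, hst, V₁, hV₁, hLG⟩ :=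
    exists_LG (G := Gam (N + 1) p κ₀) e hxe hs₀
  have hV'θ : θ ⁻¹' V' ∈ 𝓝 (1 : Gam (N + 1) p κ₀) := by
    apply hθ.continuousAt.preimage_mem_nhds
    rw [map_one]
    exact hV'
  obtain ⟨V₂, hV₂, hV₂s⟩ := mem_nhds_subtype _ _ _ |>.1 (Filter.inter_mem hV₁ hV'θ)
  obtain ⟨κ, hκ2, hκ⟩ := Pool.Agent.TF.exists_Gam_subset hV₂ (max 2 κ₀)
  have hκκ₀ : Gam (N + 1) p κ ≤ Gam (N + 1) p κ₀ := Gam_mono ((le_max_right _ _).trans hκ2)
  set H : Subgroup (Gam (N + 1) p κ₀) := (Gam (N + 1) p κ).subgroupOf (Gam (N + 1) p κ₀) with hH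
  have hHmem : ∀ g : Gam (N + 1) p κ₀, g ∈ H ↔
      (g : Matrix.SpecialLinearGroup (Fin (N + 1)) ℤ_[p]) ∈ Gam (N + 1) p κ := fun g =>
    Subgroup.mem_subgroupOf
  have hHV : ∀ g ∈ H, g ∈ V₁ ∩ θ ⁻¹' V' := fun g hg => hV₂s (hκ ((hHmem g).1 hg))
  have hHcl : IsClosed (H : Set (Gam (N + 1) p κ₀)) :=
    (Pool.Agent.TF.isClopen_Gam κ).isClosed.preimage continuous_subtype_val
  have hHc : CompactSpace H := isCompact_iff_compactSpace.1 hHcl.isCompact
  obtain ⟨L, hLc, hLs', hLg⟩ := hLG H (fun g hg => (hHV g hg).1) hHc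
  refine ⟨κ, ?_⟩
  have hnear : {x | x ∈ e.source ∧ dist (e x) (e x₀) < s / 16} ∈ 𝓝 x₀ := by
    apply Filter.inter_mem (e.open_source.mem_nhds hxe)
    have h1 := (e.continuousAt hxe).preimage_mem_nhds
      (ball_mem_nhds (e x₀) (show 0 < s / 16 by positivity))
    exact h1
  filter_upwards [hnear] with x hx g hg
  by_contra hne
  -- the data
  obtain ⟨k, _, _, α, hα⟩ := exists_alpha p ((N + 1) ^ 2 - 1)
  have hr : (N + 1) ^ 2 - 1 + 1 = (N + 1) ^ 2 :=
    Nat.sub_add_cancel (Nat.one_le_pow _ _ (Nat.succ_pos _))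
  obtain ⟨E₀⟩ := exists_GD (D := D) ((le_max_left _ _).trans hκ2) hN hp hr k
  have E : GD H p ((N + 1) ^ 2 - 1) D k := E₀.trans (Subgroup.subgroupOfEquivOfLe hκκ₀).symm
    (by
      refine Continuous.subtype_mk (Continuous.subtype_mk continuous_subtype_val _) _)
    (by
      refine Continuous.subtype_mk (continuous_subtype_val.comp continuous_subtype_val) _)
  have hcb : closedBall L.c L.s = closedBall (e x₀) s := by rw [hLc, hLs']
  have hUcb : ∀ u ∈ L.U, u ∈ closedBall (e x₀) s := fun u hu => hcb ▸ L.hUc hu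
  have htar : ∀ u ∈ closedBall (e x₀) s, u ∈ e.target := fun u hu => hst hu
  have hinV : ∀ u ∈ closedBall (e x₀) s, e.symm u ∈ V := fun u hu =>
    (hball (closedBall_subset_closedBall hss₀ hu)).2
  obtain ⟨B⟩ := exists_LB (n := d + 1) (by omega) L E hα
    (Λ := fun (a : H) (u : Fin (d + 1) → ℝ) => (g₀ * θ (a : Gam (N + 1) p κ₀)) • e.symm u)
    (by
      rw [hcb]
      refine ContinuousOn.smul (f := fun q : H × (Fin (d + 1) → ℝ) =>
        g₀ * θ (q.1 : Gam (N + 1) p κ₀)) ?_ ?_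
      · exact (continuous_const.mul
          (hθ.comp (continuous_subtype_val.comp continuous_fst))).continuousOn
      · exact e.symm.continuousOn.comp continuousOn_snd fun q hq => htar _ hq.2)
    (by
      intro a a' u hu
      show (g₀ * θ (a : Gam (N + 1) p κ₀)) • e.symm (L.g a' u) =
        (g₀ * θ ((a * a' : H) : Gam (N + 1) p κ₀)) • e.symm u
      rw [(hLg a' u (hUcb u hu)).2, e.left_inv (hLg a' u (hUcb u hu)).1, hsm, smul_smul, mul_assoc,
        ← map_mul]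
      rfl)
    (by
      intro u hu v hv huv
      have h1 := MulAction.injective _ huv
      exact e.symm.injOn (htar u (hUcb u hu)) (htar v (hUcb v hv)) h1)
    (b := b) (by push_cast; exact hb)
    (C := C * (C₀ : ℝ) ^ b)
    (by
      intro a u hu v hv
      rw [hcb] at hu hv
      have h1 := hC (θ (a : Gam (N + 1) p κ₀)) (hHV a a.2).2 _ (hinV u hu) _ (hinV v hv)
      have h2 : dist (e.symm u) (e.symm v) ≤ C₀ * dist u v :=
        hLs.dist_le_mul u (htar u hu) v (htar v hv)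
      have h3 : dist (e.symm u) (e.symm v) ^ b ≤ (C₀ * dist u v) ^ b :=
        Real.rpow_le_rpow dist_nonneg h2 hb0.le
      rw [Real.mul_rpow (NNReal.coe_nonneg C₀) dist_nonneg] at h3
      calc _ ≤ C * dist (e.symm u) (e.symm v) ^ b := h1
        _ ≤ C * ((C₀ : ℝ) ^ b * dist u v ^ b) := mul_le_mul_of_nonneg_left h3 hC0
        _ = C * (C₀ : ℝ) ^ b * dist u v ^ b := by ring)
    (y₀ := e x) (by rw [hLc, hLs']; exact hx.2.le)
    (by
      have hxb : e x ∈ closedBall (e x₀) s := by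
        rw [mem_closedBall]
        linarith [hx.2]
      refine ⟨⟨g, (hHmem g).2 hg⟩, fun h => hne ?_⟩
      have h1 := hLg ⟨g, (hHmem g).2 hg⟩ (e x) hxb
      rw [e.left_inv hx.1] at h1
      rw [h1.2] at h
      exact e.injOn h1.1 hx.1 h)
  refine no_LB (by omega) ?_ B
  have h4 : 2 ^ 2 ≤ (N + 1) ^ 2 := Nat.pow_le_pow_left (by omega) 2
  omega

/-- **The global statement.** -/
theorem final_G {d N D p κ₀ : ℕ} [Fact p.Prime] (hN1 : 1 ≤ N) (hN : D < N)
    (hp : (N + 1) ^ 2 < p) {X : Type*} [MetricSpace X] {G : Type*} [Group G] [TopologicalSpace G]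
    [IsTopologicalGroup G] [MulAction G X] [ContinuousSMul G X] {R : Set X}
    (hRo : IsOpen R) (hRd : Dense R) (hRc : IsPreconnected R) (hR : R ⊆ regPts (d + 1) X)
    (hH : ∀ x₀ ∈ R, ¬ IsMeagre {g : G | ∃ V ∈ 𝓝 x₀, ∃ b C : ℝ,
      (d + 1 : ℝ) < b * (d + 1 + D + 1) ∧ ∀ x ∈ V, ∀ y ∈ V, dist (g • x) (g • y) ≤ C * dist x y ^ b})
    (θ : Gam (N + 1) p κ₀ →* G) (hθ : Continuous θ) :
    ∃ κ : ℕ, ∀ a : Gam (N + 1) p κ₀,
      (a : Matrix.SpecialLinearGroup (Fin (N + 1)) ℤ_[p]) ∈ Gam (N + 1) p κ →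
      ∀ x : X, θ a • x = x := by
  let _ : MulAction (Gam (N + 1) p κ₀) X := MulAction.compHom X θ
  have hcs : ContinuousSMul (Gam (N + 1) p κ₀) X := by
    constructor
    exact (hθ.comp continuous_fst).smul continuous_snd
  exact final_of_local' hRo hRd hRc hR fun x₀ hx₀ =>
    local_G hN1 hN hp (hR hx₀) (hH x₀ hx₀) θ hθ

end Pool.Agent.HSF
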