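import Pool.Agent.HSF.T
import Pool.Agent.HSF.Defs4

/-!
# Row T+: no labels, for all primes
-/

set_option autoImplicit false
set_option linter.unusedVariables false
set_option linter.unusedSectionVars false

open Set Topology Metric

namespace Pool.Agent.HSF

namespace h83

section vol
variable {k : Type*} [CommRing k] {r : ℕ}

/-- maps with image in an affine hyperplane given by a unimodular covector kill `vol` -/
theorem vol_kill2 {ξ w : Fin r → k} (hξ : ∑ i, ξ i * w i = 1) (c : k)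
    {P : (Fin r → k) → (Fin r → k)} (hP : ∀ a, ∑ i, ξ i * P a i = c) (l : List (Fin r → k)) :
    vol r (l.map P) = 0 := by
  classical
  rcases l with _ | ⟨a, l⟩
  · rfl
  · rw [List.map_cons]
    by_cases h : (l.map P).length = r
    · set B : Matrix (Fin r) (Fin r) k := Matrix.of fun i j : Fin r =>
        ((l.map P).get (i.cast h.symm)) j - P a j with hB
      have e1 : vol r (P a :: l.map P) = B.det := dif_pos h
      rw [e1]
      have h1 : B.mulVec ξ = 0 := by
        funext i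
        simp only [Matrix.mulVec, dotProduct, hB, Matrix.of_apply, Pi.zero_apply]
        have h2 : ∃ b, (l.map P).get (i.cast h.symm) = P b := by
          have h3 := List.get_mem (l.map P) (i.cast h.symm)
          obtain ⟨b, -, hb⟩ := List.mem_map.1 h3
          exact ⟨b, hb.symm⟩
        obtain ⟨b, hb⟩ := h2
        rw [hb]
        have h3 : ∑ j, (P b j - P a j) * ξ j = (∑ j, ξ j * P b j) - ∑ j, ξ j * P a j := by
          rw [← Finset.sum_sub_distrib]
          exact Finset.sum_congr rfl fun j _ => by ring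
        rw [h3, hP, hP, sub_self]
      have h2 : ∀ j, B.det * ξ j = 0 := by
        intro j
        have h3 : B.adjugate.mulVec (B.mulVec ξ) = B.det • ξ := by
          rw [Matrix.mulVec_mulVec, Matrix.adjugate_mul, Matrix.smul_mulVec, Matrix.one_mulVec]
        rw [h1, Matrix.mulVec_zero] at h3
        have h4 := congrFun h3 j
        simpa using h4.symm
      calc B.det = B.det * ∑ i, ξ i * w i := by rw [hξ, mul_one]
        _ = ∑ i, (B.det * ξ i) * w i := by
          rw [Finset.mul_sum]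
          exact Finset.sum_congr rfl fun i _ => by ring
        _ = 0 := Finset.sum_eq_zero fun i _ => by rw [h2, zero_mul]
    · exact dif_neg h

end vol

section loc
variable {X Q B M : Type*} [Group Q] [MulAction Q X] [LinearOrder B] {n : ℕ}
  (S : Scales Q X B n) [AddCommGroup M]

/-- Scales with smaller supports. -/
def restr (T : Set X) (hT : ∀ (g : Q) x, x ∈ T → g • x ∈ T)
    (hs : ∀ s x y, x ∈ S.K (s + 1) → S.R (s + 1) x y → x ∈ T → y ∈ T) : Scales Q X B n where
  R := S.R
  K s := S.K s ∩ T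
  i := S.i
  c := S.c
  symm := S.symm
  inv := S.inv
  Kinv s g x h := ⟨S.Kinv s g x h.1, hT g x h.2⟩
  mono := S.mono
  step := S.step
  brick := S.brick
  supp s x y h hR := ⟨S.supp s x y h.1 hR, hs s x y h.1 hR h.2⟩
  Kmono s x h := ⟨S.Kmono s h.1, h.2⟩

open Classical in
/-- The restriction of a cochain. -/
noncomputable def rs (T : Set X) (f : List X → M) (z : List X) : M :=
  if ∀ x ∈ z, x ∈ T then f z else 0

variable {S}

theorem rs_of {T : Set X} {f : List X → M} {z : List X} (h : ∀ x ∈ z, x ∈ T) : rs T f z = f z :=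
  if_pos h

theorem rs_not {T : Set X} {f : List X → M} {z : List X} (h : ¬ ∀ x ∈ z, x ∈ T) :
    rs T f z = 0 := if_neg h

theorem rs_ne {T : Set X} {f : List X → M} {z : List X} (h : rs T f z ≠ 0) :
    (∀ x ∈ z, x ∈ T) ∧ f z ≠ 0 := by
  by_cases h1 : ∀ x ∈ z, x ∈ T
  · rw [rs_of h1] at h
    exact ⟨h1, h⟩
  · exact absurd (rs_not h1) h

/-- The restriction of a closed cochain to a part of its support is closed. -/
theorem clo_rs {s N : ℕ} {f : List X → M} (hc : Clo S s (N + 2) f) (hs : Supp S s (N + 1) f)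
    {T : Set X} (hT : ∀ x y, x ∈ S.K s → S.R s x y → x ∈ T → y ∈ T) :
    Clo S s (N + 2) (rs T f) := by
  intro z hz hl
  by_cases h : ∀ x ∈ z, x ∈ T
  · rw [← hc z hz hl]
    apply dl_congr
    intro t ht _
    exact rs_of fun x hx => h x (ht.subset hx)
  · have h1 : dl (rs T f) z = dl (fun _ => (0 : M)) z := by
      apply dl_congr
      intro t ht htl
      by_contra hne
      obtain ⟨h2, h3⟩ := rs_ne hne
      have htz : Sm (S.R s) t := fun x hx y hy => hz x (ht.subset hx) y (ht.subset hy)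
      have h4 := hs t htz (by omega) h3
      apply h
      intro y hy
      have h5 : 0 < t.length := by omega
      obtain ⟨x, hx⟩ := List.exists_mem_of_length_pos h5
      exact hT x y (h4 x hx) (hz x (ht.subset hx) y hy) (h2 x hx)
    rw [h1, dl_zero]

theorem supp_rs {s N : ℕ} {f : List X → M} (hs : Supp S s N f) (T : Set X) :
    ∀ z : List X, Sm (S.R s) z → z.length = N → rs T f z ≠ 0 → ∀ x ∈ z, x ∈ S.K s ∧ x ∈ T := by
  intro z hz hl hne x hx
  obtain ⟨h1, h2⟩ := rs_ne hne
  exact ⟨hs z hz hl h2 x hx, h1 x hx⟩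

end loc

end h83

section main
open h83
variable {n : ℕ} {G : Type*} [Group G] [TopologicalSpace G]
    [IsTopologicalGroup G] [CompactSpace G] {L : LG n G} {p r D : ℕ} [Fact p.Prime]
    {k : Type*} [CommRing k] {E : GR0 G p r k} {w : Fin (D + 1) → (Fin r → k)}

theorem no_LB2 (hr : 1 ≤ r) (h : LB2 L E w) : False := by
  classical
  set κ₀ : ℝ := h.κ / (r + 3) with hκ₀
  have hκ₀p : 0 < κ₀ := div_pos h.hκ (by positivity)
  -- the first scale
  obtain ⟨δF, hδF, hδF'⟩ : ∃ δ > 0, ∀ u ∈ L.U, ∀ v ∈ L.U, dist u v < δ →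
      dist (h.F u) (h.F v) < κ₀ := by
    have huc := (isCompact_closedBall L.c L.s).uniformContinuousOn_of_continuous
      h.hF.continuousOn
    obtain ⟨δ, hδ, hδ'⟩ := Metric.uniformContinuousOn_iff.1 huc κ₀ hκ₀p
    exact ⟨δ, hδ, fun u hu v hv huv => hδ' u (L.hUc hu) v (L.hUc hv) huv⟩
  set e₀ : ℝ := min δF h.ε with he₀
  have he₀p : 0 < e₀ := lt_min hδF h.hε
  -- the other scales
  choose nx hnx0 hnx1 τ hτ0 hτ using fun x : {x : ℝ // 0 < x} => exists_level L x.2
  set ee : ℕ → {x : ℝ // 0 < x} := fun j => (fun x => ⟨nx x, hnx0 x⟩)^[j] ⟨e₀, he₀p⟩ with hee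
  have hee1 : ∀ j, (ee (j + 1) : ℝ) = nx (ee j) := by
    intro j
    simp only [hee, Function.iterate_succ_apply']
  set ε : ℕ → ℝ := fun s => ee (r + 1 - s) with hε
  have hεp : ∀ s, 0 < ε s := fun s => (ee (r + 1 - s)).2
  have hεs : ∀ s, s ≤ r → ε s = nx (ee (r + 1 - (s + 1))) := by
    intro s hs
    simp only [hε]
    rw [← hee1]
    congr 2
    omega
  have hmono : ∀ s, s ≤ r → ε s ≤ ε (s + 1) := by
    intro s hs
    rw [hεs s hs]
    exact hnx1 _
  have hεe : ∀ s, s ≤ r + 1 → ε s ≤ e₀ := by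
    intro s hs
    have h1 : ∀ j, (ee j : ℝ) ≤ e₀ := by
      intro j
      induction j with
      | zero => exact le_rfl
      | succ j ih => rw [hee1]; exact (hnx1 _).trans ih
    exact h1 _
  -- the small normal subgroup
  obtain ⟨N, hNn, hNo, hNV, hN2⟩ := E.basis (⋂ j ∈ Finset.range (r + 1),
      (L.small (hτ0 (ee j))).choose) (by
    rw [Filter.biInter_finset_mem]
    exact fun j _ => (L.small (hτ0 (ee j))).choose_spec.1)
  have hNd : ∀ j, j ≤ r → ∀ a ∈ N, ∀ u ∈ L.U, dist (L.g a u) u < τ (ee j) := by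
    intro j hj a ha u hu
    have h1 : a ∈ (L.small (hτ0 (ee j))).choose :=
      mem_iInter₂.1 (hNV ha) j (Finset.mem_range.2 (by omega))
    exact (L.small (hτ0 (ee j))).choose_spec.2 a h1 u hu
  have hlev : ∀ s : ℕ, ∃ (i : OX L N → ℕ) (c : ℕ → OX L N), s ≤ r →
      (∀ x y, Rr L N (ε s) x y → Rr L N (ε (s + 1)) x (c (i y)) ∧
        Rr L N (ε (s + 1)) (c (i x)) (c (i y))) ∧
      ∀ l : List (OX L N), Sm (Rr L N (ε s)) l → n + 2 ≤ l.length → ¬ (l.map i).Nodup := by
    intro s
    by_cases hs : s ≤ r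
    · obtain ⟨i, c, h1, h2⟩ := hτ (ee (r + 1 - (s + 1))) N (hNd _ (by omega))
      refine ⟨i, c, fun _ => ⟨?_, ?_⟩⟩
      · rw [hεs s hs]; exact h1
      · rw [hεs s hs]; exact h2
    · exact ⟨fun _ => 0, fun _ => ocl L N L.c, fun hs' => absurd hs' hs⟩
  choose i c hic using hlev
  -- the invariant map on the space of orbits
  set F' : OX L N → (Fin n → ℝ) := fun x => h.F (orep L N x) with hF'
  have hF'c : ∀ u ∈ L.U, F' (ocl L N u) = h.F u := by
    intro u hu
    obtain ⟨a, ha, hau⟩ := orep_ocl L N hu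
    simp only [hF']
    rw [← hau, h.hFg a u hu]
  have hF'g : ∀ (q : G ⧸ N) x, F' (q • x) = F' x := by
    intro q x
    induction q using QuotientGroup.induction_on with
    | H a =>
      rw [← ocl_orep L N x, smul_ocl L N a (orep_mem L N x), hF'c _ (L.hgU _ _ (orep_mem L N x)),
        h.hFg a _ (orep_mem L N x), hF'c _ (orep_mem L N x)]
  have h3 : ∀ s, s ≤ r + 1 → ∀ x z, Rr L N (ε s) x z → dist (F' x) (F' z) ≤ κ₀ := by
    rintro s hs x z ⟨u, hu, v, hv, h1, h2, h4⟩
    rw [← h1, ← h2, hF'c u hu, hF'c v hv]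
    refine (hδF' u hu v hv ?_).le
    have h5 := h4 1
    rw [L.hg1 u hu, L.hg1 v hv] at h5
    exact h5.trans_le ((hεe s hs).trans (min_le_left _ _))
  set S : Scales (G ⧸ N) (OX L N) ℕ n := mkScales (r := r) hmono (fun s hs => (hic s hs).1)
    (fun s hs => (hic s hs).2) hF'g h.y h3 hκ₀p.le with hS
  have hKκ : ∀ s, ∀ x ∈ S.K s, dist (F' x) h.y < h.κ := by
    rintro s x ⟨hs, hx⟩
    refine lt_of_le_of_lt hx ?_
    have hs0 : (0 : ℝ) ≤ s := Nat.cast_nonneg s
    calc κ₀ * (r + 2 - s) ≤ κ₀ * (r + 2) := mul_le_mul_of_nonneg_left (by linarith) hκ₀p.le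
      _ < κ₀ * (r + 3) := mul_lt_mul_of_pos_left (by linarith) hκ₀p
      _ = h.κ := by rw [hκ₀]; field_simp
  have hdK : ∀ s x z, x ∈ S.K (s + 1) → S.R (s + 1) x z → s + 1 ≤ r + 1 ∧
      Rr L N (ε (s + 1)) x z ∧ dist (F' x) h.y ≤ h.κ ∧ dist (F' z) h.y ≤ h.κ := by
    intro s x z hx hxz
    have hs : s + 1 ≤ r + 1 := hx.1
    exact ⟨hs, hxz hs, (hKκ _ x hx).le, (hKκ s z (S.supp s x z hx hxz)).le⟩
  -- labels
  have hχN : ∀ a ∈ N, E.χ a = 0 := fun a ha => E.ker a (hN2 ha)
  set chi : G ⧸ N → (Fin r → k) := fun q => E.χ (Quotient.out q) with hchi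
  have hchi1 : ∀ a : G, chi (a : G ⧸ N) = E.χ a := by
    intro a
    obtain ⟨m, hm⟩ := QuotientGroup.mk_out_eq_mul N a
    simp only [hchi]
    rw [show Quotient.out (a : G ⧸ N) = a * m from hm, E.χmul, hχN m m.2, add_zero]
  have hchi2 : ∀ q q' : G ⧸ N, chi (q * q') = chi q + chi q' := by
    intro q q'
    induction q using QuotientGroup.induction_on with
    | H a =>
      induction q' using QuotientGroup.induction_on with
      | H b =>
        rw [← QuotientGroup.mk_mul, hchi1, hchi1, hchi1, E.χmul]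
  let _ : MulAction (G ⧸ N) (Fin r → k) :=
    { smul := fun q a => chi q + a
      one_smul := fun a => by
        change chi 1 + a = a
        have h1 := hchi2 1 1
        rw [mul_one] at h1
        have h2 : chi 1 = 0 := by simpa using h1
        rw [h2, zero_add]
      mul_smul := fun q q' a => by
        change chi (q * q') + a = chi q + (chi q' + a)
        rw [hchi2, add_assoc] }
  have hsm : ∀ (q : G ⧸ N) (a : Fin r → k), q • a = chi q + a := fun q a => rfl
  -- the part with labels in `k`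
  set T : Set (OX L N) := {x | dist (F' x) h.y ≤ h.κ ∧ orep L N x ∈ h.A} with hT
  have hTu : ∀ u ∈ L.U, dist (h.F u) h.y ≤ h.κ → (ocl L N u ∈ T ↔ u ∈ h.A) := by
    intro u hu hd
    obtain ⟨a, ha, hau⟩ := orep_ocl L N hu
    simp only [hT, mem_ofPred_eq]
    rw [hF'c u hu, ← hau, h.hA a u hd]
    exact ⟨fun h' => h'.2, fun h' => ⟨hd, h'⟩⟩
  have hTg : ∀ (q : G ⧸ N) x, q • x ∈ T ↔ x ∈ T := by
    intro q x
    induction q using QuotientGroup.induction_on with
    | H g =>
      have hu := orep_mem L N x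
      by_cases hd : dist (F' x) h.y ≤ h.κ
      · have hd' : dist (h.F (L.g g (orep L N x))) h.y ≤ h.κ := by rw [h.hFg g _ hu]; exact hd
        have e2 : (g : G ⧸ N) • x = ocl L N (L.g g (orep L N x)) := by
          conv_lhs => rw [← ocl_orep L N x]
          exact smul_ocl L N g hu
        have e3 : x = ocl L N (orep L N x) := (ocl_orep L N x).symm
        rw [e2, hTu _ (L.hgU _ _ hu) hd', h.hA g _ hd]
        exact ⟨fun h' => ⟨hd, h'⟩, fun h' => h'.2⟩
      · have h1 : x ∉ T := fun h' => hd h'.1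
        have h2 : (g : G ⧸ N) • x ∉ T := fun h' => hd (by have := h'.1; rwa [hF'g] at this)
        exact ⟨fun h' => absurd h' h2, fun h' => absurd h' h1⟩
  have hTs : ∀ s x z, x ∈ S.K (s + 1) → S.R (s + 1) x z → (x ∈ T ↔ z ∈ T) := by
    intro s x z hx hxz
    obtain ⟨hs, ⟨u, hu, v, hv, h1, h2, h4⟩, hdx, hdz⟩ := hdK s x z hx hxz
    have hdu : dist (h.F u) h.y ≤ h.κ := by rw [← hF'c u hu, h1]; exact hdx
    have hdv : dist (h.F v) h.y ≤ h.κ := by rw [← hF'c v hv, h2]; exact hdz
    have h5 := h4 1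
    rw [L.hg1 u hu, L.hg1 v hv] at h5
    rw [← h1, ← h2, hTu u hu hdu, hTu v hv hdv]
    exact h.hsep u v hdu hdv (h5.trans_le ((hεe _ hs).trans (min_le_right _ _)))
  set S' : Scales (G ⧸ N) (OX L N) ℕ n := restr S T (fun g x hx => (hTg g x).2 hx)
    (fun s x y hx hxy h' => (hTs s x y hx hxy).1 h') with hS'
  set P : OX L N → (Fin r → k) → (Fin r → k) := fun x a => if x ∈ T then
      a - (∑ i, h.ξ (orep L N x) i * a i - h.lab (orep L N x)) • w (h.col (orep L N x))
    else a with hP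
  -- labels do not depend on the representative
  have hlabN : ∀ u ∈ L.U, u ∈ h.A → dist (h.F u) h.y ≤ h.κ →
      h.col (orep L N (ocl L N u)) = h.col u ∧
      h.ξ (orep L N (ocl L N u)) = h.ξ u ∧ h.lab (orep L N (ocl L N u)) = h.lab u := by
    intro u hu hA hd
    obtain ⟨a, ha, hau⟩ := orep_ocl L N hu
    rw [← hau, h.hcol a u hA hd, h.hξ a u hA hd, h.hlab a u hA hd, hχN a ha]
    simp
  have hPu : ∀ u ∈ L.U, u ∈ h.A → dist (h.F u) h.y ≤ h.κ → ∀ a, P (ocl L N u) a =
      a - (∑ i, h.ξ u i * a i - h.lab u) • w (h.col u) := by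
    intro u hu hA hd a
    obtain ⟨h1, h2, h4⟩ := hlabN u hu hA hd
    have h5 : ocl L N u ∈ T := (hTu u hu hd).2 hA
    simp only [hP]
    rw [if_pos h5, h1, h2, h4]
  have hPe : ∀ (g : G ⧸ N) x a, P (g • x) (g • a) = g • P x a := by
    intro q x a
    by_cases hx : x ∈ T
    · induction q using QuotientGroup.induction_on with
      | H g =>
        have hu := orep_mem L N x
        have hA : orep L N x ∈ h.A := hx.2
        have hd : dist (h.F (orep L N x)) h.y ≤ h.κ := hx.1
        have hd' : dist (h.F (L.g g (orep L N x))) h.y ≤ h.κ := by rw [h.hFg g _ hu]; exact hd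
        have e1 : P x a = a - (∑ i, h.ξ (orep L N x) i * a i - h.lab (orep L N x)) •
            w (h.col (orep L N x)) := by simp only [hP]; rw [if_pos hx]
        have e2 : (g : G ⧸ N) • x = ocl L N (L.g g (orep L N x)) := by
          conv_lhs => rw [← ocl_orep L N x]
          exact smul_ocl L N g hu
        rw [e2, hPu _ (L.hgU _ _ hu) ((h.hA g _ hd).2 hA) hd', e1, h.hcol g _ hA hd,
          h.hξ g _ hA hd, h.hlab g _ hA hd, hsm, hsm, hchi1]
        have e3 : ∑ i, h.ξ (orep L N x) i * (E.χ g + a) i =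
            ∑ i, h.ξ (orep L N x) i * E.χ g i +
              ∑ i, h.ξ (orep L N x) i * a i := by
          rw [← Finset.sum_add_distrib]
          exact Finset.sum_congr rfl fun i _ => by rw [Pi.add_apply]; ring
        rw [e3, add_sub_assoc]
        congr 3
        ring
    · have hx' : q • x ∉ T := fun h' => hx ((hTg q x).1 h')
      simp only [hP]
      rw [if_neg hx, if_neg hx']
  have hcomm : ∀ x y, x ∈ S'.K r → y ∈ S'.K r → S'.R r x y → ∀ a, P x (P y a) = P y (P x a) := by
    rintro x z ⟨hx, hxT⟩ ⟨hz, hzT⟩ hxz a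
    obtain ⟨u, hu, v, hv, h1, h2, h4⟩ := hxz (by omega)
    have hdu : dist (h.F u) h.y ≤ h.κ := by
      rw [← hF'c u hu, h1]; exact (hKκ r x hx).le
    have hdv : dist (h.F v) h.y ≤ h.κ := by
      rw [← hF'c v hv, h2]; exact (hKκ r z hz).le
    have hAu : u ∈ h.A := (hTu u hu hdu).1 (by rw [h1]; exact hxT)
    have hAv : v ∈ h.A := (hTu v hv hdv).1 (by rw [h2]; exact hzT)
    have h5 := h4 1
    rw [L.hg1 u hu, L.hg1 v hv] at h5
    have h6 := h.near u v hAu hAv hdu hdv
      (h5.trans_le ((hεe r (by omega)).trans (min_le_right _ _)))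
    rw [← h1, ← h2]
    rcases h6 with ⟨h7, h8, h9⟩ | ⟨h7, h8⟩
    · have : ∀ a, P (ocl L N u) a = P (ocl L N v) a := by
        intro a
        rw [hPu u hu hAu hdu, hPu v hv hAv hdv, h7, h8, h9]
      rw [this, this]
    · rw [hPu u hu hAu hdu, hPu v hv hAv hdv, hPu v hv hAv hdv, hPu u hu hAu hdu]
      have e1 : ∑ i, h.ξ u i * (a - (∑ i, h.ξ v i * a i - h.lab v) • w (h.col v)) i =
          ∑ i, h.ξ u i * a i := by
        have : ∑ i, h.ξ u i * (a - (∑ i, h.ξ v i * a i - h.lab v) • w (h.col v)) i =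
          ∑ i, h.ξ u i * a i - (∑ i, h.ξ v i * a i - h.lab v) * ∑ i, h.ξ u i * w (h.col v) i := by
          rw [Finset.mul_sum, ← Finset.sum_sub_distrib]
          exact Finset.sum_congr rfl fun i _ => by
            rw [Pi.sub_apply, Pi.smul_apply, smul_eq_mul]; ring
        rw [this, h7, mul_zero, sub_zero]
      have e2 : ∑ i, h.ξ v i * (a - (∑ i, h.ξ u i * a i - h.lab u) • w (h.col u)) i =
          ∑ i, h.ξ v i * a i := by
        have : ∑ i, h.ξ v i * (a - (∑ i, h.ξ u i * a i - h.lab u) • w (h.col u)) i =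
          ∑ i, h.ξ v i * a i - (∑ i, h.ξ u i * a i - h.lab u) * ∑ i, h.ξ v i * w (h.col u) i := by
          rw [Finset.mul_sum, ← Finset.sum_sub_distrib]
          exact Finset.sum_congr rfl fun i _ => by
            rw [Pi.sub_apply, Pi.smul_apply, smul_eq_mul]; ring
        rw [this, h8, mul_zero, sub_zero]
      rw [e1, e2]
      abel
  have hkill : ∀ x ∈ S'.K r, ∀ l : List (Fin r → k), vol r (l.map (P x)) = 0 := by
    rintro x ⟨hx, hxT⟩ l
    have hw := h.hw _ hxT.2 hxT.1
    refine vol_kill2 hw (h.lab (orep L N x)) (fun a => ?_) l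
    have e1 : P x a = a - (∑ i, h.ξ (orep L N x) i * a i - h.lab (orep L N x)) •
        w (h.col (orep L N x)) := by simp only [hP]; exact if_pos hxT
    rw [e1]
    have : ∑ i, h.ξ (orep L N x) i * (a - (∑ i, h.ξ (orep L N x) i * a i -
        h.lab (orep L N x)) • w (h.col (orep L N x))) i = ∑ i, h.ξ (orep L N x) i * a i -
        (∑ i, h.ξ (orep L N x) i * a i - h.lab (orep L N x)) *
          ∑ i, h.ξ (orep L N x) i * w (h.col (orep L N x)) i := by
      rw [Finset.mul_sum, ← Finset.sum_sub_distrib]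
      exact Finset.sum_congr rfl fun i _ => by
        rw [Pi.sub_apply, Pi.smul_apply, smul_eq_mul]; ring
    rw [this, hw]
    ring
  -- the point cocycle
  set f₀ : List (OX L N) → k := fun z => cyc h.y (z.map F') with hf₀
  have hcl : Clo S (r + 1) (n + 2) f₀ := by
    intro z _ _
    simp only [hf₀]
    rw [dl_map F' (cyc (k := k) h.y)]
    exact dl_cyc _ _
  have hsu : Supp S (r + 1) (n + 1) f₀ := by
    intro z hz _ hne x hx
    refine ⟨le_rfl, ?_⟩
    have h1 := cyc_supp _ _ hne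
    push_cast
    rw [show ((r : ℝ) + 2 - (r + 1)) = 1 by ring, mul_one]
    rw [dist_pi_le_iff hκ₀p.le]
    intro j
    obtain ⟨u, hu, v, hv, huy, hvy⟩ := h1 j
    obtain ⟨u', hu', rfl⟩ := List.mem_map.1 hu
    obtain ⟨v', hv', rfl⟩ := List.mem_map.1 hv
    have h4 := (dist_le_pi_dist (F' x) (F' u') j).trans (h3 (r + 1) le_rfl x u' (hz x hx u' hu' le_rfl))
    have h5 := (dist_le_pi_dist (F' x) (F' v') j).trans (h3 (r + 1) le_rfl x v' (hz x hx v' hv' le_rfl))
    rw [Real.dist_eq] at h4 h5 ⊢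
    rw [abs_le] at h4 h5 ⊢
    constructor <;> linarith [h4.1, h4.2, h5.1, h5.2]
  have hf₀g : ∀ (g : G ⧸ N) z, f₀ (z.map (g • ·)) = f₀ z := by
    intro g z
    simp only [hf₀, List.map_map]
    congr 1
    refine List.map_congr_left fun x _ => ?_
    exact hF'g g x
  -- the integral
  obtain ⟨I, hI0, hI1, hI2⟩ := exists_int (k := k) L (ocl L N) (S.R 0) (S.K 0) (hεp 0)
    (fun u hu v hv huv _ => ⟨u, hu, v, hv, rfl, rfl, huv⟩) (by
      intro u hu hK
      have h1 := hKκ 0 _ hK
      rw [hF'c u hu] at h1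
      have h2 := h.hFd u
      have h4 := h.hy
      have h5 := h.hκs
      calc dist u L.c ≤ dist u (h.F u) + dist (h.F u) h.y + dist h.y L.c := dist_triangle4 _ _ _ _
        _ < L.s / 8 + L.s / 8 + L.s / 8 := by
          rw [dist_comm u]
          linarith
        _ = 3 * L.s / 8 := by ring) (fun a x => (a : G ⧸ N) • x) (fun a u hu => smul_ocl L N a hu)
  have hcl0 : ∀ (T : Set (OX L N)), (∀ x y, x ∈ S.K (r + 1) → S.R (r + 1) x y → x ∈ T → y ∈ T) →
      Clo S (r + 1) (n + 2) (rs T f₀) ∧ ∀ z : List (OX L N), Sm (S.R (r + 1)) z →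
        z.length = n + 1 → rs T f₀ z ≠ 0 → ∀ x ∈ z, x ∈ S.K (r + 1) ∧ x ∈ T :=
    fun T hT => ⟨clo_rs hcl hsu hT, supp_rs hsu T⟩
  have hIT : ∀ (T : Set (OX L N)), (∀ x y, x ∈ S.K (r + 1) → S.R (r + 1) x y → x ∈ T → y ∈ T) →
      ∀ a : G, I (fun z => rs T f₀ (z.map fun x => (a : G ⧸ N) • x)) = I (rs T f₀) := by
    intro T hT a
    obtain ⟨h1, h2⟩ := hcl0 T hT
    apply hI1 (rs T f₀) a
    · intro z hz hl
      exact h1 z (S.Sm_le (Nat.zero_le _) hz) hl
    · intro z hz hl hne x hx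
      exact S.K_le (Nat.zero_le _) (h2 z (S.Sm_le (Nat.zero_le _) hz) hl hne x hx).1
  -- the part with labels in `ZMod p`
  have hηN : ∀ j, ∀ a ∈ N, h.η j a = 0 := fun j a ha => h.hηG₂ j a (hN2 ha)
  set Tb : ℕ → ZMod p → Set (OX L N) := fun j i => {x | dist (F' x) h.y ≤ h.κ ∧ x ∉ T ∧
    h.idx (orep L N x) = j ∧ h.lb (orep L N x) = i} with hTb
  have hbu : ∀ u ∈ L.U, u ∉ h.A → dist (h.F u) h.y ≤ h.κ →
      h.idx (orep L N (ocl L N u)) = h.idx u ∧ h.lb (orep L N (ocl L N u)) = h.lb u := by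
    intro u hu hA hd
    obtain ⟨a, ha, hau⟩ := orep_ocl L N hu
    rw [← hau, h.hidx a u hA hd, h.hlb a u hA hd, hηN _ a ha, add_zero]
    exact ⟨rfl, rfl⟩
  have hTbs : ∀ j i x z, x ∈ S.K (r + 1) → S.R (r + 1) x z → x ∈ Tb j i → z ∈ Tb j i := by
    intro j i x z hx hxz hxT
    obtain ⟨hs, ⟨u, hu, v, hv, h1, h2, h4⟩, hdx, hdz⟩ := hdK r x z hx hxz
    obtain ⟨-, hxT', hxj, hxi⟩ := hxT
    have hdu : dist (h.F u) h.y ≤ h.κ := by rw [← hF'c u hu, h1]; exact hdx
    have hdv : dist (h.F v) h.y ≤ h.κ := by rw [← hF'c v hv, h2]; exact hdz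
    have h5 := h4 1
    rw [L.hg1 u hu, L.hg1 v hv] at h5
    have h6 := h5.trans_le ((hεe _ hs).trans (min_le_right _ _))
    have hAu : u ∉ h.A := fun h' => hxT' (by rw [← h1]; exact (hTu u hu hdu).2 h')
    have hAv : v ∉ h.A := fun h' => hAu ((h.hsep u v hdu hdv h6).2 h')
    obtain ⟨h7, h8⟩ := h.near' u v hAu hAv hdu hdv h6
    obtain ⟨h9, h10⟩ := hbu u hu hAu hdu
    obtain ⟨h11, h12⟩ := hbu v hv hAv hdv
    rw [h1] at h9 h10
    rw [h2] at h11 h12
    refine ⟨hdz, fun h' => hAv ((hTu v hv hdv).1 (by rw [h2]; exact h')), ?_, ?_⟩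
    · rw [h11, ← h7, ← h9, hxj]
    · rw [h12, ← h8, ← h10, hxi]
  have hTbg : ∀ j i (g : G) x, (g : G ⧸ N) • x ∈ Tb j (i + h.η j g) ↔ x ∈ Tb j i := by
    intro j i g x
    have hu := orep_mem L N x
    by_cases hd : dist (F' x) h.y ≤ h.κ
    · by_cases hxT : x ∈ T
      · have h1 : (g : G ⧸ N) • x ∈ T := (hTg _ x).2 hxT
        exact ⟨fun h' => absurd h1 h'.2.1, fun h' => absurd hxT h'.2.1⟩
      · have hA : orep L N x ∉ h.A := fun h' => hxT ⟨hd, h'⟩
        have hd0 : dist (h.F (orep L N x)) h.y ≤ h.κ := hd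
        have hd' : dist (h.F (L.g g (orep L N x))) h.y ≤ h.κ := by rw [h.hFg g _ hu]; exact hd
        have hA' : L.g g (orep L N x) ∉ h.A := fun h' => hA ((h.hA g _ hd0).1 h')
        have e2 : (g : G ⧸ N) • x = ocl L N (L.g g (orep L N x)) := by
          conv_lhs => rw [← ocl_orep L N x]
          exact smul_ocl L N g hu
        obtain ⟨h1, h2⟩ := hbu _ (L.hgU g _ hu) hA' hd'
        rw [← e2, h.hidx g _ hA hd0] at h1
        rw [← e2, h.hlb g _ hA hd0] at h2
        have hgT : (g : G ⧸ N) • x ∉ T := fun h' => hxT ((hTg _ x).1 h')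
        constructor
        · rintro ⟨-, -, h3, h4⟩
          rw [h1] at h3
          rw [h2, h3] at h4
          exact ⟨hd, hxT, h3, add_right_cancel h4⟩
        · rintro ⟨-, -, h3, h4⟩
          refine ⟨by rw [hF'g]; exact hd, hgT, by rw [h1, h3], by rw [h2, h3, h4]⟩
    · have h1 : x ∉ Tb j i := fun h' => hd h'.1
      have h2 : (g : G ⧸ N) • x ∉ Tb j (i + h.η j g) := fun h' =>
        hd (by have := h'.1; rwa [hF'g] at this)
      exact ⟨fun h' => absurd h' h2, fun h' => absurd h' h1⟩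
  have hIb : ∀ j i (g : G), I (rs (Tb j (i + h.η j g)) f₀) = I (rs (Tb j i) f₀) := by
    intro j i g
    rw [← hIT _ (hTbs j _) g]
    congr 1
    funext z
    by_cases hz : ∀ x ∈ z, x ∈ Tb j i
    · rw [rs_of hz, rs_of (by
        intro x hx
        obtain ⟨x', hx', rfl⟩ := List.mem_map.1 hx
        exact (hTbg j i g x').2 (hz x' hx'))]
      exact hf₀g _ z
    · rw [rs_not hz, rs_not (by
        intro hz'
        apply hz
        intro x hx
        exact (hTbg j i g x).1 (hz' _ (List.mem_map.2 ⟨x, hx, rfl⟩)))]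
  have hIp : ∀ j, ∃ a : k, ∑ i : ZMod p, I (rs (Tb j i) f₀) = (p : k) * a := by
    intro j
    by_cases hj : ∃ g, h.η j g ≠ 0
    · obtain ⟨g, hg⟩ := hj
      have h1 : ∀ m : ℕ, h.η j (g ^ m) = m * h.η j g := by
        intro m
        induction m with
        | zero =>
          have h2 := h.hη j 1 1
          rw [mul_one] at h2
          rw [pow_zero, Nat.cast_zero, zero_mul]
          simpa using h2
        | succ m ih => rw [pow_succ, h.hη, ih]; push_cast; ring
      have h2 : ∀ i : ZMod p, I (rs (Tb j i) f₀) = I (rs (Tb j 0) f₀) := by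
        intro i
        have h3 := hIb j 0 (g ^ (i * (h.η j g)⁻¹).val)
        rw [h1, ZMod.natCast_zmod_val, inv_mul_cancel_right₀ hg, zero_add] at h3
        exact h3
      refine ⟨I (rs (Tb j 0) f₀), ?_⟩
      rw [Finset.sum_congr rfl fun i _ => h2 i, Finset.sum_const, Finset.card_univ, ZMod.card,
        nsmul_eq_mul]
    · refine ⟨0, ?_⟩
      rw [mul_zero]
      apply Finset.sum_eq_zero
      intro i _
      apply hI0
      intro z hz hl
      apply rs_not
      intro hz'
      obtain ⟨x, hx⟩ := List.exists_mem_of_length_pos (by rw [hl]; omega : 0 < z.length)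
      obtain ⟨hd, hxT, hxj, -⟩ := hz' x hx
      obtain ⟨-, g, hg⟩ := h.hM (orep L N x) (fun h' => hxT ⟨hd, h'⟩) hd
      rw [hxj] at hg
      exact hj ⟨g, hg⟩
  have hIf : I f₀ = 1 := hI2 h.F F' h.y h.hFd h.hy hF'c
  have hdec : I f₀ = I (rs T f₀) + ∑ j ∈ Finset.range h.M, ∑ i : ZMod p, I (rs (Tb j i) f₀) := by
    have h1 : I (f₀ - (rs T f₀ + ∑ j ∈ Finset.range h.M, ∑ i : ZMod p, rs (Tb j i) f₀)) = 0 := by
      apply hI0
      intro z hz hl
      have hz1 : Sm (S.R (r + 1)) z := S.Sm_le (Nat.zero_le _) hz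
      simp only [Pi.sub_apply, Pi.add_apply, Finset.sum_apply]
      by_cases h0 : f₀ z = 0
      · have h2 : ∀ T' : Set (OX L N), rs T' f₀ z = 0 := by
          intro T'
          by_contra hne
          exact (rs_ne hne).2 h0
        simp only [h0, h2, Finset.sum_const_zero, add_zero, sub_zero]
      · have hK := hsu z hz1 hl h0
        obtain ⟨x₀, hx₀⟩ := List.exists_mem_of_length_pos (by rw [hl]; omega : 0 < z.length)
        have hd₀ : dist (F' x₀) h.y ≤ h.κ := (hKκ _ x₀ (hK x₀ hx₀)).le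
        by_cases hxT : x₀ ∈ T
        · have h2 : rs T f₀ z = f₀ z := rs_of fun x hx =>
            (hTs r x₀ x (hK x₀ hx₀) (hz1 x₀ hx₀ x hx)).1 hxT
          have h3 : ∀ j i, rs (Tb j i) f₀ z = 0 := fun j i =>
            rs_not fun h' => (h' x₀ hx₀).2.1 hxT
          simp only [h2, h3, Finset.sum_const_zero, add_zero, sub_self]
        · have h2 : rs T f₀ z = 0 := rs_not fun h' => hxT (h' x₀ hx₀)
          have h3 : ∀ j i, rs (Tb j i) f₀ z = if j = h.idx (orep L N x₀) then
              (if i = h.lb (orep L N x₀) then f₀ z else 0) else 0 := by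
            intro j i
            split_ifs with hj hi
            · apply rs_of
              intro x hx
              exact hTbs j i x₀ x (hK x₀ hx₀) (hz1 x₀ hx₀ x hx) ⟨hd₀, hxT, hj.symm, hi.symm⟩
            · exact rs_not fun h' => hi (h' x₀ hx₀).2.2.2.symm
            · exact rs_not fun h' => hj (h' x₀ hx₀).2.2.1.symm
          have h4 := (h.hM (orep L N x₀) (fun h' => hxT ⟨hd₀, h'⟩) hd₀).1
          rw [h2, zero_add, sub_eq_zero]
          simp only [h3]
          rw [Finset.sum_eq_single (h.idx (orep L N x₀))]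
          · simp
          · intro j _ hj
            simp [hj]
          · intro hj
            exact absurd (Finset.mem_range.2 h4) hj
    rw [map_sub, sub_eq_zero, map_add, map_sum] at h1
    rw [h1]
    congr 1
    exact Finset.sum_congr rfl fun j _ => map_sum _ _ _
  choose aa haa using hIp
  have hIT1 : I (rs T f₀) = 1 + (p : k) * (-∑ j ∈ Finset.range h.M, aa j) := by
    rw [hIf, Finset.sum_congr rfl fun j _ => haa j, ← Finset.mul_sum] at hdec
    rw [mul_neg, hdec]
    ring
  have hTs' : ∀ x y, x ∈ S.K (r + 1) → S.R (r + 1) x y → x ∈ T → y ∈ T :=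
    fun x y hx hxy h' => (hTs r x y hx hxy).1 h'
  have hclA : Clo S' (r + 1) (n + 2) (rs T f₀) := fun z hz hl => (hcl0 T hTs').1 z hz hl
  have hsuA : Supp S' (r + 1) (n + 1) (rs T f₀) := fun z hz hl hne => (hcl0 T hTs').2 z hz hl hne
  obtain ⟨cc, hcc1, hcc2⟩ := top S' hr (vol r) dl_vol
    (fun g l => by
      have : (fun x : Fin r → k => g • x) = fun x => chi g + x := rfl
      rw [this]
      exact vol_add _ _) P hPe hcomm hkill (rs T f₀) hclA hsuA
    (fun g z => by
      by_cases hz : ∀ x ∈ z, x ∈ T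
      · rw [rs_of hz, rs_of (by
          intro x hx
          obtain ⟨x', hx', rfl⟩ := List.mem_map.1 hx
          exact (hTg g x').2 (hz x' hx'))]
        exact hf₀g _ z
      · rw [rs_not hz, rs_not (by
          intro hz'
          apply hz
          intro x hx
          exact (hTg g x).1 (hz' _ (List.mem_map.2 ⟨x, hx, rfl⟩)))]) 0 I hI0 (fun f q h1 h2 => by
        induction q using QuotientGroup.induction_on with
        | H g => exact hI1 f g h1 (fun z hz hl hne x hx => (h2 z hz hl hne x hx).1))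
  have hfin := E.nv N hNn hNo hN2 (fun l => cc (l.map (fun g : G => (g : G ⧸ N))))
    (-(I (rs T f₀))) ?_ ?_ ?_
  · rw [hIT1, mul_neg, neg_eq_zero] at hfin
    exact E.fac _ hfin
  · intro l l' hll
    congr 1
    induction hll with
    | nil => rfl
    | cons hab _ ih =>
      rw [List.map_cons, List.map_cons, ih]
      congr 1
      exact (QuotientGroup.eq.2 hab)
  · intro g l hl
    have h1 := hcc1 (g : G ⧸ N) (l.map (fun g : G => (g : G ⧸ N))) (by rw [List.length_map, hl])
    rw [← h1, List.map_map, List.map_map]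
    rfl
  · intro l hl
    rw [dl_map (fun g : G => (g : G ⧸ N)) cc, hcc2 _ (by rw [List.length_map, hl]), List.map_map]
    have : ((fun x : G ⧸ N => x • (0 : Fin r → k)) ∘ fun g : G => (g : G ⧸ N)) = E.χ := by
      funext g
      change chi (g : G ⧸ N) + 0 = _
      rw [hchi1, add_zero]
    rw [this]
    ring

end main

end Pool.Agent.HSF
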