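import Pool.Agent.HSF.E2
import Pool.Agent.HSF.T2
import Pool.Agent.HSF.LocalG

/-!
# The final argument for an abstract group with data `GR`
-/

set_option autoImplicit false
set_option linter.unusedVariables false

open Set Topology Metric

namespace Pool.Agent.HSF
open Pool.Agent.Helper3.HS Pool.Agent.HS3

/-- `Γ` has arbitrarily small compact open subgroups with data `GR`. -/
def SmallGR (Γ : Type*) [Group Γ] [TopologicalSpace Γ] (p D : ℕ) : Prop :=
  ∀ V ∈ 𝓝 (1 : Γ), ∃ H : Subgroup Γ, IsOpen (H : Set Γ) ∧ CompactSpace H ∧ (H : Set Γ) ⊆ V ∧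
    ∃ (r : ℕ) (k : Type) (_ : CommRing k) (w : Fin (D + 1) → (Fin r → k)), 1 ≤ r ∧
      Nonempty (GR H p r D k w)

section main

variable {d D p : ℕ} [Fact p.Prime] {X : Type*} [MetricSpace X] {G : Type*} [Group G]
  [TopologicalSpace G] [IsTopologicalGroup G] [MulAction G X] [ContinuousSMul G X]
  {Γ : Type*} [Group Γ] [TopologicalSpace Γ] [IsTopologicalGroup Γ]

/-- **The local statement.** -/
theorem local_abs (hGR : SmallGR Γ p D) {x₀ : X} (hx₀ : x₀ ∈ regPts (d + 1) X)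
    (hH : ¬ IsMeagre {g : G | ∃ V ∈ 𝓝 x₀, ∃ b C : ℝ, (d + 1 : ℝ) < b * (d + 1 + D + 1) ∧
      ∀ x ∈ V, ∀ y ∈ V, dist (g • x) (g • y) ≤ C * dist x y ^ b})
    (θ : Γ →* G) (hθ : Continuous θ) :
    ∃ H : Subgroup Γ, IsOpen (H : Set Γ) ∧ ∀ᶠ x in 𝓝 x₀, ∀ a ∈ H, θ a • x = x := by
  have hD : (0 : ℝ) < (d : ℝ) + 1 + D + 1 := by positivity
  obtain ⟨g₀, V, V', b, C, hV, hV', hb, hC0, hC⟩ := exists_uniform' (G := G)
    (x₀ := x₀) (τ := ((d : ℝ) + 1) / ((d : ℝ) + 1 + D + 1)) (by positivity) (by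
      refine fun h => hH (h.mono ?_)
      rintro g ⟨V, hV, b, C, hb, h⟩
      exact ⟨V, hV, b, C, by rwa [div_lt_iff₀ hD], h⟩)
  have hb0 : 0 < b := lt_of_le_of_lt (by positivity) hb
  rw [div_lt_iff₀ hD] at hb
  let _ : MulAction Γ X := MulAction.compHom X θ
  have hsm : ∀ (a : Γ) (x : X), a • x = θ a • x := fun _ _ => rfl
  have hcs : ContinuousSMul Γ X := by
    constructor
    exact (hθ.comp continuous_fst).smul continuous_snd
  obtain ⟨e, C₀, hxe, hLe, hLs⟩ := hx₀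
  -- the ball
  have hpre : e.target ∩ e.symm ⁻¹' V ∈ 𝓝 (e x₀) := by
    apply Filter.inter_mem (e.open_target.mem_nhds (e.map_source hxe))
    apply (e.symm.continuousAt (e.map_source hxe)).preimage_mem_nhds
    rw [e.left_inv hxe]
    exact hV
  obtain ⟨s₀, hs₀, hball⟩ := Metric.nhds_basis_closedBall.mem_iff.mp hpre
  obtain ⟨s, hs, hss₀, hst, V₁, hV₁, hLG⟩ := exists_LG (G := Γ) e hxe hs₀
  have hV'θ : θ ⁻¹' V' ∈ 𝓝 (1 : Γ) := by
    apply hθ.continuousAt.preimage_mem_nhds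
    rw [map_one]
    exact hV'
  obtain ⟨H, hHo, hHc, hHV, r, k, _, w, hr, ⟨E⟩⟩ := hGR _ (Filter.inter_mem hV₁ hV'θ)
  obtain ⟨L, hLc, hLs', hLg⟩ := hLG H (fun g hg => (hHV hg).1) hHc
  refine ⟨H, hHo, ?_⟩
  have hnear : {x | x ∈ e.source ∧ dist (e x) (e x₀) < s / 16} ∈ 𝓝 x₀ := by
    apply Filter.inter_mem (e.open_source.mem_nhds hxe)
    have h1 := (e.continuousAt hxe).preimage_mem_nhds
      (ball_mem_nhds (e x₀) (show 0 < s / 16 by positivity))
    exact h1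
  filter_upwards [hnear] with x hx g hg
  by_contra hne
  -- the data
  have hcb : closedBall L.c L.s = closedBall (e x₀) s := by rw [hLc, hLs']
  have hUcb : ∀ u ∈ L.U, u ∈ closedBall (e x₀) s := fun u hu => hcb ▸ L.hUc hu
  have htar : ∀ u ∈ closedBall (e x₀) s, u ∈ e.target := fun u hu => hst hu
  have hinV : ∀ u ∈ closedBall (e x₀) s, e.symm u ∈ V := fun u hu =>
    (hball (closedBall_subset_closedBall hss₀ hu)).2
  obtain ⟨B⟩ := exists_LB2 (n := d + 1) L E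
    (Λ := fun (a : H) (u : Fin (d + 1) → ℝ) => (g₀ * θ (a : Γ)) • e.symm u)
    (by
      rw [hcb]
      refine ContinuousOn.smul (f := fun q : H × (Fin (d + 1) → ℝ) => g₀ * θ (q.1 : Γ)) ?_ ?_
      · exact (continuous_const.mul
          (hθ.comp (continuous_subtype_val.comp continuous_fst))).continuousOn
      · exact e.symm.continuousOn.comp continuousOn_snd fun q hq => htar _ hq.2)
    (by
      intro a a' u hu
      show (g₀ * θ (a : Γ)) • e.symm (L.g a' u) = (g₀ * θ ((a * a' : H) : Γ)) • e.symm u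
      rw [(hLg a' u (hUcb u hu)).2, e.left_inv (hLg a' u (hUcb u hu)).1, hsm, smul_smul, mul_assoc,
        ← map_mul]
      rfl)
    (by
      intro u hu v hv huv
      have h1 := MulAction.injective _ huv
      exact e.symm.injOn (htar u (hUcb u hu)) (htar v (hUcb v hv)) h1)
    (b := b) (by push_cast; exact hb)
    (C := C * (C₀ : ℝ) ^ b)
    (by
      intro a u hu v hv
      rw [hcb] at hu hv
      have h1 := hC (θ (a : Γ)) (hHV a.2).2 _ (hinV u hu) _ (hinV v hv)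
      have h2 : dist (e.symm u) (e.symm v) ≤ C₀ * dist u v :=
        hLs.dist_le_mul u (htar u hu) v (htar v hv)
      have h3 : dist (e.symm u) (e.symm v) ^ b ≤ (C₀ * dist u v) ^ b :=
        Real.rpow_le_rpow dist_nonneg h2 hb0.le
      rw [Real.mul_rpow (NNReal.coe_nonneg C₀) dist_nonneg] at h3
      calc _ ≤ C * dist (e.symm u) (e.symm v) ^ b := h1
        _ ≤ C * ((C₀ : ℝ) ^ b * dist u v ^ b) := mul_le_mul_of_nonneg_left h3 hC0
        _ = C * (C₀ : ℝ) ^ b * dist u v ^ b := by ring)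
    (y₀ := e x) (by rw [hLc, hLs']; exact hx.2.le)
    (by
      have hxb : e x ∈ closedBall (e x₀) s := by
        rw [mem_closedBall]
        linarith [hx.2]
      refine ⟨⟨g, hg⟩, fun h => hne ?_⟩
      have h1 := hLg ⟨g, hg⟩ (e x) hxb
      rw [e.left_inv hx.1] at h1
      rw [h1.2] at h
      exact e.injOn h1.1 hx.1 h)
  exact no_LB2 hr B

/-- **The global statement.** -/
theorem final_abs {R : Set X} (hRo : IsOpen R) (hRd : Dense R) (hRc : IsPreconnected R)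
    (hR : R ⊆ regPts (d + 1) X)
    (hpro : ∃ U ∈ 𝓝 (1 : Γ), ∀ g ∈ U, ∀ V ∈ 𝓝 (1 : Γ), ∃ m : ℕ, g ^ p ^ m ∈ V)
    (hGR : SmallGR Γ p D)
    (hH : ∀ x₀ ∈ R, ¬ IsMeagre {g : G | ∃ V ∈ 𝓝 x₀, ∃ b C : ℝ,
      (d + 1 : ℝ) < b * (d + 1 + D + 1) ∧ ∀ x ∈ V, ∀ y ∈ V, dist (g • x) (g • y) ≤ C * dist x y ^ b})
    (θ : Γ →* G) (hθ : Continuous θ) :
    ∃ H : Subgroup Γ, IsOpen (H : Set Γ) ∧ ∀ a ∈ H, ∀ x : X, θ a • x = x := by
  let _ : MulAction Γ X := MulAction.compHom X θ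
  have hsm : ∀ (a : Γ) (x : X), a • x = θ a • x := fun _ _ => rfl
  have hcs : ContinuousSMul Γ X := by
    constructor
    exact (hθ.comp continuous_fst).smul continuous_snd
  have hloc : ∀ x₀ ∈ R, ∃ H : Subgroup Γ, IsOpen (H : Set Γ) ∧ ∀ᶠ x in 𝓝 x₀, ∀ a ∈ H, a • x = x :=
    fun x₀ hx₀ => local_abs hGR (hR hx₀) (hH x₀ hx₀) θ hθ
  rcases R.eq_empty_or_nonempty with hem | ⟨x₀, hx₀⟩
  · refine ⟨⊤, isOpen_univ, fun g _ x => ?_⟩
    have h1 := hRd x
    rw [hem, closure_empty] at h1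
    exact absurd h1 (notMem_empty x)
  · obtain ⟨U, hU, hpro⟩ := hpro
    obtain ⟨H₀, hH₀, hH₀x⟩ := hloc x₀ hx₀
    obtain ⟨H, hHo, -, hHU, -⟩ := hGR _ (Filter.inter_mem hU (hH₀.mem_nhds H₀.one_mem))
    refine ⟨H, hHo, fun g hg x => ?_⟩
    have h1 : ∀ y ∈ R, g • y = y := by
      refine fix_of_newman (d := d) (p := p) hRo hRc hR g ?_ hx₀ ?_
      · intro y hy
        obtain ⟨H', hH', hH'y⟩ := hloc y hy
        obtain ⟨m, hm⟩ := hpro g (hHU hg).1 _ (hH'.mem_nhds H'.one_mem)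
        refine ⟨m, ?_⟩
        filter_upwards [hH'y] with z hz
        exact hz _ hm
      · filter_upwards [hH₀x] with z hz
        exact hz g (hHU hg).2
    have hcl : IsClosed {z : X | g • z = z} :=
      isClosed_eq (continuous_const_smul g) continuous_id
    exact closure_minimal (fun z hz => h1 z hz) hcl (hRd x)

end main

end Pool.Agent.HSF
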