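import Pool.Agent.HSF.LocalG

/-!
# Theorem F, final form
-/

set_option autoImplicit false
set_option linter.unusedVariables false

open Set Topology Metric Matrix

namespace Pool.Agent.HSF
open Pool.Agent.Helper3.HS Pool.Agent.HS3

theorem final_meagre {d N p κ₀ : ℕ} [Fact p.Prime] (hN : 1 ≤ N) (hp : (N + 1) ^ 2 < p)
    {X : Type*} [MetricSpace X] {G : Type*} [Group G] [TopologicalSpace G]
    [IsTopologicalGroup G] [MulAction G X] [ContinuousSMul G X] {R : Set X}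
    (hRo : IsOpen R) (hRd : Dense R) (hRc : IsPreconnected R) (hR : R ⊆ regPts (d + 1) X)
    (hH : ∀ x₀ ∈ R, ¬ IsMeagre {g : G | ∃ b : ℝ, (d + 1 : ℝ) < b * (d + 1 + N) ∧
      HolderNear b (fun x : X => g • x) x₀})
    (θ : Gam (N + 1) p κ₀ →* G) (hθ : Continuous θ) :
    ∃ κ : ℕ, ∀ a : Gam (N + 1) p κ₀, (a : SpecialLinearGroup (Fin (N + 1)) ℤ_[p]) ∈
      Gam (N + 1) p κ → ∀ x : X, θ a • x = x := by
  refine final_G (D := N - 1) (d := d) hN (by omega) hp hRo hRd hRc hR (fun x₀ hx₀ => ?_) θ hθ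
  refine fun h => hH x₀ hx₀ (h.mono ?_)
  rintro g ⟨b, hb, V, hV, C, hC⟩
  refine ⟨V, hV, b, C, ?_, hC⟩
  have h1 : ((N - 1 : ℕ) : ℝ) + 1 = N := by
    have h2 : N - 1 + 1 = N := by omega
    exact_mod_cast h2
  have h3 : (d : ℝ) + 1 + ((N - 1 : ℕ) : ℝ) + 1 = d + 1 + N := by rw [← h1]; ring
  rw [h3]
  exact hb

theorem final_baire {d : ℕ} {X : Type*} [MetricSpace X] {G : Type*} [Group G] [TopologicalSpace G]
    [IsTopologicalGroup G] [BaireSpace G] [MulAction G X] [ContinuousSMul G X] {R : Set X}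
    (hRo : IsOpen R) (hRd : Dense R) (hRc : IsPreconnected R) (hR : R ⊆ regPts (d + 1) X)
    (hH : ∀ g : G, ∃ b : ℝ, 0 < b ∧ ∀ x₀ ∈ R, HolderNear b (fun x : X => g • x) x₀) :
    ∃ N₀ : ℕ, ∀ (N p κ₀ : ℕ) [Fact p.Prime], N₀ ≤ N → (N + 1) ^ 2 < p →
      ∀ θ : Gam (N + 1) p κ₀ →* G, Continuous θ →
      ∃ κ : ℕ, ∀ a : Gam (N + 1) p κ₀, (a : SpecialLinearGroup (Fin (N + 1)) ℤ_[p]) ∈
        Gam (N + 1) p κ → ∀ x : X, θ a • x = x := by
  set B : ℕ → Set G := fun m => {g | ∃ b : ℝ, 1 / ((m : ℝ) + 1) < b ∧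
    ∀ x₀ ∈ R, HolderNear b (fun x : X => g • x) x₀} with hB
  obtain ⟨m, hm⟩ : ∃ m, ¬ IsMeagre (B m) := by
    by_contra hcon
    push Not at hcon
    have h1 : IsMeagre (⋃ m, B m) := isMeagre_iUnion hcon
    have h2 : ⋃ m, B m = univ := by
      rw [eq_univ_iff_forall]
      intro g
      obtain ⟨b, hb, h⟩ := hH g
      obtain ⟨m, hm⟩ := exists_nat_one_div_lt hb
      exact mem_iUnion.2 ⟨m, b, hm, h⟩
    rw [h2] at h1
    exact not_isMeagre_of_isOpen isOpen_univ univ_nonempty h1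
  refine ⟨(d + 1) * (m + 1), fun N p κ₀ _ hN hp θ hθ => ?_⟩
  have hN1 : 1 ≤ N := le_trans (Nat.succ_le_of_lt (by positivity)) hN
  refine final_meagre (d := d) hN1 hp hRo hRd hRc hR (fun x₀ hx₀ h => hm (h.mono ?_)) θ hθ
  rintro g ⟨b, hb, h⟩
  refine ⟨b, ?_, h x₀ hx₀⟩
  have hm0 : (0 : ℝ) < (m : ℝ) + 1 := by positivity
  have h1 : 1 < b * (m + 1) := by rwa [div_lt_iff₀ hm0] at hb
  have hb0 : 0 < b := lt_trans (by positivity) hb
  have h2 : ((d : ℝ) + 1) * (m + 1) ≤ N := by exact_mod_cast hN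
  have hd : (0 : ℝ) < (d : ℝ) + 1 := by positivity
  nlinarith [mul_le_mul_of_nonneg_left h2 hb0.le, mul_lt_mul_of_pos_left h1 hd, mul_pos hb0 hd]

end Pool.Agent.HSF
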