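import Pool.Agent.TF.GamGR
import Pool.Agent.HSF.Dual
import Pool.Agent.HSF.N2

/-! Row M2 (helper70): the group data for all primes. -/

set_option autoImplicit false

namespace Pool.Agent.HSF

/-- **Group data, all primes.** -/
theorem exists_GR {p N D r : ℕ} [Fact p.Prime] (hN : D < N) (hpN : ¬ p ∣ N + 1)
    (hr : r + 1 = (N + 1) ^ 2) : ∃ (κ₀ : ℕ) (k : Type) (_ : CommRing k) (w : Fin (D + 1) → (Fin r → k)),
      ∀ κ, κ₀ ≤ κ → Nonempty (GR (Gam (N + 1) p κ) p r D k w) := by
  obtain ⟨s, hs, k, i1, i2, w, hfac, hdual⟩ := exists_kw p r D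
  have h4 : 4 ≤ (N + 1) ^ 2 := by nlinarith
  have hk : (p : k) ^ s = 0 := by
    have h1 : ((p : ZMod (p ^ s)) ^ s) = 0 := by
      have h2 := ZMod.natCast_self (p ^ s)
      push_cast at h2
      exact h2
    have h3 := congrArg (algebraMap (ZMod (p ^ s)) k) h1
    rwa [map_pow, map_natCast, map_zero] at h3
  refine ⟨s + 2, k, i1, w, fun κ hκ => ?_⟩
  refine Pool.Agent.TF.exists_GR_of hs (by omega) (by omega) hN hpN hr hfac hdual ?_
  intro e he he' M c lam hper hinv hd
  exact nv_int2 (M := M) hk (by omega) (fun _ => by omega) (by omega) e he he' c lam hper hinv hd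

end Pool.Agent.HSF
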