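import Pool.Agent.HSF.Defs4
import Pool.Agent.HSF.Basic

/-!
# Transport of group data along an isomorphism, version for all primes
-/

set_option autoImplicit false
set_option linter.unusedVariables false

open Set Topology

namespace Pool.Agent.HSF

/-- group data are transported by isomorphisms of topological groups -/
noncomputable def GR.trans {G H : Type*} [Group G] [TopologicalSpace G] [Group H]
    [TopologicalSpace H] {p r D : ℕ} {k : Type*} [CommRing k] {w : Fin (D + 1) → (Fin r → k)}
    (E : GR G p r D k w)
    (e : G ≃* H) (he : Continuous e) (he' : Continuous e.symm) : GR H p r D k w where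
  χ h := E.χ (e.symm h)
  χmul g h := by rw [map_mul, E.χmul]
  G₂ := E.G₂.comap e.symm.toMonoidHom
  normal := by
    have := E.normal
    infer_instance
  isOpen := E.isOpen.preimage he'
  ker g hg := E.ker _ hg
  dual K hK hG := by
    have h1 : IsClosed ((K.comap e.toMonoidHom : Subgroup G) : Set G) := hK.preimage he
    obtain ⟨Ξ, h2, h3⟩ := E.dual _ h1 (fun h => hG (by
      intro x hx
      have h4 : e (e.symm x) ∈ K := h (show e.symm x ∈ E.G₂ from hx)
      rwa [e.apply_symm_apply] at h4))
    refine ⟨Ξ, fun c h hh => h2 c _ ?_, h3⟩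
    change e (e.symm h) ∈ K
    rw [e.apply_symm_apply]
    exact hh
  fin K hK hne := by
    have h1 : IsClosed ((K.comap e.toMonoidHom : Subgroup G) : Set G) := hK.preimage he
    obtain ⟨η, h2, h3, h4, g, hg⟩ := E.fin _ h1 (fun h => hne (by
      rw [eq_top_iff]
      intro x _
      have h4 : e.symm x ∈ K.comap e.toMonoidHom := by rw [h]; trivial
      have h5 : e (e.symm x) ∈ K := h4
      rwa [e.apply_symm_apply] at h5))
    refine ⟨fun h => η (e.symm h), fun a b => ?_, fun h hh => h3 _ ?_,
      fun h hh => h4 _ hh, e g, ?_⟩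
    · change η (e.symm (a * b)) = η (e.symm a) + η (e.symm b)
      rw [map_mul, h2]
    swap
    · change η (e.symm (e g)) ≠ 0
      rw [e.symm_apply_apply]
      exact hg
    change e (e.symm h) ∈ K
    rw [e.apply_symm_apply]
    exact hh
  basis V hV := by
    have h1 : e ⁻¹' V ∈ 𝓝 (1 : G) := by
      apply he.continuousAt.preimage_mem_nhds
      rw [map_one]
      exact hV
    obtain ⟨N, hN1, hN2, hN3, hN4⟩ := E.basis _ h1
    refine ⟨N.comap e.symm.toMonoidHom, hN1.comap _, hN2.preimage he', ?_, fun h hh => hN4 hh⟩
    intro h hh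
    have h2 : e.symm h ∈ e ⁻¹' V := hN3 hh
    rwa [mem_preimage, e.apply_symm_apply] at h2
  nv N hN1 hN2 hN3 c lam h1 h2 h3 := by
    refine E.nv (N.comap e.toMonoidHom) (hN1.comap _) (hN2.preimage he) ?_
      (fun l => c (l.map e)) lam ?_ ?_ ?_
    · intro g hg
      have h4 : e.symm (e g) ∈ E.G₂ := hN3 (show e g ∈ N from hg)
      rwa [e.symm_apply_apply] at h4
    · intro l l' hl
      apply h1
      rw [List.forall₂_map_left_iff, List.forall₂_map_right_iff]
      refine hl.imp fun g h hgh => ?_
      have h4 : e (g⁻¹ * h) ∈ N := hgh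
      rwa [map_mul, map_inv] at h4
    · intro g l hl
      have h4 := h2 (e g) (l.map e) (by rw [List.length_map, hl])
      rw [← h4, List.map_map, List.map_map]
      congr 2
      funext x
      simp
    · intro l hl
      rw [dl_map e c, h3 _ (by rw [List.length_map, hl]), List.map_map]
      congr 3
      funext x
      simp
  fac := E.fac

end Pool.Agent.HSF
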