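import Pool.Agent.HSF.FinAbs
import Pool.Agent.HSF.Trans2
import Pool.Agent.HSF.M2

/-!
# Theorem F for all primes
-/

set_option autoImplicit false
set_option linter.unusedVariables false

open Set Topology Metric Matrix

namespace Pool.Agent.HSF
open Pool.Agent.Helper3.HS Pool.Agent.HS3

theorem smallGR_Gam {N D p κ₀ : ℕ} [Fact p.Prime] (hN : D < N) (hp : ¬ p ∣ N + 1) :
    SmallGR (Gam (N + 1) p κ₀) p D := by
  intro V hV
  have h4 : 2 ^ 2 ≤ (N + 1) ^ 2 := Nat.pow_le_pow_left (by omega) 2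
  have hr : (N + 1) ^ 2 - 1 + 1 = (N + 1) ^ 2 := by omega
  obtain ⟨κ₁, k, i, w, hE⟩ := exists_GR (D := D) hN hp hr
  obtain ⟨V₂, hV₂, hV₂s⟩ := mem_nhds_subtype _ _ _ |>.1 hV
  obtain ⟨κ, hκ2, hκ⟩ := Pool.Agent.TF.exists_Gam_subset hV₂ (max κ₁ κ₀)
  have hκκ₀ : Gam (N + 1) p κ ≤ Gam (N + 1) p κ₀ := Gam_mono ((le_max_right _ _).trans hκ2)
  have hHcl : IsClopen (((Gam (N + 1) p κ).subgroupOf (Gam (N + 1) p κ₀) :
      Subgroup (Gam (N + 1) p κ₀)) : Set (Gam (N + 1) p κ₀)) :=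
    (Pool.Agent.TF.isClopen_Gam κ).preimage continuous_subtype_val
  refine ⟨(Gam (N + 1) p κ).subgroupOf (Gam (N + 1) p κ₀), hHcl.isOpen,
    isCompact_iff_compactSpace.1 hHcl.isClosed.isCompact, fun g hg => hV₂s (hκ ?_),
    (N + 1) ^ 2 - 1, k, i, w, by omega, ?_⟩
  · exact Subgroup.mem_subgroupOf.1 hg
  · obtain ⟨E₀⟩ := hE κ ((le_max_left _ _).trans hκ2)
    exact ⟨E₀.trans (Subgroup.subgroupOfEquivOfLe hκκ₀).symm
      (Continuous.subtype_mk (Continuous.subtype_mk continuous_subtype_val _) _)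
      (Continuous.subtype_mk (continuous_subtype_val.comp continuous_subtype_val) _)⟩

theorem pro_Gam {N p κ₀ : ℕ} [Fact p.Prime] : ∃ U ∈ 𝓝 (1 : Gam N p κ₀), ∀ g ∈ U,
    ∀ V ∈ 𝓝 (1 : Gam N p κ₀), ∃ m : ℕ, g ^ p ^ m ∈ V := by
  refine ⟨{g | (g : SpecialLinearGroup (Fin N) ℤ_[p]) ∈ Gam N p 1}, ?_, ?_⟩
  · have h1 : IsOpen {g : Gam N p κ₀ | (g : SpecialLinearGroup (Fin N) ℤ_[p]) ∈ Gam N p 1} :=
      (Pool.Agent.TF.isClopen_Gam 1).isOpen.preimage continuous_subtype_val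
    exact h1.mem_nhds (Subgroup.one_mem (Gam N p 1))
  · intro g hg V hV
    obtain ⟨V₂, hV₂, hV₂s⟩ := mem_nhds_subtype _ _ _ |>.1 hV
    obtain ⟨κ, -, hκ⟩ := Pool.Agent.TF.exists_Gam_subset hV₂ 0
    refine ⟨κ, hV₂s (hκ ?_)⟩
    have h1 := pow_mem_Gam le_rfl (show (g : SpecialLinearGroup (Fin N) ℤ_[p]) ∈ Gam N p 1 from hg) κ
    rw [SetLike.mem_coe, Subgroup.coe_pow]
    exact Gam_mono (Nat.le_add_left _ _) h1

theorem final_all {d N p κ₀ : ℕ} [Fact p.Prime] (hN : 1 ≤ N) (hp : ¬ p ∣ N + 1)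
    {X : Type*} [MetricSpace X] {G : Type*} [Group G] [TopologicalSpace G]
    [IsTopologicalGroup G] [MulAction G X] [ContinuousSMul G X] {R : Set X}
    (hRo : IsOpen R) (hRd : Dense R) (hRc : IsPreconnected R) (hR : R ⊆ regPts (d + 1) X)
    (hH : ∀ x₀ ∈ R, ¬ IsMeagre {g : G | ∃ b : ℝ, (d + 1 : ℝ) < b * (d + 1 + N) ∧
      HolderNear b (fun x : X => g • x) x₀})
    (θ : Gam (N + 1) p κ₀ →* G) (hθ : Continuous θ) :
    ∃ κ : ℕ, ∀ a : Gam (N + 1) p κ₀, (a : SpecialLinearGroup (Fin (N + 1)) ℤ_[p]) ∈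
      Gam (N + 1) p κ → ∀ x : X, θ a • x = x := by
  obtain ⟨H, hHo, hH⟩ := final_abs (d := d) (D := N - 1) hRo hRd hRc hR pro_Gam
    (smallGR_Gam (κ₀ := κ₀) (by omega) hp) (fun x₀ hx₀ => by
      refine fun h => hH x₀ hx₀ (h.mono ?_)
      rintro g ⟨b, hb, V, hV, C, hC⟩
      refine ⟨V, hV, b, C, ?_, hC⟩
      have h1 : ((N - 1 : ℕ) : ℝ) + 1 = N := by
        have h2 : N - 1 + 1 = N := by omega
        exact_mod_cast h2
      have h3 : (d : ℝ) + 1 + ((N - 1 : ℕ) : ℝ) + 1 = d + 1 + N := by rw [← h1]; ring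
      rw [h3]
      exact hb) θ hθ
  obtain ⟨V₂, hV₂, hV₂s⟩ := mem_nhds_subtype _ _ _ |>.1 (hHo.mem_nhds H.one_mem)
  obtain ⟨κ, -, hκ⟩ := Pool.Agent.TF.exists_Gam_subset hV₂ 0
  exact ⟨κ, fun a ha x => hH a (hV₂s (hκ ha)) x⟩

end Pool.Agent.HSF
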