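import Pool.Agent.HSF.Top2
import Pool.Agent.HSF.Defs2
import Pool.Agent.Helper34.TF.NV

/-! Row N (helper34): nonvanishing of the top class. -/

set_option autoImplicit false
set_option linter.unusedVariables false

namespace Pool.Agent.HSF

theorem nv_int {p N κ M r : ℕ} [Fact p.Prime] {k : Type*} [Field k] [Algebra (ZMod p) k]
    (hr1 : 1 ≤ r) (hrp : r < p) (hp : 3 ≤ p) (hκ : 1 ≤ κ)
    (e : Fin r → Fin (N + 1) × Fin (N + 1)) (he : Function.Injective e)
    (he' : ∀ ij, (∃ a, e a = ij) ↔ ij ≠ (Fin.last N, Fin.last N))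
    (c : List (Matrix (Fin (N + 1)) (Fin (N + 1)) ℤ) → k) (lam : k)
    (hper : ∀ l l' : List (Matrix (Fin (N + 1)) (Fin (N + 1)) ℤ),
      List.Forall₂ (fun x y => ∀ i j, (p : ℤ) ^ M ∣ x i j - y i j) l l' → c l = c l')
    (hinv : ∀ (a : Matrix (Fin (N + 1)) (Fin (N + 1)) ℤ) l, l.length = r →
      c (l.map fun x => a + x + (p : ℤ) ^ κ • (a * x)) = c l)
    (hd : ∀ l : List (Matrix (Fin (N + 1)) (Fin (N + 1)) ℤ), l.length = r + 1 →
      dl c l = lam * vol r (l.map fun x a => ((redm x (e a) : ℤ) : k))) : lam = 0 :=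
  Pool.Agent.Helper34.TF.nv_int hr1 hrp hp hκ e he he' c lam hper hinv hd

end Pool.Agent.HSF
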