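import Pool.Agent.TF.GamGD
import Pool.Agent.HSF.N

/-! Row M (helper70): the group data of the congruence subgroups of `SL_(N+1)(ℤ_p)`. -/

set_option autoImplicit false

namespace Pool.Agent.HSF

theorem exists_GD {p N κ D r : ℕ} [Fact p.Prime] (hκ : 2 ≤ κ) (hN : D < N)
    (hp : (N + 1) ^ 2 < p) (hr : r + 1 = (N + 1) ^ 2) (k : Type*) [Field k] [Algebra (ZMod p) k] :
    Nonempty (GD (Gam (N + 1) p κ) p r D k) := by
  have h4 : 4 ≤ (N + 1) ^ 2 := by nlinarith
  have hpN : ¬ p ∣ N + 1 := by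
    intro h
    have h1 := Nat.le_of_dvd (Nat.succ_pos N) h
    nlinarith
  refine Pool.Agent.TF.exists_GD_of hκ hN hpN hr k ?_
  intro e he he' M c lam hper hinv hd
  exact nv_int (M := M) (by omega) (by omega) (by omega) (by omega) e he he' c lam hper hinv hd

end Pool.Agent.HSF
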