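import Pool.Agent.HSF.Defs3
import Pool.Agent.HSF.Bricks

/-!
# The space of orbits of a small normal subgroup; bricks on it
-/

set_option autoImplicit false
set_option linter.unusedVariables false
set_option linter.unusedSectionVars false

open Set Topology Metric

namespace Pool.Agent.HSF

section orb
variable {n : ℕ} {G : Type*} [Group G] [TopologicalSpace G] (L : LG n G) (N : Subgroup G)

/-- same orbit under `N` -/
def orbS : Setoid L.U where
  r u v := ∃ a ∈ N, L.g a u = v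
  iseqv := by
    refine ⟨fun u => ⟨1, N.one_mem, L.hg1 u u.2⟩, ?_, ?_⟩
    · rintro u v ⟨a, ha, h⟩
      refine ⟨a⁻¹, N.inv_mem ha, ?_⟩
      rw [← h, ← L.hgm _ _ _ u.2, inv_mul_cancel, L.hg1 _ u.2]
    · rintro u v w ⟨a, ha, h⟩ ⟨b, hb, h'⟩
      exact ⟨b * a, N.mul_mem hb ha, by rw [L.hgm _ _ _ u.2, h, h']⟩

/-- the space of orbits -/
def OX : Type := Quotient (orbS L N)

/-- class of a point -/
noncomputable def ocl (u : Fin n → ℝ) : OX L N := by
  classical
  exact if h : u ∈ L.U then Quotient.mk (orbS L N) ⟨u, h⟩ else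
    Quotient.mk (orbS L N) ⟨L.c, L.hball (mem_closedBall_self (by have := L.hs; positivity))⟩

theorem ocl_of {u : Fin n → ℝ} (h : u ∈ L.U) : ocl L N u = Quotient.mk (orbS L N) ⟨u, h⟩ := by
  unfold ocl
  exact dif_pos h

/-- a representative -/
noncomputable def orep (x : OX L N) : Fin n → ℝ := (Quotient.out x : L.U)

theorem orep_mem (x : OX L N) : orep L N x ∈ L.U := (Quotient.out x : L.U).2

theorem ocl_orep (x : OX L N) : ocl L N (orep L N x) = x := by
  rw [ocl_of L N (orep_mem L N x)]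
  exact Quotient.out_eq x

theorem ocl_eq {u v : Fin n → ℝ} (hu : u ∈ L.U) (hv : v ∈ L.U) :
    ocl L N u = ocl L N v ↔ ∃ a ∈ N, L.g a u = v := by
  rw [ocl_of L N hu, ocl_of L N hv]
  exact Quotient.eq (r := orbS L N)

theorem orep_ocl {u : Fin n → ℝ} (hu : u ∈ L.U) : ∃ a ∈ N, L.g a u = orep L N (ocl L N u) :=
  (ocl_eq L N hu (orep_mem L N _)).1 (ocl_orep L N _).symm

instance : Nonempty (OX L N) := ⟨ocl L N L.c⟩

/-- closeness of orbits -/
def Rr (ε : ℝ) (x y : OX L N) : Prop := ∃ u ∈ L.U, ∃ v ∈ L.U, ocl L N u = x ∧ ocl L N v = y ∧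
  ∀ a, dist (L.g a u) (L.g a v) < ε

variable {L N}

theorem Rr.symm {ε : ℝ} {x y : OX L N} (h : Rr L N ε x y) : Rr L N ε y x := by
  obtain ⟨u, hu, v, hv, h1, h2, h3⟩ := h
  exact ⟨v, hv, u, hu, h2, h1, fun a => by rw [dist_comm]; exact h3 a⟩

theorem Rr.mono {ε ε' : ℝ} (he : ε ≤ ε') {x y : OX L N} (h : Rr L N ε x y) : Rr L N ε' x y := by
  obtain ⟨u, hu, v, hv, h1, h2, h3⟩ := h
  exact ⟨u, hu, v, hv, h1, h2, fun a => (h3 a).trans_le he⟩

/-- all representatives: for `u` in the first orbit there is `v` in the second one -/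
theorem Rr.exists {ε : ℝ} {x y : OX L N} (h : Rr L N ε x y) {u : Fin n → ℝ} (hu : u ∈ L.U)
    (hx : ocl L N u = x) : ∃ v ∈ L.U, ocl L N v = y ∧ ∀ a, dist (L.g a u) (L.g a v) < ε := by
  obtain ⟨u', hu', v, hv, h1, h2, h3⟩ := h
  obtain ⟨b, hb, hbu⟩ := (ocl_eq L N hu' hu).1 (h1.trans hx.symm)
  refine ⟨L.g b v, L.hgU b v hv, ?_, fun a => ?_⟩
  · rw [← h2]
    exact ((ocl_eq L N hv (L.hgU b v hv)).2 ⟨b, hb, rfl⟩).symm
  · rw [← hbu, ← L.hgm _ _ _ hu', ← L.hgm _ _ _ hv]
    exact h3 _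

theorem Rr.trans {ε ε' : ℝ} {x y z : OX L N} (h : Rr L N ε x y) (h' : Rr L N ε' y z) :
    Rr L N (ε + ε') x z := by
  obtain ⟨u, hu, v, hv, h1, h2, h3⟩ := h
  obtain ⟨w, hw, h4, h5⟩ := h'.exists hv h2
  exact ⟨u, hu, w, hw, h1, h4, fun a => (dist_triangle _ _ _).trans_lt (add_lt_add (h3 a) (h5 a))⟩

theorem Rr.dist_rep {ε τ : ℝ} (hN : ∀ a ∈ N, ∀ u ∈ L.U, dist (L.g a u) u < τ) {x y : OX L N}
    (h : Rr L N ε x y) : dist (orep L N x) (orep L N y) < ε + 2 * τ := by
  obtain ⟨u, hu, v, hv, h1, h2, h3⟩ := h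
  obtain ⟨a, ha, hau⟩ := orep_ocl L N hu
  obtain ⟨b, hb, hbv⟩ := orep_ocl L N hv
  rw [h1] at hau
  rw [h2] at hbv
  have h4 := hN a ha u hu
  have h5 := hN b hb v hv
  have h6 := h3 1
  rw [L.hg1 u hu, L.hg1 v hv] at h6
  rw [hau] at h4
  rw [hbv] at h5
  calc dist (orep L N x) (orep L N y) ≤ dist (orep L N x) u + dist u v + dist v (orep L N y) :=
        dist_triangle4 _ _ _ _
    _ < τ + ε + τ := by
        rw [dist_comm v]
        exact add_lt_add (add_lt_add h4 h6) h5
    _ = ε + 2 * τ := by ring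

end orb

section unif
variable {n : ℕ} {G : Type*} [Group G] [TopologicalSpace G] [CompactSpace G] (L : LG n G)

/-- equicontinuity -/
theorem LG.equi {ε : ℝ} (hε : 0 < ε) : ∃ δ > 0, ∀ u ∈ closedBall L.c L.s,
    ∀ v ∈ closedBall L.c L.s, dist u v < δ → ∀ a, dist (L.g a u) (L.g a v) < ε := by
  have hK : IsCompact (closedBall L.c L.s) := isCompact_closedBall _ _
  set S : Set (G × ((Fin n → ℝ) × (Fin n → ℝ))) :=
    (univ ×ˢ (closedBall L.c L.s ×ˢ closedBall L.c L.s)) ∩
      {q | ε ≤ dist (L.g q.1 q.2.1) (L.g q.1 q.2.2)} with hS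
  have hc1 : Continuous fun q : G × ((Fin n → ℝ) × (Fin n → ℝ)) => L.g q.1 q.2.1 :=
    L.hg.comp (continuous_fst.prodMk (continuous_fst.comp continuous_snd))
  have hc2 : Continuous fun q : G × ((Fin n → ℝ) × (Fin n → ℝ)) => L.g q.1 q.2.2 :=
    L.hg.comp (continuous_fst.prodMk (continuous_snd.comp continuous_snd))
  have hSc : IsCompact S := (isCompact_univ.prod (hK.prod hK)).inter_right
    (isClosed_le continuous_const (hc1.dist hc2))
  rcases S.eq_empty_or_nonempty with h0 | h0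
  · refine ⟨1, one_pos, fun u hu v hv _ a => ?_⟩
    by_contra hcon
    have : (a, (u, v)) ∈ S := ⟨⟨trivial, hu, hv⟩, not_lt.1 hcon⟩
    rw [h0] at this
    exact this
  · obtain ⟨q, hq, hmin⟩ := hSc.exists_isMinOn h0
      (f := fun q : G × ((Fin n → ℝ) × (Fin n → ℝ)) => dist q.2.1 q.2.2)
      ((continuous_fst.comp continuous_snd).dist
        (continuous_snd.comp continuous_snd)).continuousOn
    refine ⟨dist q.2.1 q.2.2, ?_, fun u hu v hv huv a => ?_⟩
    · rcases (dist_nonneg (x := q.2.1) (y := q.2.2)).lt_or_eq with h | h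
      · exact h
      · exfalso
        have h1 : q.2.1 = q.2.2 := dist_eq_zero.1 h.symm
        have h2 : ε ≤ dist (L.g q.1 q.2.1) (L.g q.1 q.2.2) := hq.2
        rw [h1, dist_self] at h2
        exact absurd h2 (not_le.2 hε)
    · by_contra hcon
      have h3 : (a, (u, v)) ∈ S := ⟨⟨trivial, hu, hv⟩, not_lt.1 hcon⟩
      exact absurd (hmin h3) (not_le.2 huv)

/-- small displacement near `1` -/
theorem LG.small {τ : ℝ} (hτ : 0 < τ) : ∃ V ∈ 𝓝 (1 : G), ∀ a ∈ V, ∀ u ∈ L.U,
    dist (L.g a u) u < τ := by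
  have hK : IsCompact (closure L.U) := (isCompact_closedBall L.c L.s).of_isClosed_subset
    isClosed_closure (closure_minimal L.hUc isClosed_closedBall)
  have h1 : ∀ u ∈ closure L.U, L.g 1 u = u := by
    have hcl : IsClosed {u | L.g 1 u = u} := isClosed_eq
      (L.hg.comp (continuous_const.prodMk continuous_id)) continuous_id
    exact fun u hu => closure_minimal (fun u hu => L.hg1 u hu) hcl hu
  have ho : IsOpen {q : G × (Fin n → ℝ) | dist (L.g q.1 q.2) q.2 < τ} :=
    isOpen_lt (L.hg.dist continuous_snd) continuous_const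
  obtain ⟨V, W, hV, hW, h1V, hKW, hVW⟩ := generalized_tube_lemma (isCompact_singleton (x := (1 : G)))
    hK ho (by
      rintro ⟨a, u⟩ ⟨ha, hu⟩
      rw [mem_singleton_iff] at ha
      simp only at ha hu
      subst ha
      change dist (L.g 1 u) u < τ
      rw [h1 u hu, dist_self]
      exact hτ)
  exact ⟨V, hV.mem_nhds (h1V rfl), fun a ha u hu => hVW (mk_mem_prod ha (hKW (subset_closure hu)))⟩

end unif

section level
variable {n : ℕ} {G : Type*} [Group G] [TopologicalSpace G] [CompactSpace G] (L : LG n G)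

/-- one scale -/
theorem exists_level {ε' : ℝ} (hε' : 0 < ε') : ∃ ε, 0 < ε ∧ ε ≤ ε' ∧ ∃ τ, 0 < τ ∧
    ∀ N : Subgroup G, (∀ a ∈ N, ∀ u ∈ L.U, dist (L.g a u) u < τ) →
    ∃ (i : OX L N → ℕ) (c : ℕ → OX L N),
      (∀ x y, Rr L N ε x y → Rr L N ε' x (c (i y)) ∧ Rr L N ε' (c (i x)) (c (i y))) ∧
      ∀ l : List (OX L N), Sm (Rr L N ε) l → n + 2 ≤ l.length → ¬ (l.map i).Nodup := by
  classical
  obtain ⟨δ, hδ, hδ'⟩ := L.equi (ε := ε' / 3) (by positivity)
  obtain ⟨col, fl, hcf, hfc⟩ := exists_bricks n hδ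
  set lam : ℝ := δ / (4 * (n + 1)) with hlam
  have hlam0 : 0 < lam := by positivity
  refine ⟨min (ε' / 3) (lam / 2), by positivity, (min_le_left _ _).trans (by linarith), lam / 4,
    by positivity, fun N hN => ?_⟩
  obtain ⟨en, hen⟩ := exists_injective_nat (Fin (n + 1) × (Fin n → ℤ))
  set i : OX L N → ℕ := fun x => en (col (orep L N x), fl (orep L N x)) with hi
  set c : ℕ → OX L N := fun b => if h : ∃ x, i x = b then h.choose else ocl L N L.c with hc
  have hic : ∀ x, i (c (i x)) = i x := by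
    intro x
    have h : ∃ z, i z = i x := ⟨x, rfl⟩
    have : c (i x) = h.choose := dif_pos h
    rw [this]
    exact h.choose_spec
  have hclose : ∀ x y : OX L N, i x = i y → Rr L N (ε' / 3) x y := by
    intro x y hxy
    have h1 := hen hxy
    have h2 : col (orep L N x) = col (orep L N y) := congrArg Prod.fst h1
    have h3 : fl (orep L N x) = fl (orep L N y) := congrArg Prod.snd h1
    have h4 := hfc _ _ h2 h3
    exact ⟨orep L N x, orep_mem L N x, orep L N y, orep_mem L N y, ocl_orep L N x, ocl_orep L N y,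
      hδ' _ (L.hUc (orep_mem L N x)) _ (L.hUc (orep_mem L N y)) h4⟩
  refine ⟨i, c, fun x y hxy => ⟨?_, ?_⟩, fun l hl hn hnd => ?_⟩
  · refine (hxy.trans (hclose _ _ (hic y).symm)).mono ?_
    linarith [min_le_left (ε' / 3) (lam / 2)]
  · refine (((hclose _ _ (hic x)).trans hxy).trans (hclose _ _ (hic y).symm)).mono ?_
    linarith [min_le_left (ε' / 3) (lam / 2)]
  · have h1 : (l.map fun x => col (orep L N x)).Nodup := by
      refine List.Nodup.map_on ?_ (List.Nodup.of_map i hnd)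
      intro x hx y hy hxy
      refine List.inj_on_of_nodup_map hnd hx hy ?_
      have h3 := (hl x hx y hy).dist_rep hN
      have h4 : dist (orep L N x) (orep L N y) < lam := by
        refine h3.trans_le ?_
        linarith [min_le_right (ε' / 3) (lam / 2)]
      have h5 := hcf _ _ h4 hxy
      simp only [hi]
      rw [hxy, h5]
    have h2 := h1.length_le_card
    rw [List.length_map, Fintype.card_fin] at h2
    omega

end level

end Pool.Agent.HSF
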