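import Pool.Agent.HSF.Defs3
import Pool.Agent.Helper83.TF.GMul

/-!
# Moving off a value on compact sets of finite type with empty interior
-/

set_option autoImplicit false
set_option linter.unusedVariables false

open Set Topology Metric MeasureTheory

namespace Pool.Agent.HSF

open Pool.Agent.Helper83.TF

variable {n : ℕ} {G : Type*} [Group G] [TopologicalSpace G]

/-- The chart action as a structure `GM`. -/
def LG.toGM (L : LG n G) : GM G (Fin n → ℝ) where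
  U := L.U
  g := L.g
  hU := L.hU
  hUb := isBounded_closedBall.subset L.hUc
  hg := fun a => L.hg.comp (Continuous.prodMk_right a)
  hgj := L.hg.continuousOn
  hgU := L.hgU
  hg1 := L.hg1
  hgmul := L.hgm

/-- All continuous maps can be perturbed off `y` by invariant maps on a compact set with empty
interior, if the points of this set are fixed by an open subgroup. -/
theorem exists_perturb [IsTopologicalGroup G] [CompactSpace G] (L : LG n G) {G₂ : Subgroup G}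
    (ho : IsOpen (G₂ : Set G)) {Z : Set (Fin n → ℝ)} (hZ : IsCompact Z) (hZU : Z ⊆ L.U)
    (hZi : interior Z = ∅) (hfin : ∀ a ∈ G₂, ∀ z ∈ Z, L.g a z = z)
    {F : (Fin n → ℝ) → (Fin n → ℝ)} (hF : ContinuousOn F (closure L.U)) (y : Fin n → ℝ) {ε : ℝ}
    (hε : 0 < ε) :
    ∃ ψ : (Fin n → ℝ) → (Fin n → ℝ), Continuous ψ ∧ (∀ a, ∀ u ∈ L.U, ψ (L.g a u) = ψ u) ∧
      (∀ x, ‖ψ x‖ ≤ ε) ∧ ∀ z ∈ Z, F z + ψ z ≠ y :=
  mvM_fin L.toGM y ho hZ hZU hZi (fun x hx a ha => hfin a ha x hx) F hF ε hε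

theorem fin_mod2 [IsTopologicalGroup G] [CompactSpace G] (L : LG n G) {G₂ : Subgroup G}
    (hn : G₂.Normal) (ho : IsOpen (G₂ : Set G))
    {Z : Set (Fin n → ℝ)} (hZ : IsCompact Z) (hZU : Z ⊆ L.U) (hZi : interior Z = ∅)
    (hfin : ∀ a ∈ G₂, ∀ z ∈ Z, L.g a z = z)
    {F : (Fin n → ℝ) → (Fin n → ℝ)} (hF : Continuous F)
    (hFg : ∀ a, ∀ u ∈ L.U, F (L.g a u) = F u) (y : Fin n → ℝ) {ε : ℝ} (hε : 0 < ε) :
    ∃ F' : (Fin n → ℝ) → (Fin n → ℝ), Continuous F' ∧ (∀ a, ∀ u ∈ L.U, F' (L.g a u) = F' u) ∧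
      (∀ x, dist (F' x) (F x) ≤ ε) ∧ ∀ z ∈ Z, F' z ≠ y := by
  obtain ⟨ψ, h1, h2, h3, h4⟩ := exists_perturb L ho hZ hZU hZi hfin hF.continuousOn y hε
  refine ⟨fun x => F x + ψ x, hF.add h1, ?_, ?_, h4⟩
  · intro a u hu
    simp only
    rw [hFg a u hu, h2 a u hu]
  · intro x
    rw [dist_self_add_left]
    exact h3 x

end Pool.Agent.HSF
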