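import Pool.Agent.Helper34.TF.Perf2

/-! Sharp commutator lemma for matrices of size `N + 1` (helper34). -/

set_option autoImplicit false

open Matrix Module

namespace Pool.Agent.HSF

theorem comm_span' {F : Type*} [Field F] {N D : ℕ} (hN : ((N + 1 : ℕ) : F) ≠ 0) (hD : D < N)
    (V : Submodule F (Matrix (Fin (N + 1)) (Fin (N + 1)) F))
    (hV : (N + 1) * (N + 1) ≤ finrank F V + D) :
    Submodule.span F ({Z | ∃ X ∈ V, ∃ Y ∈ V, Z = X * Y - Y * X} ∪ {1}) = ⊤ :=
  Pool.Agent.Helper34.TF.perf2 hN (by omega) V hV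

end Pool.Agent.HSF
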