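import Pool.Agent.HSF.Brick

set_option autoImplicit false
set_option linter.unusedVariables false
set_option linter.unusedSectionVars false

namespace Pool.Agent.HSF

variable {X Y Z k M B Q A : Type*}

section cup
variable [CommRing k]

theorem dl_mul_left (r : k) (f : List X → k) (l : List X) : dl (fun t => r * f t) l = r * dl f l :=
  dl_hom (AddMonoidHom.mulLeft r) f l

theorem dl_mul_right (r : k) (f : List X → k) (l : List X) : dl (fun t => f t * r) l = dl f l * r :=
  dl_hom (AddMonoidHom.mulRight r) f l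

/-- Leibniz rule -/
theorem dl_cup : ∀ (n : ℕ) (f g : List X → k) (z : List X), n + 2 ≤ z.length →
    dl (cup n f g) z = cup (n + 1) (dl f) g z + (-1) ^ n * cup n f (dl g) z := by
  intro n
  induction n with
  | zero =>
    intro f g z hz
    match z, hz with
    | a :: b :: l, _ =>
      have h1 : (fun t : List X => cup 0 f g (a :: t)) = fun t => f [a] * g (a :: t) := rfl
      rw [dl_cons, h1, dl_mul_left]
      simp only [cup, List.take, List.drop, dl_cons, dl_nil, pow_zero, sub_zero, one_mul]
      ring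
  | succ n ih =>
    intro f g z hz
    match z, hz with
    | a :: z, hz =>
      have hz' : n + 2 ≤ z.length := by simpa using hz
      have h1 : (fun t : List X => cup (n + 1) f g (a :: t)) = cup n (fun t => f (a :: t)) g := rfl
      have h2 : cup (n + 1) f (dl g) (a :: z) = cup n (fun t => f (a :: t)) (dl g) z := rfl
      have h3 : cup (n + 1 + 1) (dl f) g (a :: z) = cup (n + 1) f g z -
          cup (n + 1) (dl fun t => f (a :: t)) g z := by
        show dl f (a :: z.take (n + 1 + 1)) * g (z.drop (n + 1)) = _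
        rw [dl_cons, sub_mul]; rfl
      rw [dl_cons, h1, ih _ _ z hz', h2, h3, pow_succ]
      ring

end cup

section equi
variable [Group Q] [MulAction Q X] [AddCommGroup M]

/-- equivariance of a double cochain -/
def Eqv (F : List Q → List X → M) : Prop :=
  ∀ (g : Q) (a : List Q) (z : List X), F (a.map (g * ·)) (z.map (g • ·)) = F a z

theorem dl_eqv {F : List Q → List X → M} (hF : Eqv F) : Eqv (fun a z => dl F a z) := by
  intro g a z
  have key : ∀ (F : List Q → List X → M) (a : List Q) (z : List X), dl F a z = dl (fun b => F b z) a := by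
    intro F a z
    induction a generalizing F with
    | nil => rfl
    | cons b a ih =>
      rw [dl_cons, dl_cons]
      show F a z - dl (fun t => F (b :: t)) a z = _
      rw [ih]
  show dl F (a.map (g * ·)) (z.map (g • ·)) = dl F a z
  rw [key, key, ← dl_map]
  congr 1
  funext b
  exact hF g b z

theorem dl_apply (F : List Q → List X → M) (a : List Q) (z : List X) :
    dl F a z = dl (fun b => F b z) a := by
  induction a generalizing F with
  | nil => rfl
  | cons b a ih =>
    rw [dl_cons, dl_cons]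
    show F a z - dl (fun t => F (b :: t)) a z = _
    rw [ih]

end equi

/-- Scales: relations `R s`, brick maps, supports `K s`. `R s` gets coarser and `K s` smaller
with `s`. -/
structure Scales (Q X B : Type*) [Group Q] [MulAction Q X] [LinearOrder B] (n : ℕ) where
  R : ℕ → X → X → Prop
  K : ℕ → Set X
  i : ℕ → X → B
  c : ℕ → B → X
  symm : ∀ s x y, R s x y → R s y x
  inv : ∀ s (g : Q) x y, R s x y → R s (g • x) (g • y)
  Kinv : ∀ s (g : Q) x, x ∈ K s → g • x ∈ K s
  mono : ∀ s x y, R s x y → R (s + 1) x y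
  step : ∀ s x y, R s x y → R (s + 1) x (c s (i s y)) ∧ R (s + 1) (c s (i s x)) (c s (i s y))
  brick : ∀ s (l : List X), Sm (R s) l → n + 2 ≤ l.length → ¬ (l.map (i s)).Nodup
  supp : ∀ s x y, x ∈ K (s + 1) → R (s + 1) x y → y ∈ K s
  Kmono : ∀ s, K (s + 1) ⊆ K s

section step
variable [Group Q] [MulAction Q X] [LinearOrder B] {n : ℕ} (D : Scales Q X B n)

/-- supported in `K s` at scale `s` (lists of length `N`) -/
def Supp [Zero k] (s N : ℕ) (f : List X → k) : Prop :=
  ∀ z : List X, Sm (D.R s) z → z.length = N → f z ≠ 0 → ∀ x ∈ z, x ∈ D.K s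

/-- closed at scale `s` (lists of length `N`) -/
def Clo [AddCommGroup k] (s N : ℕ) (f : List X → k) : Prop :=
  ∀ z : List X, Sm (D.R s) z → z.length = N → dl f z = 0

variable [AddCommGroup k]

theorem Sm.map {s : ℕ} {z : List X} (hz : Sm (D.R s) z) (g : Q) : Sm (D.R s) (z.map (g • ·)) := by
  intro x hx y hy
  obtain ⟨x', hx', rfl⟩ := List.mem_map.1 hx
  obtain ⟨y', hy', rfl⟩ := List.mem_map.1 hy
  exact D.inv s g x' y' (hz x' hx' y' hy')

theorem Sm.near {s : ℕ} {z t : List X} (hz : Sm (D.R s) z)
    (ht : ∀ x ∈ t, x ∈ z ∨ ∃ y ∈ z, x = D.c s (D.i s y)) : Sm (D.R (s + 1)) t := by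
  intro x hx y hy
  rcases ht x hx with hx' | ⟨x', hx', rfl⟩ <;> rcases ht y hy with hy' | ⟨y', hy', rfl⟩
  · exact D.mono s _ _ (hz x hx' y hy')
  · exact (D.step s _ _ (hz x hx' y' hy')).1
  · exact D.symm _ _ _ (D.step s _ _ (hz y hy' x' hx')).1
  · exact (D.step s _ _ (hz x' hx' y' hy')).2

theorem TT_zero (i : X → B) (c : B → X) (s : ℕ) (l : List X) :
    TT i c s (fun _ => (0 : k)) l = 0 := by
  have := TT_sub i c s (fun _ => (0 : k)) (fun _ => 0) l
  simpa using this

/-- twisted homotopy -/
noncomputable def TW (s N : ℕ) (F : List Q → List X → k) : List Q → List X → k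
  | [], _ => 0
  | g :: a, z => TT (D.i s) (D.c s) N (fun t => F (g :: a) (t.map (g • ·))) (z.map (g⁻¹ • ·))

theorem TW_eqv (s N : ℕ) {F : List Q → List X → k} (hF : Eqv F) : Eqv (TW D s N F) := by
  intro g a z
  cases a with
  | nil => rfl
  | cons h a =>
    simp only [List.map_cons, TW]
    congr 1
    · funext t
      rw [← hF g (h :: a) (t.map (h • ·))]
      simp [List.map_map, Function.comp_def, mul_smul]
    · rw [List.map_map]
      congr 1
      funext x
      simp [mul_smul]

theorem TW_step (s N : ℕ) {F : List Q → List X → k} (hN : n + 2 ≤ N + 1)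
    (hcl : ∀ a, Clo D (s + 1) (N + 2) (F a)) (a : List Q) (ha : a ≠ []) (z : List X)
    (hz : Sm (D.R s) z) (hl : z.length = N + 1) : dl (TW D s N F a) z = F a z := by
  cases a with
  | nil => exact absurd rfl ha
  | cons g a =>
    set f : List X → k := fun t => F (g :: a) (t.map (g • ·)) with hf
    have h0 : dl (TW D s N F (g :: a)) z = dl (TT (D.i s) (D.c s) N f) (z.map (g⁻¹ • ·)) := by
      rw [← dl_map]; rfl
    have hz' : Sm (D.R s) (z.map (g⁻¹ • ·)) := Sm.map D hz g⁻¹
    have hl' : (z.map (g⁻¹ • ·)).length = N + 1 := by simpa using hl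
    have h1 := dl_TT (D.i s) (D.c s) N f (z.map (g⁻¹ • ·)) hl'
    have h2 : UA (D.i s) (D.c s) (N + 1) f (z.map (g⁻¹ • ·)) = 0 :=
      UA_eq_zero _ _ hl' (D.brick s _ hz' (by omega))
    have h3 : TT (D.i s) (D.c s) (N + 1) (dl f) (z.map (g⁻¹ • ·)) = 0 := by
      rw [← TT_zero (D.i s) (D.c s) (N + 1) (z.map (g⁻¹ • ·))]
      apply TT_congr _ _ _ _ _ _ hl'
      intro t ht hx
      have : dl f t = dl (F (g :: a)) (t.map (g • ·)) := dl_map _ _ _
      rw [this]
      exact hcl (g :: a) _ (Sm.map D (Sm.near D hz' hx) g) (by simpa using ht)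
    rw [h3, h2, add_zero, sub_zero] at h1
    rw [h0, h1, hf]
    simp only [List.map_map]
    congr 1
    conv_rhs => rw [← List.map_id z]
    congr 1
    funext x
    simp

theorem TW_supp (s N : ℕ) {F : List Q → List X → k}
    (hsu : ∀ a, Supp D (s + 1) (N + 1) (F a)) (a : List Q) :
    Supp D s N (TW D s N F a) := by
  intro z hz hl h x hx
  cases a with
  | nil => exact absurd rfl h
  | cons g a =>
    by_contra hx'
    apply h
    set f : List X → k := fun t => F (g :: a) (t.map (g • ·)) with hf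
    show TT (D.i s) (D.c s) N f (z.map (g⁻¹ • ·)) = 0
    have hz' : Sm (D.R s) (z.map (g⁻¹ • ·)) := Sm.map D hz g⁻¹
    rw [← TT_zero (D.i s) (D.c s) N (z.map (g⁻¹ • ·))]
    apply TT_congr _ _ _ _ _ _ (by simpa using hl)
    intro t ht htx
    by_contra hne
    have htS : Sm (D.R (s + 1)) (t.map (g • ·)) := Sm.map D (Sm.near D hz' htx) g
    have htK := hsu (g :: a) _ htS (by simpa using ht) hne
    have ht0 : t ≠ [] := by rintro rfl; simp at ht
    obtain ⟨w, hw⟩ := List.exists_mem_of_ne_nil t ht0
    have hwK : g • w ∈ D.K (s + 1) := htK _ (List.mem_map.2 ⟨w, hw, rfl⟩)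
    have hwx : D.R (s + 1) w (g⁻¹ • x) := by
      have hxm : g⁻¹ • x ∈ z.map (g⁻¹ • ·) := List.mem_map.2 ⟨x, hx, rfl⟩
      rcases htx w hw with h' | ⟨y, hy, rfl⟩
      · exact D.mono s _ _ (hz' w h' _ hxm)
      · exact D.symm _ _ _ (D.step s _ _ (hz' _ hxm y hy)).1
    have := D.supp s _ _ hwK (D.inv _ g _ _ hwx)
    rw [smul_inv_smul] at this
    exact hx' this

end step

end Pool.Agent.HSF
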